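import Pool.Agent.X31.V1

set_option autoImplicit false

/-! # Functions with regular derivatives at restricted digits: the schemes -/

namespace Pool.Agent.X31

open Finset Filter Topology
open Pool.Agent.TH935.GF (En)

/-- functions with regular derivatives at dense sets of integers with restricted digits -/
def PRg (b : ℕ) (c : ℝ) (f : ℕ → ℝ) (D N : ℕ) (A : Finset ℕ) (φ : ℕ → ℝ) : Prop :=
  ∃ (m : ℕ) (𝒟 : ℕ → Finset ℕ) (θ b₀ : ℝ), CT.Dat3 b c D N m 𝒟 θ b₀ f A ∧ ∀ n, φ n = b₀ + θ * f n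

theorem Sch_rg {b : ℕ} (hb : 2 ≤ b) {k : ℕ} {c κ₁ κ₂ t₀ : ℝ} {ψ : ℕ → ℝ → ℝ} (hSd : CT.Sd k c κ₁ κ₂ t₀ ψ)
    (f : ℕ → ℝ) (hf : ∀ n : ℕ, f n = ψ 0 (n : ℝ)) : Sch (PRg b c f) := by
  refine ⟨?_, ?_⟩
  · rintro D N A φ hL ⟨m, 𝒟, θ, b₀, hd, h2⟩
    have h1 : Real.log N ^ D ≤ Real.log N ^ (D + 1) := pow_le_pow_right₀ hL (by omega)
    have h3 : 0 < Real.log N ^ D := by positivity
    refine ⟨m, 𝒟, θ, b₀, ⟨hd.ds, hd.lead.trans h1, le_trans ?_ hd.size, hd.sub, le_trans ?_ hd.dense, hd.bd⟩, h2⟩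
    · exact div_le_div_of_nonneg_left (Nat.cast_nonneg _) h3 h1
    · exact div_le_div_of_nonneg_left (Nat.cast_nonneg _) h3 h1
  · obtain ⟨h₀, hh₀, H⟩ := CT.rp_R hb hSd
    refine ⟨h₀, hh₀, fun D => ?_⟩
    obtain ⟨K, hK, H1⟩ := H h₀ le_rfl 1 zero_le_one
    have hlog : ∀ᶠ N : ℕ in atTop, K * (2 * h₀) + 1 ≤ Real.log N :=
      (Real.tendsto_log_atTop.comp tendsto_natCast_atTop_atTop).eventually_ge_atTop _
    obtain ⟨N₀, hN₀⟩ := eventually_atTop.1 (hlog.and ((CT.log_pow_le D).and (eventually_ge_atTop 1)))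
    refine ⟨3 * D + 2 * h₀ * D + 1, N₀, fun N hN A φ hP v hv => ?_⟩
    obtain ⟨g1, g2, g3⟩ := hN₀ N hN
    obtain ⟨m, 𝒟, θ, b₀, hd, hφ⟩ := hP
    have hL1 : 1 ≤ Real.log N := by
      have : 0 ≤ K * (2 * h₀) := by positivity
      linarith
    have hLD : 1 ≤ Real.log N ^ D := one_le_pow₀ hL1
    have hNr : (1 : ℝ) ≤ N := by exact_mod_cast g3
    have hsize := hd.size
    have hdense := hd.dense
    rw [div_le_iff₀ (by positivity)] at hsize hdense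
    have hsub := hd.sub
    rw [CT.Dg_eq hb hd.ds] at hsub hdense
    have hθ0 : θ ≠ 0 := by
      intro h0
      rw [h0, abs_zero, zero_mul, zero_mul] at hsize
      linarith
    have hLp : 0 < 1 / Real.log N ^ D := by positivity
    apply en_of_Cl (CT.KK b 𝒟 m) A φ h₀ D N hh₀ (|θ| * ((b : ℝ) ^ m) ^ c) K (Real.log N)
      hL1 g1 hK g2 g3 ?_ hsize hsub hdense ?_ v hv
    · intro R hR
      have h1 := H1 𝒟 hd.ds m (1 / Real.log N ^ D * θ) (mul_ne_zero hLp.ne' hθ0) (by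
          rw [abs_mul, abs_of_pos hLp, one_div_mul_eq_div, div_le_one (by positivity)]
          exact hd.lead) R hR
      have e0 : (fun n : {n : ℕ // n ∈ CT.KK b 𝒟 m} => 1 / Real.log N ^ D * φ n.1) =
          (fun n : {n : ℕ // n ∈ CT.KK b 𝒟 m} => 1 / Real.log N ^ D * b₀ +
            1 / Real.log N ^ D * θ * ψ 0 ((n : ℕ) : ℝ)) := by
        funext n
        rw [hφ, hf]
        ring
      rw [e0, Cl_shift]
      rw [abs_mul, abs_of_pos hLp, mul_assoc (1 / Real.log N ^ D)] at h1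
      exact h1
    · intro n hn
      rw [hφ]
      exact hd.bd n hn

def QRg (b : ℕ) (c : ℝ) (f : ℕ → ℝ) (T : ℝ) (N : ℕ) (A : Finset ℕ) (φ : ℕ → ℝ) : Prop :=
  ∃ (m : ℕ) (𝒟 : ℕ → Finset ℕ) (θ b₀ : ℝ), CT.Dat3T b c T N m 𝒟 θ b₀ f A ∧ ∀ n, φ n = b₀ + θ * f n

theorem SchT_rg {b : ℕ} (hb : 2 ≤ b) {k : ℕ} {c κ₁ κ₂ t₀ : ℝ} {ψ : ℕ → ℝ → ℝ} (hSd : CT.Sd k c κ₁ κ₂ t₀ ψ)
    (f : ℕ → ℝ) (hf : ∀ n : ℕ, f n = ψ 0 (n : ℝ)) : SchT 0 (QRg b c f) := by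
  refine ⟨?_, ?_⟩
  · rintro T T' N A φ hT hTT ⟨m, 𝒟, θ, b₀, hd, h2⟩
    have h3 : 0 < T := by linarith
    refine ⟨m, 𝒟, θ, b₀, ⟨hd.ds, hd.lead.trans hTT, le_trans ?_ hd.size, hd.sub, le_trans ?_ hd.dense, hd.bd⟩, h2⟩
    · exact div_le_div_of_nonneg_left (Nat.cast_nonneg _) h3 hTT
    · exact div_le_div_of_nonneg_left (Nat.cast_nonneg _) h3 hTT
  · obtain ⟨h₀, hh₀, H⟩ := CT.rp_R hb hSd
    obtain ⟨K, hK, H1⟩ := H h₀ le_rfl 1 zero_le_one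
    refine ⟨h₀, 3 + 2 * h₀, K * (2 * h₀), hh₀, by positivity, fun T N hT hTN A φ hP v hv => ?_⟩
    obtain ⟨m, 𝒟, θ, b₀, hd, hφ⟩ := hP
    have hT0 : 0 < T := by linarith
    have hN1 : 1 ≤ N := by
      by_contra hcon
      have : N = 0 := by omega
      rw [this, Nat.cast_zero] at hTN
      linarith
    have hNr : (1 : ℝ) ≤ N := by exact_mod_cast hN1
    have hsize := hd.size
    have hdense := hd.dense
    rw [div_le_iff₀ (by positivity)] at hsize hdense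
    have hsub := hd.sub
    rw [CT.Dg_eq hb hd.ds] at hsub hdense
    have hθ0 : θ ≠ 0 := by
      intro h0
      rw [h0, abs_zero, zero_mul, zero_mul] at hsize
      linarith
    have hLp : 0 < 1 / T := by positivity
    have key := en_of_ClT (CT.KK b 𝒟 m) A φ h₀ N hh₀ (|θ| * ((b : ℝ) ^ m) ^ c) K T 1
      hT hK one_pos hTN hN1 ?_ hsize hsub hdense ?_ v hv
    · refine ⟨key.1, fun h' hh' => (key.2 h' hh').trans (le_of_eq ?_)⟩
      rw [pow_zero]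
    · intro R hR
      have h1 := H1 𝒟 hd.ds m (1 / T * θ) (mul_ne_zero hLp.ne' hθ0) (by
          rw [abs_mul, abs_of_pos hLp, one_div_mul_eq_div, div_le_one (by positivity)]
          exact hd.lead) R hR
      have e0 : (fun n : {n : ℕ // n ∈ CT.KK b 𝒟 m} => 1 / T * φ n.1) =
          (fun n : {n : ℕ // n ∈ CT.KK b 𝒟 m} => 1 / T * b₀ + 1 / T * θ * ψ 0 ((n : ℕ) : ℝ)) := by
        funext n
        rw [hφ, hf]
        ring
      rw [e0, Cl_shift, mul_one]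
      rw [abs_mul, abs_of_pos hLp, mul_assoc (1 / T)] at h1
      exact h1
    · intro n hn
      rw [hφ]
      exact hd.bd n hn

/-- `n ^ κ log n` plus lower terms -/
theorem Sch_lg {b : ℕ} (hb : 2 ≤ b) (κ : ℕ) (hκ : 1 ≤ κ) (F : Finset ℝ) (a : ℝ → ℝ) (hmax : ∀ x ∈ F, x ≤ κ) :
    Sch (PRg b κ (lgp κ F a)) := by
  obtain ⟨k, κ₁, κ₂, t₀, h⟩ := Sd_lg κ hκ F a hmax
  exact Sch_rg hb h (lgp κ F a) (fun n => lgp_eq κ F a n)

theorem SchT_lg {b : ℕ} (hb : 2 ≤ b) (κ : ℕ) (hκ : 1 ≤ κ) (F : Finset ℝ) (a : ℝ → ℝ) (hmax : ∀ x ∈ F, x ≤ κ) :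
    SchT 0 (QRg b κ (lgp κ F a)) := by
  obtain ⟨k, κ₁, κ₂, t₀, h⟩ := Sd_lg κ hκ F a hmax
  exact SchT_rg hb h (lgp κ F a) (fun n => lgp_eq κ F a n)

end Pool.Agent.X31
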