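import Mathlib

set_option autoImplicit false

/-! # Counting prime pairs by the index of the smaller prime -/

namespace Pool.Agent.X31

open Finset

open Classical in
/-- the prime pairs `p`, `p + d ≤ x`, counted by the index of `p` -/
lemma index_count (d a q : ℕ) (x : ℝ) :
    {n : ℕ | 1 ≤ n ∧ (Nat.nth Nat.Prime (n - 1) + d).Prime ∧ (Nat.nth Nat.Prime (n - 1) : ℝ) + d ≤ x ∧
      Nat.nth Nat.Prime (n - 1) ≡ a [MOD q]}.ncard =
    ((range (⌊x⌋₊ + 1)).filter (fun p => p.Prime ∧ (p + d).Prime ∧ (p : ℝ) + d ≤ x ∧ p ≡ a [MOD q])).card := by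
  rw [← Set.ncard_coe_finset]
  have himg : ((((range (⌊x⌋₊ + 1)).filter
      (fun p => p.Prime ∧ (p + d).Prime ∧ (p : ℝ) + d ≤ x ∧ p ≡ a [MOD q]) : Finset ℕ)) : Set ℕ) =
      (fun n : ℕ => Nat.nth Nat.Prime (n - 1)) '' {n : ℕ | 1 ≤ n ∧ (Nat.nth Nat.Prime (n - 1) + d).Prime ∧
        (Nat.nth Nat.Prime (n - 1) : ℝ) + d ≤ x ∧ Nat.nth Nat.Prime (n - 1) ≡ a [MOD q]} := by
    ext p
    simp only [coe_filter, mem_range, Set.mem_setOf_eq, Set.mem_image]
    constructor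
    · rintro ⟨_, h1, h2, h3, h4⟩
      have e : Nat.nth Nat.Prime (Nat.count Nat.Prime p + 1 - 1) = p := by
        rw [Nat.add_sub_cancel]
        exact Nat.nth_count h1
      exact ⟨Nat.count Nat.Prime p + 1, ⟨by omega, by rw [e]; exact h2, by rw [e]; exact h3, by rw [e]; exact h4⟩, e⟩
    · rintro ⟨n, ⟨_, h2, h3, h4⟩, rfl⟩
      refine ⟨?_, Nat.prime_nth_prime _, h2, h3, h4⟩
      apply Nat.lt_succ_of_le
      apply Nat.le_floor
      have : (0 : ℝ) ≤ d := Nat.cast_nonneg _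
      linarith
  rw [himg, Set.ncard_image_of_injOn]
  intro n hn m hm h
  have h1 : Nat.nth Nat.Prime (n - 1) = Nat.nth Nat.Prime (m - 1) := h
  have h2 := Nat.nth_injective Nat.infinite_setOf_prime h1
  have h3 : 1 ≤ n := hn.1
  have h4 : 1 ≤ m := hm.1
  omega

end Pool.Agent.X31
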