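import Pool.Agent.X31.S2
import Pool.Agent.X31.E9

set_option autoImplicit false

/-! # Schemes: even numbers near the members of a family -/

namespace Pool.Agent.X31

open Finset Filter Topology
open Pool.Agent.TH935.GF (En)

theorem Sch.even {ι : Type} {P : ℕ → ℕ → Finset ι → (ι → ℝ) → Prop} (HS : Sch P) (D U : ℕ)
    (Q : ℕ → Prop) (HQ : ∀ h : ℕ, 1 ≤ h → FamP h Q) :
    ∃ N₀ : ℕ, ∀ N : ℕ, N₀ ≤ N → ∀ (A : Finset ι) (φ : ι → ℝ), P D N A φ →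
      ∃ E : Finset ι, (E.card : ℝ) ≤ A.card / Real.log N ^ U ∧ ∀ n ∈ A, n ∉ E →
        ∀ s : ℕ, 0 < s → Even s → |(s : ℝ) - φ n| ≤ Real.log N ^ D → Q s := by
  classical
  obtain ⟨h, hh, h1⟩ := HS.en
  obtain ⟨C, N₁, h1⟩ := h1 D
  obtain ⟨N₂, h2⟩ := Pool.Agent.TH935.GF.transfer h 2 C U Q (HQ h hh)
  refine ⟨N₁ + N₂ + 3, fun N hN A φ hdat => ?_⟩
  have hL1 : 1 ≤ Real.log N := Pool.Agent.TH935.TF.one_le_log (by omega)
  have hLD : 1 ≤ Real.log N ^ D := one_le_pow₀ hL1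
  obtain ⟨E, hE⟩ : ∃ E : Finset ι, E = A.filter (fun n : ι => ∃ s : ℕ, 0 < s ∧ Even s ∧
      |(s : ℝ) - φ n| ≤ Real.log N ^ D ∧ ¬ Q s) := ⟨_, rfl⟩
  refine ⟨E, ?_, ?_⟩
  swap
  · intro n hn hnE s hs0 hs2 hs
    by_contra hcon
    apply hnE
    rw [hE]
    exact mem_filter.2 ⟨hn, s, hs0, hs2, hs, hcon⟩
  have hch : ∀ n ∈ E, ∃ s : ℕ, 0 < s ∧ Even s ∧ |(s : ℝ) - φ n| ≤ Real.log N ^ D ∧ ¬ Q s := by
    intro n hn
    rw [hE] at hn
    exact (mem_filter.1 hn).2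
  choose! s hs using hch
  have hEA : E ⊆ A := by rw [hE]; exact filter_subset _ _
  obtain ⟨v, hv⟩ : ∃ v : {n : ι // n ∈ A} → ℤ, ∀ i : {n : ι // n ∈ A},
      |(v i : ℝ) - φ i.1| ≤ Real.log N ^ D ∧ (i.1 ∈ E → v i = s i.1) := by
    apply Classical.axiomOfChoice (r := fun (i : {n : ι // n ∈ A}) (z : ℤ) =>
      |(z : ℝ) - φ i.1| ≤ Real.log N ^ D ∧ (i.1 ∈ E → z = s i.1))
    intro i
    by_cases hi : i.1 ∈ E
    · refine ⟨(s i.1 : ℤ), ?_, fun _ => rfl⟩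
      have := (hs i.1 hi).2.2.1
      push_cast
      exact this
    · refine ⟨⌊φ i.1⌋, ?_, fun h => absurd h hi⟩
      rw [abs_le]
      have h1 := Int.floor_le (φ i.1)
      have h2 := Int.lt_floor_add_one (φ i.1)
      constructor <;> linarith
  obtain ⟨e1, e2⟩ := h1 N (by omega) A φ hdat v (fun i => (hv i).1)
  have key := h2 N (by omega) _ v (by
    intro i
    have := (le_abs_self _).trans (e1 i)
    push_cast
    exact this) (e2 h le_rfl) (univ.filter (fun i : {n : ι // n ∈ A} => i.1 ∈ E)) (by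
    intro i hi
    rw [mem_filter] at hi
    rw [(hv i).2 hi.2]
    obtain ⟨k1, k2, k3, k4⟩ := hs i.1 hi.2
    refine ⟨by exact_mod_cast k1, by exact_mod_cast k2, ?_⟩
    rw [Int.toNat_natCast]
    exact k4)
  rw [Fintype.card_coe] at key
  refine le_trans ?_ key
  apply Nat.cast_le.2
  apply card_le_card_of_surjOn (fun i : {n : ι // n ∈ A} => i.1)
  intro n hn
  have hn' := mem_coe.1 hn
  exact ⟨⟨n, hEA hn'⟩, by rw [mem_coe, mem_filter]; exact ⟨mem_univ _, hn'⟩, rfl⟩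

end Pool.Agent.X31
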