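import Pool.Agent.X31.S2
import Pool.Agent.TH935.LF12

set_option autoImplicit false

/-! # Schemes: one family, arbitrary properties of integers which hold for almost all members of families of small energy -/

namespace Pool.Agent.X31

open Finset Filter Topology
open Pool.Agent.TH935.GF (En)

/-- almost all members of families with small energies of order `h` have `Q` -/
def FamO (h : ℕ) (Q : ℕ → ℤ → Prop) : Prop := ∀ B C U : ℕ, ∃ N₀ : ℕ, ∀ N : ℕ, N₀ ≤ N →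
  ∀ (ι : Type) [Fintype ι] (v : ι → ℤ), (∀ i, |v i| ≤ B * N) →
    (En h v : ℝ) * N ≤ Real.log N ^ C * (Fintype.card ι : ℝ) ^ (2 * h) →
    ∀ S : Finset ι, (∀ i ∈ S, ¬ Q N (v i)) → (S.card : ℝ) ≤ Fintype.card ι / Real.log N ^ U

theorem Sch.single {ι : Type} {P : ℕ → ℕ → Finset ι → (ι → ℝ) → Prop} (HS : Sch P) (D U : ℕ)
    (Q : ℕ → ℤ → Prop) (HQ : ∀ h : ℕ, 1 ≤ h → FamO h Q) :
    ∃ N₀ : ℕ, ∀ N : ℕ, N₀ ≤ N → ∀ (A : Finset ι) (φ : ι → ℝ), P D N A φ →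
      ∃ E : Finset ι, (E.card : ℝ) ≤ A.card / Real.log N ^ U ∧ ∀ n ∈ A, n ∉ E →
        ∀ s : ℤ, |(s : ℝ) - φ n| ≤ Real.log N ^ D → Q N s := by
  classical
  obtain ⟨h, hh, h1⟩ := HS.en
  obtain ⟨C, N₁, h1⟩ := h1 D
  obtain ⟨N₂, h2⟩ := HQ h hh 2 C U
  refine ⟨N₁ + N₂ + 3, fun N hN A φ hdat => ?_⟩
  have hL1 : 1 ≤ Real.log N := Pool.Agent.TH935.TF.one_le_log (by omega)
  have hLD : 1 ≤ Real.log N ^ D := one_le_pow₀ hL1
  obtain ⟨E, hE⟩ : ∃ E : Finset ι, E = A.filter (fun n : ι => ∃ s : ℤ, |(s : ℝ) - φ n| ≤ Real.log N ^ D ∧ ¬ Q N s) :=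
    ⟨_, rfl⟩
  refine ⟨E, ?_, ?_⟩
  swap
  · intro n hn hnE s hs
    by_contra hcon
    apply hnE
    rw [hE]
    exact mem_filter.2 ⟨hn, s, hs, hcon⟩
  have hch : ∀ n ∈ E, ∃ s : ℤ, |(s : ℝ) - φ n| ≤ Real.log N ^ D ∧ ¬ Q N s := by
    intro n hn
    rw [hE] at hn
    exact (mem_filter.1 hn).2
  choose! s hs using hch
  have hEA : E ⊆ A := by rw [hE]; exact filter_subset _ _
  obtain ⟨v, hv⟩ : ∃ v : {n : ι // n ∈ A} → ℤ, ∀ i : {n : ι // n ∈ A},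
      |(v i : ℝ) - φ i.1| ≤ Real.log N ^ D ∧ (i.1 ∈ E → v i = s i.1) := by
    apply Classical.axiomOfChoice (r := fun (i : {n : ι // n ∈ A}) (z : ℤ) =>
      |(z : ℝ) - φ i.1| ≤ Real.log N ^ D ∧ (i.1 ∈ E → z = s i.1))
    intro i
    by_cases hi : i.1 ∈ E
    · exact ⟨s i.1, (hs i.1 hi).1, fun _ => rfl⟩
    · refine ⟨⌊φ i.1⌋, ?_, fun h => absurd h hi⟩
      rw [abs_le]
      have h1 := Int.floor_le (φ i.1)
      have h2 := Int.lt_floor_add_one (φ i.1)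
      constructor <;> linarith
  obtain ⟨e1, e2⟩ := h1 N (by omega) A φ hdat v (fun i => (hv i).1)
  have key := h2 N (by omega) _ v (by
    intro i
    have := e1 i
    push_cast
    exact this) (e2 h le_rfl) (univ.filter (fun i : {n : ι // n ∈ A} => i.1 ∈ E)) (by
    intro i hi
    rw [mem_filter] at hi
    rw [(hv i).2 hi.2]
    exact (hs i.1 hi.2).2)
  rw [Fintype.card_coe] at key
  refine le_trans ?_ key
  apply Nat.cast_le.2
  apply card_le_card_of_surjOn (fun i : {n : ι // n ∈ A} => i.1)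
  intro n hn
  have hn' := mem_coe.1 hn
  exact ⟨⟨n, hEA hn'⟩, by rw [mem_coe, mem_filter]; exact ⟨mem_univ _, hn'⟩, rfl⟩

/-- the equation `a p = b q + c` -/
theorem famO_lin (h : ℕ) (ε : ℝ) (hε : 0 < ε) (hε1 : ε ≤ 1 / 2) (A B D : ℕ) :
    FamO h (fun N c => c = 0 ∨ Pool.Agent.TH935.LF.HW ε A B D N c) := by
  intro B₀ C U
  -- the window bound is at least the bound of the family
  obtain ⟨B', hB'⟩ : ∃ B', B' = max B B₀ := ⟨_, rfl⟩
  obtain ⟨N₀, h0⟩ := Pool.Agent.TH935.LF.transferZ h B' C U (fun N c => Pool.Agent.TH935.LF.HW ε A B' D N c)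
    (fun C U => by
      obtain ⟨N₀, h1⟩ := Pool.Agent.TH935.LF.fam_lin h A B' C D U ε hε hε1
      exact ⟨N₀, fun N hN x s hs hE S hSx hS => h1 N hN x s hs hE S hSx hS⟩)
  refine ⟨N₀, fun N hN ι _ v hv hE S hS => ?_⟩
  apply h0 N hN ι v (fun i => (hv i).trans ?_) hE S (fun i hi => ?_)
  · apply mul_le_mul_of_nonneg_right _ (Int.natCast_nonneg _)
    exact_mod_cast (by omega : B₀ ≤ B')
  · have h1 := hS i hi
    push Not at h1
    refine ⟨h1.1, fun h2 => h1.2 ?_⟩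
    intro a b ha haL hb hbL hab hac hbc h2d y₁ y₂ h12 hy2 hw hpos
    exact h2 a b ha haL hb hbL hab hac hbc h2d y₁ y₂ h12 (hy2.trans (Nat.mul_le_mul_right _ (by omega))) hw hpos

end Pool.Agent.X31
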