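import Pool.Agent.W123.RP.Avg
import Pool.Agent.Y949.DK.SV

set_option autoImplicit false

/-! # Averages of `exp (c sg m)`, and sieve bounds for pairs and quadruples of primes -/

namespace Pool.Agent.X31

open Finset Filter
open Pool.Agent.Y851.DK (sg P_SV)
open Pool.Agent.H373R2.T7 (pz mem_pz)

lemma sg_nonneg (m : ℕ) : 0 ≤ sg m := by
  unfold sg
  exact sum_nonneg fun _ _ => by positivity

lemma sg_le (m : ℕ) : sg m ≤ m := by
  unfold sg
  calc ∑ p ∈ m.primeFactors, (1 : ℝ) / p ≤ ∑ p ∈ m.primeFactors, (1 : ℝ) := by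
        apply sum_le_sum
        intro p hp
        rw [div_le_one]
        · exact_mod_cast (Nat.prime_of_mem_primeFactors hp).one_lt.le
        · exact_mod_cast (Nat.prime_of_mem_primeFactors hp).pos
    _ = m.primeFactors.card := by simp
    _ ≤ m := by
        rcases Nat.eq_zero_or_pos m with h | h
        · rw [h]; simp
        · have : m.primeFactors ⊆ Icc 1 m := by
            intro p hp
            rw [mem_Icc]
            exact ⟨(Nat.prime_of_mem_primeFactors hp).one_lt.le, Nat.le_of_mem_primeFactors hp⟩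
          have h2 := card_le_card this
          rw [Nat.card_Icc] at h2
          exact_mod_cast (by omega : m.primeFactors.card ≤ m)

lemma sg_two (m : ℕ) : sg (2 * m) ≤ sg m + 1 := by
  rcases Nat.eq_zero_or_pos m with h | h
  · rw [h]
    have := sg_nonneg 0
    simp only [mul_zero]
    linarith
  unfold sg
  rw [Nat.primeFactors_mul (by norm_num) (by omega), Nat.Prime.primeFactors Nat.prime_two]
  calc ∑ p ∈ ({2} : Finset ℕ) ∪ m.primeFactors, (1 : ℝ) / p ≤
        ∑ p ∈ ({2} : Finset ℕ), (1 : ℝ) / p + ∑ p ∈ m.primeFactors, (1 : ℝ) / p := by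
        rw [← sum_union_inter]
        have : 0 ≤ ∑ p ∈ ({2} : Finset ℕ) ∩ m.primeFactors, (1 : ℝ) / p :=
          sum_nonneg fun _ _ => by positivity
        linarith
    _ ≤ _ := by
        rw [sum_singleton]
        norm_num
        linarith

/-- the mean of `exp (c sg m)` -/
theorem sg_avg (c : ℝ) (hc : 0 ≤ c) : ∃ C : ℝ, 1 ≤ C ∧ ∀ M : ℕ,
    ∑ m ∈ Icc 1 M, Real.exp (c * sg m) ≤ C * M := by
  classical
  obtain ⟨K, hK⟩ : ∃ K : ℕ, K = ⌈c * Real.exp c⌉₊ := ⟨_, rfl⟩
  have hK1 : c * Real.exp c ≤ K := by rw [hK]; exact Nat.le_ceil _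
  obtain ⟨C, hC, T0, hT0, H⟩ := Pool.Agent.W123.RP.avg K 1 1 0
  refine ⟨C + Real.exp (c * T0), by have := Real.exp_pos (c * T0); linarith, fun M => ?_⟩
  have hM0 : (0 : ℝ) ≤ M := Nat.cast_nonneg M
  rcases lt_or_ge M T0 with hM | hM
  · calc ∑ m ∈ Icc 1 M, Real.exp (c * sg m) ≤ ∑ m ∈ Icc 1 M, Real.exp (c * T0) := by
          apply sum_le_sum
          intro m hm
          rw [mem_Icc] at hm
          apply Real.exp_le_exp.2
          apply mul_le_mul_of_nonneg_left _ hc
          refine (sg_le m).trans ?_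
          exact_mod_cast (by omega : m ≤ T0)
      _ = Real.exp (c * T0) * M := by
          rw [sum_const, Nat.card_Icc, nsmul_eq_mul, Nat.add_sub_cancel]
          ring
      _ ≤ _ := by
          apply mul_le_mul_of_nonneg_right _ hM0
          linarith
  · have h1 := H M hM (fun n : ℕ => (n : ℤ)) ⟨fun p n => by
        rw [Int.natCast_dvd_natCast, Int.natCast_dvd_natCast]
        exact (Nat.dvd_mod_iff (dvd_refl p)).symm, fun p hp _ => by
        have : (range p).filter (fun r : ℕ => (p : ℤ) ∣ (r : ℤ)) ⊆ {0} := by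
          intro r hr
          rw [mem_filter, mem_range, Int.natCast_dvd_natCast] at hr
          rw [mem_singleton]
          exact Nat.eq_zero_of_dvd_of_lt hr.2 hr.1
        exact (card_le_card this).trans (by simp)⟩ (Icc 1 M) (Subset.refl _) (by
        intro h hh
        rw [mem_Icc] at hh
        refine ⟨by omega, ?_⟩
        rw [pow_one, abs_of_nonneg (by omega)]
        exact_mod_cast hh.2) M
    calc ∑ m ∈ Icc 1 M, Real.exp (c * sg m) ≤ ∑ m ∈ Icc 1 M,
          ∏ p ∈ (pz M).filter (fun p : ℕ => 0 < p ∧ (p : ℤ) ∣ (m : ℤ)), (1 + (K : ℝ) / p) := by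
          apply sum_le_sum
          intro m hm
          rw [mem_Icc] at hm
          have e1 : (pz M).filter (fun p : ℕ => 0 < p ∧ (p : ℤ) ∣ (m : ℤ)) = m.primeFactors := by
            ext p
            rw [mem_filter, mem_pz, Nat.mem_primeFactors, Int.natCast_dvd_natCast]
            constructor
            · rintro ⟨h1, _, h3⟩
              exact ⟨h1.2, h3, by omega⟩
            · rintro ⟨h1, h2, _⟩
              exact ⟨⟨(Nat.le_of_dvd (by omega) h2).trans hm.2, h1⟩, h1.pos, h2⟩
          rw [e1]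
          unfold sg
          rw [mul_sum, Real.exp_sum]
          apply Finset.prod_le_prod
          · intro p _
            positivity
          · intro p hp
            have hp1 : (1 : ℝ) ≤ p := by
              exact_mod_cast (Nat.prime_of_mem_primeFactors hp).one_lt.le
            have hp0 : (0 : ℝ) < p := by linarith
            obtain ⟨x, hx⟩ : ∃ x : ℝ, x = c * (1 / p) := ⟨_, rfl⟩
            rw [← hx]
            have hx0 : 0 ≤ x := by rw [hx]; positivity
            have hxc : x ≤ c := by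
              rw [hx]
              have : 1 / (p : ℝ) ≤ 1 := by rw [div_le_one hp0]; exact hp1
              nlinarith
            have h2 : Real.exp x ≤ 1 + x * Real.exp x := by
              have h3 := Real.add_one_le_exp (-x)
              have h4 : Real.exp (-x) * Real.exp x = 1 := by
                rw [← Real.exp_add, neg_add_cancel, Real.exp_zero]
              nlinarith [Real.exp_pos x]
            have h3 : Real.exp x ≤ Real.exp c := Real.exp_le_exp.2 hxc
            calc Real.exp x ≤ 1 + x * Real.exp x := h2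
              _ ≤ 1 + x * Real.exp c := by gcongr
              _ = 1 + (c * Real.exp c) / p := by rw [hx]; ring
              _ ≤ 1 + (K : ℝ) / p := by gcongr
      _ ≤ C * M := h1
      _ ≤ _ := by
          apply mul_le_mul_of_nonneg_right _ hM0
          have := Real.exp_pos (c * T0)
          linarith

/-- sieve bound for pairs of primes, at an arbitrary distance, in an arbitrary interval -/
theorem pair_bound : ∃ C : ℝ, 1 ≤ C ∧ ∀ᶠ Z : ℕ in atTop, ∀ (a b : ℤ), a ≠ b →
    (((Icc 1 Z).filter (fun n : ℕ => ((n : ℤ) + a).toNat.Prime ∧ ((n : ℤ) + b).toNat.Prime)).card : ℝ) ≤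
      C * Real.exp (C * sg (a - b).natAbs) * (Z / Real.log Z ^ 2) := by
  classical
  obtain ⟨C, hC, H⟩ := Pool.Agent.Y949.DK.t_SV 2
  refine ⟨2 * C, by linarith, ?_⟩
  filter_upwards [tendsto_natCast_atTop_atTop.eventually H, eventually_ge_atTop 2] with Z hZ hZ2 a b hab
  have h1 := hZ {(1, a), (1, b)} (by
    rw [card_pair]
    intro h
    exact hab (by simpa using h)) (by
    intro f hf
    simp only [mem_insert, mem_singleton] at hf
    rcases hf with rfl | rfl <;> norm_num) (by
    intro f hf g hg hfg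
    simp only [mem_insert, mem_singleton] at hf hg
    rcases hf with rfl | rfl <;> rcases hg with rfl | rfl
    · exact absurd rfl hfg
    · simp only [one_mul]
      intro h
      exact hab (by linarith)
    · simp only [one_mul]
      intro h
      exact hab (by linarith)
    · exact absurd rfl hfg)
  rw [Nat.floor_natCast] at h1
  have hne : ((1 : ℤ), a) ≠ (1, b) := by
    intro h
    exact hab (by simpa using h)
  have hs : ∑ f ∈ ({(1, a), (1, b)} : Finset (ℤ × ℤ)), sg f.1.natAbs +
      ∑ f ∈ ({(1, a), (1, b)} : Finset (ℤ × ℤ)), ∑ g ∈ ({(1, a), (1, b)} : Finset (ℤ × ℤ)),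
        sg (f.1 * g.2 - g.1 * f.2).natAbs = 2 * sg (a - b).natAbs := by
    rw [sum_pair hne, sum_pair hne, sum_pair hne, sum_pair hne]
    simp only [one_mul, sub_self, Int.natAbs_zero, Int.natAbs_one]
    have e1 : sg 1 = 0 := by unfold sg; simp
    have e0 : sg 0 = 0 := by unfold sg; simp
    have e2 : (b - a).natAbs = (a - b).natAbs := by
      rw [← Int.natAbs_neg, neg_sub]
    rw [e1, e0, e2]
    ring
  rw [hs] at h1
  have e3 : (Icc 1 Z).filter (fun n : ℕ => ((n : ℤ) + a).toNat.Prime ∧ ((n : ℤ) + b).toNat.Prime) =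
      (Icc 1 Z).filter (fun n : ℕ => ∀ f ∈ ({(1, a), (1, b)} : Finset (ℤ × ℤ)),
        (f.1 * (n : ℤ) + f.2).toNat.Prime) := by
    apply filter_congr
    intro n _
    simp only [mem_insert, mem_singleton, forall_eq_or_imp, forall_eq, one_mul]
  rw [e3]
  refine h1.trans ?_
  have hl : 0 < Real.log Z := Real.log_pos (by exact_mod_cast (by omega : 1 < Z))
  have e4 : C * (2 * sg (a - b).natAbs) = 2 * C * sg (a - b).natAbs := by ring
  rw [e4]
  have : 0 ≤ Real.exp (2 * C * sg (a - b).natAbs) * (Z / Real.log Z ^ 2) := by positivity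
  nlinarith

/-- sieve bound for symmetric quadruples of primes -/
theorem quad_bound : ∃ C : ℝ, 1 ≤ C ∧ ∀ᶠ Z : ℕ in atTop, ∀ (M : ℤ) (h k : ℕ), 1 ≤ h → 1 ≤ k → h ≠ k →
    (((Icc 1 Z).filter (fun n : ℕ => ((n : ℤ) + (M + h)).toNat.Prime ∧ ((n : ℤ) + (M - h)).toNat.Prime ∧
      ((n : ℤ) + (M + k)).toNat.Prime ∧ ((n : ℤ) + (M - k)).toNat.Prime)).card : ℝ) ≤
      C * (Real.exp (C * sg h) + Real.exp (C * sg k) + Real.exp (C * sg (h + k)) +
        Real.exp (C * sg ((h : ℤ) - k).natAbs)) * (Z / Real.log Z ^ 4) := by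
  classical
  obtain ⟨C, hC, H⟩ := Pool.Agent.Y949.DK.t_SV 4
  refine ⟨C * Real.exp (4 * C) + 16 * C, by have := Real.exp_pos (4 * C); nlinarith, ?_⟩
  filter_upwards [tendsto_natCast_atTop_atTop.eventually H, eventually_ge_atTop 2] with Z hZ hZ2 M h k
    hh hk hhk
  obtain ⟨F, hF⟩ : ∃ F : Finset (ℤ × ℤ), F = {(1, M + h), (1, M - h), (1, M + k), (1, M - k)} :=
    ⟨_, rfl⟩
  have hhz : (1 : ℤ) ≤ h := by exact_mod_cast hh
  have hkz : (1 : ℤ) ≤ k := by exact_mod_cast hk
  have hhkz : (h : ℤ) ≠ k := by exact_mod_cast hhk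
  have n1 : ((1 : ℤ), M + (h : ℤ)) ∉ ({(1, M - (h : ℤ)), (1, M + (k : ℤ)), (1, M - (k : ℤ))} : Finset (ℤ × ℤ)) := by
    simp only [mem_insert, mem_singleton, Prod.mk.injEq, true_and, not_or]
    refine ⟨?_, ?_, ?_⟩ <;> omega
  have n2 : ((1 : ℤ), M - (h : ℤ)) ∉ ({(1, M + (k : ℤ)), (1, M - (k : ℤ))} : Finset (ℤ × ℤ)) := by
    simp only [mem_insert, mem_singleton, Prod.mk.injEq, true_and, not_or]
    refine ⟨?_, ?_⟩ <;> omega
  have n3 : ((1 : ℤ), M + (k : ℤ)) ∉ ({(1, M - (k : ℤ))} : Finset (ℤ × ℤ)) := by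
    simp only [mem_singleton, Prod.mk.injEq, true_and]
    omega
  have hone : ∀ f ∈ F, f.1 = 1 := by
    intro f hf
    rw [hF] at hf
    simp only [mem_insert, mem_singleton] at hf
    rcases hf with rfl | rfl | rfl | rfl <;> rfl
  have h1 := hZ F (by
    rw [hF, card_insert_of_notMem n1, card_insert_of_notMem n2, card_insert_of_notMem n3,
      card_singleton]) (by
    intro f hf
    rw [hone f hf]
    norm_num) (by
    intro f hf g hg hfg
    rw [hone f hf, hone g hg, one_mul, one_mul]
    intro h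
    apply hfg
    apply Prod.ext
    · rw [hone f hf, hone g hg]
    · linarith)
  rw [Nat.floor_natCast] at h1
  have e0 : sg 0 = 0 := by unfold sg; simp
  have e1 : sg 1 = 0 := by unfold sg; simp
  have ha1 : (2 * (h : ℤ)).natAbs = 2 * h := by omega
  have ha2 : (2 * (k : ℤ)).natAbs = 2 * k := by omega
  have ha3 : ((h : ℤ) + k).natAbs = h + k := by omega
  have hs : ∑ f ∈ F, sg f.1.natAbs + ∑ f ∈ F, ∑ g ∈ F, sg (f.1 * g.2 - g.1 * f.2).natAbs =
      2 * sg (2 * h) + 2 * sg (2 * k) + 4 * sg (h + k) + 4 * sg ((h : ℤ) - k).natAbs := by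
    rw [hF]
    rw [sum_insert n1, sum_insert n2, sum_insert n3, sum_singleton]
    rw [sum_insert n1, sum_insert n2, sum_insert n3, sum_singleton]
    rw [sum_insert n1, sum_insert n2, sum_insert n3, sum_singleton]
    rw [sum_insert n1, sum_insert n2, sum_insert n3, sum_singleton]
    rw [sum_insert n1, sum_insert n2, sum_insert n3, sum_singleton]
    rw [sum_insert n1, sum_insert n2, sum_insert n3, sum_singleton]
    simp only [one_mul, sub_self, Int.natAbs_zero, Int.natAbs_one, e0, e1]
    have g1 : (M - (h : ℤ) - (M + h)).natAbs = 2 * h := by omega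
    have g2 : (M + (h : ℤ) - (M - h)).natAbs = 2 * h := by omega
    have g3 : (M - (k : ℤ) - (M + k)).natAbs = 2 * k := by omega
    have g4 : (M + (k : ℤ) - (M - k)).natAbs = 2 * k := by omega
    have g5 : (M + (k : ℤ) - (M + h)).natAbs = ((h : ℤ) - k).natAbs := by omega
    have g6 : (M + (h : ℤ) - (M + k)).natAbs = ((h : ℤ) - k).natAbs := by omega
    have g7 : (M - (k : ℤ) - (M - h)).natAbs = ((h : ℤ) - k).natAbs := by omega
    have g8 : (M - (h : ℤ) - (M - k)).natAbs = ((h : ℤ) - k).natAbs := by omega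
    have g9 : (M - (k : ℤ) - (M + h)).natAbs = h + k := by omega
    have g10 : (M + (h : ℤ) - (M - k)).natAbs = h + k := by omega
    have g11 : (M + (k : ℤ) - (M - h)).natAbs = h + k := by omega
    have g12 : (M - (h : ℤ) - (M + k)).natAbs = h + k := by omega
    rw [g1, g2, g3, g4, g5, g6, g7, g8, g9, g10, g11, g12]
    ring
  rw [hs] at h1
  have e3 : (Icc 1 Z).filter (fun n : ℕ => ((n : ℤ) + (M + h)).toNat.Prime ∧
      ((n : ℤ) + (M - h)).toNat.Prime ∧ ((n : ℤ) + (M + k)).toNat.Prime ∧
      ((n : ℤ) + (M - k)).toNat.Prime) =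
      (Icc 1 Z).filter (fun n : ℕ => ∀ f ∈ F, (f.1 * (n : ℤ) + f.2).toNat.Prime) := by
    apply filter_congr
    intro n _
    rw [hF]
    simp only [mem_insert, mem_singleton, forall_eq_or_imp, forall_eq, one_mul]
  rw [e3]
  refine h1.trans ?_
  have hl : 0 < Real.log Z := Real.log_pos (by exact_mod_cast (by omega : 1 < Z))
  obtain ⟨C', hC'⟩ : ∃ C' : ℝ, C' = C * Real.exp (4 * C) + 16 * C := ⟨_, rfl⟩
  have hexp : 0 < Real.exp (4 * C) := Real.exp_pos _
  have hC'1 : C * Real.exp (4 * C) ≤ C' := by rw [hC']; linarith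
  have hC'2 : 16 * C ≤ C' := by
    rw [hC']
    nlinarith
  rw [← hC']
  have hC'0 : 0 < C' := by linarith
  have s1 := sg_nonneg h
  have s2 := sg_nonneg k
  have s3 := sg_nonneg (h + k)
  have s4 := sg_nonneg ((h : ℤ) - k).natAbs
  have key : Real.exp (C * (2 * sg (2 * h) + 2 * sg (2 * k) + 4 * sg (h + k) +
      4 * sg ((h : ℤ) - k).natAbs)) ≤ Real.exp (4 * C) *
      (Real.exp (C' * sg h) + Real.exp (C' * sg k) + Real.exp (C' * sg (h + k)) +
        Real.exp (C' * sg ((h : ℤ) - k).natAbs)) := by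
    have t1 := sg_two h
    have t2 := sg_two k
    -- the largest of the four terms
    obtain ⟨m, hm⟩ : ∃ m : ℝ, m = max (max (sg h) (sg k)) (max (sg (h + k)) (sg ((h : ℤ) - k).natAbs)) :=
      ⟨_, rfl⟩
    have m1 : sg h ≤ m := by rw [hm]; exact (le_max_left _ _).trans (le_max_left _ _)
    have m2 : sg k ≤ m := by rw [hm]; exact (le_max_right _ _).trans (le_max_left _ _)
    have m3 : sg (h + k) ≤ m := by rw [hm]; exact (le_max_left _ _).trans (le_max_right _ _)
    have m4 : sg ((h : ℤ) - k).natAbs ≤ m := by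
      rw [hm]; exact (le_max_right _ _).trans (le_max_right _ _)
    have m0 : 0 ≤ m := s1.trans m1
    have u1 : C * (2 * sg (2 * h) + 2 * sg (2 * k) + 4 * sg (h + k) + 4 * sg ((h : ℤ) - k).natAbs) ≤
        4 * C + C' * m := by
      calc C * (2 * sg (2 * h) + 2 * sg (2 * k) + 4 * sg (h + k) + 4 * sg ((h : ℤ) - k).natAbs) ≤
            C * (2 * (m + 1) + 2 * (m + 1) + 4 * m + 4 * m) := by
            apply mul_le_mul_of_nonneg_left _ (by linarith)
            linarith
        _ = 4 * C + 12 * C * m := by ring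
        _ ≤ 4 * C + C' * m := by
            have : 12 * C * m ≤ C' * m := by
              apply mul_le_mul_of_nonneg_right _ m0
              linarith
            linarith
    have p1 := Real.exp_pos (C' * sg h)
    have p2 := Real.exp_pos (C' * sg k)
    have p3 := Real.exp_pos (C' * sg (h + k))
    have p4 := Real.exp_pos (C' * sg ((h : ℤ) - k).natAbs)
    calc _ ≤ Real.exp (4 * C + C' * m) := Real.exp_le_exp.2 u1
      _ = Real.exp (4 * C) * Real.exp (C' * m) := Real.exp_add _ _
      _ ≤ _ := by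
          apply mul_le_mul_of_nonneg_left _ hexp.le
          rw [hm]
          rcases max_choice (max (sg h) (sg k)) (max (sg (h + k)) (sg ((h : ℤ) - k).natAbs)) with e | e
          · rw [e]
            rcases max_choice (sg h) (sg k) with e' | e'
            · rw [e']; linarith
            · rw [e']; linarith
          · rw [e]
            rcases max_choice (sg (h + k)) (sg ((h : ℤ) - k).natAbs) with e' | e'
            · rw [e']; linarith
            · rw [e']; linarith
  have hW : 0 ≤ (Z : ℝ) / Real.log Z ^ 4 := by positivity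
  apply mul_le_mul_of_nonneg_right _ hW
  calc _ ≤ C * (Real.exp (4 * C) *
      (Real.exp (C' * sg h) + Real.exp (C' * sg k) + Real.exp (C' * sg (h + k)) +
        Real.exp (C' * sg ((h : ℤ) - k).natAbs))) := mul_le_mul_of_nonneg_left key (by linarith)
    _ = (C * Real.exp (4 * C)) * (Real.exp (C' * sg h) + Real.exp (C' * sg k) +
        Real.exp (C' * sg (h + k)) + Real.exp (C' * sg ((h : ℤ) - k).natAbs)) := by ring
    _ ≤ _ := by
        apply mul_le_mul_of_nonneg_right hC'1
        positivity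

end Pool.Agent.X31
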