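import Pool.Agent.X31.C1

set_option autoImplicit false

/-! # Sums of two close primes -/

namespace Pool.Agent.X31

open Finset Filter
open Pool.Agent.Y851.DK (sg)

/-- the inequality of Cauchy and Schwarz for the fibres of a map -/
lemma cs_image {α β : Type*} [DecidableEq α] [DecidableEq β] (A : Finset α) (f : α → β) (B : Finset β)
    (hB : ∀ a ∈ A, f a ∈ B) :
    (A.card : ℝ) ^ 2 ≤ B.card * ((A ×ˢ A).filter (fun x : α × α => f x.1 = f x.2)).card := by
  have h1 : (A.card : ℝ) = ∑ b ∈ B, ((A.filter (fun a => f a = b)).card : ℝ) := by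
    exact_mod_cast card_eq_sum_card_fiberwise hB
  have h2 : (((A ×ˢ A).filter (fun x : α × α => f x.1 = f x.2)).card : ℝ) =
      ∑ b ∈ B, ((A.filter (fun a => f a = b)).card : ℝ) ^ 2 := by
    have e1 : ((A ×ˢ A).filter (fun x : α × α => f x.1 = f x.2)).card =
        ∑ b ∈ B, (((A ×ˢ A).filter (fun x : α × α => f x.1 = f x.2)).filter
          (fun x => f x.1 = b)).card := by
      apply card_eq_sum_card_fiberwise
      intro x hx
      rw [mem_coe, mem_filter, mem_product] at hx
      exact hB _ hx.1.1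
    rw [e1]
    push_cast
    apply sum_congr rfl
    intro b _
    have e2 : ((A ×ˢ A).filter (fun x : α × α => f x.1 = f x.2)).filter (fun x => f x.1 = b) =
        (A.filter (fun a => f a = b)) ×ˢ (A.filter (fun a => f a = b)) := by
      ext x
      simp only [mem_filter, mem_product]
      constructor
      · rintro ⟨⟨⟨h1, h2⟩, h3⟩, h4⟩
        exact ⟨⟨h1, h4⟩, ⟨h2, by rw [← h3]; exact h4⟩⟩
      · rintro ⟨⟨h1, h4⟩, ⟨h2, h3⟩⟩
        exact ⟨⟨⟨h1, h2⟩, by rw [h4, h3]⟩, h4⟩
    rw [e2, card_product]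
    push_cast
    ring
  rw [h1, h2]
  exact sq_sum_le_card_mul_sum_sq

/-- the pairs at a distance of at most `K` -/
def prs (S : Finset ℕ) (K : ℕ) : Finset (ℕ × ℕ) := (S ×ˢ S).filter (fun x => x.1 < x.2 ∧ x.2 ≤ x.1 + K)

lemma prs_lower (S : Finset ℕ) (M Z K : ℕ) (hK : 1 ≤ K) (hS : S ⊆ Ioc M (M + Z)) :
    (S.card : ℝ) ^ 2 ≤ ((Z / K + 1 : ℕ) : ℝ) * (S.card + 2 * (prs S K).card) := by
  classical
  have h1 := cs_image S (fun p => (p - M - 1) / K) (range (Z / K + 1)) (by
    intro p hp
    have h2 := mem_Ioc.1 (hS hp)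
    rw [mem_range]
    have h3 : p - M - 1 ≤ Z := by omega
    exact Nat.lt_succ_of_le (Nat.div_le_div_right h3))
  rw [card_range] at h1
  refine h1.trans ?_
  apply mul_le_mul_of_nonneg_left _ (Nat.cast_nonneg _)
  have h2 : ((S ×ˢ S).filter (fun x : ℕ × ℕ => (x.1 - M - 1) / K = (x.2 - M - 1) / K)) ⊆
      S.image (fun p => (p, p)) ∪ (prs S K ∪ (prs S K).image Prod.swap) := by
    rintro ⟨p, q⟩ hx
    rw [mem_filter, mem_product] at hx
    obtain ⟨⟨hp, hq⟩, hpq⟩ := hx
    simp only at hp hq hpq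
    have hp2 := mem_Ioc.1 (hS hp)
    have hq2 := mem_Ioc.1 (hS hq)
    have e1 := Nat.div_add_mod (p - M - 1) K
    have e2 := Nat.div_add_mod (q - M - 1) K
    have e3 := Nat.mod_lt (p - M - 1) (by omega : K > 0)
    have e4 := Nat.mod_lt (q - M - 1) (by omega : K > 0)
    rw [hpq] at e1
    rw [mem_union, mem_union]
    rcases lt_trichotomy p q with h | h | h
    · right; left
      unfold prs
      rw [mem_filter, mem_product]
      exact ⟨⟨hp, hq⟩, h, by simp only; omega⟩
    · left
      rw [mem_image]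
      exact ⟨p, hp, by rw [h]⟩
    · right; right
      rw [mem_image]
      refine ⟨(q, p), ?_, rfl⟩
      unfold prs
      rw [mem_filter, mem_product]
      exact ⟨⟨hq, hp⟩, h, by simp only; omega⟩
  have h3 := card_le_card h2
  have h4 := card_union_le (S.image (fun p => (p, p))) (prs S K ∪ (prs S K).image Prod.swap)
  have h5 := card_union_le (prs S K) ((prs S K).image Prod.swap)
  have h6 : (S.image (fun p => (p, p))).card ≤ S.card := card_image_le
  have h7 : ((prs S K).image Prod.swap).card ≤ (prs S K).card := card_image_le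
  have h8 : ((S ×ˢ S).filter (fun x : ℕ × ℕ => (x.1 - M - 1) / K = (x.2 - M - 1) / K)).card ≤
      S.card + 2 * (prs S K).card := by omega
  exact_mod_cast h8

/-- the condition on the quadruples -/
def Qc (M : ℤ) (h k n : ℕ) : Prop := ((n : ℤ) + (M + h)).toNat.Prime ∧
  ((n : ℤ) + (M - h)).toNat.Prime ∧ ((n : ℤ) + (M + k)).toNat.Prime ∧ ((n : ℤ) + (M - k)).toNat.Prime

open Classical in
/-- the number of the quadruples -/
theorem quad_total : ∃ C : ℝ, 1 ≤ C ∧ ∀ᶠ Z : ℕ in atTop, ∀ (M : ℤ) (T : ℕ),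
    ∑ h ∈ Icc 1 T, ∑ k ∈ (Icc 1 T).erase h, (((Icc 1 Z).filter (Qc M h k)).card : ℝ) ≤
      C * ((T : ℝ) ^ 2 * (Z / Real.log Z ^ 4)) := by
  obtain ⟨C, hC, H⟩ := quad_bound
  obtain ⟨C₁, hC₁, hav⟩ := sg_avg C (by linarith)
  refine ⟨C * (6 * C₁), by nlinarith, ?_⟩
  filter_upwards [H, eventually_ge_atTop 2] with Z hZ hZ2 M T
  have hl : 0 < Real.log Z := Real.log_pos (by exact_mod_cast (by omega : 1 < Z))
  obtain ⟨W, hW⟩ : ∃ W : ℝ, W = Z / Real.log Z ^ 4 := ⟨_, rfl⟩
  have hW0 : 0 ≤ W := by rw [hW]; positivity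
  have hT0 : (0 : ℝ) ≤ T := Nat.cast_nonneg T
  have h1 : ∀ h ∈ Icc 1 T, ∑ k ∈ (Icc 1 T).erase h, (((Icc 1 Z).filter (Qc M h k)).card : ℝ) ≤
      C * W * (T * Real.exp (C * sg h) + 5 * C₁ * T) := by
    intro h hh
    rw [mem_Icc] at hh
    have a1 : ∑ k ∈ (Icc 1 T).erase h, Real.exp (C * sg h) ≤ T * Real.exp (C * sg h) := by
      rw [sum_const, nsmul_eq_mul]
      have : (((Icc 1 T).erase h).card : ℝ) ≤ T := by
        have : ((Icc 1 T).erase h).card ≤ (Icc 1 T).card := card_erase_le
        rw [Nat.card_Icc, Nat.add_sub_cancel] at this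
        exact_mod_cast this
      have := Real.exp_pos (C * sg h)
      gcongr
    have a2 : ∑ k ∈ (Icc 1 T).erase h, Real.exp (C * sg k) ≤ C₁ * T := by
      refine le_trans ?_ (hav T)
      exact sum_le_sum_of_subset_of_nonneg (erase_subset _ _) fun _ _ _ => (Real.exp_pos _).le
    have a3 : ∑ k ∈ (Icc 1 T).erase h, Real.exp (C * sg (h + k)) ≤ C₁ * (2 * T) := by
      have e1 : ∑ k ∈ (Icc 1 T).erase h, Real.exp (C * sg (h + k)) =
          ∑ m ∈ ((Icc 1 T).erase h).image (fun k => h + k), Real.exp (C * sg m) := by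
        rw [sum_image]
        intro x _ y _ hxy
        simp only at hxy
        omega
      rw [e1]
      have e2 := hav (2 * T)
      push_cast at e2
      refine le_trans ?_ e2
      apply sum_le_sum_of_subset_of_nonneg
      · intro m hm
        rw [mem_image] at hm
        obtain ⟨k, hk, rfl⟩ := hm
        rw [mem_erase, mem_Icc] at hk
        rw [mem_Icc]
        omega
      · intro _ _ _
        exact (Real.exp_pos _).le
    have a4 : ∑ k ∈ (Icc 1 T).erase h, Real.exp (C * sg ((h : ℤ) - k).natAbs) ≤ 2 * (C₁ * T) := by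
      have e1 : ∑ k ∈ (Icc 1 T).erase h, Real.exp (C * sg ((h : ℤ) - k).natAbs) =
          ∑ k ∈ ((Icc 1 T).erase h).filter (fun k => k < h), Real.exp (C * sg ((h : ℤ) - k).natAbs) +
          ∑ k ∈ ((Icc 1 T).erase h).filter (fun k => ¬ k < h), Real.exp (C * sg ((h : ℤ) - k).natAbs) :=
        (sum_filter_add_sum_filter_not _ _ _).symm
      have e2 : ∑ k ∈ ((Icc 1 T).erase h).filter (fun k => k < h), Real.exp (C * sg ((h : ℤ) - k).natAbs) ≤
          C₁ * T := by
        have e3 : ∑ k ∈ ((Icc 1 T).erase h).filter (fun k => k < h),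
            Real.exp (C * sg ((h : ℤ) - k).natAbs) =
            ∑ m ∈ (((Icc 1 T).erase h).filter (fun k => k < h)).image (fun k => h - k),
              Real.exp (C * sg m) := by
          rw [sum_image]
          · apply sum_congr rfl
            intro k hk
            rw [mem_filter] at hk
            have : ((h : ℤ) - k).natAbs = h - k := by omega
            rw [this]
          · intro x hx y hy hxy
            rw [mem_coe, mem_filter] at hx hy
            simp only at hxy
            omega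
        rw [e3]
        refine le_trans ?_ (hav T)
        apply sum_le_sum_of_subset_of_nonneg
        · intro m hm
          rw [mem_image] at hm
          obtain ⟨k, hk, rfl⟩ := hm
          rw [mem_filter, mem_erase, mem_Icc] at hk
          rw [mem_Icc]
          omega
        · intro _ _ _
          exact (Real.exp_pos _).le
      have e4 : ∑ k ∈ ((Icc 1 T).erase h).filter (fun k => ¬ k < h), Real.exp (C * sg ((h : ℤ) - k).natAbs) ≤
          C₁ * T := by
        have e3 : ∑ k ∈ ((Icc 1 T).erase h).filter (fun k => ¬ k < h),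
            Real.exp (C * sg ((h : ℤ) - k).natAbs) =
            ∑ m ∈ (((Icc 1 T).erase h).filter (fun k => ¬ k < h)).image (fun k => k - h),
              Real.exp (C * sg m) := by
          rw [sum_image]
          · apply sum_congr rfl
            intro k hk
            rw [mem_filter] at hk
            have : ((h : ℤ) - k).natAbs = k - h := by omega
            rw [this]
          · intro x hx y hy hxy
            rw [mem_coe, mem_filter] at hx hy
            simp only at hxy
            omega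
        rw [e3]
        refine le_trans ?_ (hav T)
        apply sum_le_sum_of_subset_of_nonneg
        · intro m hm
          rw [mem_image] at hm
          obtain ⟨k, hk, rfl⟩ := hm
          rw [mem_filter, mem_erase, mem_Icc] at hk
          rw [mem_Icc]
          omega
        · intro _ _ _
          exact (Real.exp_pos _).le
      rw [e1]
      linarith
    calc ∑ k ∈ (Icc 1 T).erase h, (((Icc 1 Z).filter (Qc M h k)).card : ℝ) ≤
          ∑ k ∈ (Icc 1 T).erase h, C * (Real.exp (C * sg h) + Real.exp (C * sg k) +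
            Real.exp (C * sg (h + k)) + Real.exp (C * sg ((h : ℤ) - k).natAbs)) * W := by
          apply sum_le_sum
          intro k hk
          rw [mem_erase, mem_Icc] at hk
          rw [hW]
          refine le_trans (le_of_eq ?_) (hZ M h k hh.1 hk.2.1 (Ne.symm hk.1))
          congr 2
          ext n
          simp only [mem_filter, Qc]
      _ = C * W * (∑ k ∈ (Icc 1 T).erase h, Real.exp (C * sg h) +
            ∑ k ∈ (Icc 1 T).erase h, Real.exp (C * sg k) +
            ∑ k ∈ (Icc 1 T).erase h, Real.exp (C * sg (h + k)) +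
            ∑ k ∈ (Icc 1 T).erase h, Real.exp (C * sg ((h : ℤ) - k).natAbs)) := by
          rw [← sum_add_distrib, ← sum_add_distrib, ← sum_add_distrib, mul_sum]
          apply sum_congr rfl
          intro k _
          ring
      _ ≤ C * W * (T * Real.exp (C * sg h) + 5 * C₁ * T) := by
          apply mul_le_mul_of_nonneg_left _ (mul_nonneg (by linarith) hW0)
          linarith
  calc _ ≤ ∑ h ∈ Icc 1 T, C * W * (T * Real.exp (C * sg h) + 5 * C₁ * T) := sum_le_sum h1
    _ = C * W * (T * ∑ h ∈ Icc 1 T, Real.exp (C * sg h) + 5 * C₁ * T * T) := by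
        rw [← mul_sum, sum_add_distrib, ← mul_sum, sum_const, Nat.card_Icc, Nat.add_sub_cancel,
          nsmul_eq_mul]
        ring
    _ ≤ C * W * (T * (C₁ * T) + 5 * C₁ * T * T) := by
        apply mul_le_mul_of_nonneg_left _ (mul_nonneg (by linarith) hW0)
        have := mul_le_mul_of_nonneg_left (hav T) hT0
        linarith
    _ = _ := by
        rw [hW]
        ring

open Classical in
/-- the second moment -/
theorem second_moment (S : Finset ℕ) (M Z K : ℕ) (hS : S ⊆ Ioc M (M + Z)) (hp : ∀ p ∈ S, p.Prime)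
    (h2 : 2 ∉ S) (N : Finset ℕ)
    (hN : ∀ p ∈ S, ∀ q ∈ S, p < q → q ≤ p + K → ∀ n, p + q = 2 * n → n ∈ N) :
    ((prs S K).card : ℝ) ^ 2 ≤ N.card * ((prs S K).card +
      ∑ h ∈ Icc 1 (K / 2), ∑ k ∈ (Icc 1 (K / 2)).erase h,
        (((Icc 1 Z).filter (Qc (M : ℤ) h k)).card : ℝ)) := by
  have hodd : ∀ p ∈ S, p % 2 = 1 := by
    intro p hpS
    rcases (hp p hpS).eq_two_or_odd with h | h
    · exact absurd (h ▸ hpS) h2
    · exact h
  have h1 := cs_image (prs S K) (fun x => (x.1 + x.2) / 2) N (by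
    rintro ⟨p, q⟩ hx
    unfold prs at hx
    rw [mem_filter, mem_product] at hx
    have h3 := hodd p hx.1.1
    have h4 := hodd q hx.1.2
    apply hN p hx.1.1 q hx.1.2 hx.2.1 hx.2.2
    simp only
    omega)
  refine h1.trans ?_
  apply mul_le_mul_of_nonneg_left _ (Nat.cast_nonneg _)
  -- diagonal and off-diagonal
  obtain ⟨E, hE⟩ : ∃ E : Finset ((ℕ × ℕ) × (ℕ × ℕ)), E = (prs S K ×ˢ prs S K).filter
    (fun x => (x.1.1 + x.1.2) / 2 = (x.2.1 + x.2.2) / 2) := ⟨_, rfl⟩
  obtain ⟨Qs, hQs⟩ : ∃ Qs : Finset ((ℕ × ℕ) × ℕ), Qs =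
      ((Icc 1 (K / 2) ×ˢ Icc 1 (K / 2)) ×ˢ Icc 1 Z).filter
      (fun x => x.1.1 ≠ x.1.2 ∧ Qc (M : ℤ) x.1.1 x.1.2 x.2) := ⟨_, rfl⟩
  have hcard : (E.card : ℝ) ≤ (prs S K).card + Qs.card := by
    have e1 : E ⊆ (prs S K).image (fun x => (x, x)) ∪ E.filter (fun x => x.1 ≠ x.2) := by
      intro x hx
      rw [mem_union]
      by_cases hxx : x.1 = x.2
      · left
        rw [mem_image]
        rw [hE, mem_filter, mem_product] at hx
        exact ⟨x.1, hx.1.1, Prod.ext rfl hxx⟩
      · right
        rw [mem_filter]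
        exact ⟨hx, hxx⟩
    have e2 : (E.filter (fun x => x.1 ≠ x.2)).card ≤ Qs.card := by
      apply card_le_card_of_injOn (fun x => (((x.1.2 - x.1.1) / 2, (x.2.2 - x.2.1) / 2),
        (x.1.1 + x.1.2) / 2 - M))
      · rintro ⟨⟨p, q⟩, ⟨p', q'⟩⟩ hx
        rw [mem_coe, mem_filter, hE, mem_filter, mem_product] at hx
        unfold prs at hx
        rw [mem_filter, mem_filter, mem_product, mem_product] at hx
        simp only at hx
        obtain ⟨⟨⟨⟨⟨hp1, hq1⟩, h3, h4⟩, ⟨hp2, hq2⟩, h5, h6⟩, h7⟩, h8⟩ := hx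
        have o1 := hodd p hp1
        have o2 := hodd q hq1
        have o3 := hodd p' hp2
        have o4 := hodd q' hq2
        have i1 := mem_Ioc.1 (hS hp1)
        have i2 := mem_Ioc.1 (hS hq1)
        have i3 := mem_Ioc.1 (hS hp2)
        have i4 := mem_Ioc.1 (hS hq2)
        have hne : (q - p) / 2 ≠ (q' - p') / 2 := by
          intro h
          apply h8
          have : p = p' ∧ q = q' := by omega
          rw [this.1, this.2]
        rw [mem_coe, hQs, mem_filter, mem_product, mem_product, mem_Icc, mem_Icc, mem_Icc]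
        refine ⟨⟨⟨?_, ?_⟩, ?_⟩, hne, ?_⟩
        · simp only; omega
        · simp only; omega
        · simp only; omega
        · unfold Qc
          simp only
          have e3 : ((((p + q) / 2 - M : ℕ) : ℤ) + ((M : ℤ) + (((q - p) / 2 : ℕ) : ℤ))).toNat = q := by
            omega
          have e4 : ((((p + q) / 2 - M : ℕ) : ℤ) + ((M : ℤ) - (((q - p) / 2 : ℕ) : ℤ))).toNat = p := by
            omega
          have e5 : ((((p + q) / 2 - M : ℕ) : ℤ) + ((M : ℤ) + (((q' - p') / 2 : ℕ) : ℤ))).toNat = q' := by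
            omega
          have e6 : ((((p + q) / 2 - M : ℕ) : ℤ) + ((M : ℤ) - (((q' - p') / 2 : ℕ) : ℤ))).toNat = p' := by
            omega
          rw [e3, e4, e5, e6]
          exact ⟨hp _ hq1, hp _ hp1, hp _ hq2, hp _ hp2⟩
      · rintro ⟨⟨p, q⟩, ⟨p', q'⟩⟩ hx ⟨⟨r, s⟩, ⟨r', s'⟩⟩ hy hxy
        rw [mem_coe, mem_filter, hE, mem_filter, mem_product] at hx hy
        unfold prs at hx hy
        rw [mem_filter, mem_filter, mem_product, mem_product] at hx hy
        simp only at hx hy
        obtain ⟨⟨⟨⟨⟨hp1, hq1⟩, h3, h4⟩, ⟨hp2, hq2⟩, h5, h6⟩, h7⟩, h8⟩ := hx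
        obtain ⟨⟨⟨⟨⟨hr1, hs1⟩, g3, g4⟩, ⟨hr2, hs2⟩, g5, g6⟩, g7⟩, g8⟩ := hy
        simp only [Prod.mk.injEq] at hxy ⊢
        have o1 := hodd p hp1
        have o2 := hodd q hq1
        have o3 := hodd p' hp2
        have o4 := hodd q' hq2
        have o5 := hodd r hr1
        have o6 := hodd s hs1
        have o7 := hodd r' hr2
        have o8 := hodd s' hs2
        have i1 := mem_Ioc.1 (hS hp1)
        have i2 := mem_Ioc.1 (hS hq1)
        have i3 := mem_Ioc.1 (hS hr1)
        have i4 := mem_Ioc.1 (hS hs1)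
        omega
    have e3 := card_le_card e1
    have e4 := card_union_le ((prs S K).image (fun x => (x, x))) (E.filter (fun x => x.1 ≠ x.2))
    have e5 : ((prs S K).image (fun x => (x, x))).card ≤ (prs S K).card := card_image_le
    exact_mod_cast (by omega : E.card ≤ (prs S K).card + Qs.card)
  have hQsum : (Qs.card : ℝ) = ∑ h ∈ Icc 1 (K / 2), ∑ k ∈ (Icc 1 (K / 2)).erase h,
        (((Icc 1 Z).filter (Qc (M : ℤ) h k)).card : ℝ) := by
    rw [hQs, card_filter, sum_product, sum_product]
    push_cast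
    apply sum_congr rfl
    intro h _
    rw [← filter_ne', sum_filter]
    apply sum_congr rfl
    intro k _
    by_cases hhk : k ≠ h
    · rw [if_pos hhk, card_filter]
      push_cast
      apply sum_congr rfl
      intro n _
      simp only [ne_eq, Ne.symm hhk, not_false_eq_true, true_and]
    · rw [if_neg hhk]
      push Not at hhk
      apply sum_eq_zero
      intro n _
      rw [if_neg]
      rintro ⟨h1, _⟩
      exact h1 hhk.symm
  rw [hE] at hcard
  rw [← hQsum]
  exact hcard

end Pool.Agent.X31
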