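import Pool.Agent.X31.C2

set_option autoImplicit false

/-! # The number of sums of two close primes: bounds of the same order of magnitude -/

namespace Pool.Agent.X31

open Finset Filter
open Pool.Agent.Y851.DK (sg)

open Classical in
/-- The midpoints in `(M, M + Z]` of two different elements of `S` at a distance of at most `H`. -/
noncomputable def Mid (S : Finset ℕ) (M Z H : ℕ) : Finset ℕ :=
  (Ioc M (M + Z)).filter (fun n => ∃ p ∈ S, ∃ q ∈ S, p < q ∧ q ≤ p + H ∧ p + q = 2 * n)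

theorem close_lower : ∃ c : ℝ, 0 < c ∧ ∀ δ : ℝ, 0 < δ → δ ≤ 1 → ∃ Z₀ : ℕ, ∀ Z : ℕ, Z₀ ≤ Z →
    ∀ (M : ℕ) (S : Finset ℕ), S ⊆ (Ioc M (M + Z)).filter Nat.Prime →
    δ * (Z / Real.log Z) ≤ S.card → ∀ H : ℕ, 16 / δ * Real.log Z ≤ H →
    c * δ ^ 4 * (min (H / Real.log Z ^ 2) 1 * Z) ≤ (Mid S M Z H).card := by
  classical
  obtain ⟨C, hC, hquad⟩ := quad_total
  refine ⟨1 / (576 * C), by positivity, fun δ hδ hδ1 => ?_⟩
  have hlog : ∀ᶠ Z : ℕ in atTop, 16 / δ + 2 ≤ Real.log Z :=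
    (Real.tendsto_log_atTop.comp tendsto_natCast_atTop_atTop).eventually_ge_atTop _
  have hlo1 : ∀ᶠ Z : ℕ in atTop, Real.log Z ^ 2 ≤ Z := by
    have e1 := (isLittleO_log_rpow_atTop (show (0 : ℝ) < 1 / 2 by norm_num)).def
      (show (0 : ℝ) < 1 by norm_num)
    have e2 : ∀ᶠ x : ℝ in atTop, Real.log x ^ 2 ≤ x := by
      filter_upwards [e1, eventually_ge_atTop (1 : ℝ)] with x h1 h2
      have h4 : 0 ≤ Real.log x := Real.log_nonneg h2
      rw [Real.norm_eq_abs, Real.norm_eq_abs, abs_of_nonneg h4, abs_of_nonneg (by positivity),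
        one_mul] at h1
      calc Real.log x ^ 2 ≤ (x ^ (1 / 2 : ℝ)) ^ 2 := pow_le_pow_left₀ h4 h1 _
        _ = x := by
            rw [← Real.rpow_natCast, ← Real.rpow_mul (by linarith)]
            norm_num
    exact tendsto_natCast_atTop_atTop.eventually e2
  have hlo2 : ∀ᶠ Z : ℕ in atTop, 2 / δ * Real.log Z ≤ Z := by
    have e1 := (isLittleO_log_rpow_atTop (show (0 : ℝ) < 1 by norm_num)).def
      (show (0 : ℝ) < δ / 2 by positivity)
    have e2 : ∀ᶠ x : ℝ in atTop, 2 / δ * Real.log x ≤ x := by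
      filter_upwards [e1, eventually_ge_atTop (1 : ℝ)] with x h1 h2
      have h4 : 0 ≤ Real.log x := Real.log_nonneg h2
      rw [Real.norm_eq_abs, Real.norm_eq_abs, abs_of_nonneg h4, abs_of_nonneg (by positivity),
        Real.rpow_one] at h1
      calc 2 / δ * Real.log x ≤ 2 / δ * (δ / 2 * x) := by gcongr
        _ = x := by field_simp
    exact tendsto_natCast_atTop_atTop.eventually e2
  obtain ⟨Z₀, hZ₀⟩ := eventually_atTop.1 (hquad.and (hlog.and (hlo1.and (hlo2.and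
    (eventually_ge_atTop 3)))))
  refine ⟨Z₀, fun Z hZ M S hS hSc H hH => ?_⟩
  obtain ⟨g1, g2, g3, g4, g5⟩ := hZ₀ Z hZ
  obtain ⟨L, hL⟩ : ∃ L, L = Real.log Z := ⟨_, rfl⟩
  rw [← hL] at g2 g3 g4 hSc hH ⊢
  have h16 : 0 < 16 / δ := by positivity
  have hL2 : 2 ≤ L := by linarith
  have hL0 : 0 < L := by linarith
  have hZ3 : (3 : ℝ) ≤ Z := by exact_mod_cast g5
  have hZ0 : (0 : ℝ) < Z := by linarith
  have hL16 : 16 / δ ≤ L := by linarith
  -- the length
  obtain ⟨K, hK⟩ : ∃ K : ℕ, K = min H ⌊L ^ 2⌋₊ := ⟨_, rfl⟩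
  have hKH : K ≤ H := by rw [hK]; exact min_le_left _ _
  have hfl : (⌊L ^ 2⌋₊ : ℝ) ≤ L ^ 2 := Nat.floor_le (by positivity)
  have hfl2 : L ^ 2 / 2 ≤ (⌊L ^ 2⌋₊ : ℝ) := by
    have := Nat.lt_floor_add_one (L ^ 2)
    nlinarith
  have hKL : (K : ℝ) ≤ L ^ 2 := by
    refine le_trans ?_ hfl
    exact_mod_cast (by rw [hK]; exact min_le_right _ _ : K ≤ ⌊L ^ 2⌋₊)
  have hKlow : min (H / L ^ 2) 1 * L ^ 2 / 2 ≤ K := by
    rcases le_total H ⌊L ^ 2⌋₊ with h | h
    · rw [hK, min_eq_left h]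
      have e1 : min ((H : ℝ) / L ^ 2) 1 ≤ H / L ^ 2 := min_le_left _ _
      have e2 : min ((H : ℝ) / L ^ 2) 1 * L ^ 2 ≤ H := by
        calc min ((H : ℝ) / L ^ 2) 1 * L ^ 2 ≤ (H : ℝ) / L ^ 2 * L ^ 2 := by gcongr
          _ = (H : ℝ) := by field_simp
      have e3 : (0 : ℝ) ≤ H := Nat.cast_nonneg H
      linarith
    · rw [hK, min_eq_right h]
      have e1 : min ((H : ℝ) / L ^ 2) 1 ≤ 1 := min_le_right _ _
      have e2 : min ((H : ℝ) / L ^ 2) 1 * L ^ 2 ≤ L ^ 2 := by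
        calc min ((H : ℝ) / L ^ 2) 1 * L ^ 2 ≤ 1 * L ^ 2 := by gcongr
          _ = L ^ 2 := one_mul _
      linarith
  have hK8 : 8 * L ≤ δ * K := by
    rcases le_total H ⌊L ^ 2⌋₊ with h | h
    · rw [hK, min_eq_left h]
      have : 16 * L ≤ δ * H := by
        calc 16 * L = δ * (16 / δ * L) := by field_simp
          _ ≤ _ := by gcongr
      linarith
    · rw [hK, min_eq_right h]
      have e1 : 16 ≤ δ * L := by
        calc (16 : ℝ) = δ * (16 / δ) := by field_simp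
          _ ≤ _ := by gcongr
      calc 8 * L ≤ (δ * L) * L / 2 := by nlinarith
        _ = δ * (L ^ 2 / 2) := by ring
        _ ≤ _ := by gcongr
  have hK0 : (0 : ℝ) < K := by
    by_contra hcon
    push Not at hcon
    have : δ * K ≤ 0 := mul_nonpos_of_nonneg_of_nonpos hδ.le hcon
    linarith
  have hK1 : 1 ≤ K := by exact_mod_cast hK0
  have hKZ : (K : ℝ) ≤ Z := hKL.trans g3
  have hKZn : K ≤ Z := by exact_mod_cast hKZ
  -- the set without the prime 2
  obtain ⟨S', hS'⟩ : ∃ S' : Finset ℕ, S' = S.erase 2 := ⟨_, rfl⟩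
  have hS'S : S' ⊆ S := by rw [hS']; exact erase_subset _ _
  have hSI : S' ⊆ Ioc M (M + Z) := fun p hp => (mem_filter.1 (hS (hS'S hp))).1
  have hSp : ∀ p ∈ S', p.Prime := fun p hp => (mem_filter.1 (hS (hS'S hp))).2
  have h2S : 2 ∉ S' := by rw [hS']; exact notMem_erase _ _
  obtain ⟨s, hs⟩ : ∃ s : ℝ, s = S'.card := ⟨_, rfl⟩
  have hs1 : δ * (Z / L) / 2 ≤ s := by
    have e1 : S.card ≤ S'.card + 1 := by
      have := pred_card_le_card_erase (s := S) (a := 2)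
      rw [hS']
      omega
    have e2 : (S.card : ℝ) ≤ S'.card + 1 := by exact_mod_cast e1
    have e3 : 2 ≤ δ * (Z / L) := by
      have : 2 / δ ≤ Z / L := by
        rw [le_div_iff₀ hL0]
        exact g4
      calc (2 : ℝ) = δ * (2 / δ) := by field_simp
        _ ≤ _ := by gcongr
    rw [hs]
    linarith
  have hs0 : 0 < s := lt_of_lt_of_le (by positivity) hs1
  obtain ⟨P, hP⟩ : ∃ P : ℝ, P = (prs S' K).card := ⟨_, rfl⟩
  have hP0 : 0 ≤ P := by rw [hP]; exact Nat.cast_nonneg _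
  have hlow := prs_lower S' M Z K hK1 hSI
  rw [← hs, ← hP] at hlow
  have hJ : ((Z / K + 1 : ℕ) : ℝ) * K ≤ 2 * Z := by
    have e1 : Z / K * K ≤ Z := Nat.div_mul_le_self Z K
    have e2 : (Z / K + 1) * K ≤ 2 * Z := by nlinarith
    exact_mod_cast e2
  have hPlow : K * s ^ 2 ≤ 8 * Z * P := by
    have e1 : K * s ^ 2 ≤ 2 * Z * (s + 2 * P) := by
      calc K * s ^ 2 ≤ K * (((Z / K + 1 : ℕ) : ℝ) * (s + 2 * P)) := by gcongr
        _ = ((Z / K + 1 : ℕ) : ℝ) * K * (s + 2 * P) := by ring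
        _ ≤ 2 * Z * (s + 2 * P) := by gcongr
    have e2 : 4 * Z ≤ K * s := by
      calc 4 * (Z : ℝ) = 8 * L * (Z / L) / 2 := by field_simp; norm_num
        _ ≤ δ * K * (Z / L) / 2 := by gcongr
        _ = K * (δ * (Z / L) / 2) := by ring
        _ ≤ K * s := by gcongr
    have e3 : 4 * Z * s ≤ K * s ^ 2 := by
      calc 4 * (Z : ℝ) * s ≤ K * s * s := by gcongr
        _ = _ := by ring
    linarith
  have hP2 : δ ^ 2 * (K * Z / L ^ 2) ≤ 32 * P := by
    have e1 : (δ * (Z / L) / 2) ^ 2 ≤ s ^ 2 := pow_le_pow_left₀ (by positivity) hs1 2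
    have e2 : K * (δ * (Z / L) / 2) ^ 2 ≤ 8 * Z * P := le_trans (by gcongr) hPlow
    have e3 : K * (δ * (Z / L) / 2) ^ 2 = δ ^ 2 * (K * Z / L ^ 2) * (Z / 4) := by
      field_simp
      norm_num
    rw [e3] at e2
    have e4 : δ ^ 2 * (K * Z / L ^ 2) * Z ≤ 32 * P * Z := by linarith
    exact le_of_mul_le_mul_right e4 hZ0
  -- the second moment
  have hsm := second_moment S' M Z K hSI hSp h2S (Mid S M Z H) (by
    intro p hp q hq hpq hqK n hn
    unfold Mid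
    rw [mem_filter, mem_Ioc]
    have i1 := mem_Ioc.1 (hSI hp)
    have i2 := mem_Ioc.1 (hSI hq)
    exact ⟨⟨by omega, by omega⟩, p, hS'S hp, q, hS'S hq, hpq, by omega, hn⟩)
  have hq := g1 (M : ℤ) (K / 2)
  rw [← hP] at hsm
  obtain ⟨Nn, hNn⟩ : ∃ Nn : ℝ, Nn = (Mid S M Z H).card := ⟨_, rfl⟩
  have hNn0 : 0 ≤ Nn := by rw [hNn]; exact Nat.cast_nonneg _
  rw [← hNn] at hsm ⊢
  rw [← hL] at hq
  have hT : (((K / 2 : ℕ) : ℝ)) ^ 2 ≤ K * L ^ 2 / 4 := by
    have e1 : ((K / 2 : ℕ) : ℝ) ≤ K / 2 := Nat.cast_div_le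
    calc (((K / 2 : ℕ) : ℝ)) ^ 2 ≤ ((K : ℝ) / 2) ^ 2 := by gcongr
      _ = (K : ℝ) * K / 4 := by ring
      _ ≤ (K : ℝ) * L ^ 2 / 4 := by gcongr
  have hC0 : 0 < C := by linarith
  have hq2 : C * ((((K / 2 : ℕ) : ℝ)) ^ 2 * (Z / L ^ 4)) ≤ 8 * C / δ ^ 2 * P := by
    calc C * ((((K / 2 : ℕ) : ℝ)) ^ 2 * (Z / L ^ 4)) ≤ C * ((K * L ^ 2 / 4) * (Z / L ^ 4)) := by gcongr
      _ = C / (4 * δ ^ 2) * (δ ^ 2 * (K * Z / L ^ 2)) := by field_simp
      _ ≤ C / (4 * δ ^ 2) * (32 * P) := by gcongr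
      _ = _ := by field_simp; ring
  have hfin : P ^ 2 ≤ Nn * (9 * C / δ ^ 2) * P := by
    calc P ^ 2 ≤ Nn * (P + 8 * C / δ ^ 2 * P) := by
          refine hsm.trans ?_
          apply mul_le_mul_of_nonneg_left _ hNn0
          linarith [hq.trans hq2]
      _ ≤ Nn * (C / δ ^ 2 * P + 8 * C / δ ^ 2 * P) := by
          have : 1 ≤ C / δ ^ 2 := by
            rw [one_le_div (by positivity)]
            nlinarith
          have : P ≤ C / δ ^ 2 * P := by nlinarith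
          gcongr
      _ = _ := by ring
  have hPpos : 0 < P := by
    have : 0 < δ ^ 2 * (K * Z / L ^ 2) := by positivity
    linarith
  have hfin2 : P ≤ Nn * (9 * C / δ ^ 2) := by
    rw [pow_two] at hfin
    exact le_of_mul_le_mul_right hfin hPpos
  have hmin0 : 0 ≤ min ((H : ℝ) / L ^ 2) 1 := le_min (by positivity) zero_le_one
  calc 1 / (576 * C) * δ ^ 4 * (min (H / L ^ 2) 1 * Z) =
        (δ ^ 2 / (288 * C)) * (δ ^ 2 * ((min (H / L ^ 2) 1 * L ^ 2 / 2) * Z / L ^ 2)) := by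
        field_simp
        ring
    _ ≤ (δ ^ 2 / (288 * C)) * (δ ^ 2 * (K * Z / L ^ 2)) := by gcongr
    _ ≤ (δ ^ 2 / (288 * C)) * (32 * P) := by gcongr
    _ ≤ (δ ^ 2 / (288 * C)) * (32 * (Nn * (9 * C / δ ^ 2))) := by gcongr
    _ = Nn := by field_simp; ring

open Classical in
theorem close_upper : ∃ C : ℝ, 0 < C ∧ ∃ Z₀ : ℕ, ∀ Z : ℕ, Z₀ ≤ Z → ∀ M H : ℕ,
    (((Ioc M (M + Z)).filter (fun n => ∃ p q : ℕ, p.Prime ∧ q.Prime ∧ p < q ∧ q ≤ p + H ∧
      p + q = 2 * n)).card : ℝ) ≤ C * (min (H / Real.log Z ^ 2) 1 * Z) := by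
  obtain ⟨C, hC, hpair⟩ := pair_bound
  obtain ⟨C₁, hC₁, hav⟩ := sg_avg C (by linarith)
  obtain ⟨Z₀, hZ₀⟩ := eventually_atTop.1 (hpair.and (eventually_ge_atTop 3))
  refine ⟨1 + C * Real.exp C * C₁, by positivity, Z₀, fun Z hZ M H => ?_⟩
  obtain ⟨g1, g2⟩ := hZ₀ Z hZ
  have hL : 0 < Real.log Z := Real.log_pos (by exact_mod_cast (by omega : 1 < Z))
  have hZ0 : (0 : ℝ) ≤ Z := Nat.cast_nonneg Z
  obtain ⟨A, hA⟩ : ∃ A : Finset ℕ, A = (Ioc M (M + Z)).filter (fun n => ∃ p q : ℕ, p.Prime ∧ q.Prime ∧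
    p < q ∧ q ≤ p + H ∧ p + q = 2 * n) := ⟨_, rfl⟩
  rw [← hA]
  have h1 : (A.card : ℝ) ≤ Z := by
    have : A.card ≤ (Ioc M (M + Z)).card := by rw [hA]; exact card_filter_le _ _
    rw [Nat.card_Ioc] at this
    exact_mod_cast (by omega : A.card ≤ Z)
  have h2 : (A.card : ℝ) ≤ C * Real.exp C * C₁ * (H / Real.log Z ^ 2 * Z) := by
    have e1 : A ⊆ (Icc 1 (H / 2)).biUnion (fun h => ((Icc 1 Z).filter (fun n : ℕ =>
        ((n : ℤ) + ((M : ℤ) + h)).toNat.Prime ∧ ((n : ℤ) + ((M : ℤ) - h)).toNat.Prime)).image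
          (fun n => n + M)) := by
      intro n hn
      rw [hA, mem_filter, mem_Ioc] at hn
      obtain ⟨hn1, p, q, hp, hq, hpq, hqH, hpqn⟩ := hn
      rw [mem_biUnion]
      refine ⟨q - n, ?_, ?_⟩
      · rw [mem_Icc]
        omega
      · rw [mem_image]
        refine ⟨n - M, ?_, by omega⟩
        rw [mem_filter, mem_Icc]
        refine ⟨by omega, ?_, ?_⟩
        · have : (((n - M : ℕ) : ℤ) + ((M : ℤ) + ((q - n : ℕ) : ℤ))).toNat = q := by omega
          rw [this]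
          exact hq
        · have : (((n - M : ℕ) : ℤ) + ((M : ℤ) - ((q - n : ℕ) : ℤ))).toNat = p := by omega
          rw [this]
          exact hp
    have e2 := (card_le_card e1).trans card_biUnion_le
    calc (A.card : ℝ) ≤ ∑ h ∈ Icc 1 (H / 2), ((((Icc 1 Z).filter (fun n : ℕ =>
        ((n : ℤ) + ((M : ℤ) + h)).toNat.Prime ∧ ((n : ℤ) + ((M : ℤ) - h)).toNat.Prime)).image
          (fun n => n + M)).card : ℝ) := by exact_mod_cast e2
      _ ≤ ∑ h ∈ Icc 1 (H / 2), C * Real.exp C * (Z / Real.log Z ^ 2) * Real.exp (C * sg h) := by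
          apply sum_le_sum
          intro h hh
          rw [mem_Icc] at hh
          have f1 : ((((Icc 1 Z).filter (fun n : ℕ =>
            ((n : ℤ) + ((M : ℤ) + h)).toNat.Prime ∧ ((n : ℤ) + ((M : ℤ) - h)).toNat.Prime)).image
              (fun n => n + M)).card : ℝ) ≤ (((Icc 1 Z).filter (fun n : ℕ =>
            ((n : ℤ) + ((M : ℤ) + h)).toNat.Prime ∧ ((n : ℤ) + ((M : ℤ) - h)).toNat.Prime)).card : ℝ) := by
            exact_mod_cast card_image_le
          refine f1.trans ((g1 ((M : ℤ) + h) ((M : ℤ) - h) (by omega)).trans ?_)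
          have f2 : ((M : ℤ) + h - (M - h)).natAbs = 2 * h := by omega
          rw [f2]
          have f3 : Real.exp (C * sg (2 * h)) ≤ Real.exp C * Real.exp (C * sg h) := by
            rw [← Real.exp_add]
            apply Real.exp_le_exp.2
            have := sg_two h
            nlinarith
          have f4 : 0 ≤ (Z : ℝ) / Real.log Z ^ 2 := by positivity
          calc C * Real.exp (C * sg (2 * h)) * (Z / Real.log Z ^ 2) ≤
                C * (Real.exp C * Real.exp (C * sg h)) * (Z / Real.log Z ^ 2) := by gcongr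
            _ = _ := by ring
      _ = C * Real.exp C * (Z / Real.log Z ^ 2) * ∑ h ∈ Icc 1 (H / 2), Real.exp (C * sg h) := by
          rw [mul_sum]
      _ ≤ C * Real.exp C * (Z / Real.log Z ^ 2) * (C₁ * H) := by
          have f1 := hav (H / 2)
          have f2 : ((H / 2 : ℕ) : ℝ) ≤ H := by exact_mod_cast Nat.div_le_self H 2
          have f3 : C₁ * ((H / 2 : ℕ) : ℝ) ≤ C₁ * H := by gcongr
          have f4 : 0 < C * Real.exp C := by positivity
          gcongr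
          exact f1.trans f3
      _ = _ := by ring
  rcases le_total ((H : ℝ) / Real.log Z ^ 2) 1 with h | h
  · rw [min_eq_left h]
    have : 0 ≤ (H : ℝ) / Real.log Z ^ 2 * Z := by positivity
    nlinarith
  · rw [min_eq_right h, one_mul]
    have : 0 ≤ C * Real.exp C * C₁ * Z := by positivity
    nlinarith

end Pool.Agent.X31
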