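import Pool.Agent.X31.C2

set_option autoImplicit false

/-! # Sums of two primes from dense sets at different scales -/

namespace Pool.Agent.X31

open Finset Filter
open Pool.Agent.Y851.DK (sg)

/-- the average of `exp (c sg |p - p'|)` over the pairs of primes of an interval -/
theorem pairs_sg (c : ℝ) (hc : 0 ≤ c) : ∃ C : ℝ, 1 ≤ C ∧ ∀ᶠ z : ℕ in atTop, ∀ (m : ℕ) (R : Finset ℕ),
    R ⊆ (Ioc m (m + z)).filter Nat.Prime →
    ∑ x ∈ (R ×ˢ R).filter (fun x => x.1 < x.2), Real.exp (c * sg (x.2 - x.1)) ≤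
      C * (z * (z / Real.log z ^ 2)) := by
  classical
  obtain ⟨C, hC, hpair⟩ := pair_bound
  obtain ⟨C₁, hC₁, hav⟩ := sg_avg (c + C) (by linarith)
  refine ⟨C * C₁, by nlinarith, ?_⟩
  filter_upwards [hpair, eventually_ge_atTop 3] with z hz hz3 m R hR
  have hl : 0 < Real.log z := Real.log_pos (by exact_mod_cast (by omega : 1 < z))
  obtain ⟨W, hW⟩ : ∃ W : ℝ, W = z / Real.log z ^ 2 := ⟨_, rfl⟩
  have hW0 : 0 ≤ W := by rw [hW]; positivity
  rw [← hW]
  have hRI : ∀ p ∈ R, m < p ∧ p ≤ m + z ∧ p.Prime := by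
    intro p hp
    have := mem_filter.1 (hR hp)
    rw [mem_Ioc] at this
    exact ⟨this.1.1, this.1.2, this.2⟩
  have h1 : ∑ x ∈ (R ×ˢ R).filter (fun x => x.1 < x.2), Real.exp (c * sg (x.2 - x.1)) =
      ∑ d ∈ Icc 1 z, ∑ x ∈ ((R ×ˢ R).filter (fun x => x.1 < x.2)).filter (fun x => x.2 - x.1 = d),
        Real.exp (c * sg (x.2 - x.1)) := by
    symm
    apply sum_fiberwise_of_maps_to
    intro x hx
    rw [mem_filter, mem_product] at hx
    have h2 := hRI _ hx.1.1
    have h3 := hRI _ hx.1.2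
    rw [mem_Icc]
    omega
  rw [h1]
  have h2 : ∀ d ∈ Icc 1 z, ∑ x ∈ ((R ×ˢ R).filter (fun x => x.1 < x.2)).filter (fun x => x.2 - x.1 = d),
        Real.exp (c * sg (x.2 - x.1)) ≤ C * W * Real.exp ((c + C) * sg d) := by
    intro d hd
    rw [mem_Icc] at hd
    have e1 : ∑ x ∈ ((R ×ˢ R).filter (fun x => x.1 < x.2)).filter (fun x => x.2 - x.1 = d),
        Real.exp (c * sg (x.2 - x.1)) =
        (((R ×ˢ R).filter (fun x => x.1 < x.2)).filter (fun x => x.2 - x.1 = d)).card *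
          Real.exp (c * sg d) := by
      rw [← nsmul_eq_mul, ← sum_const]
      apply sum_congr rfl
      intro x hx
      rw [mem_filter] at hx
      rw [hx.2]
    have e2 : (((R ×ˢ R).filter (fun x => x.1 < x.2)).filter (fun x => x.2 - x.1 = d)).card ≤
        ((Icc 1 z).filter (fun n : ℕ => ((n : ℤ) + (m : ℤ)).toNat.Prime ∧
          ((n : ℤ) + ((m : ℤ) + d)).toNat.Prime)).card := by
      apply card_le_card_of_injOn (fun x => x.1 - m)
      · rintro ⟨p, q⟩ hx
        rw [mem_coe, mem_filter, mem_filter, mem_product] at hx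
        simp only at hx
        have h3 := hRI _ hx.1.1.1
        have h4 := hRI _ hx.1.1.2
        rw [mem_coe, mem_filter, mem_Icc]
        refine ⟨by simp only; omega, ?_, ?_⟩
        · have : (((p - m : ℕ) : ℤ) + (m : ℤ)).toNat = p := by omega
          simp only
          rw [this]
          exact h3.2.2
        · have : (((p - m : ℕ) : ℤ) + ((m : ℤ) + d)).toNat = q := by omega
          simp only
          rw [this]
          exact h4.2.2
      · rintro ⟨p, q⟩ hx ⟨p', q'⟩ hy hxy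
        rw [mem_coe, mem_filter, mem_filter, mem_product] at hx hy
        simp only at hx hy hxy
        have h3 := hRI _ hx.1.1.1
        have h4 := hRI _ hy.1.1.1
        simp only [Prod.mk.injEq]
        omega
    have e3 := hz (m : ℤ) ((m : ℤ) + d) (by omega)
    have e4 : ((m : ℤ) - ((m : ℤ) + d)).natAbs = d := by omega
    rw [e4] at e3
    rw [e1]
    calc ((((R ×ˢ R).filter (fun x => x.1 < x.2)).filter (fun x => x.2 - x.1 = d)).card : ℝ) *
          Real.exp (c * sg d) ≤ (C * Real.exp (C * sg d) * (z / Real.log z ^ 2)) * Real.exp (c * sg d) := by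
          apply mul_le_mul_of_nonneg_right _ (Real.exp_pos _).le
          exact le_trans (by exact_mod_cast e2) e3
      _ = C * W * (Real.exp (c * sg d) * Real.exp (C * sg d)) := by rw [hW]; ring
      _ = _ := by rw [← Real.exp_add, add_mul]
  refine (sum_le_sum h2).trans ?_
  rw [← mul_sum]
  calc C * W * ∑ d ∈ Icc 1 z, Real.exp ((c + C) * sg d) ≤ C * W * (C₁ * z) := by
        apply mul_le_mul_of_nonneg_left (hav z)
        positivity
    _ = _ := by ring

/-- the number of representations -/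
def rp (R S : Finset ℕ) (N : ℕ) : ℕ := ((R ×ˢ S).filter (fun x => x.1 + x.2 = N)).card

/-- the additive energy -/
theorem energy_primes : ∃ C : ℝ, 1 ≤ C ∧ ∃ z₀ : ℕ, ∀ z Z : ℕ, z₀ ≤ z → z ≤ Z → ∀ (m M : ℕ) (R S : Finset ℕ),
    R ⊆ (Ioc m (m + z)).filter Nat.Prime → S ⊆ (Ioc M (M + Z)).filter Nat.Prime →
    ((((R ×ˢ S) ×ˢ (R ×ˢ S)).filter (fun x => x.1.1 + x.1.2 = x.2.1 + x.2.2)).card : ℝ) ≤
      R.card * S.card + C * ((z * Z / (Real.log z * Real.log Z)) ^ 2 / Z) := by
  classical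
  obtain ⟨C, hC, hpair⟩ := pair_bound
  obtain ⟨C₁, hC₁, hsg⟩ := pairs_sg C (by linarith)
  obtain ⟨z₀, hz₀⟩ := eventually_atTop.1 (hpair.and (hsg.and (eventually_ge_atTop 3)))
  refine ⟨2 * C * C₁, by nlinarith, z₀, fun z Z hz hzZ m M R S hR hS => ?_⟩
  obtain ⟨-, g2, g3⟩ := hz₀ z hz
  obtain ⟨g1, -, -⟩ := hz₀ Z (hz.trans hzZ)
  have hlz : 0 < Real.log z := Real.log_pos (by exact_mod_cast (by omega : 1 < z))
  have hlZ : 0 < Real.log Z := Real.log_pos (by exact_mod_cast (by omega : 1 < Z))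
  have hZ0 : (0 : ℝ) < Z := by exact_mod_cast (by omega : 0 < Z)
  have hz0 : (0 : ℝ) < z := by exact_mod_cast (by omega : 0 < z)
  have hSI : ∀ p ∈ S, M < p ∧ p ≤ M + Z ∧ p.Prime := by
    intro p hp
    have := mem_filter.1 (hS hp)
    rw [mem_Ioc] at this
    exact ⟨this.1.1, this.1.2, this.2⟩
  obtain ⟨E, hE⟩ : ∃ E : Finset ((ℕ × ℕ) × (ℕ × ℕ)), E =
    ((R ×ˢ S) ×ˢ (R ×ˢ S)).filter (fun x => x.1.1 + x.1.2 = x.2.1 + x.2.2) := ⟨_, rfl⟩
  rw [← hE]
  -- the part with `p < p'`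
  obtain ⟨E1, hE1⟩ : ∃ E1, E1 = E.filter (fun x => x.1.1 < x.2.1) := ⟨_, rfl⟩
  have hsplit : E.card ≤ (R ×ˢ S).card + 2 * E1.card := by
    have e1 : E ⊆ (R ×ˢ S).image (fun x => (x, x)) ∪ (E1 ∪ E1.image Prod.swap) := by
      rintro ⟨⟨p, q⟩, ⟨p', q'⟩⟩ hx
      have hx' := hx
      rw [hE, mem_filter, mem_product] at hx'
      simp only at hx'
      rw [mem_union, mem_union]
      rcases lt_trichotomy p p' with h | h | h
      · right; left
        rw [hE1, mem_filter]
        exact ⟨hx, h⟩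
      · left
        rw [mem_image]
        have : q = q' := by omega
        exact ⟨(p, q), hx'.1.1, by rw [h, this]⟩
      · right; right
        rw [mem_image]
        refine ⟨((p', q'), (p, q)), ?_, rfl⟩
        rw [hE1, mem_filter, hE, mem_filter, mem_product]
        exact ⟨⟨⟨hx'.1.2, hx'.1.1⟩, hx'.2.symm⟩, h⟩
    have e2 := card_le_card e1
    have e3 := card_union_le ((R ×ˢ S).image (fun x => (x, x))) (E1 ∪ E1.image Prod.swap)
    have e4 := card_union_le E1 (E1.image Prod.swap)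
    have e5 : ((R ×ˢ S).image (fun x => (x, x))).card ≤ (R ×ˢ S).card := card_image_le
    have e6 : (E1.image Prod.swap).card ≤ E1.card := card_image_le
    omega
  have hE1c : (E1.card : ℝ) ≤ C * C₁ * ((z * Z / (Real.log z * Real.log Z)) ^ 2 / Z) := by
    have e1 : E1.card = ∑ x ∈ (R ×ˢ R).filter (fun x => x.1 < x.2),
        (E1.filter (fun y => (y.1.1, y.2.1) = x)).card := by
      apply card_eq_sum_card_fiberwise
      rintro ⟨⟨p, q⟩, ⟨p', q'⟩⟩ hx
      rw [mem_coe, hE1, mem_filter, hE, mem_filter, mem_product, mem_product, mem_product] at hx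
      rw [mem_coe, mem_filter, mem_product]
      exact ⟨⟨hx.1.1.1.1, hx.1.1.2.1⟩, hx.2⟩
    have e2 : ∀ x ∈ (R ×ˢ R).filter (fun x => x.1 < x.2),
        ((E1.filter (fun y => (y.1.1, y.2.1) = x)).card : ℝ) ≤
          C * (Z / Real.log Z ^ 2) * Real.exp (C * sg (x.2 - x.1)) := by
      rintro ⟨p, p'⟩ hx
      rw [mem_filter, mem_product] at hx
      simp only at hx
      have f1 : (E1.filter (fun y => (y.1.1, y.2.1) = (p, p'))).card ≤
          ((Icc 1 Z).filter (fun n : ℕ => ((n : ℤ) + (M : ℤ)).toNat.Prime ∧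
            ((n : ℤ) + ((M : ℤ) + ((p' : ℤ) - p))).toNat.Prime)).card := by
        apply card_le_card_of_injOn (fun y => y.2.2 - M)
        · rintro ⟨⟨a, b⟩, ⟨a', b'⟩⟩ hy
          rw [mem_coe, mem_filter, hE1, mem_filter, hE, mem_filter, mem_product, mem_product,
            mem_product] at hy
          simp only [Prod.mk.injEq] at hy
          obtain ⟨⟨⟨⟨⟨h1, h2⟩, h3, h4⟩, h5⟩, h6⟩, h7, h8⟩ := hy
          have i1 := hSI _ h2
          have i2 := hSI _ h4
          rw [mem_coe, mem_filter, mem_Icc]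
          refine ⟨by simp only; omega, ?_, ?_⟩
          · have : (((b' - M : ℕ) : ℤ) + (M : ℤ)).toNat = b' := by omega
            simp only
            rw [this]
            exact i2.2.2
          · have : (((b' - M : ℕ) : ℤ) + ((M : ℤ) + ((p' : ℤ) - p))).toNat = b := by omega
            simp only
            rw [this]
            exact i1.2.2
        · rintro ⟨⟨a, b⟩, ⟨a', b'⟩⟩ hy ⟨⟨r, s⟩, ⟨r', s'⟩⟩ hw hyw
          rw [mem_coe, mem_filter, hE1, mem_filter, hE, mem_filter, mem_product, mem_product,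
            mem_product] at hy hw
          simp only [Prod.mk.injEq] at hy hw hyw ⊢
          obtain ⟨⟨⟨⟨⟨h1, h2⟩, h3, h4⟩, h5⟩, h6⟩, h7, h8⟩ := hy
          obtain ⟨⟨⟨⟨⟨k1, k2⟩, k3, k4⟩, k5⟩, k6⟩, k7, k8⟩ := hw
          have i1 := hSI _ h4
          have i2 := hSI _ k4
          omega
      have f2 := g1 (M : ℤ) ((M : ℤ) + ((p' : ℤ) - p)) (by omega)
      have f3 : ((M : ℤ) - ((M : ℤ) + ((p' : ℤ) - p))).natAbs = p' - p := by omega
      rw [f3] at f2
      calc ((E1.filter (fun y => (y.1.1, y.2.1) = (p, p'))).card : ℝ) ≤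
            C * Real.exp (C * sg (p' - p)) * (Z / Real.log Z ^ 2) :=
            le_trans (by exact_mod_cast f1) f2
        _ = _ := by ring
    calc (E1.card : ℝ) = ∑ x ∈ (R ×ˢ R).filter (fun x => x.1 < x.2),
        ((E1.filter (fun y => (y.1.1, y.2.1) = x)).card : ℝ) := by exact_mod_cast e1
      _ ≤ ∑ x ∈ (R ×ˢ R).filter (fun x => x.1 < x.2),
          C * (Z / Real.log Z ^ 2) * Real.exp (C * sg (x.2 - x.1)) := sum_le_sum e2
      _ = C * (Z / Real.log Z ^ 2) * ∑ x ∈ (R ×ˢ R).filter (fun x => x.1 < x.2),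
          Real.exp (C * sg (x.2 - x.1)) := by rw [mul_sum]
      _ ≤ C * (Z / Real.log Z ^ 2) * (C₁ * (z * (z / Real.log z ^ 2))) := by
          apply mul_le_mul_of_nonneg_left (g2 m R hR)
          positivity
      _ = _ := by field_simp
  have h1 : (E.card : ℝ) ≤ R.card * S.card + 2 * E1.card := by
    rw [card_product] at hsplit
    exact_mod_cast hsplit
  calc (E.card : ℝ) ≤ R.card * S.card + 2 * E1.card := h1
    _ ≤ R.card * S.card + 2 * (C * C₁ * ((z * Z / (Real.log z * Real.log Z)) ^ 2 / Z)) := by gcongr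
    _ = _ := by ring

/-- many integers have many representations -/
theorem sums_lower : ∃ c : ℝ, 0 < c ∧ ∃ z₀ : ℕ, ∀ δ : ℝ, 0 < δ → δ ≤ 1 →
    ∀ z Z : ℕ, z₀ ≤ z → z ≤ Z → ∀ (m M : ℕ) (R S : Finset ℕ),
    R ⊆ (Ioc m (m + z)).filter Nat.Prime → S ⊆ (Ioc M (M + Z)).filter Nat.Prime →
    δ * (z / Real.log z) ≤ R.card → δ * (Z / Real.log Z) ≤ S.card →
    c * δ ^ 4 * min (z * Z / (Real.log z * Real.log Z)) Z ≤
      (((Ioc (m + M) (m + M + (z + Z))).filter (fun N => 1 ≤ rp R S N ∧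
        c * δ ^ 2 * (z / (Real.log z * Real.log Z)) ≤ rp R S N)).card : ℝ) := by
  classical
  obtain ⟨C, hC, z₀, H⟩ := energy_primes
  refine ⟨1 / (8 * C), by positivity, z₀ + 3, fun δ hδ hδ1 z Z hz hzZ m M R S hR hS hRc hSc => ?_⟩
  have hen := H z Z (by omega) hzZ m M R S hR hS
  have hlz : 0 < Real.log z := Real.log_pos (by exact_mod_cast (by omega : 1 < z))
  have hlZ : 0 < Real.log Z := Real.log_pos (by exact_mod_cast (by omega : 1 < Z))
  have hZ0 : (0 : ℝ) < Z := by exact_mod_cast (by omega : 0 < Z)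
  have hz0 : (0 : ℝ) < z := by exact_mod_cast (by omega : 0 < z)
  have hzZr : (z : ℝ) ≤ Z := by exact_mod_cast hzZ
  obtain ⟨W, hW⟩ : ∃ W : ℝ, W = z * Z / (Real.log z * Real.log Z) := ⟨_, rfl⟩
  have hW0 : 0 < W := by rw [hW]; positivity
  rw [← hW] at hen ⊢
  have hWZ : (z : ℝ) / (Real.log z * Real.log Z) = W / Z := by
    rw [hW]
    field_simp
  rw [hWZ]
  obtain ⟨T, hT⟩ : ∃ T : ℝ, T = R.card * S.card := ⟨_, rfl⟩
  rw [← hT] at hen
  have hTW : δ ^ 2 * W ≤ T := by
    calc δ ^ 2 * W = (δ * (z / Real.log z)) * (δ * (Z / Real.log Z)) := by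
          rw [hW]
          field_simp
      _ ≤ R.card * S.card := by
          apply mul_le_mul hRc hSc (by positivity) (by positivity)
      _ = T := hT.symm
  have hT0 : 0 < T := lt_of_lt_of_le (by positivity) hTW
  obtain ⟨B, hB⟩ : ∃ B, B = Ioc (m + M) (m + M + (z + Z)) := ⟨_, rfl⟩
  obtain ⟨G, hG⟩ : ∃ G, G = B.filter (fun N => 1 ≤ rp R S N ∧
    1 / (8 * C) * δ ^ 2 * (W / Z) ≤ rp R S N) := ⟨_, rfl⟩
  rw [← hB, ← hG]
  have hfB : ∀ x ∈ R ×ˢ S, x.1 + x.2 ∈ B := by
    intro x hx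
    rw [mem_product] at hx
    have h1 := mem_Ioc.1 (mem_filter.1 (hR hx.1)).1
    have h2 := mem_Ioc.1 (mem_filter.1 (hS hx.2)).1
    rw [hB, mem_Ioc]
    omega
  -- the pairs with a good sum
  obtain ⟨A', hA'⟩ : ∃ A', A' = (R ×ˢ S).filter (fun x => x.1 + x.2 ∈ G) := ⟨_, rfl⟩
  have hAlow : T / 2 ≤ A'.card := by
    have e1 : (R ×ˢ S).card = ∑ N ∈ B, rp R S N := by
      apply card_eq_sum_card_fiberwise
      intro x hx
      exact hfB x hx
    have e2 : A'.card = ∑ N ∈ G, rp R S N := by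
      have f1 : A'.card = ∑ N ∈ G, (A'.filter (fun x => x.1 + x.2 = N)).card := by
        apply card_eq_sum_card_fiberwise
        intro x hx
        rw [mem_coe, hA', mem_filter] at hx
        exact hx.2
      rw [f1]
      apply sum_congr rfl
      intro N hN
      unfold rp
      congr 1
      ext x
      rw [mem_filter, hA', mem_filter, mem_filter]
      constructor
      · rintro ⟨⟨h1, _⟩, h2⟩
        exact ⟨h1, h2⟩
      · rintro ⟨h1, h2⟩
        exact ⟨⟨h1, by rw [h2]; exact hN⟩, h2⟩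
    have e3 : (T : ℝ) = ∑ N ∈ G, (rp R S N : ℝ) + ∑ N ∈ B \ G, (rp R S N : ℝ) := by
      have hGB : G ⊆ B := by rw [hG]; exact filter_subset _ _
      rw [add_comm, sum_sdiff hGB, hT]
      rw [card_product] at e1
      exact_mod_cast e1
    have e4 : ∑ N ∈ B \ G, (rp R S N : ℝ) ≤ T / 2 := by
      have f1 : ∀ N ∈ B \ G, (rp R S N : ℝ) ≤ T / (4 * Z) := by
        intro N hN
        rw [Finset.mem_sdiff, hG, mem_filter, not_and] at hN
        have h2 := hN.2 hN.1
        by_cases h3 : 1 ≤ rp R S N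
        · have h4 : ¬ 1 / (8 * C) * δ ^ 2 * (W / Z) ≤ rp R S N := fun h => h2 ⟨h3, h⟩
          push Not at h4
          refine h4.le.trans ?_
          calc 1 / (8 * C) * δ ^ 2 * (W / Z) = 1 / (8 * C) * (δ ^ 2 * W) / Z := by ring
            _ ≤ 1 / (8 * 1) * T / Z := by gcongr
            _ ≤ T / (4 * Z) := by
                rw [div_le_div_iff₀ hZ0 (by positivity)]
                nlinarith
        · have : rp R S N = 0 := by omega
          rw [this]
          push_cast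
          positivity
      calc ∑ N ∈ B \ G, (rp R S N : ℝ) ≤ ∑ N ∈ B \ G, T / (4 * Z) := sum_le_sum f1
        _ = (B \ G).card * (T / (4 * Z)) := by rw [sum_const, nsmul_eq_mul]
        _ ≤ (2 * Z) * (T / (4 * Z)) := by
            apply mul_le_mul_of_nonneg_right _ (by positivity)
            have : (B \ G).card ≤ B.card := card_le_card sdiff_subset
            have h5 : B.card = z + Z := by rw [hB, Nat.card_Ioc]; omega
            have h6 : ((B \ G).card : ℝ) ≤ z + Z := by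
              rw [h5] at this
              exact_mod_cast this
            linarith
        _ = T / 2 := by field_simp; norm_num
    have e5 : (A'.card : ℝ) = ∑ N ∈ G, (rp R S N : ℝ) := by exact_mod_cast e2
    rw [e5]
    linarith
  have hcs := cs_image A' (fun x => x.1 + x.2) G (by
    intro x hx
    rw [hA', mem_filter] at hx
    exact hx.2)
  have hsub : ((A' ×ˢ A').filter (fun x : (ℕ × ℕ) × (ℕ × ℕ) => x.1.1 + x.1.2 = x.2.1 + x.2.2)).card ≤
      (((R ×ˢ S) ×ˢ (R ×ˢ S)).filter (fun x => x.1.1 + x.1.2 = x.2.1 + x.2.2)).card := by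
    apply card_le_card
    apply filter_subset_filter
    rw [hA']
    exact product_subset_product (filter_subset _ _) (filter_subset _ _)
  have hsub' : (((A' ×ˢ A').filter (fun x : (ℕ × ℕ) × (ℕ × ℕ) =>
      x.1.1 + x.1.2 = x.2.1 + x.2.2)).card : ℝ) ≤ T + C * (W ^ 2 / Z) :=
    le_trans (by exact_mod_cast hsub) hen
  have hmain : (T / 2) ^ 2 ≤ G.card * (T + C * (W ^ 2 / Z)) := by
    calc (T / 2) ^ 2 ≤ (A'.card : ℝ) ^ 2 := pow_le_pow_left₀ (by positivity) hAlow 2
      _ ≤ _ := hcs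
      _ ≤ _ := by gcongr
  obtain ⟨g, hg⟩ : ∃ g : ℝ, g = G.card := ⟨_, rfl⟩
  rw [← hg] at hmain ⊢
  have hg0 : 0 ≤ g := by rw [hg]; exact Nat.cast_nonneg _
  have hmin : min W (Z : ℝ) ≤ W := min_le_left _ _
  have hmin' : min W (Z : ℝ) ≤ Z := min_le_right _ _
  have hmin0 : 0 < min W (Z : ℝ) := lt_min hW0 hZ0
  rcases le_total (C * (W ^ 2 / Z)) T with h | h
  · have h1 : (T / 2) ^ 2 ≤ g * (2 * T) := hmain.trans (by gcongr; linarith)
    have h2 : T ≤ 8 * g := by nlinarith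
    have h3 : δ ^ 4 ≤ δ ^ 2 := pow_le_pow_of_le_one hδ.le hδ1 (by norm_num)
    calc 1 / (8 * C) * δ ^ 4 * min W Z ≤ 1 / (8 * 1) * δ ^ 2 * W := by gcongr
      _ = (δ ^ 2 * W) / 8 := by ring
      _ ≤ T / 8 := by gcongr
      _ ≤ g := by linarith
  · have h1 : (T / 2) ^ 2 ≤ g * (2 * (C * (W ^ 2 / Z))) := hmain.trans (by gcongr; linarith)
    have h2 : (δ ^ 2 * W / 2) ^ 2 ≤ g * (2 * (C * (W ^ 2 / Z))) :=
      le_trans (pow_le_pow_left₀ (by positivity) (by linarith) 2) h1
    have h3 : δ ^ 4 * Z ≤ 8 * C * g := by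
      have e1 : (δ ^ 2 * W / 2) ^ 2 = (δ ^ 4 * Z) * (W ^ 2 / (4 * Z)) := by field_simp; ring
      have e2 : g * (2 * (C * (W ^ 2 / Z))) = (8 * C * g) * (W ^ 2 / (4 * Z)) := by
        field_simp
        ring
      rw [e1, e2] at h2
      exact le_of_mul_le_mul_right h2 (by positivity)
    calc 1 / (8 * C) * δ ^ 4 * min W Z ≤ 1 / (8 * C) * δ ^ 4 * Z := by gcongr
      _ = (δ ^ 4 * Z) / (8 * C) := by ring
      _ ≤ (8 * C * g) / (8 * C) := by gcongr
      _ = g := by field_simp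

end Pool.Agent.X31
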