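import Mathlib

/-! Sets of odd primes whose product is minimal among the sets of primes with the same sum. -/

set_option autoImplicit false

namespace Pool.Agent.X31.DP

open Finset

/-- a set of primes -/
def PS (S : Finset ℕ) : Prop := ∀ p ∈ S, p.Prime

/-- the product of any set of primes with the same sum is at least as large -/
def Opt (A : Finset ℕ) : Prop :=
  PS A ∧ ∀ B : Finset ℕ, PS B → ∑ p ∈ B, p = ∑ p ∈ A, p → ∏ p ∈ A, p ≤ ∏ p ∈ B, p

lemma sum_le_prod (S : Finset ℕ) (h : ∀ p ∈ S, 2 ≤ p) (hS : S.Nonempty) : ∑ p ∈ S, p ≤ ∏ p ∈ S, p := by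
  classical
  induction hS using Finset.Nonempty.cons_induction with
  | singleton a => simp
  | cons a s ha hs ih =>
    rw [sum_cons, prod_cons]
    have h1 := ih (fun p hp => h p (mem_cons_of_mem hp))
    have h2 : 2 ≤ a := h a (mem_cons_self a s)
    have h3 : 2 ≤ ∑ p ∈ s, p := by
      obtain ⟨b, hb⟩ := hs
      exact (h b (mem_cons_of_mem hb)).trans (single_le_sum (f := fun p : ℕ => p) (fun i _ => Nat.zero_le i) hb)
    nlinarith

lemma exists_sub (M t : ℕ) (H : Finset ℕ) (hM : ∀ h ∈ H, h ≤ M) (ht : t ≤ ∑ h ∈ H, h) :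
    ∃ G ⊆ H, t ≤ ∑ h ∈ G, h ∧ ∑ h ∈ G, h ≤ t + M := by
  classical
  induction H using Finset.induction_on with
  | empty => exact ⟨∅, Subset.refl _, ht, by simp⟩
  | insert a H ha ih =>
    rcases le_or_gt t (∑ h ∈ H, h) with h1 | h1
    · obtain ⟨G, hG, h2, h3⟩ := ih (fun h hh => hM h (mem_insert_of_mem hh)) h1
      exact ⟨G, hG.trans (subset_insert _ _), h2, h3⟩
    · refine ⟨insert a H, Subset.refl _, ht, ?_⟩
      rw [sum_insert ha]
      have := hM a (mem_insert_self _ _)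
      omega

/-- if all the elements are small then the product is large -/
lemma prod_large (b s P : ℕ) (H : Finset ℕ) (h2 : ∀ p ∈ H, 2 ≤ p) (hs : ∑ p ∈ H, p = b + s)
    (hb : 28 * P + 28 ≤ b) (hH : ∀ p ∈ H, 2 * p < b) : P * b ≤ ∏ p ∈ H, p := by
  classical
  have hne : H.Nonempty := by
    rw [nonempty_iff_ne_empty]
    rintro rfl
    rw [sum_empty] at hs
    omega
  set M := H.max' hne with hM
  have hMm : M ∈ H := max'_mem _ _
  have hMb := hH M hMm
  obtain ⟨G, hG, h3, h4⟩ := exists_sub M (b / 4) H (fun h hh => le_max' _ _ hh) (by omega)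
  have h5 : ∑ p ∈ H \ G, p + ∑ p ∈ G, p = b + s := by
    rw [sum_sdiff hG, hs]
  have h6 : b / 4 ≤ ∑ p ∈ H \ G, p := by omega
  have h7 : G.Nonempty := by
    rw [nonempty_iff_ne_empty]
    intro h
    rw [h, sum_empty] at h3
    omega
  have h8 : (H \ G).Nonempty := by
    rw [nonempty_iff_ne_empty]
    intro h
    rw [h, sum_empty] at h6
    omega
  have h9 := sum_le_prod G (fun p hp => h2 p (hG hp)) h7
  have h10 := sum_le_prod (H \ G) (fun p hp => h2 p (sdiff_subset hp)) h8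
  rw [← prod_sdiff hG]
  have h11 : b / 4 * (b / 4) ≤ (∏ p ∈ H \ G, p) * ∏ p ∈ G, p :=
    Nat.mul_le_mul (h6.trans h10) (h3.trans h9)
  refine le_trans ?_ h11
  obtain ⟨q, hq⟩ : ∃ q, q = b / 4 := ⟨_, rfl⟩
  rw [← hq]
  have e1 : b ≤ 4 * q + 3 := by omega
  have e2 : 7 * P + 7 ≤ q := by omega
  calc P * b ≤ P * (4 * q + 3) := Nat.mul_le_mul_left _ e1
    _ ≤ q * q := by nlinarith

theorem step (A : Finset ℕ) (hA : Opt A) : ∃ L c N₀ : ℕ, 1 ≤ L ∧ c.Coprime L ∧
    ∀ b : ℕ, b.Prime → N₀ ≤ b → b ≡ c [MOD L] → b ∉ A ∧ Opt (insert b A) := by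
  classical
  set s := ∑ p ∈ A, p with hs
  set P := ∏ p ∈ A, p with hP
  have hPpos : 0 < P := prod_pos (fun p hp => (hA.1 p hp).pos)
  set V : Finset ℕ := (((range (2 * P + 1)).powerset.image (fun B => ∑ p ∈ B, p)).erase s) with hV
  set K := s + V.sup id + 1 with hK
  set l : ℕ → ℕ := fun v => Nat.nth Nat.Prime (K + v) with hl
  have hlp : ∀ v, (l v).Prime := fun v => Nat.prime_nth_prime _
  have hlb : ∀ v, K + v + 2 ≤ l v := fun v => Nat.add_two_le_nth_prime _
  have hVle : ∀ v ∈ V, v ≤ V.sup id := fun v hv => le_sup (f := id) hv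
  have hco : Set.Pairwise (V : Set ℕ) (Function.onFun Nat.Coprime l) := by
    intro v _ w _ hvw
    show Nat.Coprime (l v) (l w)
    rw [Nat.coprime_primes (hlp v) (hlp w)]
    intro h
    have := Nat.nth_injective Nat.infinite_setOfPred_prime h
    omega
  obtain ⟨c, hc⟩ := Nat.chineseRemainderOfFinset (fun v => v + (l v - s)) l V
    (fun v _ => (hlp v).ne_zero) hco
  have hcop : c.Coprime (∏ v ∈ V, l v) := by
    apply Nat.Coprime.prod_right
    intro v hv
    rw [Nat.coprime_comm, Nat.Prime.coprime_iff_not_dvd (hlp v)]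
    intro hd
    have h1 := hc v hv
    have h2 : l v ∣ v + (l v - s) := (h1.dvd_iff dvd_rfl).1 hd
    have h3 := hlb v
    have h4 := hVle v hv
    have h5 : v ≠ s := (mem_erase.1 hv).1
    obtain ⟨k, hk⟩ := h2
    rcases Nat.lt_or_gt_of_ne h5 with h6 | h6
    · have h7 : v + (l v - s) < l v := by omega
      rcases k with _ | k
      · omega
      · rw [hk] at h7
        have : l v * 1 ≤ l v * (k + 1) := Nat.mul_le_mul_left _ (by omega)
        omega
    · have h7 : l v < v + (l v - s) := by omega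
      have h8 : v + (l v - s) < 2 * l v := by omega
      rcases k with _ | _ | k
      · omega
      · omega
      · rw [hk] at h8
        have : l v * 2 ≤ l v * (k + 1 + 1) := Nat.mul_le_mul_left _ (by omega)
        omega
  refine ⟨∏ v ∈ V, l v, c, 28 * P + 28 + s + 2 * V.sup l, ?_, hcop, ?_⟩
  · exact prod_pos (fun v _ => (hlp v).pos)
  intro b hb hbN hbc
  have hbA : b ∉ A := by
    intro h
    have : b ≤ s := single_le_sum (f := fun p : ℕ => p) (fun i _ => Nat.zero_le i) h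
    omega
  refine ⟨hbA, ?_, ?_⟩
  · intro p hp
    rcases mem_insert.1 hp with h | h
    · rw [h]; exact hb
    · exact hA.1 p h
  intro H hH hsum
  rw [sum_insert hbA] at hsum
  rw [prod_insert hbA, mul_comm]
  change P * b ≤ _
  have h2 : ∀ p ∈ H, 2 ≤ p := fun p hp => (hH p hp).two_le
  by_cases hsm : ∀ p ∈ H, 2 * p < b
  · exact prod_large b s P H h2 hsum (by omega) hsm
  push Not at hsm
  obtain ⟨h, hh, hbh⟩ := hsm
  have e1 : h + ∑ p ∈ H.erase h, p = b + s := by rw [add_sum_erase H (fun p => p) hh, hsum]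
  rw [← mul_prod_erase H (fun p => p) hh]
  rcases lt_or_ge (2 * P) (∏ p ∈ H.erase h, p) with h3 | h3
  · calc P * b ≤ P * (2 * h) := Nat.mul_le_mul_left _ hbh
      _ = h * (2 * P) := by ring
      _ ≤ h * ∏ p ∈ H.erase h, p := Nat.mul_le_mul_left _ h3.le
  by_cases h4 : ∑ p ∈ H.erase h, p = s
  · have h5 : h = b := by omega
    have h6 := hA.2 (H.erase h) (fun p hp => hH p (mem_of_mem_erase hp)) (by rw [h4])
    rw [h5] at h6 ⊢
    rw [mul_comm]
    exact Nat.mul_le_mul_left _ h6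
  exfalso
  have h5 : ∑ p ∈ H.erase h, p ∈ V := by
    rw [hV, mem_erase]
    refine ⟨h4, mem_image.2 ⟨H.erase h, ?_, rfl⟩⟩
    rw [mem_powerset]
    intro p hp
    rw [mem_range]
    have : p ∣ ∏ p ∈ H.erase h, p := dvd_prod_of_mem (fun p => p) hp
    have := Nat.le_of_dvd (prod_pos (fun q hq => (hH q (mem_of_mem_erase hq)).pos)) this
    omega
  set v := ∑ p ∈ H.erase h, p with hv
  have h6 : b ≡ v + (l v - s) [MOD l v] :=
    (hbc.of_dvd (dvd_prod_of_mem l h5)).trans (hc v h5)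
  have h7 : b + s ≡ v + l v [MOD l v] := by
    have h8 := h6.add_right s
    have h9 := hlb v
    rwa [show v + (l v - s) + s = v + l v by omega] at h8
  have h8 : h + v ≡ 0 + v [MOD l v] := by
    rw [e1, zero_add]
    exact h7.trans (by simp [Nat.ModEq])
  have h9 : l v ∣ h := (Nat.modEq_zero_iff_dvd).1 (Nat.ModEq.add_right_cancel' v h8)
  have h10 : l v = h := (Nat.prime_dvd_prime_iff_eq (hlp v) (hH h hh)).1 h9
  have h11 : l v ≤ V.sup l := le_sup (f := l) h5
  omega

end Pool.Agent.X31.DP
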