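import Pool.Agent.W93.GB4
import Pool.Agent.H387R2.U3

/-! Primes `b` of a residue class such that `b + s` is a sum of two different primes. -/

set_option autoImplicit false

namespace Pool.Agent.X31.DP

open Finset Filter
open Pool.Agent.H560R3.GB (energy g)

lemma energy_one (N : ℕ) : energy 1 N (fun m => 2 * m) ≤ N := by
  classical
  unfold energy
  have h1 : (((Fintype.piFinset fun _ : Fin 1 => Icc 1 N) ×ˢ (Fintype.piFinset fun _ : Fin 1 => Icc 1 N)).filter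
      (fun q => ∑ i, (2 * q.1 i) = ∑ i, (2 * q.2 i))).card ≤ (Fintype.piFinset fun _ : Fin 1 => Icc 1 N).card := by
    apply card_le_card_of_injOn (fun q => q.1)
    · intro q hq
      rw [mem_coe, mem_filter, mem_product] at hq
      exact hq.1.1
    · intro q hq r hr h
      rw [mem_coe, mem_filter] at hq hr
      have e1 := hq.2
      have e2 := hr.2
      simp only [Fin.sum_univ_one] at e1 e2
      have e3 : q.1 = r.1 := h
      refine Prod.ext e3 ?_
      funext i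
      rw [Subsingleton.elim i 0]
      rw [e3] at e1
      omega
  refine h1.trans ?_
  rw [Fintype.card_piFinset]
  simp

/-- almost all even numbers are sums of two different primes -/
lemma exc (ε : ℝ) (hε : 0 < ε) : ∃ N₀ : ℕ, ∀ N : ℕ, N₀ ≤ N → ∀ S : Finset ℕ, S ⊆ Icc 1 N →
    (∀ m ∈ S, ¬ Pool.Agent.W93.GB.Good ε (2 * m)) → (S.card : ℝ) ≤ N / Real.log N ^ 2 := by
  obtain ⟨N₀, h⟩ := Pool.Agent.W93.GB.fam 1 2 0 2 le_rfl ε hε
  refine ⟨N₀, fun N hN S hS hb => ?_⟩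
  refine h N hN N (fun m => 2 * m) ?_ ?_ S hS hb
  · intro m hm
    rw [mem_Icc] at hm
    exact ⟨by omega, dvd_mul_right _ _⟩
  · rw [pow_zero, one_mul]
    have h1 : ((energy 1 N (fun m => 2 * m) : ℕ) : ℝ) ≤ N := by exact_mod_cast energy_one N
    calc ((energy 1 N (fun m => 2 * m) : ℕ) : ℝ) * N ≤ N * N := mul_le_mul_of_nonneg_right h1 (Nat.cast_nonneg _)
      _ = (N : ℝ) ^ (2 * 1) := by ring

theorem gold (L c s N₁ : ℕ) (hL : 1 ≤ L) (hc : c.Coprime L) (hs : Odd s) :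
    ∃ b : ℕ, b.Prime ∧ N₁ ≤ b ∧ b ≡ c [MOD L] ∧ ∃ p q : ℕ, p.Prime ∧ q.Prime ∧ p ≠ q ∧ p + q = b + s := by
  classical
  by_contra hcon
  push Not at hcon
  obtain ⟨N₀, h1⟩ := exc 1 one_pos
  obtain ⟨x0, h2⟩ := Pool.Agent.H387R2.Uni.siegel
  have h3 := Pool.Agent.H387R2.Uni.pi1_lower (η := 1 / 2) (by norm_num)
  -- largeness
  have hLr : (1 : ℝ) ≤ L := by exact_mod_cast hL
  have t1 : ∀ᶠ N : ℕ in atTop, (16 * (L : ℝ) ^ 2 + 16 * (L : ℝ) + 16) ≤ Real.log N :=
    (Real.tendsto_log_atTop.comp tendsto_natCast_atTop_atTop).eventually_ge_atTop _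
  have t2 : ∀ᶠ N : ℕ in atTop, Real.log N ^ (2 : ℝ) ≤ (1 / (N₁ + 3 : ℝ)) * N :=
    tendsto_natCast_atTop_atTop.eventually (Pool.Agent.H387R2.Uni.log_pow_small 2 (by positivity))
  obtain ⟨N, hN⟩ := (t1.and (t2.and (h3.and (eventually_ge_atTop (N₀ + x0 + s + 3))))).exists
  obtain ⟨a1, a2, a3, a4⟩ := hN
  have hNr : (3 : ℝ) ≤ N := by exact_mod_cast (by omega : 3 ≤ N)
  set ℓ := Real.log N with hℓ
  have hℓ1 : 16 ≤ ℓ := by nlinarith
  have hℓ0 : 0 < ℓ := by linarith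
  have hLℓ : 16 * (L : ℝ) ≤ ℓ := by nlinarith
  rw [Real.rpow_ofNat] at a2
  have b1 := h2 N (by omega) L hL (by
    rw [← hℓ]
    nlinarith) (c % L) (Nat.mod_lt _ (by omega)) (by
      rw [Nat.coprime_iff_gcd_eq_one, ← Nat.gcd_rec, Nat.gcd_comm]
      exact hc)
  -- the set of primes
  set B := (Icc 1 N).filter (fun p => p.Prime ∧ p ≡ c % L [MOD L]) with hB
  have b2 : H343E.piAP N L (c % L) = (B.card : ℝ) := rfl
  rw [b2] at b1
  have hphi : ((Nat.totient L : ℕ) : ℝ) ≤ L := by exact_mod_cast Nat.totient_le L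
  have hphi0 : (0 : ℝ) < Nat.totient L := by exact_mod_cast Nat.totient_pos.2 (by omega)
  have b3 : (N : ℝ) / ℓ / (2 * L) ≤ H343E.pi1 N / (Nat.totient L : ℝ) := by
    rw [div_le_div_iff₀ (by positivity) hphi0]
    have e0 : 0 ≤ (N : ℝ) / ℓ := by positivity
    have e1 : (1 - 1 / 2) * ((N : ℝ) / ℓ) ≤ H343E.pi1 N := a3
    calc (N : ℝ) / ℓ * (Nat.totient L : ℝ) ≤ (N : ℝ) / ℓ * L := mul_le_mul_of_nonneg_left hphi e0
      _ = ((1 - 1 / 2) * ((N : ℝ) / ℓ)) * (2 * L) := by ring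
      _ ≤ H343E.pi1 N * (2 * L) := mul_le_mul_of_nonneg_right e1 (by positivity)
  have b4 : (N : ℝ) / ℓ / (2 * L) - N / ℓ ^ 6 ≤ B.card := by
    rw [abs_le] at b1
    linarith [b1.1]
  -- the exceptional set
  set S := (B.filter (fun b => N₁ ≤ b ∧ 3 ≤ b)).image (fun b => (b + s) / 2) with hS
  have hodd : ∀ b ∈ B.filter (fun b => N₁ ≤ b ∧ 3 ≤ b), 2 * ((b + s) / 2) = b + s := by
    intro b hb
    rw [mem_filter, hB, mem_filter] at hb
    have h4 : Odd b := hb.1.2.1.odd_of_ne_two (by omega)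
    have h5 : Even (b + s) := h4.add_odd hs
    exact Nat.two_mul_div_two_of_even h5
  have b5 : S.card = (B.filter (fun b => N₁ ≤ b ∧ 3 ≤ b)).card := by
    apply card_image_of_injOn
    intro b hb b' hb' hbb
    have e1 := hodd b hb
    have e2 := hodd b' hb'
    have e3 : (b + s) / 2 = (b' + s) / 2 := hbb
    omega
  have b6 : (S.card : ℝ) ≤ N / Real.log N ^ 2 := by
    apply h1 N (by omega) S
    · intro m hm
      rw [hS, mem_image] at hm
      obtain ⟨b, hb, rfl⟩ := hm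
      rw [mem_filter, hB, mem_filter, mem_Icc] at hb
      rw [mem_Icc]
      omega
    · intro m hm hG
      rw [hS, mem_image] at hm
      obtain ⟨b, hb, rfl⟩ := hm
      rw [hodd b hb] at hG
      obtain ⟨-, p, q, hp, hq, hpq, hsum⟩ := hG
      rw [mem_filter, hB, mem_filter] at hb
      refine hcon b hb.1.2.1 hb.2.1 (hb.1.2.2.trans (Nat.mod_modEq c L)) p q hp hq hpq hsum
  have b7 : B.card ≤ (B.filter (fun b => N₁ ≤ b ∧ 3 ≤ b)).card + (N₁ + 3) := by
    rw [← card_filter_add_card_filter_not (s := B) (fun b => N₁ ≤ b ∧ 3 ≤ b)]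
    apply Nat.add_le_add_left
    calc (B.filter (fun b => ¬ (N₁ ≤ b ∧ 3 ≤ b))).card ≤ (range (N₁ + 3)).card := by
          apply card_le_card
          intro b hb
          rw [mem_filter] at hb
          rw [mem_range]
          omega
      _ = N₁ + 3 := card_range _
  have b8 : (B.card : ℝ) ≤ N / ℓ ^ 2 + (N₁ + 3) := by
    have e1 : (B.card : ℝ) ≤ (B.filter (fun b => N₁ ≤ b ∧ 3 ≤ b)).card + (N₁ + 3) := by exact_mod_cast b7
    rw [← b5] at e1
    linarith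
  -- the contradiction
  have hN0 : (0 : ℝ) < N := by linarith
  have c1 : (N₁ + 3 : ℝ) ≤ N / ℓ ^ 2 := by
    rw [le_div_iff₀ (by positivity)]
    have : (0 : ℝ) < N₁ + 3 := by positivity
    have e1 : (N₁ + 3 : ℝ) * ((1 / (N₁ + 3 : ℝ)) * N) = N := by field_simp
    nlinarith
  have c2 : (N : ℝ) / ℓ ^ 6 ≤ N / ℓ ^ 2 := by
    apply div_le_div_of_nonneg_left hN0.le (by positivity)
    exact pow_le_pow_right₀ (by linarith) (by norm_num)
  have c3 : 4 * ((N : ℝ) / ℓ ^ 2) ≤ (N : ℝ) / ℓ / (2 * L) / 2 := by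
    have e1 : (N : ℝ) / ℓ / (2 * L) / 2 = N * ℓ / (4 * L) / ℓ ^ 2 := by field_simp; ring
    rw [e1, ← mul_div_assoc]
    apply div_le_div_of_nonneg_right _ (by positivity)
    rw [le_div_iff₀ (by positivity)]
    nlinarith
  have c4 : 0 < (N : ℝ) / ℓ ^ 2 := by positivity
  linarith

end Pool.Agent.X31.DP
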