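import Mathlib

/-! A comparison of the products of two sets of integers: the elements of `H` are at most `p`, those of `T` are
larger than `p + G`, and the sum of `H` is at least that of `T`. -/

set_option autoImplicit false

namespace Pool.Agent.X31.DP

open Finset

lemma F_step (p : ℕ) (hp : 4 ≤ p) (h s : ℕ) (h2 : 2 ≤ h) (hhp : h ≤ p) :
    (p - 2) ^ ((s + h) / p) * max 2 ((s + h) % p) ≤ ((p - 2) ^ (s / p) * max 2 (s % p)) * h := by
  obtain ⟨a, ha⟩ : ∃ a, a = s / p := ⟨_, rfl⟩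
  obtain ⟨b, hb⟩ : ∃ b, b = s % p := ⟨_, rfl⟩
  have hbp : b < p := by rw [hb]; exact Nat.mod_lt _ (by omega)
  have hs : s = p * a + b := by rw [ha, hb]; exact (Nat.div_add_mod s p).symm
  obtain ⟨d, hd⟩ : ∃ d, p = d + 2 := ⟨p - 2, by omega⟩
  have hd2 : p - 2 = d := by omega
  rw [← ha, ← hb, hd2]
  rcases lt_or_ge (b + h) p with h1 | h1
  · have e1 : (s + h) / p = a := by
      rw [hs, add_assoc, Nat.mul_add_div (by omega), Nat.div_eq_of_lt h1, add_zero]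
    have e2 : (s + h) % p = b + h := by
      rw [hs, add_assoc, Nat.mul_add_mod, Nat.mod_eq_of_lt h1]
    rw [e1, e2, mul_assoc]
    apply Nat.mul_le_mul_left
    rw [max_eq_right (by omega)]
    rcases le_or_gt b 2 with h3 | h3
    · rw [max_eq_left h3]; omega
    · rw [max_eq_right h3.le]; nlinarith
  · have e1 : (s + h) / p = a + 1 := by
      rw [hs, add_assoc, Nat.mul_add_div (by omega)]
      congr 1
      rw [Nat.div_eq_iff (by omega)]
      omega
    have e2 : (s + h) % p = b + h - p := by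
      rw [hs, add_assoc, Nat.mul_add_mod, Nat.mod_eq_sub_mod h1, Nat.mod_eq_of_lt (by omega)]
    rw [e1, e2, pow_succ, mul_assoc, mul_assoc]
    apply Nat.mul_le_mul_left
    obtain ⟨k, hk⟩ : ∃ k, b + h = p + k := ⟨b + h - p, by omega⟩
    rw [show b + h - p = k by omega]
    rcases le_or_gt b 2 with h3 | h3
    · rw [max_eq_left h3, max_eq_left (by omega)]
      have : d ≤ h := by omega
      nlinarith
    · rw [max_eq_right h3.le]
      rcases le_or_gt k 2 with h4 | h4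
      · rw [max_eq_left h4]
        obtain ⟨x, hx⟩ : ∃ x, b = x + 2 := ⟨b - 2, by omega⟩
        obtain ⟨y, hy⟩ : ∃ y, h = y + 2 := ⟨h - 2, by omega⟩
        subst hx hy
        nlinarith [Nat.zero_le (x * y)]
      · rw [max_eq_right h4.le]
        obtain ⟨x, hx⟩ : ∃ x, p = b + x := ⟨p - b, by omega⟩
        obtain ⟨y, hy⟩ : ∃ y, p = h + y := ⟨p - h, by omega⟩
        have h5 : k + x = h := by omega
        have h6 : k + y = b := by omega
        have h7 : d + 2 = k + x + y := by omega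
        rw [← h5, ← h6]
        have h8 : d ≤ k + x + y := by omega
        calc d * k ≤ (k + x + y) * k := Nat.mul_le_mul_right _ h8
          _ ≤ (k + y) * (k + x) := by nlinarith [Nat.zero_le (x * y)]

lemma F_prod (p : ℕ) (hp : 4 ≤ p) (H : Finset ℕ) (hH : ∀ h ∈ H, 2 ≤ h ∧ h ≤ p) :
    (p - 2) ^ ((∑ h ∈ H, h) / p) * max 2 ((∑ h ∈ H, h) % p) ≤ 2 * ∏ h ∈ H, h := by
  classical
  induction H using Finset.induction_on with
  | empty => simp
  | insert a H ha ih =>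
    rw [sum_insert ha, prod_insert ha, add_comm]
    have h1 := ih (fun h hh => hH h (mem_insert_of_mem hh))
    obtain ⟨h2, h3⟩ := hH a (mem_insert_self _ _)
    calc _ ≤ ((p - 2) ^ ((∑ h ∈ H, h) / p) * max 2 ((∑ h ∈ H, h) % p)) * a := F_step p hp a _ h2 h3
      _ ≤ (2 * ∏ h ∈ H, h) * a := Nat.mul_le_mul_right _ h1
      _ = 2 * (a * ∏ h ∈ H, h) := by ring

lemma prodT (p : ℕ) (hp : 4 ≤ p) (T : Finset ℕ) (_hT : ∀ t ∈ T, p ≤ t) (E : ℕ)
    (hE : ∑ t ∈ T, t ≤ T.card * p + E) :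
    (∏ t ∈ T, (t : ℝ)) ≤ (p : ℝ) ^ T.card * Real.exp ((E : ℝ) / p) := by
  have hp0 : (0 : ℝ) < p := by exact_mod_cast (by omega : 0 < p)
  have h1 : ∀ t ∈ T, (t : ℝ) ≤ p * Real.exp (((t : ℝ) - p) / p) := by
    intro t _
    have h2 := Real.add_one_le_exp (((t : ℝ) - p) / p)
    have h3 : (t : ℝ) = p * (((t : ℝ) - p) / p + 1) := by field_simp; ring
    calc (t : ℝ) = p * (((t : ℝ) - p) / p + 1) := h3
      _ ≤ _ := mul_le_mul_of_nonneg_left h2 hp0.le
  calc (∏ t ∈ T, (t : ℝ)) ≤ ∏ t ∈ T, (p * Real.exp (((t : ℝ) - p) / p)) :=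
        prod_le_prod (fun t _ => Nat.cast_nonneg t) h1
    _ = (p : ℝ) ^ T.card * Real.exp (∑ t ∈ T, ((t : ℝ) - p) / p) := by
        rw [prod_mul_distrib, prod_const, Real.exp_sum]
    _ ≤ _ := by
        apply mul_le_mul_of_nonneg_left _ (by positivity)
        apply Real.exp_le_exp.2
        rw [← sum_div, sum_sub_distrib, sum_const, nsmul_eq_mul]
        apply div_le_div_of_nonneg_right _ hp0.le
        have : ((∑ t ∈ T, t : ℕ) : ℝ) ≤ T.card * p + E := by exact_mod_cast hE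
        push_cast at this
        linarith

lemma pow_ratio (p r : ℕ) (hp : 4 ≤ p) (hr : 2 * r + 1 ≤ p) : (p : ℝ) ^ r ≤ 8 * ((p : ℝ) - 2) ^ r := by
  have hp4 : (4 : ℝ) ≤ p := by exact_mod_cast hp
  have hd : (0 : ℝ) < (p : ℝ) - 2 := by linarith
  have hr' : (2 : ℝ) * r + 1 ≤ p := by exact_mod_cast hr
  have h1 : (p : ℝ) ≤ ((p : ℝ) - 2) * Real.exp (2 / ((p : ℝ) - 2)) := by
    have h2 := Real.add_one_le_exp (2 / ((p : ℝ) - 2))
    have h3 : (p : ℝ) = ((p : ℝ) - 2) * (2 / ((p : ℝ) - 2) + 1) := by field_simp; ring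
    calc (p : ℝ) = ((p : ℝ) - 2) * (2 / ((p : ℝ) - 2) + 1) := h3
      _ ≤ _ := mul_le_mul_of_nonneg_left h2 hd.le
  calc (p : ℝ) ^ r ≤ (((p : ℝ) - 2) * Real.exp (2 / ((p : ℝ) - 2))) ^ r := by gcongr
    _ = Real.exp (r * (2 / ((p : ℝ) - 2))) * ((p : ℝ) - 2) ^ r := by
        rw [mul_pow, ← Real.exp_nat_mul, mul_comm]
    _ ≤ 8 * ((p : ℝ) - 2) ^ r := by
        apply mul_le_mul_of_nonneg_right _ (by positivity)
        have h4 : (r : ℝ) * (2 / ((p : ℝ) - 2)) ≤ 2 := by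
          rw [mul_div_assoc', div_le_iff₀ hd]
          linarith
        calc Real.exp (r * (2 / ((p : ℝ) - 2))) ≤ Real.exp 2 := Real.exp_le_exp.2 h4
          _ = Real.exp 1 * Real.exp 1 := by rw [← Real.exp_add]; norm_num
          _ ≤ 2.7182818286 * 2.7182818286 := by
              have := Real.exp_one_lt_d9.le
              have h0 := (Real.exp_pos 1).le
              nlinarith
          _ ≤ 8 := by norm_num

theorem big (C : ℕ) : ∃ G p₀ : ℕ, 1 ≤ G ∧ ∀ p : ℕ, p₀ ≤ p → ∀ (H T : Finset ℕ) (σ : ℕ),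
    (∀ h ∈ H, 2 ≤ h ∧ h ≤ p) → 2 * H.card ≤ p + 1 → T.Nonempty → (∀ t ∈ T, p + G ≤ t) →
    ∑ h ∈ H, h = ∑ t ∈ T, t + σ → C * ∏ t ∈ T, t < ∏ h ∈ H, h := by
  classical
  refine ⟨48 * C + 49, 3 * (48 * C + 1) + 4, by omega, fun p hp H T σ hH hcard hTne hT hsum => ?_⟩
  set G := 48 * C + 49 with hG
  have hp4 : 4 ≤ p := by omega
  obtain ⟨r, hr⟩ : ∃ r, r = T.card := ⟨_, rfl⟩
  have hr1 : 1 ≤ r := by rw [hr]; exact card_pos.2 hTne
  have k1 : r * (p + G) ≤ ∑ t ∈ T, t := by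
    rw [hr]
    have := Finset.card_nsmul_le_sum T (fun t => t) (p + G) hT
    simpa [smul_eq_mul] using this
  have k2 : ∑ h ∈ H, h ≤ H.card * p := by
    have := Finset.sum_le_card_nsmul H (fun h => h) p (fun h hh => (hH h hh).2)
    simpa [smul_eq_mul] using this
  have k3 : r < H.card := by
    by_contra hcon
    push Not at hcon
    have : H.card * p ≤ r * p := Nat.mul_le_mul_right _ hcon
    have e : r * (p + G) = r * p + r * G := by ring
    have : 1 ≤ r * G := Nat.mul_pos hr1 (by omega)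
    omega
  have k4 : 2 * r + 1 ≤ p := by omega
  obtain ⟨E, hE⟩ : ∃ E, ∑ h ∈ H, h = p * r + E := ⟨∑ h ∈ H, h - p * r, by
    have e : r * (p + G) = p * r + r * G := by ring
    omega⟩
  have k5 : G ≤ E := by
    have e : r * (p + G) = p * r + r * G := by ring
    have : G ≤ r * G := Nat.le_mul_of_pos_left _ hr1
    omega
  have k6 := F_prod p hp4 H hH
  rw [hE, Nat.mul_add_div (by omega), Nat.mul_add_mod] at k6
  obtain ⟨a, ha⟩ : ∃ a, a = E / p := ⟨_, rfl⟩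
  obtain ⟨b, hb⟩ : ∃ b, b = E % p := ⟨_, rfl⟩
  have hbp : b < p := by rw [hb]; exact Nat.mod_lt _ (by omega)
  have hEab : E = p * a + b := by rw [ha, hb]; exact (Nat.div_add_mod E p).symm
  rw [← ha, ← hb] at k6
  have k7 := prodT p hp4 T (fun t ht => by have := hT t ht; omega) E (by
    rw [← hr, mul_comm r p, ← hE, hsum]; omega)
  rw [← hr] at k7
  have hp0 : (0 : ℝ) < p := by exact_mod_cast (by omega : 0 < p)
  have hpr : (3 * (48 * (C : ℝ) + 1)) + 4 ≤ p := by exact_mod_cast hp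
  have hC0 : (0 : ℝ) ≤ C := Nat.cast_nonneg C
  have k8 : Real.exp ((E : ℝ) / p) ≤ 3 * 3 ^ a := by
    have e1 : (E : ℝ) / p ≤ ((a + 1 : ℕ) : ℝ) := by
      rw [div_le_iff₀ hp0]
      have : E ≤ (a + 1) * p := by rw [hEab]; nlinarith
      exact_mod_cast this
    calc Real.exp ((E : ℝ) / p) ≤ Real.exp ((a + 1 : ℕ) : ℝ) := Real.exp_le_exp.2 e1
      _ = Real.exp 1 ^ (a + 1) := by rw [← Real.exp_nat_mul, mul_one]
      _ ≤ 3 ^ (a + 1) := by
          apply pow_le_pow_left₀ (Real.exp_pos 1).le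
          exact Real.exp_one_lt_three.le
      _ = 3 * 3 ^ a := by ring
  have k9 := pow_ratio p r hp4 k4
  have hd0 : (0 : ℝ) < (p : ℝ) - 2 := by linarith
  have k10 : (∏ t ∈ T, (t : ℝ)) ≤ 24 * 3 ^ a * ((p : ℝ) - 2) ^ r := by
    calc (∏ t ∈ T, (t : ℝ)) ≤ (p : ℝ) ^ r * Real.exp ((E : ℝ) / p) := k7
      _ ≤ (8 * ((p : ℝ) - 2) ^ r) * (3 * 3 ^ a) := by gcongr
      _ = _ := by ring
  have k11 : ((p : ℝ) - 2) ^ (r + a) * max 2 (b : ℝ) ≤ 2 * ∏ h ∈ H, (h : ℝ) := by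
    have e1 : (((p - 2) ^ (r + a) * max 2 b : ℕ) : ℝ) ≤ ((2 * ∏ h ∈ H, h : ℕ) : ℝ) := by exact_mod_cast k6
    rw [Nat.cast_mul, Nat.cast_pow, Nat.cast_sub (by omega), Nat.cast_max, Nat.cast_mul, Nat.cast_prod] at e1
    exact_mod_cast e1
  have k12 : 48 * (C : ℝ) * 3 ^ a < ((p : ℝ) - 2) ^ a * max 2 (b : ℝ) := by
    rcases Nat.eq_zero_or_pos a with h0 | h0
    · rw [h0, pow_zero, pow_zero, mul_one, one_mul]
      rw [h0, mul_zero, zero_add] at hEab
      have : (G : ℝ) ≤ b := by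
        rw [← hEab]
        exact_mod_cast k5
      have e2 : (G : ℝ) = 48 * C + 49 := by rw [hG]; push_cast; ring
      calc 48 * (C : ℝ) < G := by linarith
        _ ≤ max 2 (b : ℝ) := this.trans (le_max_right _ _)
    · have e1 : (48 * (C : ℝ) + 1) * 3 ^ a ≤ ((p : ℝ) - 2) ^ a := by
        calc (48 * (C : ℝ) + 1) * 3 ^ a ≤ (48 * (C : ℝ) + 1) ^ a * 3 ^ a := by
              apply mul_le_mul_of_nonneg_right _ (by positivity)
              exact le_self_pow₀ (by linarith) (by omega)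
          _ = (3 * (48 * (C : ℝ) + 1)) ^ a := by rw [mul_pow]; ring
          _ ≤ _ := by
              apply pow_le_pow_left₀ (by positivity)
              linarith
      have e2 : (0 : ℝ) < 3 ^ a := by positivity
      have e3 : (2 : ℝ) ≤ max 2 (b : ℝ) := le_max_left _ _
      have e4 : (0 : ℝ) < ((p : ℝ) - 2) ^ a := by positivity
      nlinarith
  have k13 : (C : ℝ) * ∏ t ∈ T, (t : ℝ) < ∏ h ∈ H, (h : ℝ) := by
    have e1 : (C : ℝ) * ∏ t ∈ T, (t : ℝ) ≤ C * (24 * 3 ^ a * ((p : ℝ) - 2) ^ r) :=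
      mul_le_mul_of_nonneg_left k10 hC0
    have e2 : (0 : ℝ) < ((p : ℝ) - 2) ^ r := by positivity
    have e3 : (48 * (C : ℝ) * 3 ^ a) * ((p : ℝ) - 2) ^ r < (((p : ℝ) - 2) ^ a * max 2 (b : ℝ)) * ((p : ℝ) - 2) ^ r :=
      mul_lt_mul_of_pos_right k12 e2
    have e4 : (((p : ℝ) - 2) ^ a * max 2 (b : ℝ)) * ((p : ℝ) - 2) ^ r = ((p : ℝ) - 2) ^ (r + a) * max 2 (b : ℝ) := by
      rw [pow_add]; ring
    linarith
  have k14 : ((C * ∏ t ∈ T, t : ℕ) : ℝ) < ((∏ h ∈ H, h : ℕ) : ℝ) := by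
    rw [Nat.cast_mul, Nat.cast_prod, Nat.cast_prod]
    exact k13
  exact Nat.cast_lt.1 k14

end Pool.Agent.X31.DP
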