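import Pool.Agent.X31.DP1
import Pool.Agent.X31.DP2
import Pool.Agent.X31.DP3

/-! Partitions into distinct primes: the partition with the largest product may have many fewer parts than the
longest one. -/

set_option autoImplicit false

namespace Pool.Agent.X31.DP

open Finset

lemma opt_three : Opt {3} := by
  refine ⟨?_, ?_⟩
  · intro p hp
    rw [mem_singleton] at hp
    rw [hp]; norm_num
  · intro B hB hs
    rw [sum_singleton] at hs
    rw [prod_singleton]
    have hne : B.Nonempty := by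
      rw [nonempty_iff_ne_empty]
      rintro rfl
      simp at hs
    have := sum_le_prod B (fun p hp => (hB p hp).two_le) hne
    omega

lemma chain (m : ℕ) : ∃ A : Finset ℕ, Opt A ∧ (∀ p ∈ A, p ≠ 2) ∧ A.card = m + 1 := by
  classical
  induction m with
  | zero =>
    refine ⟨{3}, opt_three, ?_, by simp⟩
    intro p hp
    rw [mem_singleton] at hp
    omega
  | succ m ih =>
    obtain ⟨A, hA, h2, hc⟩ := ih
    obtain ⟨L, c, N₀, hL, hcop, h⟩ := step A hA
    obtain ⟨b, hb1, hb2, hb3⟩ := Nat.forall_exists_prime_gt_and_modEq (N₀ + 3) (by omega : L ≠ 0) hcop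
    obtain ⟨h3, h4⟩ := h b hb2 (by omega) hb3
    refine ⟨insert b A, h4, ?_, ?_⟩
    · intro p hp
      rcases mem_insert.1 hp with h5 | h5
      · omega
      · exact h2 p h5
    · rw [card_insert_of_notMem h3, hc]

lemma odd_sum (A : Finset ℕ) (hp : PS A) (h2 : ∀ p ∈ A, p ≠ 2) (hc : Odd A.card) : Odd (∑ p ∈ A, p) := by
  rw [Finset.odd_sum_iff_odd_card_odd]
  rwa [filter_true_of_mem]
  intro p h
  exact (hp p h).odd_of_ne_two (h2 p h)

lemma gap (G X : ℕ) : ∃ P : ℕ, P.Prime ∧ X ≤ P ∧ ∀ t : ℕ, t.Prime → P < t → P + G ≤ t := by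
  classical
  obtain ⟨q, hq1, hq2⟩ := Nat.exists_infinite_primes X
  set N := G + q + 2 with hN
  have hf : N ≤ N.factorial := Nat.self_le_factorial N
  set P := Nat.findGreatest Nat.Prime (N.factorial + 1) with hP
  have h1 : P.Prime := Nat.findGreatest_spec (m := q) (by omega) hq2
  have h2 : q ≤ P := Nat.le_findGreatest (by omega) hq2
  have h3 : P ≤ N.factorial + 1 := Nat.findGreatest_le _
  refine ⟨P, h1, by omega, fun t ht hPt => ?_⟩
  by_contra hcon
  push Not at hcon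
  have h4 : N.factorial + 1 < t := by
    by_contra h5
    push Not at h5
    have := Nat.le_findGreatest h5 ht
    omega
  obtain ⟨j, hj⟩ : ∃ j, t = N.factorial + j := ⟨t - N.factorial, by omega⟩
  have h5 : 2 ≤ j := by omega
  have h6 : j ≤ N := by omega
  have h7 : j ∣ t := by
    rw [hj]
    exact (Nat.dvd_add_right (Nat.dvd_factorial (by omega) h6)).2 dvd_rfl
  rcases (Nat.dvd_prime ht).1 h7 with h8 | h8
  · omega
  · have := Nat.factorial_pos N
    omega

/-- the primes up to `P` -/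
def PP (P : ℕ) : Finset ℕ := (Icc 1 P).filter Nat.Prime

lemma mem_PP {P p : ℕ} : p ∈ PP P ↔ p ≤ P ∧ p.Prime := by
  unfold PP
  rw [mem_filter, mem_Icc]
  exact ⟨fun h => ⟨h.1.2, h.2⟩, fun h => ⟨⟨h.2.pos, h.1⟩, h.2⟩⟩

lemma card_PP (P : ℕ) (hP : 1 ≤ P) : 2 * (PP P).card ≤ P + 1 := by
  classical
  have h1 : PP P ⊆ insert 2 ((Icc 1 ((P - 1) / 2)).image (fun k => 2 * k + 1)) := by
    intro p hp
    rw [mem_PP] at hp
    rw [mem_insert]
    rcases hp.2.eq_two_or_odd with h | h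
    · exact Or.inl h
    · right
      rw [mem_image]
      have := hp.2.two_le
      refine ⟨p / 2, ?_, by omega⟩
      rw [mem_Icc]
      omega
  have h2 := card_le_card h1
  have h3 := card_insert_le 2 ((Icc 1 ((P - 1) / 2)).image (fun k => 2 * k + 1))
  have h4 : ((Icc 1 ((P - 1) / 2)).image (fun k => 2 * k + 1)).card ≤ (P - 1) / 2 := by
    refine card_image_le.trans ?_
    simp
  omega

theorem main (C : ℕ) : ∃ n : ℕ, 2 ≤ n ∧ ∃ T : Finset ℕ, PS T ∧ ∑ p ∈ T, p = n ∧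
    ∀ S : Finset ℕ, PS S → ∑ p ∈ S, p = n →
      (∀ U : Finset ℕ, PS U → ∑ p ∈ U, p = n → ∏ p ∈ U, p ≤ ∏ p ∈ S, p) → S.card + C < T.card := by
  classical
  obtain ⟨A, hA, hA2, hAc⟩ := chain (2 * C + 2)
  have hodd : Odd (∑ p ∈ A, p) := odd_sum A hA.1 hA2 (by rw [hAc]; exact ⟨C + 1, by ring⟩)
  obtain ⟨L, c, N₀, hL, hcop, hst⟩ := step A hA
  obtain ⟨b, hb1, hb2, hb3, p, q, hp, hq, hpq, hsum⟩ := gold L c (∑ p ∈ A, p) N₀ hL hcop hodd
  obtain ⟨hbA, hopt⟩ := hst b hb1 hb2 hb3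
  set H0 := insert b A with hH0
  have hH0c : H0.card = 2 * C + 4 := by rw [hH0, card_insert_of_notMem hbA, hAc]
  have hH0s : ∑ p ∈ H0, p = b + ∑ p ∈ A, p := by rw [hH0, sum_insert hbA]
  set σ := b + ∑ p ∈ A, p with hσ
  obtain ⟨G, p₀, hG, hbig⟩ := big (∏ p ∈ H0, p)
  obtain ⟨P, hPp, hPX, hPg⟩ := gap G (p₀ + σ + 5)
  have hPP : ∀ x, x ∈ PP P ↔ x ≤ P ∧ x.Prime := fun x => mem_PP
  have hH0sub : H0 ⊆ PP P := by
    intro x hx
    rw [hPP]
    refine ⟨?_, hopt.1 x hx⟩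
    have : x ≤ ∑ p ∈ H0, p := single_le_sum (f := fun p : ℕ => p) (fun i _ => Nat.zero_le i) hx
    omega
  have hPmem : P ∈ PP P := by rw [hPP]; exact ⟨le_rfl, hPp⟩
  have hpqsub : ({p, q} : Finset ℕ) ⊆ PP P := by
    intro x hx
    rw [mem_insert, mem_singleton] at hx
    rw [hPP]
    rcases hx with rfl | rfl
    · exact ⟨by omega, hp⟩
    · exact ⟨by omega, hq⟩
  have hpqs : ∑ x ∈ ({p, q} : Finset ℕ), x = σ := by rw [sum_pair hpq, hsum]
  -- the number `n`
  set T := PP P \ {p, q} with hT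
  have hTs : ∑ x ∈ T, x + σ = ∑ x ∈ PP P, x := by rw [← hpqs, hT, sum_sdiff hpqsub]
  have hPT : P ∈ T := by
    rw [hT, mem_sdiff]
    refine ⟨hPmem, ?_⟩
    rw [mem_insert, mem_singleton]
    have := hp.two_le
    have := hq.two_le
    omega
  have hTc : T.card + 2 = (PP P).card := by
    have := card_sdiff_add_card_eq_card hpqsub
    rw [card_pair hpq] at this
    exact this
  refine ⟨∑ x ∈ T, x, ?_, T, ?_, rfl, ?_⟩
  · have : P ≤ ∑ x ∈ T, x := single_le_sum (f := fun p : ℕ => p) (fun i _ => Nat.zero_le i) hPT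
    omega
  · intro x hx
    exact ((hPP x).1 (sdiff_subset hx)).2
  intro S hS hSs hSmax
  -- the competitor
  have hS0 := hSmax (PP P \ H0) (fun x hx => ((hPP x).1 (sdiff_subset hx)).2) (by
    have := sum_sdiff (f := fun x : ℕ => x) hH0sub
    omega)
  set U := S.filter (fun x => x ≤ P) with hU
  set T' := S.filter (fun x => ¬ x ≤ P) with hT'
  have hUsub : U ⊆ PP P := by
    intro x hx
    rw [hU, mem_filter] at hx
    rw [hPP]
    exact ⟨hx.2, hS x hx.1⟩
  have e1 : ∑ x ∈ U, x + ∑ x ∈ T', x = ∑ x ∈ S, x := sum_filter_add_sum_filter_not S _ _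
  have e2 : (∏ x ∈ U, x) * ∏ x ∈ T', x = ∏ x ∈ S, x := prod_filter_mul_prod_filter_not S _ _
  set H := PP P \ U with hH
  have e3 : ∑ x ∈ H, x + ∑ x ∈ U, x = ∑ x ∈ PP P, x := sum_sdiff hUsub
  have e4 : (∏ x ∈ H, x) * ∏ x ∈ U, x = ∏ x ∈ PP P, x := prod_sdiff hUsub
  have e5 : (∏ x ∈ PP P \ H0, x) * ∏ x ∈ H0, x = ∏ x ∈ PP P, x := prod_sdiff hH0sub
  have e6 : ∑ x ∈ H, x = ∑ x ∈ T', x + σ := by omega
  have hUpos : 0 < ∏ x ∈ U, x := prod_pos (fun x hx => ((hPP x).1 (hUsub hx)).2.pos)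
  have e7 : ∏ x ∈ H, x ≤ (∏ x ∈ H0, x) * ∏ x ∈ T', x := by
    refine Nat.le_of_mul_le_mul_right ?_ hUpos
    calc (∏ x ∈ H, x) * ∏ x ∈ U, x = (∏ x ∈ PP P \ H0, x) * ∏ x ∈ H0, x := by rw [e4, e5]
      _ ≤ (∏ x ∈ S, x) * ∏ x ∈ H0, x := Nat.mul_le_mul_right _ hS0
      _ = (∏ x ∈ H0, x) * (∏ x ∈ T', x) * ∏ x ∈ U, x := by rw [← e2]; ring
  have hHpr : ∀ x ∈ H, x.Prime := fun x hx => ((hPP x).1 (sdiff_subset hx)).2
  rcases T'.eq_empty_or_nonempty with h0 | h0
  · rw [h0, sum_empty, zero_add] at e6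
    rw [h0, prod_empty, mul_one] at e7
    rw [h0, sum_empty, add_zero] at e1
    have e8 := hopt.2 H hHpr (by rw [e6, hH0s])
    have e9 : ∏ x ∈ H, x = ∏ x ∈ H0, x := le_antisymm e7 e8
    have e10 : H = H0 := by
      rw [← Nat.primeFactors_prod hHpr, ← Nat.primeFactors_prod hopt.1, e9]
    have e11 : U = S := by
      rw [hU]
      apply filter_true_of_mem
      intro x hx
      by_contra hcon
      have : x ∈ T' := by rw [hT', mem_filter]; exact ⟨hx, hcon⟩
      rw [h0] at this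
      exact absurd this (notMem_empty _)
    have e12 := card_sdiff_add_card_eq_card hUsub
    rw [← hH, e10, hH0c, e11] at e12
    omega
  · exfalso
    have e8 := hbig P (by omega) H T' σ (fun x hx => ⟨(hHpr x hx).two_le, ((hPP x).1 (sdiff_subset hx)).1⟩) (by
      have h9 : H ⊆ PP P := sdiff_subset
      have := card_le_card h9
      have := card_PP P (by omega)
      omega) h0 (fun t ht => by
        rw [hT', mem_filter] at ht
        exact hPg t (hS t ht.1) (by omega)) e6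
    omega

end Pool.Agent.X31.DP
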