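import Pool.Agent.X31.F3
import Pool.Agent.X107.JF.Cor
import Pool.Agent.H373R2.T7.SupLiou

set_option autoImplicit false

/-! # Correlations with a function orthogonal to all exponentials, shifts near generalised polynomials -/

namespace Pool.Agent.X31

open Finset Filter
open Pool.Agent.TH935.GF (En)
open Pool.Agent.H373R2.T7 (exI SupSmall)

lemma En_eq' (h : ℕ) {ι : Type} [Fintype ι] (v : ι → ℤ) : En h v = Pool.Agent.X107.JF.energy h v := by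
  classical
  unfold En Pool.Agent.X107.JF.energy
  rw [Nat.card_eq_fintype_card, Fintype.card_subtype]

/-- Let `g` be bounded by `1`, with small exponential sums. For almost all `n ∈ A` and all integers `s` near `b + gp n` the
correlations of `g (α m + s)` with given weights are small. -/
theorem gp_corr (g : ℕ → ℂ) (hb : ∀ n, ‖g n‖ ≤ 1) (hsup : SupSmall g)
    (F : Finset ℝ) (a : ℝ → ℝ) (c : ℝ) (hcF : c ∈ F) (hmax : ∀ x ∈ F, x ≤ c)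
    (hac : a c ≠ 0) (hc : 0 < c) (B D T U : ℕ) :
    ∃ N₀ : ℕ, ∀ N : ℕ, N₀ ≤ N → ∀ Y : ℕ, (N : ℝ) / Real.log N ^ D ≤ (Y : ℝ) ^ c → (Y : ℝ) ^ c ≤ N →
      ∀ A : Finset ℕ, A ⊆ Icc 1 Y → (Y : ℝ) / Real.log N ^ D ≤ A.card → ∀ b : ℝ, |b| ≤ N →
      ∀ J : ℕ, (J : ℝ) ≤ Real.log N ^ T → ∀ (α : Fin J → ℕ) (w : Fin J → ℕ → ℂ), (∀ l, 1 ≤ α l) →
      (∀ l n, 1 ≤ n → α l * n ≤ B * N → ‖w l n‖ ≤ Real.log N ^ T) →
      ∃ E : Finset ℕ, (E.card : ℝ) ≤ A.card / Real.log N ^ U ∧ ∀ n ∈ A, n ∉ E →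
        ∀ s : ℤ, |(s : ℝ) - (b + gp F a n)| ≤ Real.log N ^ D → ∀ l, ∀ x : ℕ, α l * x ≤ B * N →
          ‖∑ n ∈ Icc 1 x, w l n * exI g ((α l : ℤ) * n + s)‖ ≤ N / Real.log N ^ U := by
  classical
  obtain ⟨h, hh, h1⟩ := gp_energy F a c hcF hmax hac hc
  obtain ⟨C, B', N₁, h1⟩ := h1 (D + 1)
  obtain ⟨B₁, hB₁⟩ : ∃ B₁, B₁ = max (max B B') 1 := ⟨_, rfl⟩
  have hB1 : 1 ≤ B₁ := by rw [hB₁]; exact le_max_right _ _
  have hBB : B ≤ B₁ := by rw [hB₁]; exact (le_max_left _ _).trans (le_max_left _ _)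
  have hBB' : B' ≤ B₁ := by rw [hB₁]; exact (le_max_right _ _).trans (le_max_left _ _)
  obtain ⟨A₁, hA₁⟩ : ∃ A₁, A₁ = 4 * (2 * U + 2 * (T + 0) + 3) + 1 := ⟨_, rfl⟩
  obtain ⟨N₂, h2⟩ := Pool.Agent.X107.JF.fam_main g hb hsup B₁ (4 * B₁ * (h + 1)) T (C + A₁ * (2 * h) + 1) U hB1
    (Nat.le_mul_of_pos_right _ (by omega))
  obtain ⟨N₃, h3⟩ := Pool.Agent.H373R2.T7.ev_L' (4 * (B₁ : ℝ) * (h + 1) + 2)
  refine ⟨N₁ + N₂ + N₃ + 3, fun N hN Y hY1 hY2 A hA hAc b hb' J hJ α w hα hw => ?_⟩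
  have hL := h3 N (by omega)
  have hp : 0 ≤ 4 * (B₁ : ℝ) * (h + 1) := by positivity
  have hL1 : 1 ≤ Real.log N := by linarith
  have hl : 0 < Real.log N := by linarith
  have hLD : 1 ≤ Real.log N ^ D := one_le_pow₀ hL1
  have hmono : Real.log N ^ D ≤ Real.log N ^ (D + 1) := pow_le_pow_right₀ hL1 (by omega)
  -- weights truncated outside the range
  obtain ⟨w', hw'⟩ : ∃ w' : Fin J → ℕ → ℂ, w' = fun l n => if α l * n ≤ B * N then w l n else 0 := ⟨_, rfl⟩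
  obtain ⟨E, hE⟩ : ∃ E : Finset ℕ, E = A.filter (fun n : ℕ => ∃ s : ℤ,
      |(s : ℝ) - (b + gp F a n)| ≤ Real.log N ^ D ∧ ∃ l, ∃ x : ℕ, α l * x ≤ B * N ∧
        N / Real.log N ^ U < ‖∑ n ∈ Icc 1 x, w l n * exI g ((α l : ℤ) * n + s)‖) := ⟨_, rfl⟩
  refine ⟨E, ?_, ?_⟩
  swap
  · intro n hn hnE s hs l x hx
    by_contra hcon
    push Not at hcon
    apply hnE
    rw [hE]
    exact mem_filter.2 ⟨hn, s, hs, l, x, hx, hcon⟩
  have hch : ∀ n ∈ E, ∃ s : ℤ,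
      |(s : ℝ) - (b + gp F a n)| ≤ Real.log N ^ D ∧ ∃ l, ∃ x : ℕ, α l * x ≤ B * N ∧
        N / Real.log N ^ U < ‖∑ n ∈ Icc 1 x, w l n * exI g ((α l : ℤ) * n + s)‖ := by
    intro n hn
    rw [hE] at hn
    exact (mem_filter.1 hn).2
  choose! s hs using hch
  have hEA : E ⊆ A := by rw [hE]; exact filter_subset _ _
  obtain ⟨v, hv⟩ : ∃ v : {n : ℕ // n ∈ A} → ℤ, ∀ i : {n : ℕ // n ∈ A},
      |(v i : ℝ) - (b + gp F a (i.1 : ℕ))| ≤ Real.log N ^ (D + 1) ∧ (i.1 ∈ E → v i = s i.1) := by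
    apply Classical.axiomOfChoice (r := fun (i : {n : ℕ // n ∈ A}) (z : ℤ) =>
      |(z : ℝ) - (b + gp F a (i.1 : ℕ))| ≤ Real.log N ^ (D + 1) ∧ (i.1 ∈ E → z = s i.1))
    intro i
    by_cases hi : i.1 ∈ E
    · exact ⟨s i.1, (hs i.1 hi).1.trans hmono, fun _ => rfl⟩
    · refine ⟨⌊b + gp F a (i.1 : ℕ)⌋, ?_, fun h => absurd h hi⟩
      rw [abs_le]
      have h1 := Int.floor_le (b + gp F a (i.1 : ℕ))
      have h2 := Int.lt_floor_add_one (b + gp F a (i.1 : ℕ))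
      constructor <;> linarith
  rw [div_le_iff₀ (by positivity)] at hY1 hAc
  obtain ⟨e1, e2⟩ := h1 N (by omega) Y hY2
    (hY1.trans (mul_le_mul_of_nonneg_left hmono (Real.rpow_nonneg (Nat.cast_nonneg _) _))) A hA
    (hAc.trans (mul_le_mul_of_nonneg_left hmono (Nat.cast_nonneg _))) b hb' v (fun i => (hv i).1)
  have e3 : ∀ i, |v i| ≤ (B₁ : ℤ) * N := fun i => (e1 i).trans (by
    apply mul_le_mul_of_nonneg_right _ (Int.natCast_nonneg _)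
    exact_mod_cast hBB')
  have e4 := e2 h le_rfl
  rw [En_eq'] at e4
  have e5 := Pool.Agent.X107.JF.spec_energy v B₁ N h C A₁ hB1 (by omega) (by linarith) hL1 e3 e4
  rw [hA₁, Nat.add_zero] at e5
  have key := h2 N (by omega) _ v e3 (by rw [hA₁, Nat.add_zero]; exact e5) J hJ α w' hα (by
    intro l n hn1 _
    rw [hw']
    simp only
    split_ifs with h
    · exact hw l n hn1 h
    · rw [norm_zero]
      positivity)
  rw [Fintype.card_coe] at key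
  refine le_trans ?_ key
  apply Nat.cast_le.2
  apply card_le_card_of_surjOn (fun i : {n : ℕ // n ∈ A} => i.1)
  intro n hn
  have hn' := mem_coe.1 hn
  refine ⟨⟨n, hEA hn'⟩, ?_, rfl⟩
  rw [mem_coe, mem_filter]
  refine ⟨mem_univ _, fun hcon => ?_⟩
  obtain ⟨_, l, x, hx, hbig⟩ := hs n hn'
  have h5 := hcon l x (hx.trans (Nat.mul_le_mul_right _ hBB))
  rw [(hv ⟨n, hEA hn'⟩).2 hn'] at h5
  refine absurd hbig (not_lt.2 (le_trans (le_of_eq ?_) h5))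
  congr 1
  apply sum_congr rfl
  intro m hm
  rw [hw']
  simp only
  rw [if_pos]
  exact (Nat.mul_le_mul_left _ (mem_Icc.1 hm).2).trans hx

end Pool.Agent.X31
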