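import Pool.Agent.X31.L1
import Pool.Agent.X31.F2

set_option autoImplicit false

/-! # Several families of integers near the values of polynomials at the integers with restricted digits -/

namespace Pool.Agent.X31.CT

open Finset Filter Topology
open scoped Polynomial
open Pool.Agent.TH935.GF (En)
open Pool.Agent.X31 (FamT)

/-- several polynomials at the integers with restricted digits -/
theorem dg_tuples {K : ℕ} (b d : Fin K → ℕ) (hb : ∀ i, 2 ≤ b i) (hd : ∀ i, 2 ≤ d i)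
    (D U : ℕ) (P : ℕ → (Fin K → ℤ) → Prop) (HP : ∀ h : ℕ, 1 ≤ h → FamT K h P) :
    ∃ N₀ : ℕ, ∀ N : ℕ, N₀ ≤ N → ∀ (M : Fin K → ℕ) (𝒟 : Fin K → ℕ → Finset ℕ) (f : Fin K → ℝ[X])
      (A : Fin K → Finset ℕ), (∀ i, Dat (b i) (d i) D N (M i) (𝒟 i) (f i) (A i)) →
      ∀ 𝒮 : Finset (Fin K → ℕ), 𝒮 ⊆ Fintype.piFinset A →
      (∀ q ∈ 𝒮, ∃ m : Fin K → ℤ, (∀ i, |(m i : ℝ) - (f i).eval ((q i : ℕ) : ℝ)| ≤ Real.log N ^ D) ∧
        ¬ P N m) →
      (𝒮.card : ℝ) ≤ (∏ i, ((A i).card : ℝ)) / Real.log N ^ U := by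
  classical
  choose h₀ hh₀ hE using fun i => dg_energy (hb i) (hd i)
  obtain ⟨h, hh⟩ : ∃ h : ℕ, h = 1 + ∑ i, h₀ i := ⟨_, rfl⟩
  have hle : ∀ i, h₀ i ≤ h := by
    intro i
    have := single_le_sum (f := h₀) (fun _ _ => Nat.zero_le _) (mem_univ i)
    omega
  choose C N₁ hN₁ using fun i => hE i (D + 1)
  obtain ⟨N₂, hN₂⟩ := HP h (by omega) 2 (∑ i, C i) (U + (D + 1) * K)
  have hlog : ∀ᶠ N : ℕ in atTop, (7 : ℝ) ≤ Real.log N :=
    (Real.tendsto_log_atTop.comp tendsto_natCast_atTop_atTop).eventually_ge_atTop _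
  obtain ⟨N₃, hN₃⟩ := eventually_atTop.1 hlog
  refine ⟨(∑ i, N₁ i) + N₂ + N₃, fun N hN M 𝒟 f A hdat 𝒮 hS hbb => ?_⟩
  have hL7 := hN₃ N (by omega)
  obtain ⟨L, hL⟩ : ∃ L, L = Real.log N := ⟨_, rfl⟩
  have hLN : ∀ i, N₁ i ≤ N := by
    intro i
    have := single_le_sum (f := N₁) (fun _ _ => Nat.zero_le _) (mem_univ i)
    omega
  have hL1' : 1 ≤ Real.log N := by linarith
  rw [← hL] at hL7 hbb ⊢
  have hL1 : 1 ≤ L := by linarith
  have hL0 : 0 < L := by linarith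
  have hLD : 1 ≤ L ^ D := one_le_pow₀ hL1
  obtain ⟨R, hR⟩ : ∃ R : ℕ, R = ⌈L ^ D⌉₊ + 1 := ⟨_, rfl⟩
  have hR1 : L ^ D + 1 ≤ R := by
    rw [hR]
    push_cast
    linarith [Nat.le_ceil (L ^ D)]
  have hR2 : (R : ℝ) ≤ L ^ D + 2 := by
    rw [hR]
    push_cast
    linarith [Nat.ceil_lt_add_one (show 0 ≤ L ^ D by positivity)]
  obtain ⟨z, hz⟩ : ∃ z : Fin K → ℕ → ℤ, z = fun i n => ⌊(f i).eval ((n : ℕ) : ℝ)⌋ := ⟨_, rfl⟩
  have hz1 : ∀ i n, |(z i n : ℝ) - ((f i).eval (n : ℝ))| ≤ 1 := by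
    intro i n
    rw [hz, abs_le]
    have h1 := Int.floor_le ((f i).eval (n : ℝ))
    have h2 := Int.lt_floor_add_one ((f i).eval (n : ℝ))
    constructor <;> simp only <;> linarith
  obtain ⟨Sh, hSh⟩ : ∃ Sh : Finset (Fin K → ℤ), Sh = Fintype.piFinset (fun _ => Icc (-(R : ℤ)) R) := ⟨_, rfl⟩
  have hShc : (Sh.card : ℝ) ≤ L ^ ((D + 1) * K) := by
    rw [hSh, Fintype.card_piFinset, prod_const, card_univ, Fintype.card_fin, pow_mul]
    push_cast
    apply pow_le_pow_left₀ (Nat.cast_nonneg _)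
    have e1 : (((Icc (-(R : ℤ)) R).card : ℕ) : ℝ) = 2 * R + 1 := by
      rw [Int.card_Icc]
      have : ((R : ℤ) + 1 - -(R : ℤ)).toNat = 2 * R + 1 := by omega
      rw [this]
      push_cast
      ring
    rw [e1, pow_succ]
    nlinarith
  choose! m hm1 hm2 using hbb
  obtain ⟨Pi, hPi⟩ : ∃ Pi, Pi = ∏ i, ((A i).card : ℝ) := ⟨_, rfl⟩
  have hPi0 : 0 ≤ Pi := by rw [hPi]; exact prod_nonneg fun i _ => Nat.cast_nonneg _
  -- the parts
  have hpart : ∀ s ∈ Sh, (((𝒮.filter (fun q => (fun i => m q i - z i (q i)) = s)).card : ℕ) : ℝ) ≤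
      Pi / L ^ (U + (D + 1) * K) := by
    intro s hs
    rw [hSh, Fintype.mem_piFinset] at hs
    obtain ⟨v, hv⟩ : ∃ v : ∀ i : Fin K, {n : ℕ // n ∈ A i} → ℤ, v = fun i n => z i n.1 + s i := ⟨_, rfl⟩
    have hvb : ∀ i, ∀ n : {n : ℕ // n ∈ A i}, |(v i n : ℝ) - ((f i).eval ((n.1 : ℕ) : ℝ))| ≤ L ^ (D + 1) := by
      intro i n
      have h1 := abs_le.1 (hz1 i n.1)
      have h2 := mem_Icc.1 (hs i)
      have h3 : (-(R : ℝ)) ≤ s i := by exact_mod_cast h2.1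
      have h4 : (s i : ℝ) ≤ R := by exact_mod_cast h2.2
      have h5 : (R : ℝ) + 1 ≤ L ^ (D + 1) := by
        rw [pow_succ]
        nlinarith
      rw [hv, abs_le]
      push_cast
      constructor <;> linarith [h1.1, h1.2]
    have hen : ∀ i, (∀ j, |v i j| ≤ (2 : ℤ) * N) ∧
        (En h (v i) : ℝ) * N ≤ L ^ (C i) * (Fintype.card {n : ℕ // n ∈ A i} : ℝ) ^ (2 * h) := by
      intro i
      have h1 := hN₁ i N (hLN i) (M i) (𝒟 i) (f i) (A i) (Dat_mono (hdat i) (by omega) hL1') (v i) (by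
        rw [← hL]
        exact hvb i)
      rw [← hL] at h1
      exact ⟨h1.1, h1.2 h (hle i)⟩
    obtain ⟨𝒮', h𝒮'⟩ : ∃ 𝒮' : Finset (∀ i : Fin K, {n : ℕ // n ∈ A i}),
        𝒮' = univ.filter (fun q => (fun i => (q i).1) ∈ 𝒮.filter (fun q => (fun i => m q i - z i (q i)) = s)) :=
      ⟨_, rfl⟩
    have key := hN₂ N (by omega) (fun i => {n : ℕ // n ∈ A i}) v (by
      intro i j
      exact (hen i).1 j) (by
      intro i
      rw [← hL]
      refine ((hen i).2).trans ?_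
      apply mul_le_mul_of_nonneg_right _ (by positivity)
      exact pow_le_pow_right₀ hL1 (single_le_sum (f := C) (fun _ _ => Nat.zero_le _) (mem_univ i)))
      𝒮' (by
      intro q hq
      rw [h𝒮', mem_filter, mem_filter] at hq
      obtain ⟨_, hq1, hq2⟩ := hq
      have h1 := hm2 _ hq1
      have h2 : (fun i => v i (q i)) = m (fun i => (q i).1) := by
        funext i
        have h3 := congrFun hq2 i
        rw [hv]
        simp only at h3 ⊢
        linarith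
      rw [h2]
      exact h1)
    rw [← hL] at key
    simp only [Fintype.card_coe] at key
    rw [← hPi] at key
    refine le_trans ?_ key
    apply Nat.cast_le.2
    apply card_le_card_of_surjOn (fun q : (∀ i : Fin K, {n : ℕ // n ∈ A i}) => fun i => (q i).1)
    intro q hq
    have hq' := mem_coe.1 hq
    have h1 := Fintype.mem_piFinset.1 (hS (mem_filter.1 hq').1)
    refine ⟨fun i => ⟨q i, h1 i⟩, ?_, rfl⟩
    rw [mem_coe, h𝒮', mem_filter]
    exact ⟨mem_univ _, hq'⟩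
  have hcov : 𝒮 ⊆ Sh.biUnion (fun s => 𝒮.filter (fun q => (fun i => m q i - z i (q i)) = s)) := by
    intro q hq
    rw [mem_biUnion]
    refine ⟨fun i => m q i - z i (q i), ?_, mem_filter.2 ⟨hq, rfl⟩⟩
    rw [hSh, Fintype.mem_piFinset]
    intro i
    have h1 := abs_le.1 (hm1 q hq i)
    have h2 := abs_le.1 (hz1 i (q i))
    rw [mem_Icc]
    have h3 : (-(R : ℝ)) ≤ ((m q i - z i (q i) : ℤ) : ℝ) := by
      push_cast
      linarith [h1.1, h2.2]
    have h4 : ((m q i - z i (q i) : ℤ) : ℝ) ≤ R := by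
      push_cast
      linarith [h1.2, h2.1]
    constructor
    · exact_mod_cast h3
    · exact_mod_cast h4
  have h1 : (𝒮.card : ℝ) ≤ ∑ s ∈ Sh, Pi / L ^ (U + (D + 1) * K) := by
    calc (𝒮.card : ℝ) ≤ ((Sh.biUnion (fun s => 𝒮.filter (fun q => (fun i => m q i - z i (q i)) = s))).card : ℝ) := by
          exact_mod_cast card_le_card hcov
      _ ≤ ((∑ s ∈ Sh, (𝒮.filter (fun q => (fun i => m q i - z i (q i)) = s)).card : ℕ) : ℝ) := by
          exact_mod_cast card_biUnion_le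
      _ ≤ _ := by
          push_cast
          exact sum_le_sum hpart
  refine h1.trans ?_
  rw [sum_const, nsmul_eq_mul, ← hPi]
  calc (Sh.card : ℝ) * (Pi / L ^ (U + (D + 1) * K)) ≤ L ^ ((D + 1) * K) * (Pi / L ^ (U + (D + 1) * K)) := by
        gcongr
    _ = Pi / L ^ U := by
        rw [pow_add]
        field_simp

end Pool.Agent.X31.CT
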