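import Pool.Agent.X31.S6
import Pool.Agent.W109.LT.Poly

set_option autoImplicit false

/-! # Primes in fixed residue classes for almost all moduli, for residues in families of small energy -/

namespace Pool.Agent.X31

open Finset Filter Topology
open Pool.Agent.TH935.GF (En)

/-- fixed residues in `[1, B N]`, moduli in `(B N, 2 B N]` -/
theorem fam_lt : ∀ ε : ℝ, 0 < ε → ε ≤ 9 / 10 → ∃ C δ : ℝ, 0 < C ∧ 0 < δ ∧ ∀ κ h C₀ U : ℕ,
    ∃ N₀ : ℕ, ∀ N : ℕ, N₀ ≤ N → ∀ (ι : Type) [Fintype ι] (v : ι → ℤ), (∀ i, v i ≤ 2 * N) →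
      (En h v : ℝ) * N ≤ Real.log N ^ C₀ * (Fintype.card ι : ℝ) ^ (2 * h) →
      ∀ S : Finset ι, (∀ i ∈ S, 0 < v i ∧ ¬ Pool.Agent.W109.LT.Typical ε C δ κ (2 * N) (v i).toNat) →
      (S.card : ℝ) ≤ Fintype.card ι / Real.log N ^ U := by
  classical
  intro ε hε hε1
  obtain ⟨C, δ, hC, hδ, hfam⟩ := Pool.Agent.W109.LT.families ε hε hε1
  refine ⟨C, δ, hC, hδ, fun κ h C₀ U => ?_⟩
  apply transferPos h 2 C₀ U (fun N c => Pool.Agent.W109.LT.Typical ε C δ κ (2 * N) c)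
  intro C₁ U
  obtain ⟨N₀, h0⟩ := hfam h (C₁ + 1) U κ
  obtain ⟨N₁, h1⟩ := en_scale h 2 C₁ (by norm_num)
  refine ⟨N₀ + N₁ + 3, fun N hN x s hs hE S hS hSP => ?_⟩
  have hNr : (3 : ℝ) ≤ N := by exact_mod_cast (by omega : 3 ≤ N)
  have hL1 : 1 ≤ Real.log N := Pool.Agent.TH935.TF.one_le_log (by omega)
  have hBNr : (N : ℝ) ≤ ((2 * N : ℕ) : ℝ) := by
    push_cast
    linarith
  have hlog : Real.log N ≤ Real.log ((2 * N : ℕ) : ℝ) := Real.log_le_log (by linarith) hBNr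
  have key := h0 (2 * N) (by omega) x s hs (h1 N (by omega) _ _ (Nat.cast_nonneg _) (Nat.cast_nonneg _) hE)
  have h3 : (S.card : ℝ) ≤ x / Real.log ((2 * N : ℕ) : ℝ) ^ U := by
    refine le_trans ?_ key
    apply Nat.cast_le.2
    apply card_le_card
    intro i hi
    rw [mem_filter]
    exact ⟨hS hi, hSP i hi⟩
  refine h3.trans ?_
  apply div_le_div_of_nonneg_left (Nat.cast_nonneg _) (by positivity)
  exact pow_le_pow_left₀ (by linarith) hlog U

end Pool.Agent.X31
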