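import Pool.Agent.X31.S3
import Pool.Agent.X31.S10

set_option autoImplicit false

/-! # Schemes: one family of integers of size at most `2 N` -/

namespace Pool.Agent.X31

open Finset Filter Topology
open Pool.Agent.TH935.GF (En)

/-- almost all members of families with small energies of order `h` and with members of size at most `2 N` have `Q` -/
def Fam2 (h : ℕ) (Q : ℕ → ℤ → Prop) : Prop := ∀ C U : ℕ, ∃ N₀ : ℕ, ∀ N : ℕ, N₀ ≤ N →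
  ∀ (ι : Type) [Fintype ι] (v : ι → ℤ), (∀ i, |v i| ≤ 2 * N) →
    (En h v : ℝ) * N ≤ Real.log N ^ C * (Fintype.card ι : ℝ) ^ (2 * h) →
    ∀ S : Finset ι, (∀ i ∈ S, ¬ Q N (v i)) → (S.card : ℝ) ≤ Fintype.card ι / Real.log N ^ U

theorem Sch.single2 {ι : Type} {P : ℕ → ℕ → Finset ι → (ι → ℝ) → Prop} (HS : Sch P) (D U : ℕ)
    (Q : ℕ → ℤ → Prop) (HQ : ∀ h : ℕ, 1 ≤ h → Fam2 h Q) :
    ∃ N₀ : ℕ, ∀ N : ℕ, N₀ ≤ N → ∀ (A : Finset ι) (φ : ι → ℝ), P D N A φ →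
      ∃ E : Finset ι, (E.card : ℝ) ≤ A.card / Real.log N ^ U ∧ ∀ n ∈ A, n ∉ E →
        ∀ s : ℤ, |(s : ℝ) - φ n| ≤ Real.log N ^ D → Q N s := by
  classical
  obtain ⟨h, hh, h1⟩ := HS.en
  obtain ⟨C, N₁, h1⟩ := h1 D
  obtain ⟨N₂, h2⟩ := HQ h hh C U
  refine ⟨N₁ + N₂ + 3, fun N hN A φ hdat => ?_⟩
  have hL1 : 1 ≤ Real.log N := Pool.Agent.TH935.TF.one_le_log (by omega)
  have hLD : 1 ≤ Real.log N ^ D := one_le_pow₀ hL1
  obtain ⟨E, hE⟩ : ∃ E : Finset ι, E = A.filter (fun n : ι => ∃ s : ℤ, |(s : ℝ) - φ n| ≤ Real.log N ^ D ∧ ¬ Q N s) :=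
    ⟨_, rfl⟩
  refine ⟨E, ?_, ?_⟩
  swap
  · intro n hn hnE s hs
    by_contra hcon
    apply hnE
    rw [hE]
    exact mem_filter.2 ⟨hn, s, hs, hcon⟩
  have hch : ∀ n ∈ E, ∃ s : ℤ, |(s : ℝ) - φ n| ≤ Real.log N ^ D ∧ ¬ Q N s := by
    intro n hn
    rw [hE] at hn
    exact (mem_filter.1 hn).2
  choose! s hs using hch
  have hEA : E ⊆ A := by rw [hE]; exact filter_subset _ _
  obtain ⟨v, hv⟩ : ∃ v : {n : ι // n ∈ A} → ℤ, ∀ i : {n : ι // n ∈ A},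
      |(v i : ℝ) - φ i.1| ≤ Real.log N ^ D ∧ (i.1 ∈ E → v i = s i.1) := by
    apply Classical.axiomOfChoice (r := fun (i : {n : ι // n ∈ A}) (z : ℤ) =>
      |(z : ℝ) - φ i.1| ≤ Real.log N ^ D ∧ (i.1 ∈ E → z = s i.1))
    intro i
    by_cases hi : i.1 ∈ E
    · exact ⟨s i.1, (hs i.1 hi).1, fun _ => rfl⟩
    · refine ⟨⌊φ i.1⌋, ?_, fun h => absurd h hi⟩
      rw [abs_le]
      have h1 := Int.floor_le (φ i.1)
      have h2 := Int.lt_floor_add_one (φ i.1)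
      constructor <;> linarith
  obtain ⟨e1, e2⟩ := h1 N (by omega) A φ hdat v (fun i => (hv i).1)
  have key := h2 N (by omega) _ v (by
    intro i
    have := e1 i
    push_cast
    exact this) (e2 h le_rfl) (univ.filter (fun i : {n : ι // n ∈ A} => i.1 ∈ E)) (by
    intro i hi
    rw [mem_filter] at hi
    rw [(hv i).2 hi.2]
    exact (hs i.1 hi.2).2)
  rw [Fintype.card_coe] at key
  refine le_trans ?_ key
  apply Nat.cast_le.2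
  apply card_le_card_of_surjOn (fun i : {n : ι // n ∈ A} => i.1)
  intro n hn
  have hn' := mem_coe.1 hn
  exact ⟨⟨n, hEA hn'⟩, by rw [mem_coe, mem_filter]; exact ⟨mem_univ _, hn'⟩, rfl⟩


/-- for residues `c ≤ 2 N` and moduli in `(2 N, 4 N]` -/
theorem fam2_lt (ε : ℝ) (hε : 0 < ε) (hε1 : ε ≤ 9 / 10) : ∃ C δ : ℝ, 0 < C ∧ 0 < δ ∧ ∀ κ h : ℕ,
    Fam2 h (fun N c => 0 < c → Pool.Agent.W109.LT.Typical ε C δ κ (2 * N) c.toNat) := by
  obtain ⟨C, δ, hC, hδ, hf⟩ := fam_lt ε hε hε1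
  refine ⟨C, δ, hC, hδ, fun κ h C₀ U => ?_⟩
  obtain ⟨N₀, h0⟩ := hf κ h C₀ U
  refine ⟨N₀, fun N hN ι _ v hv hE S hS => ?_⟩
  apply h0 N hN ι v (fun i => (le_abs_self _).trans (hv i)) hE S
  intro i hi
  have := hS i hi
  push Not at this
  exact this

end Pool.Agent.X31
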