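import Pool.Agent.X31.S8
import Pool.Agent.Results.MP_26a8c3_nt.SparseModuli

set_option autoImplicit false

/-! # The Brun–Titchmarsh inequality with the constant one, for moduli in families of small energy -/

namespace Pool.Agent.X31

open Finset Filter Topology
open Pool.Agent.TH935.GF (En)

/-- the Brun–Titchmarsh inequality with the constant `1` for almost all classes -/
theorem famO_bt (h : ℕ) (ε : ℝ) (hε : 0 < ε) (hε1 : ε ≤ 1) (B₁ D₁ U₁ : ℕ) (hB₁ : 2 * D₁ + U₁ + 2 ≤ B₁) (κ : ℕ) :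
    FamO h (fun N c => 0 < c → (N : ℝ) ≤ c * Real.log N ^ κ →
      Pool.Agent.Results.MP_26a8c3_nt.SparseModuli.Holds ε U₁ B₁ D₁ c.toNat) := by
  classical
  intro B C U
  obtain ⟨N₀, h0⟩ := Pool.Agent.Results.MP_26a8c3_nt.SparseModuli.families ε hε hε1 B₁ D₁ U₁ U hB₁ h (C + 1) (κ + 1)
  obtain ⟨N₁, h1⟩ := en_scale h (B + 1) C (by omega)
  obtain ⟨N₂, h2⟩ := scale_log (B + 1) κ (by omega)
  refine ⟨N₀ + N₁ + N₂ + 3, fun N hN ι _ v hv hE S hS => ?_⟩
  have hNr : (3 : ℝ) ≤ N := by exact_mod_cast (by omega : 3 ≤ N)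
  have hL1 : 1 ≤ Real.log N := Pool.Agent.TH935.TF.one_le_log (by omega)
  have hBN : N ≤ (B + 1) * N := Nat.le_mul_of_pos_left _ (by omega)
  have hBNr : (N : ℝ) ≤ (((B + 1) * N : ℕ) : ℝ) := by exact_mod_cast hBN
  have hlog : Real.log N ≤ Real.log (((B + 1) * N : ℕ) : ℝ) := Real.log_le_log (by linarith) hBNr
  have key := h0 ((B + 1) * N) (by omega) ι v (fun i => by
    refine (hv i).trans ?_
    push_cast
    nlinarith [Int.natCast_nonneg N])
    (by
      have := h1 N (by omega) _ _ (Nat.cast_nonneg _) (Nat.cast_nonneg _) hE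
      exact this)
  have h3 : S.card ≤ (univ.filter (fun i => 0 < v i ∧ ((((B + 1) * N : ℕ) : ℝ)) ≤ v i * Real.log ((((B + 1) * N : ℕ) : ℝ)) ^ (κ + 1) ∧
      ¬ Pool.Agent.Results.MP_26a8c3_nt.SparseModuli.Holds ε U₁ B₁ D₁ (v i).toNat)).card := by
    apply card_le_card
    intro i hi
    have h4 := hS i hi
    push Not at h4
    obtain ⟨k1, k2, k3⟩ := h4
    rw [mem_filter]
    exact ⟨mem_univ _, k1, h2 N (by omega) _ (by exact_mod_cast k1.le) k2, k3⟩
  have h4 : (S.card : ℝ) ≤ Fintype.card ι / Real.log (((B + 1) * N : ℕ) : ℝ) ^ U := by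
    refine le_trans ?_ key
    exact_mod_cast h3
  refine h4.trans ?_
  apply div_le_div_of_nonneg_left (Nat.cast_nonneg _) (by positivity)
  exact pow_le_pow_left₀ (by linarith) hlog U

end Pool.Agent.X31
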