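import Pool.Agent.X31.S1
import Pool.Agent.X10.ST.Thin2

set_option autoImplicit false

/-! # Superpositions of few translates of the primes, by integers near the values of functions -/

namespace Pool.Agent.X31

open Finset Filter

open Classical in
/-- the number of the `a` in `{1, ..., N}` such that none of the intervals `(a + t i, a + t i + y]` contains a prime -/
noncomputable def missedN (N y : ℕ) {r : ℕ} (t : Fin r → ℕ) : ℕ :=
  ((Icc 1 N).filter (fun a : ℕ => ∀ i, ¬ ∃ q : ℕ, q.Prime ∧ a + t i < q ∧ q ≤ a + t i + y)).card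

/-- few translates -/
theorem Sch.few {ι : Type} [DecidableEq ι] {P : ℕ → ℕ → Finset ι → (ι → ℝ) → Prop} (HS : Sch P) (D U : ℕ)
    (ε : ℝ) (hε : 0 < ε) (hε1 : ε ≤ 1 / 4) :
    ∃ K N₀ : ℕ, ∀ N : ℕ, N₀ ≤ N → ∀ (A : Finset ι) (φ : ι → ℝ), P D N A φ →
      ∀ s : ι → ℕ, (∀ n ∈ A, 1 ≤ s n ∧ s n ≤ N ∧ |(s n : ℝ) - φ n| ≤ Real.log N ^ D) → ∀ r : ℕ,
      ∃ E : Finset (Fin r → ι), (E.card : ℝ) ≤ r * (A.card : ℝ) ^ r / Real.log N ^ U ∧
        ∀ v : Fin r → ι, (∀ i, v i ∈ A) → v ∉ E →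
          (missedN N ⌈Real.log N ^ K⌉₊ (fun i => s (v i)) : ℝ) ≤ N * max ((3 / 4 + ε) ^ r) (1 / Real.log N ^ U) := by
  classical
  obtain ⟨h', hh, h1⟩ := HS.enum
  obtain ⟨C, N₁, h1⟩ := h1 h' le_rfl D
  obtain ⟨K, N₂, h2⟩ := Pool.Agent.X10.ST.thin_general h' 2 C U ε hε hε1
  refine ⟨K, N₁ + N₂, fun N hN A φ hP s hs r => ?_⟩
  obtain ⟨s', ψ, hψ, hψm, hval, hsz, hE⟩ := h1 N (by omega) A φ hP A (fun n => (s n : ℤ)) (Subset.refl _)
    (fun n hn => by
      have := (hs n hn).2.2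
      push_cast
      exact this)
  have h3 := h2 N (by omega) A.card s' (fun m hm => by have := hsz m hm; exact_mod_cast this) hE r
  obtain ⟨E, hEd⟩ : ∃ E : Finset (Fin r → ι), E = (Fintype.piFinset fun _ : Fin r => A).filter (fun v =>
      N * max ((3 / 4 + ε) ^ r) (1 / Real.log N ^ U) <
        (missedN N ⌈Real.log N ^ K⌉₊ (fun i => s (v i)) : ℝ)) := ⟨_, rfl⟩
  refine ⟨E, ?_, ?_⟩
  · refine le_trans ?_ h3
    apply Nat.cast_le.2
    apply card_le_card_of_injOn (fun v i => ψ (v i))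
    · intro v hv
      have hv' : v ∈ E := hv
      rw [hEd, mem_filter, Fintype.mem_piFinset] at hv'
      obtain ⟨g1, g2⟩ := hv'
      have e : ∀ i, s' (ψ (v i)) = (s (v i) : ℤ) := fun i => hval (v i) (g1 i)
      show (fun i => ψ (v i)) ∈ Pool.Agent.X10.ST.badT N ⌈Real.log N ^ K⌉₊ A.card s' (3 / 4 + ε) (1 / Real.log N ^ U) r
      unfold Pool.Agent.X10.ST.badT
      rw [mem_filter, Fintype.mem_piFinset]
      refine ⟨fun i => hψm _ (g1 i), fun i => ?_, ?_⟩
      · simp only [e]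
        have := hs _ (g1 i)
        exact ⟨by exact_mod_cast (by omega : 0 < s (v i)), by exact_mod_cast this.2.1⟩
      · unfold Pool.Agent.X10.ST.thr
        refine lt_of_lt_of_eq g2 ?_
        simp only [e, Int.toNat_natCast]
        rfl
    · intro v hv w hw hvw
      have hv' : v ∈ E := hv
      have hw' : w ∈ E := hw
      rw [hEd, mem_filter, Fintype.mem_piFinset] at hv' hw'
      funext i
      exact hψ (hv'.1 i) (hw'.1 i) (congrFun hvw i)
  · intro v hv hvE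
    by_contra hcon
    rw [not_le] at hcon
    apply hvE
    rw [hEd, mem_filter, Fintype.mem_piFinset]
    exact ⟨hv, hcon⟩

end Pool.Agent.X31
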