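import Pool.Agent.X31.S1

set_option autoImplicit false

/-! # Schemes: correlations along tuples of shifts -/

namespace Pool.Agent.X31

open Finset Filter
open Pool.Agent.H373R2.T7 (exI SupSmall)

/-- Several families. The factor `i₀` is `g (α m + s i₀)` with `g` orthogonal to exponentials, the other factors are
arbitrary functions `Φ l s` bounded by `1` (depending on the other shifts `s`). -/
theorem Sch.corr_tuple {K : ℕ} {ι : Fin K → Type} {Q : ∀ i, ℕ → ℕ → Finset (ι i) → (ι i → ℝ) → Prop}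
    (HS : ∀ i, Sch (Q i)) (g : ℕ → ℂ) (hb : ∀ n, ‖g n‖ ≤ 1) (hsup : SupSmall g) (i₀ : Fin K) (o : ι i₀)
    (B D T U : ℕ) :
    ∃ N₀ : ℕ, ∀ N : ℕ, N₀ ≤ N → ∀ (A : ∀ i, Finset (ι i)) (f : ∀ i, ι i → ℝ), (∀ i, Q i D N (A i) (f i)) →
      ∀ J : ℕ, (J : ℝ) ≤ Real.log N ^ T → ∀ α : Fin J → ℕ, (∀ l, 1 ≤ α l) →
      ∀ Φ : Fin J → (Fin K → ℤ) → ℕ → ℂ, (∀ l s n, ‖Φ l s n‖ ≤ 1) →
        (∀ l s s' n, (∀ i, i ≠ i₀ → s i = s' i) → Φ l s n = Φ l s' n) →
      ∃ E : Finset (∀ i, ι i), (E.card : ℝ) ≤ (∏ i, ((A i).card : ℝ)) / Real.log N ^ U ∧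
        ∀ m : ∀ i, ι i, (∀ i, m i ∈ A i) → m ∉ E →
        ∀ s : Fin K → ℤ, (∀ i, |(s i : ℝ) - f i (m i)| ≤ Real.log N ^ D) →
          ∀ l, ∀ x : ℕ, α l * x ≤ B * N →
          ‖∑ n ∈ Icc 1 x, Φ l s n * exI g ((α l : ℤ) * n + s i₀)‖ ≤ N / Real.log N ^ U := by
  classical
  obtain ⟨N₁, h1⟩ := (HS i₀).corr g hb hsup B D ((D + 1) * K + T) U
  have hlog : ∀ᶠ N : ℕ in atTop, (7 : ℝ) ≤ Real.log N :=
    (Real.tendsto_log_atTop.comp tendsto_natCast_atTop_atTop).eventually_ge_atTop _
  obtain ⟨N₂, hN₂⟩ := eventually_atTop.1 hlog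
  refine ⟨N₁ + N₂, fun N hN A f hdat J hJ α hα Φ hΦ hΦ2 => ?_⟩
  have hL7 := hN₂ N (by omega)
  obtain ⟨L, hL⟩ : ∃ L, L = Real.log N := ⟨_, rfl⟩
  have h1' := h1 N (by omega) (A i₀) (f i₀) (hdat i₀)
  rw [← hL] at hL7 hJ h1' ⊢
  have hL1 : 1 ≤ L := by linarith
  have hL0 : 0 < L := by linarith
  have hLD : 1 ≤ L ^ D := one_le_pow₀ hL1
  obtain ⟨R, hR⟩ : ∃ R : ℕ, R = ⌈L ^ D⌉₊ + 1 := ⟨_, rfl⟩
  have hR1 : L ^ D + 1 ≤ R := by
    rw [hR]
    push_cast
    linarith [Nat.le_ceil (L ^ D)]
  have hR2 : (R : ℝ) ≤ L ^ D + 2 := by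
    rw [hR]
    push_cast
    linarith [Nat.ceil_lt_add_one (show 0 ≤ L ^ D by positivity)]
  obtain ⟨z, hz⟩ : ∃ z : ∀ i, ι i → ℤ, z = fun i n => ⌊f i n⌋ := ⟨_, rfl⟩
  have hz1 : ∀ i n, |(z i n : ℝ) - (f i n)| ≤ 1 := by
    intro i n
    rw [hz, abs_le]
    have h1 := Int.floor_le (f i n)
    have h2 := Int.lt_floor_add_one (f i n)
    constructor <;> simp only <;> linarith
  obtain ⟨Sh, hSh⟩ : ∃ Sh : Finset (Fin K → ℤ), Sh = Fintype.piFinset (fun _ => Icc (-(R : ℤ)) R) := ⟨_, rfl⟩
  have hShc : (Sh.card : ℝ) ≤ L ^ ((D + 1) * K) := by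
    rw [hSh, Fintype.card_piFinset, prod_const, card_univ, Fintype.card_fin, pow_mul]
    push_cast
    apply pow_le_pow_left₀ (Nat.cast_nonneg _)
    have e1 : (((Icc (-(R : ℤ)) R).card : ℕ) : ℝ) = 2 * R + 1 := by
      rw [Int.card_Icc]
      have : ((R : ℤ) + 1 - -(R : ℤ)).toNat = 2 * R + 1 := by omega
      rw [this]
      push_cast
      ring
    rw [e1, pow_succ]
    nlinarith
  -- the indices `(shift, l)` enumerated by `Fin`
  obtain ⟨e⟩ : Nonempty (Fin (Sh.card * J) ≃ {s // s ∈ Sh} × Fin J) :=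
    ⟨(Fintype.equivFinOfCardEq (by rw [Fintype.card_prod, Fintype.card_coe, Fintype.card_fin])).symm⟩
  have hJ' : ((Sh.card * J : ℕ) : ℝ) ≤ L ^ ((D + 1) * K + T) := by
    rw [pow_add]
    push_cast
    exact mul_le_mul hShc hJ (Nat.cast_nonneg _) (by positivity)
  -- the other coordinates
  have hex : ∀ q : (∀ i, ι i), ∃ E : Finset (ι i₀), (E.card : ℝ) ≤ (A i₀).card / L ^ U ∧ ∀ n ∈ A i₀, n ∉ E →
        ∀ s : ℤ, |(s : ℝ) - f i₀ n| ≤ L ^ D → ∀ σ ∈ Sh, ∀ l, ∀ x : ℕ, α l * x ≤ B * N →
          ‖∑ n ∈ Icc 1 x, Φ l (fun i => z i (q i) + σ i) n * exI g ((α l : ℤ) * n + s)‖ ≤ N / L ^ U := by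
    intro q
    obtain ⟨E, hE1, hE2⟩ := h1' (Sh.card * J) hJ'
      (fun j => α (e j).2) (fun j n => Φ (e j).2 (fun i => z i (q i) + (e j).1.1 i) n) (fun j => hα _)
      (fun j n _ _ => (hΦ _ _ _).trans (one_le_pow₀ hL1))
    refine ⟨E, hE1, fun n hn hnE s hs σ hσ l x hx => ?_⟩
    have h5 := hE2 n hn hnE s hs (e.symm (⟨σ, hσ⟩, l)) x (by simpa using hx)
    simpa using h5
  choose Ex hEx1 hEx2 using hex
  obtain ⟨E, hE⟩ : ∃ E : Finset (∀ i, ι i), E = (Fintype.piFinset A).filter
      (fun m => m i₀ ∈ Ex (Function.update m i₀ o)) := ⟨_, rfl⟩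
  refine ⟨E, ?_, ?_⟩
  · -- counting
    have hfib : ∀ q ∈ (Fintype.piFinset A).image (fun m => Function.update m i₀ o),
        ((E.filter (fun m => Function.update m i₀ o = q)).card : ℝ) ≤ (A i₀).card / L ^ U := by
      intro q _
      refine le_trans ?_ (hEx1 q)
      apply Nat.cast_le.2
      apply card_le_card_of_injOn (fun m => m i₀)
      · intro m hm
        have hm' := mem_filter.1 (mem_coe.1 hm)
        rw [hE, mem_filter] at hm'
        rw [mem_coe]
        rw [← hm'.2]
        exact hm'.1.2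
      · intro m hm m' hm' hmm
        have h1 := (mem_filter.1 (mem_coe.1 hm)).2
        have h2 := (mem_filter.1 (mem_coe.1 hm')).2
        funext i
        by_cases hi : i = i₀
        · rw [hi]
          exact hmm
        · have h3 := congrFun (h1.trans h2.symm) i
          rw [Function.update_of_ne hi, Function.update_of_ne hi] at h3
          exact h3
    have hcount : (E.card : ℝ) ≤ (((Fintype.piFinset A).image (fun m => Function.update m i₀ o)).card : ℝ) *
        ((A i₀).card / L ^ U) := by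
      have h2 : E.card = ∑ q ∈ (Fintype.piFinset A).image (fun m => Function.update m i₀ o),
          (E.filter (fun m => Function.update m i₀ o = q)).card := by
        apply card_eq_sum_card_fiberwise
        intro m hm
        rw [mem_coe] at hm ⊢
        rw [hE, mem_filter] at hm
        exact mem_image_of_mem _ hm.1
      rw [h2]
      push_cast
      calc ∑ q ∈ (Fintype.piFinset A).image (fun m => Function.update m i₀ o),
          ((E.filter (fun m => Function.update m i₀ o = q)).card : ℝ) ≤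
          ∑ _q ∈ (Fintype.piFinset A).image (fun m => Function.update m i₀ o), ((A i₀).card : ℝ) / L ^ U :=
            sum_le_sum hfib
        _ = _ := by rw [sum_const, nsmul_eq_mul]
    refine hcount.trans ?_
    have himg : ((Fintype.piFinset A).image (fun m => Function.update m i₀ o)).card ≤
        ∏ i ∈ univ.erase i₀, (A i).card := by
      have h3 : (Fintype.piFinset A).image (fun m => Function.update m i₀ o) ⊆
          Fintype.piFinset (Function.update A i₀ {o}) := by
        intro q hq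
        obtain ⟨m, hm, rfl⟩ := mem_image.1 hq
        rw [Fintype.mem_piFinset] at hm ⊢
        intro i
        by_cases hi : i = i₀
        · subst hi
          rw [Function.update_self, Function.update_self]
          exact mem_singleton_self _
        · rw [Function.update_of_ne hi, Function.update_of_ne hi]
          exact hm i
      refine (card_le_card h3).trans (le_of_eq ?_)
      rw [Fintype.card_piFinset, ← mul_prod_erase univ _ (mem_univ i₀), Function.update_self, card_singleton, one_mul]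
      apply prod_congr rfl
      intro i hi
      rw [Function.update_of_ne (mem_erase.1 hi).1]
    calc (((Fintype.piFinset A).image (fun m => Function.update m i₀ o)).card : ℝ) * ((A i₀).card / L ^ U)
        ≤ ((∏ i ∈ univ.erase i₀, (A i).card : ℕ) : ℝ) * ((A i₀).card / L ^ U) := by
          apply mul_le_mul_of_nonneg_right _ (by positivity)
          exact_mod_cast himg
      _ = (∏ i, ((A i).card : ℝ)) / L ^ U := by
          rw [← mul_prod_erase univ (fun i => ((A i).card : ℝ)) (mem_univ i₀)]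
          push_cast
          ring
  · intro m hm hmE s hs l x hx
    have hnot : m i₀ ∉ Ex (Function.update m i₀ o) := by
      intro hcon
      apply hmE
      rw [hE, mem_filter]
      exact ⟨Fintype.mem_piFinset.2 hm, hcon⟩
    -- the shift vector
    obtain ⟨σ, hσ⟩ : ∃ σ : Fin K → ℤ, σ = fun i => if i = i₀ then 0 else s i - z i (m i) := ⟨_, rfl⟩
    have hσm : σ ∈ Sh := by
      rw [hSh, Fintype.mem_piFinset]
      intro i
      rw [hσ, mem_Icc]
      simp only
      split_ifs with hi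
      · constructor <;> omega
      · have h1 := abs_le.1 (hs i)
        have h2 := abs_le.1 (hz1 i (m i))
        have h3 : (-(R : ℝ)) ≤ ((s i - z i (m i) : ℤ) : ℝ) := by
          push_cast
          linarith [h1.1, h2.2]
        have h4 : ((s i - z i (m i) : ℤ) : ℝ) ≤ R := by
          push_cast
          linarith [h1.2, h2.1]
        constructor
        · exact_mod_cast h3
        · exact_mod_cast h4
    have h6 := hEx2 (Function.update m i₀ o) (m i₀) (hm i₀) hnot (s i₀) (hs i₀) σ hσm l x hx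
    refine le_trans (le_of_eq ?_) h6
    congr 1
    apply sum_congr rfl
    intro n _
    congr 1
    apply hΦ2
    intro i hi
    rw [hσ, Function.update_of_ne hi]
    simp only
    rw [if_neg hi]
    ring

end Pool.Agent.X31
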