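import Pool.Agent.X31.S3
import Pool.Agent.TH935.LF13

set_option autoImplicit false

/-! # Schemes: properties which depend on a parameter; transfer to positive members -/

namespace Pool.Agent.X31

open Finset Filter Topology
open Pool.Agent.TH935.GF (En)
open Pool.Agent.H560R3.GB (energy)

/-- almost all members of families with small energies of order `h` have `Q`, with a parameter `X : κ` -/
def FamK {κ : Type} (h : ℕ) (Adm : ℕ → κ → Prop) (Q : ℕ → κ → ℤ → Prop) : Prop := ∀ B C U : ℕ, ∃ N₀ : ℕ, ∀ N : ℕ, N₀ ≤ N →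
  ∀ X : κ, Adm N X → ∀ (ι : Type) [Fintype ι] (v : ι → ℤ), (∀ i, |v i| ≤ B * N) →
    (En h v : ℝ) * N ≤ Real.log N ^ C * (Fintype.card ι : ℝ) ^ (2 * h) →
    ∀ S : Finset ι, (∀ i ∈ S, ¬ Q N X (v i)) → (S.card : ℝ) ≤ Fintype.card ι / Real.log N ^ U

theorem Sch.singleK {ι κ : Type} {P : ℕ → ℕ → Finset ι → (ι → ℝ) → Prop} (HS : Sch P) (D U : ℕ)
    (Adm : ℕ → κ → Prop) (Q : ℕ → κ → ℤ → Prop) (HQ : ∀ h : ℕ, 1 ≤ h → FamK h Adm Q) :
    ∃ N₀ : ℕ, ∀ N : ℕ, N₀ ≤ N → ∀ X : κ, Adm N X → ∀ (A : Finset ι) (φ : ι → ℝ), P D N A φ →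
      ∃ E : Finset ι, (E.card : ℝ) ≤ A.card / Real.log N ^ U ∧ ∀ n ∈ A, n ∉ E →
        ∀ s : ℤ, |(s : ℝ) - φ n| ≤ Real.log N ^ D → Q N X s := by
  classical
  obtain ⟨h, hh, h1⟩ := HS.en
  obtain ⟨C, N₁, h1⟩ := h1 D
  obtain ⟨N₂, h2⟩ := HQ h hh 2 C U
  refine ⟨N₁ + N₂ + 3, fun N hN X hX A φ hdat => ?_⟩
  have hL1 : 1 ≤ Real.log N := Pool.Agent.TH935.TF.one_le_log (by omega)
  have hLD : 1 ≤ Real.log N ^ D := one_le_pow₀ hL1
  obtain ⟨E, hE⟩ : ∃ E : Finset ι, E = A.filter (fun n : ι => ∃ s : ℤ, |(s : ℝ) - φ n| ≤ Real.log N ^ D ∧ ¬ Q N X s) :=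
    ⟨_, rfl⟩
  refine ⟨E, ?_, ?_⟩
  swap
  · intro n hn hnE s hs
    by_contra hcon
    apply hnE
    rw [hE]
    exact mem_filter.2 ⟨hn, s, hs, hcon⟩
  have hch : ∀ n ∈ E, ∃ s : ℤ, |(s : ℝ) - φ n| ≤ Real.log N ^ D ∧ ¬ Q N X s := by
    intro n hn
    rw [hE] at hn
    exact (mem_filter.1 hn).2
  choose! s hs using hch
  have hEA : E ⊆ A := by rw [hE]; exact filter_subset _ _
  obtain ⟨v, hv⟩ : ∃ v : {n : ι // n ∈ A} → ℤ, ∀ i : {n : ι // n ∈ A},
      |(v i : ℝ) - φ i.1| ≤ Real.log N ^ D ∧ (i.1 ∈ E → v i = s i.1) := by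
    apply Classical.axiomOfChoice (r := fun (i : {n : ι // n ∈ A}) (z : ℤ) =>
      |(z : ℝ) - φ i.1| ≤ Real.log N ^ D ∧ (i.1 ∈ E → z = s i.1))
    intro i
    by_cases hi : i.1 ∈ E
    · exact ⟨s i.1, (hs i.1 hi).1, fun _ => rfl⟩
    · refine ⟨⌊φ i.1⌋, ?_, fun h => absurd h hi⟩
      rw [abs_le]
      have h1 := Int.floor_le (φ i.1)
      have h2 := Int.lt_floor_add_one (φ i.1)
      constructor <;> linarith
  obtain ⟨e1, e2⟩ := h1 N (by omega) A φ hdat v (fun i => (hv i).1)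
  have key := h2 N (by omega) X hX _ v (by
    intro i
    have := e1 i
    push_cast
    exact this) (e2 h le_rfl) (univ.filter (fun i : {n : ι // n ∈ A} => i.1 ∈ E)) (by
    intro i hi
    rw [mem_filter] at hi
    rw [(hv i).2 hi.2]
    exact (hs i.1 hi.2).2)
  rw [Fintype.card_coe] at key
  refine le_trans ?_ key
  apply Nat.cast_le.2
  apply card_le_card_of_surjOn (fun i : {n : ι // n ∈ A} => i.1)
  intro n hn
  have hn' := mem_coe.1 hn
  exact ⟨⟨n, hEA hn'⟩, by rw [mem_coe, mem_filter]; exact ⟨mem_univ _, hn'⟩, rfl⟩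

/-- From families of positive natural numbers to the positive members of arbitrary finite families of integers. -/
theorem transferPos (h B C U : ℕ) (P : ℕ → ℕ → Prop)
    (H : ∀ C U : ℕ, ∃ N₀ : ℕ, ∀ N : ℕ, N₀ ≤ N → ∀ (x : ℕ) (s : ℕ → ℕ),
      (∀ m ∈ Icc 1 x, 1 ≤ s m ∧ s m ≤ B * N) →
      (energy h x s : ℝ) * N ≤ Real.log N ^ C * (x : ℝ) ^ (2 * h) →
      ∀ S : Finset ℕ, S ⊆ Icc 1 x → (∀ m ∈ S, ¬ P N (s m)) →
      (S.card : ℝ) ≤ x / Real.log N ^ U) :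
    ∃ N₀ : ℕ, ∀ N : ℕ, N₀ ≤ N → ∀ (ι : Type) [Fintype ι] (v : ι → ℤ),
      (∀ i, v i ≤ B * N) →
      (En h v : ℝ) * N ≤ Real.log N ^ C * (Fintype.card ι : ℝ) ^ (2 * h) →
      ∀ S : Finset ι, (∀ i ∈ S, 0 < v i ∧ ¬ P N (v i).toNat) →
      (S.card : ℝ) ≤ Fintype.card ι / Real.log N ^ U := by
  classical
  obtain ⟨N₀, h0⟩ := H (C + 2 * h * U) U
  obtain ⟨N₁, h1⟩ := Pool.Agent.H373R2.T7.ev_L' 1
  refine ⟨N₀ + N₁ + 3, fun N hN ι _ v hv hE S hS => ?_⟩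
  have hL := h1 N (by omega)
  have hL0 : 0 < Real.log (N : ℝ) := by linarith
  have hN0 : (0 : ℝ) < N := by exact_mod_cast (by omega : 0 < N)
  obtain ⟨L, hLd⟩ : ∃ L, L = Real.log (N : ℝ) := ⟨_, rfl⟩
  have c0 := h0 N (by omega)
  rw [← hLd] at hL hL0 hE c0 ⊢
  obtain ⟨T, hT⟩ : ∃ T : Finset ι, T = univ.filter (fun i => 0 < v i) := ⟨_, rfl⟩
  have hST : S ⊆ T := by
    intro i hi
    rw [hT, mem_filter]
    exact ⟨mem_univ _, (hS i hi).1⟩
  have hSTc : (S.card : ℝ) ≤ T.card := by exact_mod_cast card_le_card hST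
  rcases le_or_gt (T.card : ℝ) (Fintype.card ι / L ^ U) with hsm | hbig
  · exact hSTc.trans hsm
  have hT0 : 0 < T.card := by
    have : (0 : ℝ) ≤ Fintype.card ι / L ^ U := by positivity
    exact_mod_cast this.trans_lt hbig
  obtain ⟨i₀, hi₀⟩ := card_pos.1 hT0
  obtain ⟨x, hx⟩ : ∃ x, x = T.card := ⟨_, rfl⟩
  obtain ⟨e⟩ : Nonempty ((Icc 1 x : Finset ℕ) ≃ T) := ⟨Finset.equivOfCardEq (by rw [Nat.card_Icc, hx]; omega)⟩
  obtain ⟨f, hf⟩ : ∃ f : ℕ → ι, f = fun m => if hm : m ∈ Icc 1 x then (e ⟨m, hm⟩ : ι) else i₀ := ⟨_, rfl⟩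
  have hf1 : ∀ m (hm : m ∈ Icc 1 x), f m = (e ⟨m, hm⟩ : ι) := by
    intro m hm
    rw [hf]
    simp only
    rw [dif_pos hm]
  have hfT : ∀ m ∈ Icc 1 x, f m ∈ T := by
    intro m hm
    rw [hf1 m hm]
    exact (e ⟨m, hm⟩).2
  have hfinj : ∀ m ∈ Icc 1 x, ∀ m' ∈ Icc 1 x, f m = f m' → m = m' := by
    intro m hm m' hm' h2
    rw [hf1 m hm, hf1 m' hm'] at h2
    have h3 := e.injective (Subtype.ext h2)
    exact congrArg Subtype.val h3
  have hfsurj : ∀ i ∈ T, ∃ m ∈ Icc 1 x, f m = i := by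
    intro i hi
    refine ⟨(e.symm ⟨i, hi⟩ : ℕ), (e.symm ⟨i, hi⟩).2, ?_⟩
    rw [hf1 _ (e.symm ⟨i, hi⟩).2]
    simp
  obtain ⟨s, hs⟩ : ∃ s : ℕ → ℕ, s = fun m => (v (f m)).toNat := ⟨_, rfl⟩
  have hsv : ∀ m ∈ Icc 1 x, ((s m : ℕ) : ℤ) = v (f m) := by
    intro m hm
    have h2 := hfT m hm
    rw [hT, mem_filter] at h2
    rw [hs]
    exact Int.toNat_of_nonneg h2.2.le
  have hxr : (T.card : ℝ) = x := by rw [hx]
  rw [hxr] at hbig
  have hιx : (Fintype.card ι : ℝ) ≤ x * L ^ U := by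
    rw [div_lt_iff₀ (by positivity)] at hbig
    exact hbig.le
  have hen : energy h x s ≤ En h v := by
    unfold energy En
    rw [Nat.card_eq_fintype_card, Fintype.card_subtype]
    apply card_le_card_of_injOn (fun q => (fun j => f (q.1 j), fun j => f (q.2 j)))
    · intro q hq
      rw [mem_coe, mem_filter, mem_product, Fintype.mem_piFinset, Fintype.mem_piFinset] at hq
      rw [mem_coe, mem_filter]
      refine ⟨mem_univ _, ?_⟩
      simp only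
      have e1 : ∑ j, v (f (q.1 j)) = ((∑ j, s (q.1 j) : ℕ) : ℤ) := by
        push_cast
        exact sum_congr rfl fun j _ => (hsv _ (hq.1.1 j)).symm
      have e2 : ∑ j, v (f (q.2 j)) = ((∑ j, s (q.2 j) : ℕ) : ℤ) := by
        push_cast
        exact sum_congr rfl fun j _ => (hsv _ (hq.1.2 j)).symm
      rw [e1, e2, hq.2]
    · intro q hq q' hq' h2
      rw [mem_coe, mem_filter, mem_product, Fintype.mem_piFinset, Fintype.mem_piFinset] at hq hq'
      simp only [Prod.mk.injEq] at h2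
      apply Prod.ext
      · funext j
        exact hfinj _ (hq.1.1 j) _ (hq'.1.1 j) (congrFun h2.1 j)
      · funext j
        exact hfinj _ (hq.1.2 j) _ (hq'.1.2 j) (congrFun h2.2 j)
  have henr : (energy h x s : ℝ) ≤ En h v := by exact_mod_cast hen
  have key := c0 x s (by
    intro m hm
    have h2 := hfT m hm
    rw [hT, mem_filter] at h2
    have h3 := hsv m hm
    constructor
    · have h4 := h2.2
      rw [← h3] at h4
      exact_mod_cast h4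
    · have h4 := hv (f m)
      rw [← h3] at h4
      exact_mod_cast h4) (by
    calc (energy h x s : ℝ) * N ≤ En h v * N := mul_le_mul_of_nonneg_right henr hN0.le
      _ ≤ L ^ C * (Fintype.card ι : ℝ) ^ (2 * h) := hE
      _ ≤ L ^ C * (x * L ^ U) ^ (2 * h) := by gcongr
      _ = L ^ (C + 2 * h * U) * (x : ℝ) ^ (2 * h) := by
          rw [mul_pow, pow_add, ← pow_mul, mul_comm U (2 * h)]
          ring)
    ((Icc 1 x).filter (fun m => f m ∈ S)) (filter_subset _ _) (by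
      intro m hm
      rw [mem_filter] at hm
      have h2 := (hS _ hm.2).2
      rw [hs]
      exact h2)
  have hcard : S.card ≤ ((Icc 1 x).filter (fun m => f m ∈ S)).card := by
    refine le_trans (card_le_card ?_) (card_image_le (f := f))
    intro i hi
    obtain ⟨m, hm, hfm⟩ := hfsurj i (hST hi)
    rw [mem_image]
    exact ⟨m, mem_filter.2 ⟨hm, by rw [hfm]; exact hi⟩, hfm⟩
  have hxι : (x : ℝ) ≤ Fintype.card ι := by
    rw [hx]
    exact_mod_cast card_le_univ T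
  calc (S.card : ℝ) ≤ ((Icc 1 x).filter (fun m => f m ∈ S)).card := by exact_mod_cast hcard
    _ ≤ x / L ^ U := key
    _ ≤ Fintype.card ι / L ^ U := by gcongr

/-- change of the scale from `N` to `B N` in the energy condition -/
lemma en_scale (h B C : ℕ) (hB : 1 ≤ B) : ∃ N₀ : ℕ, ∀ N : ℕ, N₀ ≤ N → ∀ E x : ℝ, 0 ≤ E → 0 ≤ x →
    E * N ≤ Real.log N ^ C * x ^ (2 * h) →
    E * ((B * N : ℕ) : ℝ) ≤ Real.log ((B * N : ℕ) : ℝ) ^ (C + 1) * x ^ (2 * h) := by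
  have hlog : ∀ᶠ N : ℕ in atTop, (B : ℝ) + 1 ≤ Real.log N :=
    (Real.tendsto_log_atTop.comp tendsto_natCast_atTop_atTop).eventually_ge_atTop _
  obtain ⟨N₀, hN₀⟩ := eventually_atTop.1 hlog
  refine ⟨N₀ + 1, fun N hN E x hE hx h1 => ?_⟩
  have h2 := hN₀ N (by omega)
  have hN1 : (1 : ℝ) ≤ N := by exact_mod_cast (by omega : 1 ≤ N)
  have hBr : (1 : ℝ) ≤ B := by exact_mod_cast hB
  have h3 : Real.log N ≤ Real.log ((B * N : ℕ) : ℝ) := by
    apply Real.log_le_log (by linarith)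
    push_cast
    nlinarith
  have h4 : 0 ≤ Real.log N := by linarith
  push_cast at h3 ⊢
  calc E * (B * N) = B * (E * N) := by ring
    _ ≤ B * (Real.log N ^ C * x ^ (2 * h)) := mul_le_mul_of_nonneg_left h1 (by linarith)
    _ ≤ Real.log (B * N) * (Real.log (B * N) ^ C * x ^ (2 * h)) := by
        have h5 : (B : ℝ) ≤ Real.log (B * N) := by linarith
        have h7 : 0 ≤ Real.log ((B : ℝ) * N) := h4.trans h3
        have h6 : Real.log N ^ C ≤ Real.log (B * N) ^ C := pow_le_pow_left₀ h4 h3 C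
        gcongr
    _ = Real.log (B * N) ^ (C + 1) * x ^ (2 * h) := by ring

end Pool.Agent.X31
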