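import Pool.Agent.X31.S6
import Pool.Agent.Results.MP_5b0a7e_nt.ThinFamilyModuli
import Pool.Agent.Results.MP_5d318d_nt.ThinFamilyModuli

set_option autoImplicit false

/-! # Least primes in almost all classes and variances for moduli in families of small energy -/

namespace Pool.Agent.X31

open Finset Filter Topology
open Pool.Agent.TH935.GF (En)

lemma scale_log (B κ : ℕ) (hB : 1 ≤ B) : ∃ N₀ : ℕ, ∀ N : ℕ, N₀ ≤ N → ∀ c : ℝ, 0 ≤ c →
    (N : ℝ) ≤ c * Real.log N ^ κ → ((B * N : ℕ) : ℝ) ≤ c * Real.log ((B * N : ℕ) : ℝ) ^ (κ + 1) := by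
  have hlog : ∀ᶠ N : ℕ in atTop, (B : ℝ) + 1 ≤ Real.log N :=
    (Real.tendsto_log_atTop.comp tendsto_natCast_atTop_atTop).eventually_ge_atTop _
  obtain ⟨N₀, hN₀⟩ := eventually_atTop.1 hlog
  refine ⟨N₀ + 1, fun N hN c hc h1 => ?_⟩
  have h2 := hN₀ N (by omega)
  have hN1 : (1 : ℝ) ≤ N := by exact_mod_cast (by omega : 1 ≤ N)
  have hBr : (1 : ℝ) ≤ B := by exact_mod_cast hB
  have h3 : Real.log N ≤ Real.log ((B * N : ℕ) : ℝ) := by
    apply Real.log_le_log (by linarith)
    push_cast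
    nlinarith
  have h4 : 0 ≤ Real.log N := by linarith
  push_cast at h3 ⊢
  have h7 : 0 ≤ Real.log ((B : ℝ) * N) := h4.trans h3
  calc (B : ℝ) * N ≤ B * (c * Real.log N ^ κ) := mul_le_mul_of_nonneg_left h1 (by linarith)
    _ ≤ Real.log (B * N) * (c * Real.log (B * N) ^ κ) := by
        have h5 : (B : ℝ) ≤ Real.log (B * N) := by linarith
        have h6 : Real.log N ^ κ ≤ Real.log (B * N) ^ κ := pow_le_pow_left₀ h4 h3 κ
        gcongr
    _ = c * Real.log (B * N) ^ (κ + 1) := by ring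

/-- the least primes in almost all classes -/
theorem famO_lp (h : ℕ) (ε : ℝ) (hε : 0 < ε) (hε1 : ε ≤ 1) (κ : ℕ) :
    FamO h (fun N c => 0 < c → (N : ℝ) ≤ c * Real.log N ^ κ →
      Pool.Agent.Results.MP_5b0a7e_nt.ThinFamilyModuli.Good ε κ c.toNat) := by
  classical
  intro B C U
  obtain ⟨N₀, h0⟩ := Pool.Agent.Results.MP_5b0a7e_nt.ThinFamilyModuli.first h (C + 1) (κ + 1) U ε hε hε1
  obtain ⟨N₁, h1⟩ := en_scale h (B + 1) C (by omega)
  obtain ⟨N₂, h2⟩ := scale_log (B + 1) κ (by omega)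
  refine ⟨N₀ + N₁ + N₂ + 3, fun N hN ι _ v hv hE S hS => ?_⟩
  have hNr : (3 : ℝ) ≤ N := by exact_mod_cast (by omega : 3 ≤ N)
  have hL1 : 1 ≤ Real.log N := Pool.Agent.TH935.TF.one_le_log (by omega)
  have hBN : N ≤ (B + 1) * N := Nat.le_mul_of_pos_left _ (by omega)
  have hBNr : (N : ℝ) ≤ (((B + 1) * N : ℕ) : ℝ) := by exact_mod_cast hBN
  have hlog : Real.log N ≤ Real.log (((B + 1) * N : ℕ) : ℝ) := Real.log_le_log (by linarith) hBNr
  have key := h0 ((B + 1) * N) (by omega) ι v (fun i => by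
    refine (hv i).trans ?_
    push_cast
    nlinarith [Int.natCast_nonneg N]) (h1 N (by omega) _ _ (Nat.cast_nonneg _) (Nat.cast_nonneg _) hE)
  have h3 : S.card ≤ Pool.Agent.Results.MP_5b0a7e_nt.ThinFamilyModuli.exceptions ε (κ + 1) ((B + 1) * N) v := by
    unfold Pool.Agent.Results.MP_5b0a7e_nt.ThinFamilyModuli.exceptions
    apply card_le_card
    intro i hi
    have h4 := hS i hi
    push Not at h4
    obtain ⟨k1, k2, k3⟩ := h4
    rw [mem_filter]
    refine ⟨mem_univ _, k1, h2 N (by omega) _ (by exact_mod_cast k1.le) k2, fun hG => k3 ?_⟩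
    intro lam hlam1 hlam2
    refine hG lam hlam1 (hlam2.trans ?_)
    by_cases hc : Real.log ((v i).toNat : ℝ) < 1
    · have h5 : Real.log ((v i).toNat : ℝ) ^ κ ≤ 1 := by
        apply pow_le_one₀ _ hc.le
        exact Real.log_natCast_nonneg _
      by_cases hκ : κ = 0
      · subst hκ
        exfalso
        have h6 : lam = 1 := le_antisymm (by simpa using hlam2) hlam1
        rw [pow_zero, mul_one] at k2
        have h7 : (N : ℝ) ≤ (((v i).toNat : ℕ) : ℝ) := by
          have h8 : (((v i).toNat : ℕ) : ℤ) = v i := Int.toNat_of_nonneg k1.le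
          have h9 : (((v i).toNat : ℕ) : ℝ) = ((v i : ℤ) : ℝ) := by exact_mod_cast h8
          rw [h9]
          exact k2
        have h8 := Real.log_le_log (by linarith) h7
        linarith
      · exfalso
        -- `v i ≥ N / log ^ κ N` is large
        have h8 : (((v i).toNat : ℕ) : ℤ) = v i := Int.toNat_of_nonneg k1.le
        have h9 : (((v i).toNat : ℕ) : ℝ) = ((v i : ℤ) : ℝ) := by exact_mod_cast h8
        have h10 : 1 ≤ lam := hlam1
        have h11 : lam ≤ 1 := hlam2.trans h5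
        have h12 : 1 ≤ Real.log ((v i).toNat : ℝ) ^ κ := h10.trans hlam2
        have h13 : Real.log ((v i).toNat : ℝ) ^ κ < 1 :=
          pow_lt_one₀ (Real.log_natCast_nonneg _) hc hκ
        linarith
    · push Not at hc
      exact pow_le_pow_right₀ hc (by omega)
  have h4 : (S.card : ℝ) ≤ Fintype.card ι / Real.log (((B + 1) * N : ℕ) : ℝ) ^ U := by
    refine le_trans ?_ key
    exact_mod_cast h3
  refine h4.trans ?_
  apply div_le_div_of_nonneg_left (Nat.cast_nonneg _) (by positivity)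
  exact pow_le_pow_left₀ (by linarith) hlog U

/-- the variance in progressions -/
theorem famO_var (h : ℕ) (ε : ℝ) (hε : 0 < ε) (hε1 : ε ≤ 1) (κ : ℕ) :
    FamO h (fun N c => 0 < c → (N : ℝ) ≤ c * Real.log N ^ κ →
      Pool.Agent.Results.MP_5d318d_nt.ThinFamilyModuli.Good ε κ N c.toNat) := by
  classical
  intro B C U
  obtain ⟨N₀, h0⟩ := Pool.Agent.Results.MP_5d318d_nt.ThinFamilyModuli.first h (C + 1) (κ + 1) U ε hε hε1
  obtain ⟨N₁, h1⟩ := en_scale h (B + 1) C (by omega)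
  obtain ⟨N₂, h2⟩ := scale_log (B + 1) κ (by omega)
  refine ⟨N₀ + N₁ + N₂ + 3, fun N hN ι _ v hv hE S hS => ?_⟩
  have hNr : (3 : ℝ) ≤ N := by exact_mod_cast (by omega : 3 ≤ N)
  have hL1 : 1 ≤ Real.log N := Pool.Agent.TH935.TF.one_le_log (by omega)
  have hBN : N ≤ (B + 1) * N := Nat.le_mul_of_pos_left _ (by omega)
  have hBNr : (N : ℝ) ≤ (((B + 1) * N : ℕ) : ℝ) := by exact_mod_cast hBN
  have hlog : Real.log N ≤ Real.log (((B + 1) * N : ℕ) : ℝ) := Real.log_le_log (by linarith) hBNr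
  have key := h0 ((B + 1) * N) (by omega) ι v (fun i => by
    refine (hv i).trans ?_
    push_cast
    nlinarith [Int.natCast_nonneg N]) (h1 N (by omega) _ _ (Nat.cast_nonneg _) (Nat.cast_nonneg _) hE)
  have h3 : S.card ≤ Pool.Agent.Results.MP_5d318d_nt.ThinFamilyModuli.exceptions ε (κ + 1) ((B + 1) * N) v := by
    unfold Pool.Agent.Results.MP_5d318d_nt.ThinFamilyModuli.exceptions
    apply card_le_card
    intro i hi
    have h4 := hS i hi
    push Not at h4
    obtain ⟨k1, k2, k3⟩ := h4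
    rw [mem_filter]
    refine ⟨mem_univ _, k1, h2 N (by omega) _ (by exact_mod_cast k1.le) k2, fun hG => k3 ?_⟩
    intro x hx1 hx2
    refine hG x hx1 (hx2.trans ?_)
    apply mul_le_mul_of_nonneg_left _ (Nat.cast_nonneg _)
    calc Real.log N ^ κ ≤ Real.log (((B + 1) * N : ℕ) : ℝ) ^ κ := pow_le_pow_left₀ (by linarith) hlog κ
      _ ≤ Real.log (((B + 1) * N : ℕ) : ℝ) ^ (κ + 1) := pow_le_pow_right₀ (by linarith) (by omega)
  have h4 : (S.card : ℝ) ≤ Fintype.card ι / Real.log (((B + 1) * N : ℕ) : ℝ) ^ U := by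
    refine le_trans ?_ key
    exact_mod_cast h3
  refine h4.trans ?_
  apply div_le_div_of_nonneg_left (Nat.cast_nonneg _) (by positivity)
  exact pow_le_pow_left₀ (by linarith) hlog U

end Pool.Agent.X31
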