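import Pool.Agent.X31.S6
import Pool.Agent.Results.MP_92ef0c_nt.ThinFamilies

set_option autoImplicit false

/-! # Prime pairs in progressions for differences in families of small energy -/

namespace Pool.Agent.X31

open Finset Filter Topology
open Pool.Agent.TH935.GF (En)

/-- prime pairs in progressions -/
theorem famK_pairs (h A B C W : ℕ) :
    FamK h (fun (N X : ℕ) => N ≤ X ∧ (N : ℝ) * Real.log X ^ (C + 6) ≤ X ∧ (X : ℝ) ≤ N * Real.log X ^ W)
      (fun _ X c => 0 < c → Pool.Agent.Results.MP_92ef0c_nt.ThinFamilies.Holds A B C X c.toNat) := by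
  classical
  intro B₀ C₀ U
  obtain ⟨N₀, h0⟩ := Pool.Agent.Results.MP_92ef0c_nt.ThinFamilies.first h A B C B₀ C₀ U W
  refine ⟨N₀, fun N hN X hX ι _ v hv hE S hS => ?_⟩
  refine le_trans ?_ (h0 N hN X hX.1 hX.2.1 hX.2.2 ι v hv hE)
  unfold Pool.Agent.Results.MP_92ef0c_nt.ThinFamilies.exceptions
  apply Nat.cast_le.2
  apply card_le_card
  intro i hi
  have h4 := hS i hi
  push Not at h4
  rw [mem_filter]
  exact ⟨mem_univ _, h4.1, h4.2⟩

end Pool.Agent.X31
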