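import Mathlib

/-!
# Two 3-ships: antisymmetric arc patterns

`Hit A u v w`: every translate of `{u, v, w}` meets `A`. `Good A`: there is a finite nonempty set `T`
of shifts such that every translate of `T` has exactly half of its elements in `A` (so `A` has
density `1/2`). `arc N k`: the set of the `n` with `n k mod 2 N` in `[N, 2 N)`.
-/

set_option autoImplicit false

namespace Pool.Agent.X31.SH

open Finset

/-- every translate of `{u, v, w}` meets `A` -/
def Hit (A : ℤ → Prop) (u v w : ℤ) : Prop := ∀ t : ℤ, A (t + u) ∨ A (t + v) ∨ A (t + w)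

open Classical in
/-- the indicator function -/
noncomputable def ind (A : ℤ → Prop) (n : ℤ) : ℕ := if A n then 1 else 0

lemma ind_congr {A B : ℤ → Prop} {m n : ℤ} (h : A m ↔ B n) : ind A m = ind B n := by
  unfold ind
  by_cases hA : A m
  · simp [hA, h.1 hA]
  · simp [hA, mt h.2 hA]

/-- some finite nonempty set of shifts has exactly half of its elements in `A`, wherever it is
translated to -/
def Good (A : ℤ → Prop) : Prop :=
  ∃ T : Finset ℤ, T.Nonempty ∧ ∀ n : ℤ, 2 * ∑ s ∈ T, ind A (n + s) = T.card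

lemma hit_shift {A : ℤ → Prop} {u v w : ℤ} (c : ℤ) (h : Hit A (u + c) (v + c) (w + c)) :
    Hit A u v w := by
  intro t
  have := h (t - c)
  rw [show t - c + (u + c) = t + u by ring, show t - c + (v + c) = t + v by ring,
    show t - c + (w + c) = t + w by ring] at this
  exact this

lemma hit_swap12 {A : ℤ → Prop} {u v w : ℤ} (h : Hit A v u w) : Hit A u v w := by
  intro t
  have := h t
  tauto

lemma hit_swap23 {A : ℤ → Prop} {u v w : ℤ} (h : Hit A u w v) : Hit A u v w := by
  intro t
  have := h t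
  tauto

lemma hit_rev {A : ℤ → Prop} {u v w : ℤ} (h : Hit A w v u) : Hit A u v w := by
  intro t
  have := h t
  tauto

/-- `A` and its shift by `w` are complementary -/
def Anti (A : ℤ → Prop) (w : ℤ) : Prop := ∀ n, A (n + w) ↔ ¬ A n

lemma hit_of_anti {A : ℤ → Prop} {u v w : ℤ} (h : Anti A (v - u)) : Hit A u v w := by
  intro t
  have := h (t + u)
  rw [show t + u + (v - u) = t + v by ring] at this
  tauto

lemma anti_neg {A : ℤ → Prop} {w : ℤ} (h : Anti A w) : Anti A (-w) := by
  intro n
  have := h (n + -w)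
  rw [show n + -w + w = n by ring] at this
  tauto

lemma anti_ne {A : ℤ → Prop} {w : ℤ} (h : Anti A w) : w ≠ 0 := by
  rintro rfl
  have := h 0
  simp at this

lemma good_of_anti {A : ℤ → Prop} {w : ℤ} (h : Anti A w) : Good A := by
  refine ⟨{0, w}, by simp, fun n => ?_⟩
  have hw := anti_ne h
  rw [Finset.sum_pair (Ne.symm hw), Finset.card_pair (Ne.symm hw)]
  unfold ind
  have := h n
  rw [add_zero]
  by_cases h1 : A n
  · have h2 : ¬ A (n + w) := fun h3 => (this.1 h3) h1
    simp [h1, h2]
  · have h2 : A (n + w) := this.2 h1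
    simp [h1, h2]

lemma good_scale {A : ℤ → Prop} (d : ℤ) (hd : 0 < d) (h : Good A) :
    Good (fun n => A (n / d)) := by
  obtain ⟨T, hT, h1⟩ := h
  have hinj : Function.Injective (fun s : ℤ => d * s) := fun a b hab =>
    mul_left_cancel₀ hd.ne' hab
  refine ⟨T.image (fun s => d * s), hT.image _, fun n => ?_⟩
  rw [Finset.card_image_of_injective _ hinj, Finset.sum_image (fun a _ b _ hab => hinj hab),
    ← h1 (n / d)]
  congr 1
  apply Finset.sum_congr rfl
  intro s _
  have : (n + d * s) / d = n / d + s := Int.add_mul_ediv_left n s hd.ne'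
  refine ind_congr (A := fun n => A (n / d)) ?_
  show A ((n + d * s) / d) ↔ _
  rw [this]

lemma hit_scale {A : ℤ → Prop} (d : ℤ) (hd : 0 < d) {u v w : ℤ} (h : Hit A u v w) :
    Hit (fun n => A (n / d)) (d * u) (d * v) (d * w) := by
  intro t
  simp only [Int.add_mul_ediv_left _ _ hd.ne']
  exact h (t / d)

lemma good_neg {A : ℤ → Prop} (h : Good A) : Good (fun n => A (-n)) := by
  obtain ⟨T, hT, h1⟩ := h
  refine ⟨T.image (fun s => -s), hT.image _, fun n => ?_⟩
  rw [Finset.card_image_of_injective _ neg_injective,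
    Finset.sum_image (fun a _ b _ hab => neg_injective hab), ← h1 (-n)]
  congr 1
  apply Finset.sum_congr rfl
  intro s _
  have : -(n + -s) = -n + s := by ring
  refine ind_congr (A := fun n => A (-n)) ?_
  show A (-(n + -s)) ↔ _
  rw [this]

lemma hit_neg {A : ℤ → Prop} {u v w : ℤ} (h : Hit A (-u) (-v) (-w)) :
    Hit (fun n => A (-n)) u v w := by
  intro t
  have := h (-t)
  simp only [neg_add]
  exact this

/-- the arc pattern -/
def arc (N k : ℤ) : ℤ → Prop := fun n => N ≤ (n * k) % (2 * N)

lemma arc_anti {N k w : ℤ} (hN : 0 < N) (h : (w * k) % (2 * N) = N) : Anti (arc N k) w := by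
  intro n
  unfold arc
  rw [add_mul, Int.add_emod, h]
  have h1 := Int.emod_nonneg (n * k) (show (2 * N) ≠ 0 by omega)
  have h2 := Int.emod_lt_of_pos (n * k) (show 0 < 2 * N by omega)
  set r := (n * k) % (2 * N)
  by_cases h3 : N ≤ r
  · have : (r + N) % (2 * N) = r - N := by
      rw [show r + N = (r - N) + 2 * N by ring, Int.add_emod_right]
      exact Int.emod_eq_of_lt (by omega) (by omega)
    rw [this]
    constructor
    · intro; omega
    · intro h4; exact absurd h3 h4
  · have : (r + N) % (2 * N) = r + N := Int.emod_eq_of_lt (by omega) (by omega)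
    rw [this]
    constructor
    · intro _; exact h3
    · intro; omega

lemma arc_hit {N k p q : ℤ} (hN : 0 < N) (h1 : (p * k) % (2 * N) ≤ N)
    (h2 : (q * k) % (2 * N) ≤ N) (h3 : N ≤ (p * k) % (2 * N) + (q * k) % (2 * N)) :
    Hit (arc N k) 0 p (p + q) := by
  intro t
  unfold arc
  have hp := Int.emod_nonneg (p * k) (show (2 * N) ≠ 0 by omega)
  have hq := Int.emod_nonneg (q * k) (show (2 * N) ≠ 0 by omega)
  have ht := Int.emod_nonneg (t * k) (show (2 * N) ≠ 0 by omega)
  rw [add_zero, add_mul t p k, Int.add_emod (t * k) (p * k),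
    show (t + (p + q)) * k = t * k + p * k + q * k by ring,
    Int.add_emod (t * k + p * k) (q * k), Int.add_emod (t * k) (p * k)]
  set r := (t * k) % (2 * N)
  set a := (p * k) % (2 * N)
  set b := (q * k) % (2 * N)
  by_cases hr : N ≤ r
  · exact Or.inl hr
  · by_cases hra : N ≤ r + a
    · right; left
      rw [Int.emod_eq_of_lt (by omega) (by omega)]
      exact hra
    · right; right
      rw [Int.emod_eq_of_lt (show 0 ≤ r + a by omega) (by omega),
        Int.emod_eq_of_lt (by omega) (by omega)]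
      omega

lemma arc_hit' {N k p q : ℤ} (hN : 0 < N) (h1 : (-p * k) % (2 * N) ≤ N)
    (h2 : (-q * k) % (2 * N) ≤ N) (h3 : N ≤ (-p * k) % (2 * N) + (-q * k) % (2 * N)) :
    Hit (arc N k) 0 p (p + q) := by
  have h := arc_hit hN h2 h1 (by omega)
  apply hit_rev
  apply hit_shift (-(p + q))
  rw [show p + q + -(p + q) = 0 by ring, show p + -(p + q) = -q by ring,
    show 0 + -(p + q) = -q + -p by ring]
  exact h

lemma emod_neg_of {a N : ℤ} (hN : 0 < N) (h : a % N ≠ 0) : (-a) % N = N - a % N := by
  have h1 := Int.emod_nonneg a hN.ne'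
  have h2 := Int.emod_lt_of_pos a hN
  have h3 : -a = (N - a % N) + N * (-(a / N) - 1) := by
    have := Int.emod_add_mul_ediv a N
    linarith
  rw [h3, Int.add_mul_emod_self_left]
  exact Int.emod_eq_of_lt (by omega) (by omega)

lemma odd_emod {a N : ℤ} (ha : a % 2 = 1) : (a % (2 * N)) % 2 = 1 := by
  rw [Int.emod_emod_of_dvd _ (Dvd.intro _ rfl)]
  exact ha

lemma odd_mul_emod {x u : ℤ} (hx : x % 2 = 1) (hu : 0 < u) : (x * u) % (2 * u) = u := by
  have : x * u = u + 2 * u * (x / 2) := by
    have := Int.emod_add_mul_ediv x 2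
    rw [hx] at this
    have h2 : x * u = (1 + 2 * (x / 2)) * u := by rw [this]
    rw [h2]; ring
  rw [this, Int.add_mul_emod_self_left]
  exact Int.emod_eq_of_lt (by omega) (by omega)

/-- both residues in the first half: done -/
lemma LB0 {x y u k : ℤ} (hu : 0 < u) (hx : x % 2 = 1) (hy : y % 2 = 1) (hk : k % 2 = 1)
    (hu2 : u % 2 = 0) (h1 : (x * k) % (2 * u) < u) (h2 : (y * k) % (2 * u) < u) :
    ∃ A, Anti A u ∧ Hit A 0 x (x + y) := by
  have hxk : (x * k) % 2 = 1 := by rw [Int.mul_emod, hx, hk]; norm_num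
  have hyk : (y * k) % 2 = 1 := by rw [Int.mul_emod, hy, hk]; norm_num
  have hX := Int.emod_nonneg (x * k) (show (2 * u) ≠ 0 by omega)
  have hY := Int.emod_nonneg (y * k) (show (2 * u) ≠ 0 by omega)
  by_cases h3 : u ≤ (x * k) % (2 * u) + (y * k) % (2 * u)
  · refine ⟨arc u k, arc_anti hu ?_, arc_hit hu h1.le h2.le h3⟩
    rw [mul_comm]
    exact odd_mul_emod hk hu
  · have hk' : (k + u) % 2 = 1 := by omega
    refine ⟨arc u (k + u), arc_anti hu ?_, ?_⟩
    · rw [mul_comm]
      exact odd_mul_emod hk' hu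
    · have ex : ∀ z : ℤ, z % 2 = 1 → (z * k) % (2 * u) < u →
          (-z * (k + u)) % (2 * u) = u - (z * k) % (2 * u) := by
        intro z hz hz1
        have hz0 := Int.emod_nonneg (z * k) (show (2 * u) ≠ 0 by omega)
        have e1 : (z * (k + u)) % (2 * u) = (z * k) % (2 * u) + u := by
          rw [mul_add, Int.add_emod, odd_mul_emod hz hu]
          exact Int.emod_eq_of_lt (by omega) (by omega)
        rw [neg_mul, emod_neg_of (by omega) (by rw [e1]; omega), e1]
        omega
      apply arc_hit' hu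
      · rw [ex x hx h1]; omega
      · rw [ex y hy h2]; omega
      · rw [ex x hx h1, ex y hy h2]; omega

/-- both residues in the same half: done -/
lemma LB1 {x y u k : ℤ} (hu : 0 < u) (hx : x % 2 = 1) (hy : y % 2 = 1) (hk : k % 2 = 1)
    (hu2 : u % 2 = 0) (h : (x * k / u) % 2 = (y * k / u) % 2) :
    ∃ A, Anti A u ∧ Hit A 0 x (x + y) := by
  have hxk : (x * k) % 2 = 1 := by rw [Int.mul_emod, hx, hk]; norm_num
  have hyk : (y * k) % 2 = 1 := by rw [Int.mul_emod, hy, hk]; norm_num
  -- residue modulo 2 u in terms of the quotient by u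
  have key : ∀ a : ℤ, a % 2 = 1 → (a / u) % 2 = 0 → a % (2 * u) < u := by
    intro a _ h0
    have e : a = a % u + 2 * u * (a / u / 2) := by
      have h1 := Int.emod_add_mul_ediv a u
      have h2 := Int.emod_add_mul_ediv (a / u) 2
      rw [h0] at h2
      have h3 : u * (a / u) = u * (0 + 2 * (a / u / 2)) := by rw [h2]
      linarith
    rw [e, Int.add_mul_emod_self_left]
    have h1 := Int.emod_nonneg a hu.ne'
    have h2 := Int.emod_lt_of_pos a hu
    rw [Int.emod_eq_of_lt h1 (by omega)]
    exact h2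
  have key' : ∀ a : ℤ, a % 2 = 1 → (a / u) % 2 = 1 → (-a) % (2 * u) < u := by
    intro a ha h0
    have h1 := Int.emod_nonneg a hu.ne'
    have h2 := Int.emod_lt_of_pos a hu
    have e : a = (a % u + u) + 2 * u * (a / u / 2) := by
      have h1 := Int.emod_add_mul_ediv a u
      have h2 := Int.emod_add_mul_ediv (a / u) 2
      rw [h0] at h2
      have h3 : u * (a / u) = u * (1 + 2 * (a / u / 2)) := by rw [h2]
      linarith
    have e2 : a % (2 * u) = a % u + u := by
      conv_lhs => rw [e]
      rw [Int.add_mul_emod_self_left]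
      exact Int.emod_eq_of_lt (by omega) (by omega)
    have h3 : a % u ≠ 0 := by
      intro h4
      have h5 := odd_emod (N := u) ha
      rw [e2, h4] at h5
      omega
    rw [emod_neg_of (by omega) (by rw [e2]; omega), e2]
    omega
  rcases Int.emod_two_eq_zero_or_one (x * k / u) with h0 | h0
  · exact LB0 hu hx hy hk hu2 (key _ hxk h0) (key _ hyk (by omega))
  · have hk' : (-k) % 2 = 1 := by omega
    refine LB0 hu hx hy hk' hu2 ?_ ?_
    · rw [mul_neg]; exact key' _ hxk h0
    · rw [mul_neg]; exact key' _ hyk (by omega)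

/-- discrete continuity -/
lemma BC0 {a b u : ℤ} (hu : 0 < u) (ha : 2 * |a| ≤ u) (hb : 2 * |b| ≤ u) (hab : 0 < a + b) :
    ∃ k : ℤ, k % 2 = 1 ∧ (a * k / u) % 2 = (b * k / u) % 2 := by
  have ha1 := abs_le.1 (show |a| ≤ u / 2 by omega)
  have hb1 := abs_le.1 (show |b| ≤ u / 2 by omega)
  set G : ℕ → ℤ := fun j => a * (2 * (j : ℤ) + 1) / u + b * (2 * (j : ℤ) + 1) / u with hG
  have hex : ∃ j, 0 ≤ G j := by
    refine ⟨u.toNat, ?_⟩
    have hc : ((u.toNat : ℕ) : ℤ) = u := Int.toNat_of_nonneg hu.le
    simp only [hG, hc]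
    have h1 := Int.emod_add_mul_ediv (a * (2 * u + 1)) u
    have h2 := Int.emod_add_mul_ediv (b * (2 * u + 1)) u
    have h3 := Int.emod_lt_of_pos (a * (2 * u + 1)) hu
    have h4 := Int.emod_lt_of_pos (b * (2 * u + 1)) hu
    set P := a * (2 * u + 1) / u
    set Q := b * (2 * u + 1) / u
    have h5 : u * (P + Q) > (a + b) * (2 * u + 1) - 2 * u := by nlinarith
    have h6 : (a + b) * (2 * u + 1) ≥ 2 * u + 1 := by nlinarith
    have h7 : u * (P + Q) > 0 := by linarith
    by_contra h8
    push Not at h8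
    nlinarith
  classical
  have hfind := Nat.find_spec hex
  have hmin := fun m => @Nat.find_min _ _ hex m
  set j := Nat.find hex
  have hle : G j ≤ 0 := by
    rcases Nat.eq_zero_or_pos j with h0 | h0
    · rw [h0]
      simp only [hG, Nat.cast_zero, mul_zero, zero_add, mul_one]
      have h1 : a / u ≤ 0 := by
        have : a / u < 1 := Int.ediv_lt_of_lt_mul hu (by omega)
        omega
      have h2 : b / u ≤ 0 := by
        have : b / u < 1 := Int.ediv_lt_of_lt_mul hu (by omega)
        omega
      omega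
    · obtain ⟨i, hi⟩ := Nat.exists_eq_succ_of_ne_zero h0.ne'
      have h1 := hmin i (by omega)
      have h2 := hmin 0 h0
      push Not at h1 h2
      have hneg : a < 0 ∨ b < 0 := by
        by_contra h3
        push Not at h3
        have h4 : 0 ≤ G 0 := by
          simp only [hG, Nat.cast_zero, mul_zero, zero_add, mul_one]
          exact add_nonneg (Int.ediv_nonneg h3.1 hu.le) (Int.ediv_nonneg h3.2 hu.le)
        omega
      have step : ∀ c : ℤ, 2 * c ≤ u → c * (2 * ((i : ℤ) + 1) + 1) / u ≤
          c * (2 * (i : ℤ) + 1) / u + 1 := by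
        intro c hc
        have e : c * (2 * (i : ℤ) + 1) / u + 1 = (c * (2 * (i : ℤ) + 1) + u) / u := by
          rw [Int.add_ediv_of_dvd_right (dvd_refl u), Int.ediv_self hu.ne']
        rw [e]
        apply Int.ediv_le_ediv hu
        linarith
      have step' : ∀ c : ℤ, c < 0 → c * (2 * ((i : ℤ) + 1) + 1) / u ≤
          c * (2 * (i : ℤ) + 1) / u := by
        intro c hc
        apply Int.ediv_le_ediv hu
        linarith
      have hj : ((j : ℕ) : ℤ) = (i : ℤ) + 1 := by rw [hi]; push_cast; ring
      simp only [hG] at h1 ⊢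
      rw [hj]
      rcases hneg with hn | hn
      · have := step b (by omega)
        have := step' a hn
        omega
      · have := step a (by omega)
        have := step' b hn
        omega
  refine ⟨2 * (j : ℤ) + 1, by omega, ?_⟩
  have h0 : G j = 0 := le_antisymm hle hfind
  simp only [hG] at h0
  omega

lemma BC {a b u : ℤ} (hu : 0 < u) (ha : 2 * |a| ≤ u) (hb : 2 * |b| ≤ u) (hab : a + b ≠ 0) :
    ∃ k : ℤ, k % 2 = 1 ∧ (a * k / u) % 2 = (b * k / u) % 2 := by
  rcases lt_or_gt_of_ne hab with h | h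
  · obtain ⟨k, hk, h1⟩ := BC0 hu (a := -a) (b := -b) (by rwa [abs_neg]) (by rwa [abs_neg])
      (by omega)
    refine ⟨-k, by omega, ?_⟩
    rw [mul_neg, mul_neg, ← neg_mul, ← neg_mul]
    exact h1
  · exact BC0 hu ha hb h

end Pool.Agent.X31.SH
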