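import Mathlib

/-!
# Residues: three integers with sum zero that are all in the first half modulo an odd number
-/

set_option autoImplicit false

namespace Pool.Agent.X31.SH

/-- `E` even, `c = μ E - w x` odd, `0 < c < E < x` -/
def Suc (x μ : ℤ) : Prop :=
  ∃ E w : ℤ, E % 2 = 0 ∧ (μ * E - w * x) % 2 = 1 ∧ 0 < μ * E - w * x ∧ μ * E - w * x < E ∧ E < x

/-- the mirrored form: `E` odd, `c` even and `E < c < x` -/
lemma suc_mirror {x μ E w : ℤ} (hx : x % 2 = 1) (hE : E % 2 = 1) (hE0 : 0 < E)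
    (h1 : (μ * E - w * x) % 2 = 0) (h2 : E < μ * E - w * x) (h3 : μ * E - w * x < x) :
    Suc x μ := by
  refine ⟨x - E, μ - 1 - w, by omega, ?_, ?_, ?_, by omega⟩
  · have : μ * (x - E) - (μ - 1 - w) * x = x - (μ * E - w * x) := by ring
    rw [this]; omega
  · have : μ * (x - E) - (μ - 1 - w) * x = x - (μ * E - w * x) := by ring
    rw [this]; omega
  · have : μ * (x - E) - (μ - 1 - w) * x = x - (μ * E - w * x) := by ring
    rw [this]; omega

lemma suc_small {x μ : ℤ} (hx : x % 2 = 1) (hμ : μ % 2 = 1) (h3 : 3 ≤ μ) (h2 : 2 * μ < x) :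
    Suc x μ ∨ (x = 7 ∧ μ = 3) := by
  have hμ0 : 0 < μ := by omega
  obtain ⟨q, hq⟩ : ∃ q, q = x / μ := ⟨_, rfl⟩
  have e1 := Int.emod_add_mul_ediv x μ
  have e2 := Int.emod_nonneg x hμ0.ne'
  have e3 := Int.emod_lt_of_pos x hμ0
  rw [← hq] at e1
  -- c at E = q + 1
  obtain ⟨c, hc⟩ : ∃ c, c = μ * (q + 1) - 1 * x := ⟨_, rfl⟩
  have hc1 : 0 < c := by rw [hc]; linarith
  have hc2 : c ≤ μ := by rw [hc]; linarith
  have hq2 : 2 ≤ q := by
    by_contra h
    push Not at h
    have : μ * q ≤ μ * 1 := by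
      apply mul_le_mul_of_nonneg_left _ hμ0.le
      omega
    linarith
  have hqx : 3 * q ≤ x := by nlinarith
  have par : ∀ E : ℤ, (μ * E - 1 * x) % 2 = (E + 1) % 2 := by
    intro E
    rw [Int.sub_emod, Int.mul_emod, hμ, one_mul, one_mul, hx]
    omega
  have c1 : μ * (q + 2) - 1 * x = c + μ := by rw [hc]; ring
  have c2 : μ * (q + 3) - 1 * x = c + 2 * μ := by rw [hc]; ring
  have p0 := par (q + 1)
  have p1 := par (q + 2)
  have p2 := par (q + 3)
  rw [← hc] at p0
  rw [c1] at p1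
  rw [c2] at p2
  rcases Int.emod_two_eq_zero_or_one (q + 1) with hE | hE
  · -- q + 1 even
    by_cases h : c < q + 1
    · left
      refine ⟨q + 1, 1, hE, ?_, ?_, ?_, by omega⟩
      · rw [← hc]; omega
      · rw [← hc]; exact hc1
      · rw [← hc]; exact h
    · left
      apply suc_mirror (E := q + 2) (w := 1) hx (by omega) (by omega)
      · rw [c1]; omega
      · rw [c1]; omega
      · rw [c1]; omega
  · by_cases h : q + 1 < c
    · left
      apply suc_mirror (E := q + 1) (w := 1) hx (by omega) (by omega)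
      · rw [← hc]; omega
      · rw [← hc]; exact h
      · rw [← hc]; omega
    · by_cases h1 : c + μ < q + 2
      · left
        refine ⟨q + 2, 1, by omega, ?_, ?_, ?_, by omega⟩
        · rw [c1]; omega
        · rw [c1]; omega
        · rw [c1]; exact h1
      · by_cases h2' : c + 2 * μ < x
        · left
          apply suc_mirror (E := q + 3) (w := 1) hx (by omega) (by omega)
          · rw [c2]; omega
          · rw [c2]; omega
          · rw [c2]; exact h2'
        · right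
          have hE3 : q = 2 := by
            by_contra hne
            have h4 : 4 ≤ q := by omega
            nlinarith
          subst hE3
          have hc2' : c = 2 := by omega
          norm_num at hc
          have : μ = 3 := by omega
          omega

lemma suc_all {x μ : ℤ} (hx : x % 2 = 1) (h2 : 2 ≤ μ) (hμx : μ < x) (hx7 : x ≠ 7) :
    Suc x μ := by
  rcases Int.emod_two_eq_zero_or_one μ with he | ho
  · refine suc_mirror (E := 1) (w := 0) hx (by norm_num) (by norm_num) ?_ ?_ ?_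
    · rw [mul_one, zero_mul, sub_zero]; exact he
    · rw [mul_one, zero_mul, sub_zero]; omega
    · rw [mul_one, zero_mul, sub_zero]; exact hμx
  · rcases lt_trichotomy (2 * μ) (x + 1) with h | h | h
    · rcases suc_small hx ho (by omega) (by omega) with h1 | h1
      · exact h1
      · exact absurd h1.1 hx7
    · refine ⟨2, 1, by norm_num, ?_, ?_, ?_, by omega⟩
      · have : μ * 2 - 1 * x = 1 := by linarith
        rw [this]; norm_num
      · linarith
      · linarith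
    · have hs := suc_small (x := x) (μ := x + 1 - μ) hx (by omega)
        (by omega) (by omega)
      rcases hs with h1 | h1
      · obtain ⟨E, w, h5, h6, h7, h8, h9⟩ := h1
        have e : μ * E - (E - w) * x = E - ((x + 1 - μ) * E - w * x) := by ring
        refine ⟨E, E - w, h5, ?_, ?_, ?_, h9⟩
        · rw [e]; omega
        · rw [e]; omega
        · rw [e]; omega
      · exact absurd h1.1 hx7

/-- the residues of `P k` and `Q k` are in the first half and their sum is not -/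
def SS (x P Q k : ℤ) : Prop :=
  2 * ((P * k) % x) < x ∧ 2 * ((Q * k) % x) < x ∧ x < 2 * ((P * k) % x + (Q * k) % x)

lemma ss_swap {x P Q k : ℤ} (h : SS x P Q k) : SS x Q P k :=
  ⟨h.2.1, h.1, by have := h.2.2; omega⟩

/-- rotation: from `(P, Q)` to `(Q, -P-Q)` -/
lemma ss_rot {x P Q k : ℤ} (hx : 0 < x) (h : SS x P Q k) : SS x Q (-P - Q) k := by
  obtain ⟨h1, h2, h3⟩ := h
  have a1 := Int.emod_nonneg (P * k) hx.ne'
  have a2 := Int.emod_nonneg (Q * k) hx.ne'
  have e1 : (P * k + Q * k) % x = (P * k) % x + (Q * k) % x := by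
    rw [Int.add_emod]
    exact Int.emod_eq_of_lt (by omega) (by omega)
  have e2 : ((-P - Q) * k) % x = x - ((P * k) % x + (Q * k) % x) := by
    rw [show (-P - Q) * k = -(P * k + Q * k) by ring]
    have h4 : (P * k + Q * k) % x ≠ 0 := by rw [e1]; omega
    have h5 : -(P * k + Q * k) = (x - (P * k + Q * k) % x) + x * (-((P * k + Q * k) / x) - 1) := by
      have := Int.emod_add_mul_ediv (P * k + Q * k) x
      linarith
    rw [h5, Int.add_mul_emod_self_left, e1]
    exact Int.emod_eq_of_lt (by omega) (by omega)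
  refine ⟨h2, ?_, ?_⟩
  · rw [e2]; omega
  · rw [e2]; omega

lemma ss_mod {x P Q : ℤ} (hx : x % 2 = 1) (hx1 : 0 < x) (hx7 : x ≠ 7) (hP : IsCoprime P x)
    (hQ : ¬ x ∣ Q) (hPQ : ¬ x ∣ P + Q) : ∃ k, SS x P Q k := by
  obtain ⟨a, b, hab⟩ := hP
  have hμ0 := Int.emod_nonneg (-(Q * a)) hx1.ne'
  have hμ1 := Int.emod_lt_of_pos (-(Q * a)) hx1
  have hμe := Int.emod_add_mul_ediv (-(Q * a)) x
  obtain ⟨μ, hμ⟩ : ∃ μ, μ = (-(Q * a)) % x := ⟨_, rfl⟩
  obtain ⟨w0, hw0⟩ : ∃ w0, w0 = (-(Q * a)) / x := ⟨_, rfl⟩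
  rw [← hμ] at hμ0 hμ1 hμe
  rw [← hw0] at hμe
  have n0 : μ ≠ 0 := by
    intro h
    apply hQ
    refine ⟨-w0 * P + b * Q, ?_⟩
    rw [h] at hμe
    have h1 : Q = (a * P + b * x) * Q := by rw [hab, one_mul]
    have h2 : Q * a = -(x * w0) := by linarith
    calc Q = (a * P + b * x) * Q := h1
      _ = (Q * a) * P + b * x * Q := by ring
      _ = x * (-w0 * P + b * Q) := by rw [h2]; ring
  have n1 : μ ≠ 1 := by
    intro h
    apply hPQ
    refine ⟨-w0 * P + b * Q + 0, ?_⟩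
    rw [h] at hμe
    have h1 : Q = (a * P + b * x) * Q := by rw [hab, one_mul]
    have h2 : Q * a = -(x * w0) - 1 := by linarith
    calc P + Q = P + (a * P + b * x) * Q := by rw [hab, one_mul]
      _ = P + (Q * a) * P + b * x * Q := by ring
      _ = x * (-w0 * P + b * Q + 0) := by rw [h2]; ring
  obtain ⟨E, w, h5, h6, h7, h8, h9⟩ := suc_all hx (by omega) hμ1 hx7
  obtain ⟨j, hj⟩ : ∃ j, E = 2 * j := ⟨E / 2, by omega⟩
  obtain ⟨c, hc⟩ : ∃ c, c = μ * E - w * x := ⟨_, rfl⟩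
  rw [← hc] at h6 h7 h8
  obtain ⟨r, hr⟩ : ∃ r, x - c = 2 * r := ⟨(x - c) / 2, by omega⟩
  refine ⟨a * j, ?_⟩
  have eP : (P * (a * j)) % x = j := by
    have : P * (a * j) = j + x * (-(b * j)) := by
      have : P * (a * j) = (a * P + b * x) * j - b * x * j := by ring
      rw [this, hab]; ring
    rw [this, Int.add_mul_emod_self_left]
    exact Int.emod_eq_of_lt (by omega) (by omega)
  have eQ : (Q * (a * j)) % x = r := by
    -- 2 (Q a j - r) is divisible by x
    have h10 : 2 * (Q * (a * j) - r) = x * (-(w0 * E) - 1 - w) := by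
      have : 2 * (Q * (a * j)) = (Q * a) * E := by rw [hj]; ring
      have h11 : Q * a = -(μ + x * w0) := by linarith
      have h12 : 2 * (Q * (a * j) - r) = (Q * a) * E - (x - c) := by rw [hr]; linarith
      rw [h12, h11, hc]; ring
    have hodd : IsCoprime x 2 := by
      refine ⟨1, -(x / 2), ?_⟩
      have := Int.emod_add_mul_ediv x 2
      omega
    have h13 : x ∣ Q * (a * j) - r := hodd.dvd_of_dvd_mul_left ⟨_, h10⟩
    obtain ⟨t, ht⟩ := h13
    have : Q * (a * j) = r + x * t := by linarith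
    rw [this, Int.add_mul_emod_self_left]
    exact Int.emod_eq_of_lt (by omega) (by omega)
  refine ⟨?_, ?_, ?_⟩
  · rw [eP]; omega
  · rw [eQ]; omega
  · rw [eP, eQ]; omega

lemma ss_scale {g x P Q k : ℤ} (hg : 0 < g) (h : SS x P Q k) : SS (g * x) (g * P) (g * Q) k := by
  obtain ⟨h1, h2, h3⟩ := h
  unfold SS
  rw [mul_assoc g P k, mul_assoc g Q k, Int.mul_emod_mul_of_pos _ _ hg,
    Int.mul_emod_mul_of_pos _ _ hg]
  refine ⟨?_, ?_, ?_⟩
  · nlinarith
  · nlinarith
  · nlinarith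

lemma A1 {x m n : ℕ} (hx : x % 2 = 1) (hm : 0 < m) (hn : 0 < n) (h : m + n < x)
    (hg : Nat.gcd (Nat.gcd m n) x = 1) (h7 : x ≠ 7) :
    ∃ (x' : ℕ) (k : ℤ), 0 < x' ∧ x' ∣ x ∧ SS x' m n k := by
  have hxz : (x : ℤ) % 2 = 1 := by omega
  have hx0 : (0 : ℤ) < x := by omega
  have h7z : (x : ℤ) ≠ 7 := by omega
  have nd : ∀ t : ℕ, 0 < t → t < x → ¬ (x : ℤ) ∣ (t : ℤ) := by
    intro t h1 h2 h3
    have := Nat.le_of_dvd h1 (Int.natCast_dvd_natCast.1 h3)
    omega
  by_cases c1 : Nat.Coprime m x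
  · obtain ⟨k, hk⟩ := ss_mod hxz hx0 h7z (Nat.isCoprime_iff_coprime.2 c1) (nd n hn (by omega))
      (by have := nd (m + n) (by omega) h; push_cast at this; exact this)
    exact ⟨x, k, by omega, dvd_refl x, hk⟩
  by_cases c2 : Nat.Coprime n x
  · obtain ⟨k, hk⟩ := ss_mod hxz hx0 h7z (Nat.isCoprime_iff_coprime.2 c2) (nd m hm (by omega))
      (by have := nd (n + m) (by omega) (by omega); push_cast at this; exact this)
    exact ⟨x, k, by omega, dvd_refl x, ss_swap hk⟩
  by_cases c3 : Nat.Coprime (m + n) x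
  · have h3 : IsCoprime (-((m : ℤ) + n)) x := by
      have := Nat.isCoprime_iff_coprime.2 c3
      push_cast at this
      exact this.neg_left
    obtain ⟨k, hk⟩ := ss_mod hxz hx0 h7z h3 (nd m hm (by omega))
      (by
        rw [show -((m : ℤ) + n) + m = -n by ring, dvd_neg]
        exact nd n hn (by omega))
    refine ⟨x, k, by omega, dvd_refl x, ?_⟩
    have := ss_rot hx0 hk
    rw [show -(-((m : ℤ) + n)) - m = n by ring] at this
    exact this
  obtain ⟨p, hp, hpm, hpx⟩ := Nat.Prime.not_coprime_iff_dvd.1 c1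
  obtain ⟨q, hq, hqn, hqx⟩ := Nat.Prime.not_coprime_iff_dvd.1 c2
  obtain ⟨r, hr, hrd, hrx⟩ := Nat.Prime.not_coprime_iff_dvd.1 c3
  have bad : ∀ s : ℕ, s.Prime → s ∣ m → s ∣ n → s ∣ x → False := by
    intro s hs h1 h2 h3
    have := Nat.dvd_gcd (Nat.dvd_gcd h1 h2) h3
    rw [hg] at this
    exact hs.one_lt.ne' (Nat.dvd_one.1 this)
  have hqm : ¬ q ∣ m := fun h1 => bad q hq h1 hqn hqx
  have hrm : ¬ r ∣ m := fun h1 => bad r hr h1 ((Nat.dvd_add_right h1).1 hrd) hrx
  have hrn : ¬ r ∣ n := fun h1 => hrm ((Nat.dvd_add_left h1).1 hrd)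
  have hqd : ¬ q ∣ m + n := fun h1 => hqm ((Nat.dvd_add_left hqn).1 h1)
  have hqr : q ≠ r := by
    rintro rfl
    exact hrn hqn
  have hco : Nat.Coprime q r := (Nat.coprime_primes hq hr).2 hqr
  have hdvd : q * r ∣ x := hco.mul_dvd_of_dvd_of_dvd hqx hrx
  have h7' : q * r ≠ 7 := by
    intro h1
    exact Nat.not_prime_mul hq.one_lt.ne' hr.one_lt.ne' (h1 ▸ (by norm_num : Nat.Prime 7))
  have hodd : (q * r) % 2 = 1 := by
    by_contra h1
    have h2 : 2 ∣ q * r := by omega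
    have := h2.trans hdvd
    omega
  have hcop : Nat.Coprime m (q * r) :=
    Nat.Coprime.mul_right ((Nat.Prime.coprime_iff_not_dvd hq).2 hqm).symm
      ((Nat.Prime.coprime_iff_not_dvd hr).2 hrm).symm
  have hpos : 0 < q * r := Nat.mul_pos hq.pos hr.pos
  obtain ⟨k, hk⟩ := ss_mod (x := ((q * r : ℕ) : ℤ)) (P := m) (Q := n) (by omega) (by omega)
    (by omega) (Nat.isCoprime_iff_coprime.2 hcop)
    (by
      intro h1
      have h2 := Int.natCast_dvd_natCast.1 h1
      exact hrn ((Dvd.intro_left q rfl).trans h2))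
    (by
      intro h1
      have h2 : q * r ∣ m + n := by
        have : ((q * r : ℕ) : ℤ) ∣ ((m + n : ℕ) : ℤ) := by push_cast; push_cast at h1; exact h1
        exact Int.natCast_dvd_natCast.1 this
      exact hqd ((Dvd.intro r rfl).trans h2))
  exact ⟨q * r, k, hpos, hdvd, hk⟩

/-- the exceptional case -/
def Fano (x m n : ℤ) : Prop := ∃ g : ℤ, 0 < g ∧ x = 7 * g ∧
  ((m = g ∧ n = 2 * g) ∨ (m = 2 * g ∧ n = g) ∨ (m = g ∧ n = 4 * g) ∨ (m = 4 * g ∧ n = g) ∨
    (m = 2 * g ∧ n = 4 * g) ∨ (m = 4 * g ∧ n = 2 * g))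

lemma seven : ∀ m ∈ Finset.Icc 1 6, ∀ n ∈ Finset.Icc 1 6, m + n < 7 →
    ((m = 1 ∧ n = 2) ∨ (m = 2 ∧ n = 1) ∨ (m = 1 ∧ n = 4) ∨ (m = 4 ∧ n = 1) ∨
    (m = 2 ∧ n = 4) ∨ (m = 4 ∧ n = 2)) ∨ ∃ k ∈ Finset.range 7,
      2 * ((m * k) % 7) < 7 ∧ 2 * ((n * k) % 7) < 7 ∧ 7 < 2 * ((m * k) % 7 + (n * k) % 7) := by
  decide

lemma A2 {x m n : ℕ} (hx : x % 2 = 1) (hm : 0 < m) (hn : 0 < n) (h : m + n < x) :
    (∃ (N : ℤ) (k : ℤ), 0 < N ∧ N ∣ (x : ℤ) ∧ SS N m n k) ∨ Fano x m n := by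
  obtain ⟨g, hg⟩ : ∃ g, g = Nat.gcd (Nat.gcd m n) x := ⟨_, rfl⟩
  have hgm : g ∣ m := hg ▸ (Nat.gcd_dvd_left _ _).trans (Nat.gcd_dvd_left _ _)
  have hgn : g ∣ n := hg ▸ (Nat.gcd_dvd_left _ _).trans (Nat.gcd_dvd_right _ _)
  have hgx : g ∣ x := hg ▸ Nat.gcd_dvd_right _ _
  have hg0 : 0 < g := Nat.pos_of_dvd_of_pos hgm hm
  obtain ⟨m1, rfl⟩ := hgm
  obtain ⟨n1, rfl⟩ := hgn
  obtain ⟨x1, rfl⟩ := hgx
  have hm1 : 0 < m1 := Nat.pos_of_mul_pos_left hm
  have hn1 : 0 < n1 := Nat.pos_of_mul_pos_left hn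
  have hlt : m1 + n1 < x1 := by
    have : g * (m1 + n1) < g * x1 := by rw [mul_add]; exact h
    exact lt_of_mul_lt_mul_left this (Nat.zero_le g)
  have hx1 : x1 % 2 = 1 := by
    rcases Nat.mod_two_eq_zero_or_one x1 with h1 | h1
    · exfalso
      have : (g * x1) % 2 = 0 := by rw [Nat.mul_mod, h1]; simp
      omega
    · exact h1
  have hgz : (0 : ℤ) < g := by exact_mod_cast hg0
  have hgcd : Nat.gcd (Nat.gcd m1 n1) x1 = 1 := by
    have : g * Nat.gcd (Nat.gcd m1 n1) x1 = g * 1 := by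
      rw [← Nat.gcd_mul_left, ← Nat.gcd_mul_left, mul_one]
      exact hg.symm
    exact Nat.eq_of_mul_eq_mul_left hg0 this
  by_cases h7 : x1 = 7
  · subst h7
    rcases seven m1 (Finset.mem_Icc.2 ⟨by omega, by omega⟩) n1
      (Finset.mem_Icc.2 ⟨by omega, by omega⟩) hlt with h1 | ⟨k, _, h1, h2, h3⟩
    · right
      refine ⟨g, hgz, by push_cast; ring, ?_⟩
      rcases h1 with ⟨rfl, rfl⟩ | ⟨rfl, rfl⟩ | ⟨rfl, rfl⟩ | ⟨rfl, rfl⟩ | ⟨rfl, rfl⟩ | ⟨rfl, rfl⟩
      · left; constructor <;> push_cast <;> ring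
      · right; left; constructor <;> push_cast <;> ring
      · right; right; left; constructor <;> push_cast <;> ring
      · right; right; right; left; constructor <;> push_cast <;> ring
      · right; right; right; right; left; constructor <;> push_cast <;> ring
      · right; right; right; right; right; constructor <;> push_cast <;> ring
    · left
      refine ⟨(g : ℤ) * 7, k, by omega, ⟨1, by push_cast; ring⟩, ?_⟩
      have : SS 7 m1 n1 k := by
        refine ⟨?_, ?_, ?_⟩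
        · exact_mod_cast h1
        · exact_mod_cast h2
        · exact_mod_cast h3
      have h4 := ss_scale hgz this
      push_cast
      exact h4
  · obtain ⟨x', k, h1, h2, h3⟩ := A1 hx1 hm1 hn1 hlt hgcd h7
    left
    refine ⟨(g : ℤ) * x', k, by positivity, ?_, ?_⟩
    · obtain ⟨c, rfl⟩ := h2
      exact ⟨c, by push_cast; ring⟩
    · have h4 := ss_scale hgz h3
      push_cast
      exact h4

end Pool.Agent.X31.SH
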