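import Pool.Agent.X31.SH1
import Pool.Agent.X31.SH2

/-!
# Two 3-ships: one ship with two odd differences, the other with all differences even
-/

set_option autoImplicit false

namespace Pool.Agent.X31.SH

/-- the ships `[0, x, x + y]` (in any order) and `[0, 2 m, 2 (m + n)]` have a common good pattern -/
def R (x y m n : ℤ) : Prop :=
  ∃ A, Good A ∧ Hit A 0 x (x + y) ∧ Hit A 0 (2 * m) (2 * (m + n))

lemma R_neg {x y m n : ℤ} (h : R (-x) (-y) n m) : R x y m n := by
  obtain ⟨A, h1, h2, h3⟩ := h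
  refine ⟨fun t => A (-t), good_neg h1, ?_, ?_⟩
  · apply hit_neg
    rw [neg_zero, neg_add]
    exact h2
  · apply hit_neg
    apply hit_shift (2 * (m + n))
    apply hit_rev
    rw [show -0 + 2 * (m + n) = 2 * (n + m) by ring,
      show -(2 * m) + 2 * (m + n) = 2 * n by ring,
      show -(2 * (m + n)) + 2 * (m + n) = 0 by ring]
    exact h3

lemma R_swap {x y m n : ℤ} (h : R (-y) (-x) m n) : R x y m n := by
  obtain ⟨A, h1, h2, h3⟩ := h
  refine ⟨A, h1, ?_, h3⟩
  apply hit_shift (-(x + y))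
  apply hit_rev
  rw [show 0 + -(x + y) = -y + -x by ring, show x + -(x + y) = -y by ring,
    show x + y + -(x + y) = 0 by ring]
  exact h2

/-- an arc pattern from suitable residues -/
lemma C1 {x N k m n : ℤ} (hx : x % 2 = 1) (hN : 0 < N) (hd : N ∣ x) (h : SS N m n k) :
    ∃ A, Anti A x ∧ Hit A 0 (2 * m) (2 * (m + n)) := by
  obtain ⟨c, rfl⟩ := hd
  have hNo : N % 2 = 1 := by
    rcases Int.emod_two_eq_zero_or_one N with h1 | h1
    · exfalso
      rw [Int.mul_emod, h1] at hx
      norm_num at hx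
    · exact h1
  have hco : c % 2 = 1 := by
    rcases Int.emod_two_eq_zero_or_one c with h1 | h1
    · exfalso
      rw [Int.mul_emod, h1] at hx
      norm_num at hx
    · exact h1
  obtain ⟨k', hk', h'⟩ : ∃ k' : ℤ, k' % 2 = 1 ∧ SS N m n k' := by
    rcases Int.emod_two_eq_zero_or_one k with h1 | h1
    · refine ⟨k + N, by omega, ?_⟩
      unfold SS at h ⊢
      have e : ∀ P : ℤ, (P * (k + N)) % N = (P * k) % N := by
        intro P
        rw [show P * (k + N) = P * k + N * P by ring, Int.add_mul_emod_self_left]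
      rw [e, e]
      exact h
    · exact ⟨k, h1, h⟩
  obtain ⟨h1, h2, h3⟩ := h'
  refine ⟨arc N k', ?_, ?_⟩
  · apply arc_anti hN
    rw [show N * c * k' = (c * k') * N by ring]
    apply odd_mul_emod _ hN
    rw [Int.mul_emod, hco, hk']
    norm_num
  · have e : ∀ P : ℤ, (2 * P * k') % (2 * N) = 2 * ((P * k') % N) := by
      intro P
      rw [mul_assoc, Int.mul_emod_mul_of_pos _ _ (by norm_num : (0 : ℤ) < 2)]
    rw [mul_add]
    apply arc_hit hN
    · rw [e]; omega
    · rw [e]; omega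
    · rw [e, e]; omega

/-- a long odd difference, outside the exceptional case -/
lemma C2 {x m n : ℤ} (hx : x % 2 = 1) (hm : 0 < m) (hn : 0 < n) (h : m + n < |x|)
    (hF : ¬ Fano |x| m n) : ∃ A, Anti A x ∧ Hit A 0 (2 * m) (2 * (m + n)) := by
  obtain ⟨m', rfl⟩ := Int.eq_ofNat_of_zero_le hm.le
  obtain ⟨n', rfl⟩ := Int.eq_ofNat_of_zero_le hn.le
  have hxa : ((x.natAbs : ℕ) : ℤ) = |x| := Int.natCast_natAbs x
  rw [← hxa] at h hF
  rcases A2 (x := x.natAbs) (m := m') (n := n') (by omega) (by omega) (by omega) (by omega) with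
    ⟨N, k, h1, h2, h3⟩ | h1
  · exact C1 hx h1 (by rwa [Int.dvd_natAbs] at h2) h3
  · exact absurd h1 hF

lemma C3 {x y m n : ℤ} (hx : x % 2 = 1) (hm : 0 < m) (hn : 0 < n) (h : m + n < |x|)
    (hF : ¬ Fano |x| m n) : R x y m n := by
  obtain ⟨A, h1, h2⟩ := C2 hx hm hn h hF
  refine ⟨A, good_of_anti h1, hit_of_anti ?_, h2⟩
  rw [sub_zero]
  exact h1

lemma C4 {x y m n : ℤ} (hy : y % 2 = 1) (hm : 0 < m) (hn : 0 < n) (h : m + n < |y|)
    (hF : ¬ Fano |y| m n) : R x y m n := by
  apply R_swap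
  apply C3 (by omega) hm hn
  · rw [abs_neg]; exact h
  · rw [abs_neg]; exact hF

/-- from a pattern antisymmetric for one of the differences of the second ship -/
lemma R_of {x y m n u : ℤ} (h : ∃ A, Anti A u ∧ Hit A 0 x (x + y))
    (hu : u = 2 * m ∨ u = 2 * n ∨ u = 2 * (m + n)) : R x y m n := by
  obtain ⟨A, h1, h2⟩ := h
  refine ⟨A, good_of_anti h1, h2, ?_⟩
  rcases hu with rfl | rfl | rfl
  · apply hit_of_anti
    rw [sub_zero]; exact h1
  · apply hit_swap12
    apply hit_swap23
    apply hit_of_anti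
    rw [show 2 * (m + n) - 2 * m = 2 * n by ring]
    exact h1
  · apply hit_swap23
    apply hit_of_anti
    rw [sub_zero]; exact h1

lemma B1 {x y m n : ℤ} (hx : x % 2 = 1) (hy : y % 2 = 1) (hxy : x + y ≠ 0) (hm : 0 < m)
    (hn : 0 < n) (h1 : |x| ≤ m + n) (h2 : |y| ≤ m + n) : R x y m n := by
  obtain ⟨k, hk, h3⟩ := BC (a := x) (b := y) (u := 2 * (m + n)) (by omega) (by omega) (by omega)
    hxy
  exact R_of (LB1 (by omega) hx hy hk (by omega) h3) (Or.inr (Or.inr rfl))

lemma same {y m n : ℤ} (hy : y % 2 = 1) (hm : 0 < m) (hn : 0 < n) : R y y m n :=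
  R_of (LB1 (u := 2 * (m + n)) (k := 1) (by omega) hy hy (by norm_num) (by omega) rfl)
    (Or.inr (Or.inr rfl))

/-- the side of `7 g k` is the side of `(c - 7) g k'`, where `2 c g` is the modulus -/
lemma side {g k c : ℤ} (hg : 0 < g) (hk : k % 2 = 1) (hc : 0 < c)
    (hc2 : c % 2 = 0) : (7 * g * k / (c * g)) % 2 = ((c - 7) * g * k / (c * g)) % 2 := by
  have e1 : 7 * g * k / (c * g) = 7 * k / c := by
    rw [show 7 * g * k = (7 * k) * g by ring]
    exact Int.mul_ediv_mul_of_pos_left _ _ hg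
  have e2 : (c - 7) * g * k / (c * g) = (c - 7) * k / c := by
    rw [show (c - 7) * g * k = ((c - 7) * k) * g by ring]
    exact Int.mul_ediv_mul_of_pos_left _ _ hg
  rw [e1, e2]
  have e3 : (c - 7) * k = -(7 * k) + c * k := by ring
  rw [e3, Int.add_mul_ediv_left _ _ hc.ne']
  have h1 := Int.emod_add_mul_ediv (7 * k) c
  have h2 := Int.emod_nonneg (7 * k) hc.ne'
  have h3 := Int.emod_lt_of_pos (7 * k) hc
  have h4 : (7 * k) % c ≠ 0 := by
    intro h5
    have h6 : c ∣ 7 * k := Int.dvd_of_emod_eq_zero h5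
    have h7 : (2 : ℤ) ∣ 7 * k := (Int.dvd_of_emod_eq_zero hc2).trans h6
    omega
  have h5 : -(7 * k) / c = -(7 * k / c) - 1 := by
    have h8 : -(7 * k) = (c - (7 * k) % c) + c * (-(7 * k / c) - 1) := by linarith
    rw [h8, Int.add_mul_ediv_left _ _ hc.ne', Int.ediv_eq_zero_of_lt (by omega) (by omega)]
    have h9 : (c - 7 * k % c + c * (-(7 * k / c) - 1)) = -(7 * k) := h8.symm
    omega
  rw [h5]
  omega

/-- the explicit pattern of period 10 -/
def P10 : ℤ → Prop := fun n =>
  n % 10 = 0 ∨ n % 10 = 4 ∨ n % 10 = 5 ∨ n % 10 = 7 ∨ n % 10 = 8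

lemma P10_hit : Hit P10 0 7 8 ∧ Hit P10 0 2 6 ∧ Hit P10 0 4 6 := by
  refine ⟨?_, ?_, ?_⟩ <;>
  · intro t
    unfold P10
    omega

open Classical in
lemma P10_good : Good P10 := by
  refine ⟨(Finset.range 10).image (fun i : ℕ => (i : ℤ)), by simp, fun n => ?_⟩
  rw [Finset.card_image_of_injective _ Nat.cast_injective, Finset.card_range,
    Finset.sum_image (fun a _ b _ hab => Nat.cast_injective hab)]
  simp only [Finset.sum_range_succ, Finset.sum_range_zero]
  have h0 := Int.emod_nonneg n (show (10 : ℤ) ≠ 0 by norm_num)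
  have h1 := Int.emod_lt_of_pos n (show (0 : ℤ) < 10 by norm_num)
  have key : ∀ j : ℤ, ind P10 (n + j) = ind P10 (n % 10 + j) := by
    intro j
    apply ind_congr
    unfold P10
    rw [Int.emod_add_emod]
  simp only [key]
  obtain ⟨r, hr⟩ : ∃ r, r = n % 10 := ⟨_, rfl⟩
  rw [← hr] at h0 h1 ⊢
  unfold ind P10
  interval_cases r <;> norm_num

lemma R_scale {g x y m n : ℤ} (hg : 0 < g) (h : R x y m n) :
    R (g * x) (g * y) (g * m) (g * n) := by
  obtain ⟨A, h1, h2, h3⟩ := h
  refine ⟨fun t => A (t / g), good_scale g hg h1, ?_, ?_⟩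
  · have := hit_scale g hg h2
    rw [mul_zero] at this
    rw [← mul_add]
    exact this
  · have := hit_scale g hg h3
    rw [mul_zero] at this
    rw [show 2 * (g * m) = g * (2 * m) by ring,
      show 2 * (g * m + g * n) = g * (2 * (m + n)) by ring]
    exact this

/-- the exceptional case -/
lemma F1 {g y m n : ℤ} (hg : 0 < g) (hg2 : g % 2 = 1) (hy : y % 2 = 1) (hxy : 7 * g + y ≠ 0)
    (hF : (m = g ∧ n = 2 * g) ∨ (m = 2 * g ∧ n = g) ∨ (m = g ∧ n = 4 * g) ∨
      (m = 4 * g ∧ n = g) ∨ (m = 2 * g ∧ n = 4 * g) ∨ (m = 4 * g ∧ n = 2 * g))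
    (h : |y| ≤ m + n ∨ |y| = 7 * g) : R (7 * g) y m n := by
  have hm : 0 < m := by omega
  have hn : 0 < n := by omega
  have hx : (7 * g) % 2 = 1 := by omega
  rcases h with h | h
  swap
  · rcases abs_choice y with h1 | h1
    · rw [h1] at h
      rw [h]
      exact same hx hm hn
    · rw [h1] at h
      exfalso; omega
  have ag : |g| = g := abs_of_pos hg
  -- the sum is 3 g
  have t3 : m + n = 3 * g → ((m = g ∧ n = 2 * g) ∨ (m = 2 * g ∧ n = g)) → R (7 * g) y m n := by
    intro hs hmn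
    by_cases hyg : y = g
    · subst hyg
      rcases hmn with ⟨h1, h2⟩ | ⟨h1, h2⟩
      · have : R 7 1 1 2 := ⟨P10, P10_good, P10_hit.1, P10_hit.2.1⟩
        have := R_scale hg this
        rw [h1, h2, show 7 * y = y * 7 by ring, show 2 * y = y * 2 by ring]
        rw [mul_one] at this
        exact this
      · have : R 7 1 2 1 := ⟨P10, P10_good, P10_hit.1, P10_hit.2.2⟩
        have := R_scale hg this
        rw [h1, h2, show 7 * y = y * 7 by ring, show 2 * y = y * 2 by ring]
        rw [mul_one] at this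
        exact this
    · obtain ⟨k, hk, h3⟩ := BC (a := -g) (b := y) (u := 6 * g) (by omega)
        (by rw [abs_neg]; omega) (by omega) (by omega)
      refine R_of (LB1 (u := 6 * g) (k := k) (by omega) hx hy hk (by omega) ?_)
        (Or.inr (Or.inr (by omega)))
      rw [side hg hk (by norm_num) (by norm_num), ← h3]
      norm_num
  have t5 : m + n = 5 * g → (2 * m = 8 * g ∨ 2 * n = 8 * g) → R (7 * g) y m n := by
    intro hs hmn
    by_cases hyg : y = -(3 * g)
    · refine R_of (LB1 (u := 8 * g) (k := 3) (by omega) hx hy (by norm_num) (by omega) ?_)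
        (by omega)
      rw [hyg]
      have e1 : 7 * g * 3 / (8 * g) = 2 := by
        rw [show 7 * g * 3 = 21 * g by ring, Int.mul_ediv_mul_of_pos_left _ _ hg]
        norm_num
      have e2 : -(3 * g) * 3 / (8 * g) = -2 := by
        rw [show -(3 * g) * 3 = (-9) * g by ring, Int.mul_ediv_mul_of_pos_left _ _ hg]
        norm_num
      rw [e1, e2]
      norm_num
    · have a3 : |3 * g| = 3 * g := abs_of_pos (by omega)
      obtain ⟨k, hk, h3⟩ := BC (a := 3 * g) (b := y) (u := 10 * g) (by omega)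
        (by omega) (by omega) (by omega)
      refine R_of (LB1 (u := 10 * g) (k := k) (by omega) hx hy hk (by omega) ?_)
        (Or.inr (Or.inr (by omega)))
      rw [side hg hk (by norm_num) (by norm_num), ← h3]
      norm_num
  have t6 : m + n = 6 * g → (2 * m = 8 * g ∨ 2 * n = 8 * g) → R (7 * g) y m n := by
    intro hs hmn
    by_cases hyg : y = -(5 * g)
    · refine R_of (LB1 (u := 8 * g) (k := 3) (by omega) hx hy (by norm_num) (by omega) ?_)
        (by omega)
      rw [hyg]
      have e1 : 7 * g * 3 / (8 * g) = 2 := by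
        rw [show 7 * g * 3 = 21 * g by ring, Int.mul_ediv_mul_of_pos_left _ _ hg]
        norm_num
      have e2 : -(5 * g) * 3 / (8 * g) = -2 := by
        rw [show -(5 * g) * 3 = (-15) * g by ring, Int.mul_ediv_mul_of_pos_left _ _ hg]
        norm_num
      rw [e1, e2]
      norm_num
    · have a5 : |5 * g| = 5 * g := abs_of_pos (by omega)
      obtain ⟨k, hk, h3⟩ := BC (a := 5 * g) (b := y) (u := 12 * g) (by omega)
        (by omega) (by omega) (by omega)
      refine R_of (LB1 (u := 12 * g) (k := k) (by omega) hx hy hk (by omega) ?_)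
        (Or.inr (Or.inr (by omega)))
      rw [side hg hk (by norm_num) (by norm_num), ← h3]
      norm_num
  rcases hF with h1 | h1 | h1 | h1 | h1 | h1
  · exact t3 (by omega) (Or.inl h1)
  · exact t3 (by omega) (Or.inr h1)
  · exact t5 (by omega) (by omega)
  · exact t5 (by omega) (by omega)
  · exact t6 (by omega) (by omega)
  · exact t6 (by omega) (by omega)

lemma Fano_swap {x m n : ℤ} (h : Fano x m n) : Fano x n m := by
  obtain ⟨g, h1, h2, h3⟩ := h
  exact ⟨g, h1, h2, by tauto⟩

/-- the first difference is exceptional -/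
lemma F2 {x y m n : ℤ} (hx : x % 2 = 1) (hy : y % 2 = 1) (hxy : x + y ≠ 0) (hm : 0 < m)
    (hn : 0 < n) (hF : Fano |x| m n) : R x y m n := by
  by_cases hy1 : m + n < |y| ∧ ¬ Fano |y| m n
  · exact C4 hy hm hn hy1.1 hy1.2
  -- the value of `g` is determined by `m, n`
  have key : ∀ x y m n : ℤ, x % 2 = 1 → y % 2 = 1 → x + y ≠ 0 → Fano |x| m n → 0 < x →
      (|y| ≤ m + n ∨ Fano |y| m n) → R x y m n := by
    intro x y m n hx hy hxy hF hx0 h
    rw [abs_of_pos hx0] at hF
    obtain ⟨g, hg, rfl, hF⟩ := hF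
    apply F1 hg (by omega) hy hxy hF
    rcases h with h | ⟨g', hg', h1, hF'⟩
    · exact Or.inl h
    · right
      have hg1 : g % 2 = 1 := by omega
      have hg2 : g' % 2 = 1 := by
        rcases abs_choice y with h2 | h2 <;> rw [h2] at h1 <;> omega
      have : g' = g := by
        rcases hF with h3 | h3 | h3 | h3 | h3 | h3 <;>
          rcases hF' with h4 | h4 | h4 | h4 | h4 | h4 <;> omega
      rw [h1, this]
  have hy2 : |y| ≤ m + n ∨ Fano |y| m n := by
    by_contra h
    push Not at h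
    exact hy1 h
  rcases lt_trichotomy x 0 with h | h | h
  · apply R_neg
    apply key (-x) (-y) n m (by omega) (by omega) (by omega) _ (by omega)
    · rcases hy2 with h1 | h1
      · left; rw [abs_neg]; omega
      · right; rw [abs_neg]; exact Fano_swap h1
    · rw [abs_neg]; exact Fano_swap hF
  · omega
  · exact key x y m n hx hy hxy hF h hy2

theorem RT {x y m n : ℤ} (hx : x % 2 = 1) (hy : y % 2 = 1) (hxy : x + y ≠ 0) (hm : 0 < m)
    (hn : 0 < n) : R x y m n := by
  by_cases hFx : Fano |x| m n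
  · exact F2 hx hy hxy hm hn hFx
  by_cases hFy : Fano |y| m n
  · apply R_swap
    exact F2 (by omega) (by omega) (by omega) hm hn (by rw [abs_neg]; exact hFy)
  by_cases h1 : m + n < |x|
  · exact C3 hx hm hn h1 hFx
  by_cases h2 : m + n < |y|
  · exact C4 hy hm hn h2 hFy
  exact B1 hx hy hxy hm hn (by omega) (by omega)

end Pool.Agent.X31.SH
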