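import Pool.Agent.X31.SH3

/-!
# Two 3-ships: the common good pattern; densities; the lower bound
-/

set_option autoImplicit false

namespace Pool.Agent.X31.SH

open Finset

/-- the odd integers -/
def Od : ℤ → Prop := fun n => n % 2 = 1

lemma Od_anti {w : ℤ} (hw : w % 2 = 1) : Anti Od w := by
  intro n
  unfold Od
  omega

lemma Od_hit {p q : ℤ} (h : p % 2 = 1 ∨ q % 2 = 1) : Hit Od 0 p (p + q) := by
  intro t
  unfold Od
  omega

/-- `[0, p, p + q]` and `[0, p', p' + q']` have a common good pattern -/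
def C (p q p' q' : ℤ) : Prop := ∃ A, Good A ∧ Hit A 0 p (p + q) ∧ Hit A 0 p' (p' + q')

lemma C_symm {p q p' q' : ℤ} (h : C p' q' p q) : C p q p' q' := by
  obtain ⟨A, h1, h2, h3⟩ := h
  exact ⟨A, h1, h3, h2⟩

/-- one ship has an odd difference, the other has not -/
lemma C_odd_even {p q p' q' : ℤ} (hp : 0 < p) (hq : 0 < q) (hp' : 0 < p') (hq' : 0 < q')
    (h : p % 2 = 1 ∨ q % 2 = 1) (h1 : p' % 2 = 0) (h2 : q' % 2 = 0) : C p q p' q' := by
  obtain ⟨m, rfl⟩ : ∃ m, p' = 2 * m := ⟨p' / 2, by omega⟩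
  obtain ⟨n, rfl⟩ : ∃ n, q' = 2 * n := ⟨q' / 2, by omega⟩
  have hm : 0 < m := by omega
  have hn : 0 < n := by omega
  rcases Int.emod_two_eq_zero_or_one p with h3 | h3
  · -- `p` even, `q` odd
    obtain ⟨A, g1, g2, g3⟩ := RT (x := p + q) (y := -q) (by omega) (by omega) (by omega) hm hn
    refine ⟨A, g1, ?_, by rw [← mul_add]; exact g3⟩
    apply hit_swap23
    rw [show p + q + -q = p by ring] at g2
    exact g2
  · rcases Int.emod_two_eq_zero_or_one q with h4 | h4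
    · -- `p` odd, `q` even
      obtain ⟨A, g1, g2, g3⟩ := RT (x := -p) (y := p + q) (by omega) (by omega) (by omega) hm hn
      refine ⟨A, g1, ?_, by rw [← mul_add]; exact g3⟩
      apply hit_swap12
      apply hit_shift (-p)
      rw [show p + -p = 0 by ring, show 0 + -p = -p by ring,
        show p + q + -p = -p + (p + q) by ring]
      exact g2
    · obtain ⟨A, g1, g2, g3⟩ := RT (x := p) (y := q) h3 h4 (by omega) hm hn
      exact ⟨A, g1, g2, by rw [← mul_add]; exact g3⟩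

theorem C_all : ∀ (N : ℕ) (p q p' q' : ℤ), 0 < p → 0 < q → 0 < p' → 0 < q' → p ≤ N →
    C p q p' q' := by
  intro N
  induction N using Nat.strong_induction_on with
  | _ N ih =>
    intro p q p' q' hp hq hp' hq' hN
    by_cases h1 : p % 2 = 1 ∨ q % 2 = 1
    · by_cases h2 : p' % 2 = 1 ∨ q' % 2 = 1
      · exact ⟨Od, good_of_anti (Od_anti (w := 1) (by norm_num)), Od_hit h1, Od_hit h2⟩
      · exact C_odd_even hp hq hp' hq' h1 (by omega) (by omega)
    · by_cases h2 : p' % 2 = 1 ∨ q' % 2 = 1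
      · exact C_symm (C_odd_even hp' hq' hp hq h2 (by omega) (by omega))
      · obtain ⟨a, rfl⟩ : ∃ a, p = 2 * a := ⟨p / 2, by omega⟩
        obtain ⟨b, rfl⟩ : ∃ b, q = 2 * b := ⟨q / 2, by omega⟩
        obtain ⟨a', rfl⟩ : ∃ a, p' = 2 * a := ⟨p' / 2, by omega⟩
        obtain ⟨b', rfl⟩ : ∃ b, q' = 2 * b := ⟨q' / 2, by omega⟩
        obtain ⟨A, g1, g2, g3⟩ := ih (N / 2) (by omega) a b a' b' (by omega) (by omega)
          (by omega) (by omega) (by omega)
        refine ⟨fun t => A (t / 2), good_scale 2 (by norm_num) g1, ?_, ?_⟩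
        · have := hit_scale 2 (by norm_num) g2
          rw [mul_zero, mul_add] at this
          exact this
        · have := hit_scale 2 (by norm_num) g3
          rw [mul_zero, mul_add] at this
          exact this

/-- every two 3-ships have a common good pattern -/
theorem common {a b c a' b' c' : ℤ} (h1 : a < b) (h2 : b < c) (h1' : a' < b') (h2' : b' < c') :
    ∃ A, Good A ∧ Hit A a b c ∧ Hit A a' b' c' := by
  obtain ⟨A, g1, g2, g3⟩ := C_all (b - a).toNat (b - a) (c - b) (b' - a') (c' - b') (by omega)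
    (by omega) (by omega) (by omega) (by omega)
  refine ⟨A, g1, ?_, ?_⟩
  · apply hit_shift (-a)
    rw [show a + -a = 0 by ring, show b + -a = b - a by ring,
      show c + -a = b - a + (c - b) by ring]
    exact g2
  · apply hit_shift (-a')
    rw [show a' + -a' = 0 by ring, show b' + -a' = b' - a' by ring,
      show c' + -a' = b' - a' + (c' - b') by ring]
    exact g3

/-! ### densities -/

lemma sum_succ (f : ℤ → ℝ) (a b : ℤ) (h : a ≤ b) :
    ∑ i ∈ Icc a b, f (i + 1) + f a = ∑ i ∈ Icc a b, f i + f (b + 1) := by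
  have e1 : ∑ i ∈ Icc a b, f (i + 1) = ∑ i ∈ Icc (a + 1) (b + 1), f i := by
    rw [← Finset.image_add_right_Icc a b 1,
      Finset.sum_image (fun x _ y _ hxy => by simpa using hxy)]
  have e2 : Icc a (b + 1) = insert a (Icc (a + 1) (b + 1)) := by
    ext z; simp only [mem_Icc, mem_insert]; omega
  have e3 : Icc a (b + 1) = insert (b + 1) (Icc a b) := by
    ext z; simp only [mem_Icc, mem_insert]; omega
  have e4 : ∑ i ∈ Icc a (b + 1), f i = f a + ∑ i ∈ Icc (a + 1) (b + 1), f i := by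
    rw [e2, Finset.sum_insert (by simp)]
  have e5 : ∑ i ∈ Icc a (b + 1), f i = f (b + 1) + ∑ i ∈ Icc a b, f i := by
    rw [e3, Finset.sum_insert (by simp)]
  linarith

lemma sum_shift_nat (f : ℤ → ℝ) (h0 : ∀ i, 0 ≤ f i) (h1 : ∀ i, f i ≤ 1) (a b : ℤ) (h : a ≤ b)
    (s : ℕ) : ∀ c : ℤ, |∑ i ∈ Icc a b, f (i + (c + s)) - ∑ i ∈ Icc a b, f (i + c)| ≤ s := by
  induction s with
  | zero => intro c; simp
  | succ s ih =>
    intro c
    have h2 := ih c
    have h3 := sum_succ (fun i => f (i + (c + s))) a b h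
    have h4 : ∑ i ∈ Icc a b, f (i + (c + ((s + 1 : ℕ) : ℤ))) =
        ∑ i ∈ Icc a b, f (i + 1 + (c + s)) := by
      apply Finset.sum_congr rfl
      intro i _
      congr 1
      push_cast
      ring
    rw [h4]
    have h5 := h0 (a + (c + s))
    have h6 := h1 (a + (c + s))
    have h7 := h0 (b + 1 + (c + s))
    have h8 := h1 (b + 1 + (c + s))
    rw [abs_le] at h2 ⊢
    push_cast
    constructor
    · linarith [h2.1]
    · linarith [h2.2]

lemma sum_shift (f : ℤ → ℝ) (h0 : ∀ i, 0 ≤ f i) (h1 : ∀ i, f i ≤ 1) (a b : ℤ) (h : a ≤ b)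
    (s : ℤ) : |∑ i ∈ Icc a b, f (i + s) - ∑ i ∈ Icc a b, f i| ≤ |(s : ℝ)| := by
  rcases le_total 0 s with hs | hs
  · obtain ⟨n, rfl⟩ := Int.eq_ofNat_of_zero_le hs
    have := sum_shift_nat f h0 h1 a b h n 0
    simp only [zero_add, add_zero] at this
    have h2 : |(((n : ℕ) : ℤ) : ℝ)| = n := by
      rw [Int.cast_natCast]; exact abs_of_nonneg (Nat.cast_nonneg n)
    rw [h2]
    exact this
  · obtain ⟨n, hn⟩ := Int.eq_ofNat_of_zero_le (show 0 ≤ -s by omega)
    have := sum_shift_nat f h0 h1 a b h n s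
    have h3 : s + (n : ℤ) = 0 := by omega
    rw [h3] at this
    simp only [add_zero] at this
    have h2 : |(s : ℝ)| = n := by
      have : s = -(n : ℤ) := by omega
      rw [this]
      push_cast
      rw [abs_neg]
      exact abs_of_nonneg (Nat.cast_nonneg n)
    rw [h2, abs_sub_comm]
    exact this

/-- a set with half of each translate of `T` has density `1/2` -/
theorem good_sum {A : ℤ → Prop} (h : Good A) : ∃ K : ℝ, ∀ N : ℕ,
    |∑ i ∈ Icc (-(N : ℤ)) N, (ind A i : ℝ) - (2 * N + 1) / 2| ≤ K := by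
  obtain ⟨T, hT, h1⟩ := h
  have hT0 : (0 : ℝ) < T.card := by exact_mod_cast hT.card_pos
  refine ⟨(∑ s ∈ T, |(s : ℝ)|) / T.card, fun N => ?_⟩
  have f0 : ∀ i, (0 : ℝ) ≤ (ind A i : ℝ) := fun i => Nat.cast_nonneg _
  have f1 : ∀ i, (ind A i : ℝ) ≤ 1 := by
    intro i
    unfold ind
    split <;> norm_num
  have h2 : ∑ s ∈ T, ∑ i ∈ Icc (-(N : ℤ)) N, (ind A (i + s) : ℝ) = (2 * N + 1) * T.card / 2 := by
    rw [Finset.sum_comm]
    have : ∀ i ∈ Icc (-(N : ℤ)) N, ∑ s ∈ T, (ind A (i + s) : ℝ) = T.card / 2 := by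
      intro i _
      have := h1 i
      have h3 : (2 : ℝ) * ∑ s ∈ T, (ind A (i + s) : ℝ) = T.card := by exact_mod_cast this
      linarith
    rw [Finset.sum_congr rfl this, Finset.sum_const, Int.card_Icc, nsmul_eq_mul]
    have : (((N : ℤ) + 1 - -(N : ℤ)).toNat : ℝ) = 2 * N + 1 := by
      have h4 : ((N : ℤ) + 1 - -(N : ℤ)).toNat = 2 * N + 1 := by omega
      rw [h4]; push_cast; ring
    rw [this]
    ring
  have h3 : |∑ s ∈ T, (∑ i ∈ Icc (-(N : ℤ)) N, (ind A (i + s) : ℝ) -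
      ∑ i ∈ Icc (-(N : ℤ)) N, (ind A i : ℝ))| ≤ ∑ s ∈ T, |(s : ℝ)| := by
    refine (Finset.abs_sum_le_sum_abs _ _).trans (Finset.sum_le_sum fun s _ => ?_)
    exact sum_shift (fun i => (ind A i : ℝ)) f0 f1 _ _ (by omega) s
  rw [Finset.sum_sub_distrib, h2, Finset.sum_const, nsmul_eq_mul] at h3
  rw [le_div_iff₀ hT0, abs_sub_comm]
  calc |(2 * (N : ℝ) + 1) / 2 - ∑ i ∈ Icc (-(N : ℤ)) N, (ind A i : ℝ)| * T.card
      = |((2 * (N : ℝ) + 1) / 2 - ∑ i ∈ Icc (-(N : ℤ)) N, (ind A i : ℝ)) * T.card| := by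
        rw [abs_mul, abs_of_pos hT0]
    _ = |(2 * (N : ℝ) + 1) * T.card / 2 - T.card * ∑ i ∈ Icc (-(N : ℤ)) N, (ind A i : ℝ)| := by
        congr 1; ring
    _ ≤ _ := h3

/-! ### the lower bound -/

/-- a potential for the ships `[0, 1, 3]` and `[0, 3, 4]` -/
def phi (a b c d : Fin 2) : ℤ :=
  if a = 0 then
    if b = 0 then
      if c = 0 then (if d = 0 then 0 else -2) else (if d = 0 then 0 else -1)
    else
      if c = 0 then (if d = 0 then -3 else -1) else (if d = 0 then -2 else 0)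
  else
    if b = 0 then
      if c = 0 then (if d = 0 then -3 else -2) else (if d = 0 then -2 else 0)
    else
      if c = 0 then (if d = 0 then -2 else -1) else (if d = 0 then -1 else 0)

lemma phi_step : ∀ a b c d e : Fin 2, 1 ≤ (a : ℕ) + b + d → 1 ≤ (b : ℕ) + c + e →
    1 ≤ (a : ℕ) + d + e → phi b c d e ≤ phi a b c d + (2 * ((e : ℕ) : ℤ) - 1) := by
  decide

lemma phi_bd : ∀ a b c d : Fin 2, -3 ≤ phi a b c d ∧ phi a b c d ≤ 0 := by
  decide

lemma tele (h : ℤ → ℤ) (N : ℕ) :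
    ∑ i ∈ Icc (-(N : ℤ)) N, (h i - h (i - 1)) = h N - h (-(N : ℤ) - 1) := by
  induction N with
  | zero => simp
  | succ N ih =>
    have e1 : Icc (-((N + 1 : ℕ) : ℤ)) ((N + 1 : ℕ) : ℤ) =
        insert (-((N : ℤ) + 1)) (insert ((N : ℤ) + 1) (Icc (-(N : ℤ)) N)) := by
      ext z; simp only [mem_Icc, mem_insert]; push_cast; omega
    rw [e1, Finset.sum_insert, Finset.sum_insert, ih]
    · push_cast
      rw [show (N : ℤ) + 1 - 1 = N by ring, show -(N : ℤ) - 1 = -((N : ℤ) + 1) by ring]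
      ring
    · simp only [mem_Icc]; omega
    · simp only [mem_Icc, mem_insert]; omega

theorem lower {X : ℤ → Fin 2} (h1 : ∀ t : ℤ, 1 ≤ ((X t : ℕ) + X (t + 1) + X (t + 3)))
    (h2 : ∀ t : ℤ, 1 ≤ ((X t : ℕ) + X (t + 3) + X (t + 4))) (N : ℕ) :
    (2 * (N : ℝ) + 1) / 2 - 3 / 2 ≤ ∑ i ∈ Icc (-(N : ℤ)) N, ((X i : ℕ) : ℝ) := by
  obtain ⟨g, hg⟩ : ∃ g : ℤ → ℤ, g = fun i => phi (X (i - 3)) (X (i - 2)) (X (i - 1)) (X i) :=
    ⟨_, rfl⟩
  have step : ∀ i, g i - g (i - 1) ≤ 2 * ((X i : ℕ) : ℤ) - 1 := by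
    intro i
    have a1 := h1 (i - 4)
    have a2 := h1 (i - 3)
    have a3 := h2 (i - 4)
    rw [show i - 4 + 1 = i - 3 by ring, show i - 4 + 3 = i - 1 by ring] at a1
    rw [show i - 3 + 1 = i - 2 by ring, show i - 3 + 3 = i by ring] at a2
    rw [show i - 4 + 3 = i - 1 by ring, show i - 4 + 4 = i by ring] at a3
    have := phi_step _ _ _ _ _ a1 a2 a3
    rw [hg]
    simp only
    rw [show i - 1 - 3 = i - 4 by ring, show i - 1 - 2 = i - 3 by ring,
      show i - 1 - 1 = i - 2 by ring]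
    linarith
  have h3 : ∑ i ∈ Icc (-(N : ℤ)) N, (g i - g (i - 1)) ≤
      ∑ i ∈ Icc (-(N : ℤ)) N, (2 * ((X i : ℕ) : ℤ) - 1) := Finset.sum_le_sum fun i _ => step i
  rw [tele, Finset.sum_sub_distrib, ← Finset.mul_sum, Finset.sum_const, Int.card_Icc,
    nsmul_eq_mul, mul_one] at h3
  have h4 : -3 ≤ g N := by rw [hg]; exact (phi_bd _ _ _ _).1
  have h5 : g (-(N : ℤ) - 1) ≤ 0 := by rw [hg]; exact (phi_bd _ _ _ _).2
  have h6 : (((N : ℤ) + 1 - -(N : ℤ)).toNat : ℤ) = 2 * N + 1 := by omega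
  rw [h6] at h3
  have h7 : (2 * (N : ℤ) + 1) - 3 ≤ 2 * ∑ i ∈ Icc (-(N : ℤ)) N, ((X i : ℕ) : ℤ) := by linarith
  have h8 : (2 * (N : ℝ) + 1) - 3 ≤ 2 * ∑ i ∈ Icc (-(N : ℤ)) N, ((X i : ℕ) : ℝ) := by
    exact_mod_cast h7
  linarith

end Pool.Agent.X31.SH
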