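import Pool.Agent.X31.T3

set_option autoImplicit false

/-! # Schemes with a real parameter: properties of the members of families of small energy -/

namespace Pool.Agent.X31

open Finset Filter Topology
open Pool.Agent.TH935.GF (En)
open Pool.Agent.H373R2.T7 (energy)

lemma log_pow_le (K : ℝ) (hK : 0 < K) (E : ℕ) (κ : ℝ) (hκ : 0 < κ) :
    ∀ᶠ N : ℕ in atTop, K * (1 + Real.log N) ^ E ≤ (N : ℝ) ^ κ := by
  have e2 := (isLittleO_log_rpow_atTop (show (0 : ℝ) < κ / (2 * (E + 1)) by positivity)).def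
    (show (0 : ℝ) < 1 by norm_num)
  have e3 : Filter.Tendsto (fun x : ℝ => x ^ (κ / 2)) atTop atTop := tendsto_rpow_atTop (by positivity)
  have e4 : ∀ᶠ x : ℝ in atTop, K * (1 + Real.log x) ^ E ≤ x ^ κ := by
    filter_upwards [e2, eventually_ge_atTop (Real.exp 1), e3.eventually_ge_atTop (K * 2 ^ E)] with x h1 h2 h3
    have hx1 : (1 : ℝ) ≤ x := (Real.one_le_exp (by norm_num)).trans h2
    have hx0 : 0 < x := by linarith
    have hl1 : 1 ≤ Real.log x := by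
      rw [Real.le_log_iff_exp_le hx0]
      exact h2
    rw [Real.norm_eq_abs, Real.norm_eq_abs, abs_of_nonneg (by linarith), abs_of_nonneg (by positivity),
      one_mul] at h1
    have h4 : (Real.log x) ^ E ≤ x ^ (κ / 2) := by
      calc (Real.log x) ^ E ≤ (Real.log x) ^ (E + 1) := pow_le_pow_right₀ hl1 (by omega)
        _ ≤ (x ^ (κ / (2 * (E + 1)))) ^ (E + 1) := pow_le_pow_left₀ (by linarith) h1 _
        _ = x ^ (κ / 2) := by
            rw [← Real.rpow_natCast, ← Real.rpow_mul hx0.le]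
            congr 1
            push_cast
            field_simp
    calc K * (1 + Real.log x) ^ E ≤ K * (2 * Real.log x) ^ E := by
          gcongr
          linarith
      _ = (K * 2 ^ E) * (Real.log x) ^ E := by rw [mul_pow]; ring
      _ ≤ x ^ (κ / 2) * x ^ (κ / 2) := by gcongr
      _ = x ^ κ := by
          rw [← Real.rpow_add hx0]
          congr 1
          ring
  exact tendsto_natCast_atTop_atTop.eventually e4

/-- from families of small energy to the integers near the values of a scheme; `t` is a parameter -/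
theorem SchT.single {ι π : Type} {E : ℕ} {P : ℝ → ℕ → Finset ι → (ι → ℝ) → Prop} (HS : SchT E P) :
    ∃ p₀ : ℕ, 1 ≤ p₀ ∧ ∀ p : ℕ, p₀ ≤ p → ∀ κ : ℝ, 0 < κ → ∀ (R : ℕ → π → Prop) (G : ℕ → π → ℤ → Prop),
      (∀ᶠ N : ℕ in atTop, ∀ t : π, R N t → ∀ (x : ℕ) (s : ℕ → ℤ), (∀ m ∈ Icc 1 x, |s m| ≤ (2 : ℤ) * N) →
        (energy p x s : ℝ) * N ≤ (N : ℝ) ^ κ * (x : ℝ) ^ (2 * p) →
        ∀ S : Finset ℕ, S ⊆ Icc 1 x → (∀ m ∈ S, ¬ G N t (s m)) → (S.card : ℝ) ≤ x * (N : ℝ) ^ (-κ)) →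
      ∃ δ : ℝ, 0 < δ ∧ δ ≤ κ ∧ ∃ N₀ : ℕ, ∀ N : ℕ, N₀ ≤ N → ∀ t : π, R N t →
        ∀ (A : Finset ι) (φ : ι → ℝ), P ((N : ℝ) ^ δ) N A φ →
        ∃ Ex : Finset ι, (Ex.card : ℝ) ≤ A.card * (N : ℝ) ^ (-δ) ∧ ∀ n ∈ A, n ∉ Ex →
          ∀ s : ℤ, |(s : ℝ) - φ n| ≤ (N : ℝ) ^ δ → G N t s := by
  classical
  obtain ⟨h₀, C, K, hh₀, hK, hen⟩ := HS.en
  refine ⟨h₀, hh₀, fun p hp κ hκ R G H => ?_⟩
  obtain ⟨δ, hδ⟩ : ∃ δ : ℝ, δ = min (min 1 κ) (κ / (2 * (C + 1))) := ⟨_, rfl⟩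
  have hC0 : (0 : ℝ) < 2 * (C + 1) := by positivity
  have hδ0 : 0 < δ := by rw [hδ]; positivity
  have hδκ : δ ≤ κ := by rw [hδ]; exact (min_le_left _ _).trans (min_le_right _ _)
  have hδ1 : δ ≤ 1 := by rw [hδ]; exact (min_le_left _ _).trans (min_le_left _ _)
  have hδC : δ * C ≤ κ / 2 := by
    have h1 : δ ≤ κ / (2 * (C + 1)) := by rw [hδ]; exact min_le_right _ _
    rw [le_div_iff₀ hC0] at h1
    nlinarith
  obtain ⟨N₁, hN₁⟩ := eventually_atTop.1 (log_pow_le K hK E (κ / 2) (by positivity))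
  obtain ⟨N₂, hN₂⟩ := eventually_atTop.1 H
  refine ⟨δ, hδ0, hδκ, N₁ + N₂ + 1, fun N hN t ht A φ hP => ?_⟩
  have hNr : (1 : ℝ) ≤ N := by exact_mod_cast (by omega : 1 ≤ N)
  have hN0 : (0 : ℝ) < N := by linarith
  have hT : 1 ≤ (N : ℝ) ^ δ := Real.one_le_rpow hNr hδ0.le
  have hTN : (N : ℝ) ^ δ ≤ N := by
    calc (N : ℝ) ^ δ ≤ (N : ℝ) ^ (1 : ℝ) := Real.rpow_le_rpow_of_exponent_le hNr hδ1
      _ = N := Real.rpow_one _
  obtain ⟨Ex, hEx⟩ : ∃ Ex : Finset ι, Ex = A.filter (fun n : ι => ∃ s : ℤ, |(s : ℝ) - φ n| ≤ (N : ℝ) ^ δ ∧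
      ¬ G N t s) := ⟨_, rfl⟩
  refine ⟨Ex, ?_, ?_⟩
  swap
  · intro n hn hnE s hs
    by_contra hcon
    apply hnE
    rw [hEx]
    exact mem_filter.2 ⟨hn, s, hs, hcon⟩
  have hch : ∀ n ∈ Ex, ∃ s : ℤ, |(s : ℝ) - φ n| ≤ (N : ℝ) ^ δ ∧ ¬ G N t s := by
    intro n hn
    rw [hEx] at hn
    exact (mem_filter.1 hn).2
  choose! s hs using hch
  have hEA : Ex ⊆ A := by rw [hEx]; exact filter_subset _ _
  obtain ⟨v, hv⟩ : ∃ v : {n : ι // n ∈ A} → ℤ, ∀ i : {n : ι // n ∈ A},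
      |(v i : ℝ) - φ i.1| ≤ (N : ℝ) ^ δ ∧ (i.1 ∈ Ex → v i = s i.1) := by
    apply Classical.axiomOfChoice (r := fun (i : {n : ι // n ∈ A}) (z : ℤ) =>
      |(z : ℝ) - φ i.1| ≤ (N : ℝ) ^ δ ∧ (i.1 ∈ Ex → z = s i.1))
    intro i
    by_cases hi : i.1 ∈ Ex
    · exact ⟨s i.1, (hs i.1 hi).1, fun _ => rfl⟩
    · refine ⟨⌊φ i.1⌋, ?_, fun h => absurd h hi⟩
      rw [abs_le]
      have h1 := Int.floor_le (φ i.1)
      have h2 := Int.lt_floor_add_one (φ i.1)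
      constructor <;> linarith
  obtain ⟨e1', e2'⟩ := hen ((N : ℝ) ^ δ) N hT hTN A φ hP v (fun i => (hv i).1)
  obtain ⟨s', ψ, g1, g2, g3, g4, g5⟩ := enum_family' A v
  have hB2 : ∀ j ∈ Icc 1 A.card, |s' j| ≤ (2 : ℤ) * N := by
    intro j hj
    obtain ⟨i, hi⟩ := g4 j hj
    rw [← hi, g3]
    exact e1' i
  have hen' : (energy p A.card s' : ℝ) * N ≤ (N : ℝ) ^ κ * (A.card : ℝ) ^ (2 * p) := by
    rw [g5]
    have h1 := e2' p hp
    rw [Fintype.card_coe] at h1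
    refine h1.trans ?_
    apply mul_le_mul_of_nonneg_right _ (by positivity)
    calc K * (1 + Real.log N) ^ E * ((N : ℝ) ^ δ) ^ C ≤ (N : ℝ) ^ (κ / 2) * (N : ℝ) ^ (κ / 2) := by
          apply mul_le_mul (hN₁ N (by omega)) _ (by positivity) (by positivity)
          rw [← Real.rpow_natCast, ← Real.rpow_mul hN0.le]
          exact Real.rpow_le_rpow_of_exponent_le hNr hδC
      _ = (N : ℝ) ^ κ := by
          rw [← Real.rpow_add hN0]
          congr 1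
          ring
  have key := hN₂ N (by omega) t ht A.card s' hB2 hen' (Ex.image ψ) (by
      intro j hj
      obtain ⟨n, hn, rfl⟩ := mem_image.1 hj
      exact g2 n (hEA hn)) (by
      intro j hj
      obtain ⟨n, hn, rfl⟩ := mem_image.1 hj
      have h4 : s' (ψ n) = s n := by
        rw [g3 ⟨n, hEA hn⟩]
        exact (hv ⟨n, hEA hn⟩).2 hn
      rw [h4]
      exact (hs n hn).2)
  rw [card_image_of_injOn (g1.mono (by exact_mod_cast hEA))] at key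
  refine key.trans ?_
  apply mul_le_mul_of_nonneg_left _ (Nat.cast_nonneg _)
  exact Real.rpow_le_rpow_of_exponent_le hNr (by linarith)

end Pool.Agent.X31
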