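import Pool.Agent.X31.T3

set_option autoImplicit false

/-! # Schemes with a real parameter: translations and reflections -/

namespace Pool.Agent.X31

open Finset Filter Topology
open Pool.Agent.TH935.GF (En)
open Pool.Agent.H373R2.T7 (exI energy)
open Pool.Agent.TH823.PS (GoodF)

/-- as `SchT`, where the integers are at most `D N` in size -/
structure SchU {ι : Type} (D E : ℕ) (P : ℝ → ℕ → Finset ι → (ι → ℝ) → Prop) : Prop where
  mono : ∀ (T T' : ℝ) (N : ℕ) (A : Finset ι) (φ : ι → ℝ), 1 ≤ T → T ≤ T' → P T N A φ → P T' N A φ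
  en : ∃ (h₀ C : ℕ) (K : ℝ), 1 ≤ h₀ ∧ 0 < K ∧ ∀ (T : ℝ) (N : ℕ), 1 ≤ T → T ≤ N →
    ∀ (A : Finset ι) (φ : ι → ℝ), P T N A φ →
    ∀ v : {n : ι // n ∈ A} → ℤ, (∀ i, |(v i : ℝ) - φ i.1| ≤ T) →
      (∀ i, |v i| ≤ (D : ℤ) * N) ∧
      ∀ h' : ℕ, h₀ ≤ h' → (En h' v : ℝ) * N ≤ K * (1 + Real.log N) ^ E * T ^ C *
        (Fintype.card {n : ι // n ∈ A} : ℝ) ^ (2 * h')

/-- the reflected and translated families -/
def ExtP {ι : Type} (C₁ : ℕ) (P : ℝ → ℕ → Finset ι → (ι → ℝ) → Prop) : ℝ → ℕ → Finset ι → (ι → ℝ) → Prop :=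
  fun T N A φ => ∃ (σ c : ℤ) (φ' : ι → ℝ), (σ = 1 ∨ σ = -1) ∧ |c| ≤ (C₁ : ℤ) * N ∧ P T N A φ' ∧
    ∀ n, φ n = σ * φ' n + c

lemma En_affine (h : ℕ) {ι : Type} [Fintype ι] (v : ι → ℤ) (σ c : ℤ) (hσ : σ = 1 ∨ σ = -1) :
    En h (fun i => σ * (v i - c)) = En h v := by
  unfold En
  apply Nat.card_congr
  apply Equiv.subtypeEquivRight
  intro q
  have e1 : ∀ w : Fin h → ι, ∑ j, σ * (v (w j) - c) = σ * (∑ j, v (w j)) - σ * (h * c) := by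
    intro w
    rw [← mul_sum, sum_sub_distrib, sum_const, card_univ, Fintype.card_fin, nsmul_eq_mul]
    ring
  rw [e1, e1, sub_left_inj]
  rcases hσ with h1 | h1 <;> subst h1 <;> simp

theorem SchT.ext {ι : Type} {E : ℕ} {P : ℝ → ℕ → Finset ι → (ι → ℝ) → Prop} (HS : SchT E P) (C₁ : ℕ) :
    SchU (C₁ + 2) E (ExtP C₁ P) := by
  constructor
  · rintro T T' N A φ hT hTT ⟨σ, c, φ', h1, h2, h3, h4⟩
    exact ⟨σ, c, φ', h1, h2, HS.mono _ _ _ _ _ hT hTT h3, h4⟩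
  · obtain ⟨h₀, C, K, hh₀, hK, hen⟩ := HS.en
    refine ⟨h₀, C, K, hh₀, hK, ?_⟩
    rintro T N hT hTN A φ ⟨σ, c, φ', h1, h2, h3, h4⟩ v hv
    have hσr : ((σ : ℤ) : ℝ) = 1 ∨ ((σ : ℤ) : ℝ) = -1 := by
      rcases h1 with h | h <;> subst h <;> simp
    obtain ⟨e1, e2⟩ := hen T N hT hTN A φ' h3 (fun i => σ * (v i - c)) (by
      intro i
      have h5 := hv i
      rw [h4] at h5
      push_cast
      rcases hσr with h | h <;> rw [h] at h5 ⊢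
      · have : (1 : ℝ) * ((v i : ℝ) - c) - φ' i.1 = (v i : ℝ) - (1 * φ' i.1 + c) := by ring
        rw [this]; exact h5
      · have : (-1 : ℝ) * ((v i : ℝ) - c) - φ' i.1 = -((v i : ℝ) - (-1 * φ' i.1 + c)) := by ring
        rw [this, abs_neg]; exact h5)
    refine ⟨fun i => ?_, fun h' hh' => ?_⟩
    · have h5 := e1 i
      have h6 : |v i - c| ≤ 2 * (N : ℤ) := by
        have h7 : |σ * (v i - c)| = |v i - c| := by
          rw [abs_mul]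
          rcases h1 with h | h <;> subst h <;> simp
        rwa [h7] at h5
      push_cast
      have h8 := abs_le.1 h6
      have h9 := abs_le.1 h2
      rw [abs_le]
      constructor <;> nlinarith [h8.1, h8.2, h9.1, h9.2]
    · have h5 := e2 h' hh'
      rw [En_affine h' v σ c h1] at h5
      exact h5

/-- one family -/
theorem SchU.of_good {ι : Type} {D E : ℕ} {P : ℝ → ℕ → Finset ι → (ι → ℝ) → Prop} (HS : SchU D E P) :
    ∃ p₀ : ℕ, 1 ≤ p₀ ∧ ∀ p : ℕ, p₀ ≤ p → ∀ (B : ℕ) (ε δ₀ : ℝ), 0 < δ₀ →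
    ∃ δ₁ : ℝ, 0 < δ₁ ∧ ∀ δ : ℝ, 0 < δ → δ ≤ δ₁ → ∃ N₀ : ℕ, ∀ N : ℕ, N₀ ≤ N → ∀ f : ℕ → ℂ, GoodF f (B + D) 1 p ε δ₀ N →
      ∀ (A : Finset ι) (φ : ι → ℝ), P ((N : ℝ) ^ δ) N A φ → ∀ (a : ℕ) (g : ℕ → ℂ), 1 ≤ a →
      ∑ n ∈ Icc 1 (B * N / a), ‖g n‖ ^ 2 ≤ B * N →
      ∃ Ex : Finset ι, (Ex.card : ℝ) ≤ A.card * (N : ℝ) ^ (-δ₀) ∧ ∀ n ∈ A, n ∉ Ex →
        ∀ s : ℤ, |(s : ℝ) - φ n| ≤ (N : ℝ) ^ δ → ∀ X : ℕ, a * X ≤ B * N →
          ‖∑ n ∈ Icc 1 X, g n * exI f (a * n + s)‖ ≤ ε * N := by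
  classical
  obtain ⟨h₀, C, K, hh₀, hK, hen⟩ := HS.en
  refine ⟨h₀, hh₀, fun p hp B ε δ₀ hδ₀ => ?_⟩
  obtain ⟨δ₁, hδ₁⟩ : ∃ δ₁ : ℝ, δ₁ = min 1 (δ₀ / (2 * (C + 1))) := ⟨_, rfl⟩
  have hC0 : (0 : ℝ) < 2 * (C + 1) := by positivity
  have hδ₁0 : 0 < δ₁ := by rw [hδ₁]; positivity
  refine ⟨δ₁, hδ₁0, fun δ hδ hδδ => ?_⟩
  have hδ1 : δ ≤ 1 := hδδ.trans (by rw [hδ₁]; exact min_le_left _ _)
  have hδC : δ * C ≤ δ₀ / 2 := by
    have h1 : δ ≤ δ₀ / (2 * (C + 1)) := hδδ.trans (by rw [hδ₁]; exact min_le_right _ _)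
    rw [le_div_iff₀ hC0] at h1
    nlinarith
  have e1 : ∀ᶠ N : ℕ in atTop, K * (1 + Real.log N) ^ E ≤ (N : ℝ) ^ (δ₀ / 2) := by
    have e2 := (isLittleO_log_rpow_atTop (show (0 : ℝ) < δ₀ / (4 * (E + 1)) by positivity)).def
      (show (0 : ℝ) < 1 by norm_num)
    have e3 : Filter.Tendsto (fun x : ℝ => x ^ (δ₀ / 4)) atTop atTop := tendsto_rpow_atTop (by positivity)
    have e4 : ∀ᶠ x : ℝ in atTop, K * (1 + Real.log x) ^ E ≤ x ^ (δ₀ / 2) := by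
      filter_upwards [e2, eventually_ge_atTop (Real.exp 1), e3.eventually_ge_atTop (K * 2 ^ E)] with x h1 h2 h3
      have hx1 : (1 : ℝ) ≤ x := (Real.one_le_exp (by norm_num)).trans h2
      have hx0 : 0 < x := by linarith
      have hl1 : 1 ≤ Real.log x := by
        rw [Real.le_log_iff_exp_le hx0]
        exact h2
      rw [Real.norm_eq_abs, Real.norm_eq_abs, abs_of_nonneg (by linarith), abs_of_nonneg (by positivity),
        one_mul] at h1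
      have h4 : (Real.log x) ^ E ≤ x ^ (δ₀ / 4) := by
        calc (Real.log x) ^ E ≤ (Real.log x) ^ (E + 1) := pow_le_pow_right₀ hl1 (by omega)
          _ ≤ (x ^ (δ₀ / (4 * (E + 1)))) ^ (E + 1) := pow_le_pow_left₀ (by linarith) h1 _
          _ = x ^ (δ₀ / 4) := by
              rw [← Real.rpow_natCast, ← Real.rpow_mul hx0.le]
              congr 1
              push_cast
              field_simp
      calc K * (1 + Real.log x) ^ E ≤ K * (2 * Real.log x) ^ E := by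
            gcongr
            linarith
        _ = (K * 2 ^ E) * (Real.log x) ^ E := by rw [mul_pow]; ring
        _ ≤ x ^ (δ₀ / 4) * x ^ (δ₀ / 4) := by gcongr
        _ = x ^ (δ₀ / 2) := by
            rw [← Real.rpow_add hx0]
            congr 1
            ring
    exact tendsto_natCast_atTop_atTop.eventually e4
  obtain ⟨N₁, hN₁⟩ := eventually_atTop.1 e1
  refine ⟨N₁ + 1, fun N hN f hG A φ hP a g ha hg => ?_⟩
  have hNr : (1 : ℝ) ≤ N := by exact_mod_cast (by omega : 1 ≤ N)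
  have hN0 : (0 : ℝ) < N := by linarith
  have hT : 1 ≤ (N : ℝ) ^ δ := Real.one_le_rpow hNr hδ.le
  have hTN : (N : ℝ) ^ δ ≤ N := by
    calc (N : ℝ) ^ δ ≤ (N : ℝ) ^ (1 : ℝ) := Real.rpow_le_rpow_of_exponent_le hNr hδ1
      _ = N := Real.rpow_one _
  obtain ⟨Ex, hEx⟩ : ∃ Ex : Finset ι, Ex = A.filter (fun n : ι => ∃ s : ℤ, |(s : ℝ) - φ n| ≤ (N : ℝ) ^ δ ∧
      ∃ X : ℕ, a * X ≤ B * N ∧ ε * N < ‖∑ n ∈ Icc 1 X, g n * exI f (a * n + s)‖) := ⟨_, rfl⟩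
  refine ⟨Ex, ?_, ?_⟩
  swap
  · intro n hn hnE s hs X hX
    by_contra hcon
    push Not at hcon
    apply hnE
    rw [hEx]
    exact mem_filter.2 ⟨hn, s, hs, X, hX, hcon⟩
  have hch : ∀ n ∈ Ex, ∃ s : ℤ, |(s : ℝ) - φ n| ≤ (N : ℝ) ^ δ ∧
      ∃ X : ℕ, a * X ≤ B * N ∧ ε * N < ‖∑ n ∈ Icc 1 X, g n * exI f (a * n + s)‖ := by
    intro n hn
    rw [hEx] at hn
    exact (mem_filter.1 hn).2
  choose! s hs using hch
  have hEA : Ex ⊆ A := by rw [hEx]; exact filter_subset _ _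
  obtain ⟨v, hv⟩ : ∃ v : {n : ι // n ∈ A} → ℤ, ∀ i : {n : ι // n ∈ A},
      |(v i : ℝ) - φ i.1| ≤ (N : ℝ) ^ δ ∧ (i.1 ∈ Ex → v i = s i.1) := by
    apply Classical.axiomOfChoice (r := fun (i : {n : ι // n ∈ A}) (z : ℤ) =>
      |(z : ℝ) - φ i.1| ≤ (N : ℝ) ^ δ ∧ (i.1 ∈ Ex → z = s i.1))
    intro i
    by_cases hi : i.1 ∈ Ex
    · exact ⟨s i.1, (hs i.1 hi).1, fun _ => rfl⟩
    · refine ⟨⌊φ i.1⌋, ?_, fun h => absurd h hi⟩
      rw [abs_le]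
      have h1 := Int.floor_le (φ i.1)
      have h2 := Int.lt_floor_add_one (φ i.1)
      constructor <;> linarith
  obtain ⟨e1', e2'⟩ := hen ((N : ℝ) ^ δ) N hT hTN A φ hP v (fun i => (hv i).1)
  obtain ⟨s', ψ, g1, g2, g3, g4, g5⟩ := enum_family' A v
  have hB2 : ∀ j ∈ Icc 1 A.card, |s' j| ≤ ((B + D : ℕ) : ℤ) * N := by
    intro j hj
    obtain ⟨i, hi⟩ := g4 j hj
    rw [← hi, g3]
    refine (e1' i).trans ?_
    apply mul_le_mul_of_nonneg_right _ (Int.natCast_nonneg _)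
    push_cast
    have := Int.natCast_nonneg B
    linarith
  have hen' : (energy p A.card s' : ℝ) * N ≤ (N : ℝ) ^ δ₀ * (A.card : ℝ) ^ (2 * p) := by
    rw [g5]
    have h1 := e2' p hp
    rw [Fintype.card_coe] at h1
    refine h1.trans ?_
    apply mul_le_mul_of_nonneg_right _ (by positivity)
    calc K * (1 + Real.log N) ^ E * ((N : ℝ) ^ δ) ^ C ≤ (N : ℝ) ^ (δ₀ / 2) * (N : ℝ) ^ (δ₀ / 2) := by
          apply mul_le_mul (hN₁ N (by omega)) _ (by positivity) (by positivity)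
          rw [← Real.rpow_natCast, ← Real.rpow_mul hN0.le]
          exact Real.rpow_le_rpow_of_exponent_le hNr hδC
      _ = (N : ℝ) ^ δ₀ := by
          rw [← Real.rpow_add hN0]
          congr 1
          ring
  obtain ⟨E', hE'1, hE'2, hE'3⟩ := GoodF_B (B := B) (B' := B + D) (by omega) hG A.card s' hB2 hen'
    (fun _ => a) (fun _ => g) (fun _ => ha) (fun _ => hg)
  refine le_trans ?_ hE'2
  apply Nat.cast_le.2
  apply card_le_card_of_injOn ψ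
  · intro n hn
    have hn' := mem_coe.1 hn
    have h1 := hs n hn'
    rw [mem_coe]
    by_contra hcon
    obtain ⟨X, hX, h2⟩ := h1.2
    have h3 := hE'3 (ψ n) (g2 n (hEA hn')) hcon 0 X hX
    have h4 : s' (ψ n) = s n := by
      rw [g3 ⟨n, hEA hn'⟩]
      exact (hv ⟨n, hEA hn'⟩).2 hn'
    rw [h4] at h3
    linarith
  · exact g1.mono (by exact_mod_cast hEA)

end Pool.Agent.X31
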