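import Pool.Agent.X31.U1

set_option autoImplicit false

/-! # Schemes with a real parameter: tuples of families, with translations and reflections -/

namespace Pool.Agent.X31

open Finset Filter Topology
open Pool.Agent.TH935.GF (En)
open Pool.Agent.H373R2.T7 (exI energy)
open Pool.Agent.TH823.PS (GoodF)

/-- Several families. The factor `i₀` is `f (α m + s i₀)`, the other factors are arbitrary functions `Φ l s` bounded by
`1` (depending on the other shifts `s`). -/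
theorem SchU.tuple {K D : ℕ} {ι : Fin K → Type} {Q : ∀ i, ℝ → ℕ → Finset (ι i) → (ι i → ℝ) → Prop} {E : Fin K → ℕ}
    (HS : ∀ i, SchU D (E i) (Q i)) (o : ∀ i, ι i) :
    ∃ p : ℕ, 1 ≤ p ∧ ∀ (B : ℕ), 1 ≤ B → ∀ (ε δ₀ : ℝ), 0 < δ₀ →
    ∃ δ₁ : ℝ, 0 < δ₁ ∧ ∀ δ : ℝ, 0 < δ → δ ≤ δ₁ → ∃ N₀ : ℕ, ∀ N : ℕ, N₀ ≤ N → ∀ f : ℕ → ℂ, GoodF f (B + D) 1 p ε δ₀ N →
      ∀ (A : ∀ i, Finset (ι i)) (φ : ∀ i, ι i → ℝ), (∀ i, Q i ((N : ℝ) ^ δ) N (A i) (φ i)) →
      ∀ J : ℕ, (J : ℝ) ≤ (N : ℝ) ^ δ → ∀ α : Fin J → ℕ, (∀ l, 1 ≤ α l) → ∀ i₀ : Fin K,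
      ∀ Φ : Fin J → (Fin K → ℤ) → ℕ → ℂ, (∀ l s n, ‖Φ l s n‖ ≤ 1) →
        (∀ l s s' n, (∀ i, i ≠ i₀ → s i = s' i) → Φ l s n = Φ l s' n) →
      ∃ Ex : Finset (∀ i, ι i), (Ex.card : ℝ) ≤ (∏ i, ((A i).card : ℝ)) * (N : ℝ) ^ (-δ) ∧
        ∀ m : ∀ i, ι i, (∀ i, m i ∈ A i) → m ∉ Ex →
        ∀ s : Fin K → ℤ, (∀ i, |(s i : ℝ) - φ i (m i)| ≤ (N : ℝ) ^ δ) →
          ∀ l, ∀ x : ℕ, α l * x ≤ B * N →
          ‖∑ n ∈ Icc 1 x, Φ l s n * exI f ((α l : ℤ) * n + s i₀)‖ ≤ ε * N := by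
  classical
  choose p₀ hp₀ H using fun i => (HS i).of_good
  obtain ⟨p, hp⟩ : ∃ p : ℕ, p = 1 + ∑ i, p₀ i := ⟨_, rfl⟩
  have hle : ∀ i, p₀ i ≤ p := by
    intro i
    have := single_le_sum (f := p₀) (fun _ _ => Nat.zero_le _) (mem_univ i)
    omega
  refine ⟨p, by omega, fun B hB ε δ₀ hδ₀ => ?_⟩
  choose d₁ hd₁ H using fun i => H i p (hle i) B ε δ₀ hδ₀
  -- the exponent
  obtain ⟨δ₁, hδ₁0, hδ₁i, hδ₁1⟩ : ∃ δ₁ : ℝ, 0 < δ₁ ∧ (∀ i, δ₁ ≤ d₁ i) ∧ δ₁ * (K + 2) ≤ δ₀ / 2 := by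
    obtain ⟨e, he0, he⟩ : ∃ e : ℝ, 0 < e ∧ ∀ i, e ≤ d₁ i := by
      rcases Nat.eq_zero_or_pos K with hK | hK
      · subst hK
        exact ⟨1, one_pos, fun i => i.elim0⟩
      · have : Nonempty (Fin K) := ⟨⟨0, hK⟩⟩
        refine ⟨univ.inf' univ_nonempty d₁, ?_, fun i => inf'_le _ (mem_univ i)⟩
        rw [lt_inf'_iff]
        exact fun i _ => hd₁ i
    refine ⟨min e (δ₀ / (2 * (K + 2))), by positivity, fun i => (min_le_left _ _).trans (he i), ?_⟩
    have h1 : min e (δ₀ / (2 * (K + 2))) ≤ δ₀ / (2 * (K + 2)) := min_le_right _ _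
    have h2 : (0 : ℝ) < K + 2 := by positivity
    calc min e (δ₀ / (2 * (K + 2))) * (K + 2) ≤ δ₀ / (2 * (K + 2)) * (K + 2) :=
          mul_le_mul_of_nonneg_right h1 h2.le
      _ = δ₀ / 2 := by field_simp
  refine ⟨δ₁, hδ₁0, fun δ hδ hδδ => ?_⟩
  have hδK : δ * (K + 2) ≤ δ₀ / 2 := by
    have : (0 : ℝ) ≤ K + 2 := by positivity
    nlinarith
  choose N₁ hN₁ using fun i => H i δ hδ (hδδ.trans (hδ₁i i))
  have e1 : ∀ᶠ N : ℕ in atTop, (7 : ℝ) ^ K ≤ (N : ℝ) ^ (δ₀ / 2) := by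
    have e3 : Filter.Tendsto (fun x : ℝ => x ^ (δ₀ / 2)) atTop atTop := tendsto_rpow_atTop (by positivity)
    exact (e3.comp tendsto_natCast_atTop_atTop).eventually_ge_atTop _
  obtain ⟨N₂, hN₂⟩ := eventually_atTop.1 e1
  refine ⟨(∑ i, N₁ i) + N₂ + 1, fun N hN f hG A φ hdat J hJ α hα i₀ Φ hΦ hΦ2 => ?_⟩
  have hLN : ∀ i, N₁ i ≤ N := by
    intro i
    have := single_le_sum (f := N₁) (fun _ _ => Nat.zero_le _) (mem_univ i)
    omega
  have hNr : (1 : ℝ) ≤ N := by exact_mod_cast (by omega : 1 ≤ N)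
  have hN0 : (0 : ℝ) < N := by linarith
  have h7 := hN₂ N (by omega)
  obtain ⟨T, hT⟩ : ∃ T : ℝ, T = (N : ℝ) ^ δ := ⟨_, rfl⟩
  have hT1 : 1 ≤ T := by rw [hT]; exact Real.one_le_rpow hNr hδ.le
  have hT0 : 0 < T := by linarith
  have h1' := fun (a : ℕ) (g : ℕ → ℂ) => hN₁ i₀ N (hLN i₀) f hG (A i₀) (φ i₀) (hdat i₀) a g
  rw [← hT] at hJ hdat h1' ⊢
  obtain ⟨R, hR⟩ : ∃ R : ℕ, R = ⌈T⌉₊ + 1 := ⟨_, rfl⟩
  have hR1 : T + 1 ≤ R := by
    rw [hR]
    push_cast
    linarith [Nat.le_ceil T]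
  have hR2 : (R : ℝ) ≤ T + 2 := by
    rw [hR]
    push_cast
    linarith [Nat.ceil_lt_add_one hT0.le]
  obtain ⟨z, hz⟩ : ∃ z : ∀ i, ι i → ℤ, z = fun i n => ⌊φ i n⌋ := ⟨_, rfl⟩
  have hz1 : ∀ i n, |(z i n : ℝ) - (φ i n)| ≤ 1 := by
    intro i n
    rw [hz, abs_le]
    have h1 := Int.floor_le (φ i n)
    have h2 := Int.lt_floor_add_one (φ i n)
    constructor <;> simp only <;> linarith
  obtain ⟨Sh, hSh⟩ : ∃ Sh : Finset (Fin K → ℤ), Sh = Fintype.piFinset (fun _ => Icc (-(R : ℤ)) R) := ⟨_, rfl⟩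
  have hShc : (Sh.card : ℝ) ≤ (7 * T) ^ K := by
    rw [hSh, Fintype.card_piFinset, prod_const, card_univ, Fintype.card_fin]
    push_cast
    apply pow_le_pow_left₀ (Nat.cast_nonneg _)
    have e1 : (((Icc (-(R : ℤ)) R).card : ℕ) : ℝ) = 2 * R + 1 := by
      rw [Int.card_Icc]
      have : ((R : ℤ) + 1 - -(R : ℤ)).toNat = 2 * R + 1 := by omega
      rw [this]
      push_cast
      ring
    rw [e1]
    linarith
  -- the weights
  have hw : ∀ (w : ℕ → ℂ) (a : ℕ), (∀ n, ‖w n‖ ≤ 1) → 1 ≤ a → ∑ n ∈ Icc 1 (B * N / a), ‖w n‖ ^ 2 ≤ B * N := by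
    intro w a h1 ha
    calc ∑ n ∈ Icc 1 (B * N / a), ‖w n‖ ^ 2 ≤ ∑ _n ∈ Icc 1 (B * N / a), (1 : ℝ) :=
          sum_le_sum fun n _ => pow_le_one₀ (norm_nonneg _) (h1 n)
      _ = (B * N / a : ℕ) := by rw [sum_const, Nat.card_Icc, Nat.add_sub_cancel, nsmul_eq_mul, mul_one]
      _ ≤ (B * N : ℕ) := by exact_mod_cast Nat.div_le_self _ _
      _ = _ := by push_cast; ring
  -- the other coordinates
  have hex : ∀ (q : (∀ i, ι i)) (t : (Fin K → ℤ) × Fin J), ∃ E : Finset (ι i₀),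
      (E.card : ℝ) ≤ (A i₀).card * (N : ℝ) ^ (-δ₀) ∧ ∀ n ∈ A i₀, n ∉ E →
        ∀ s : ℤ, |(s : ℝ) - φ i₀ n| ≤ T → ∀ x : ℕ, α t.2 * x ≤ B * N →
          ‖∑ n ∈ Icc 1 x, Φ t.2 (fun i => z i (q i) + t.1 i) n * exI f ((α t.2 : ℤ) * n + s)‖ ≤ ε * N := by
    intro q t
    obtain ⟨E, hE1, hE2⟩ := h1' (α t.2) (fun n => Φ t.2 (fun i => z i (q i) + t.1 i) n) (hα _)
      (hw _ _ (fun n => hΦ _ _ _) (hα _))
    exact ⟨E, hE1, fun n hn hnE s hs x hx => hE2 n hn hnE s hs x hx⟩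
  choose Ex hEx1 hEx2 using hex
  obtain ⟨W, hW⟩ : ∃ W : Finset ((Fin K → ℤ) × Fin J), W = Sh ×ˢ (univ : Finset (Fin J)) := ⟨_, rfl⟩
  have hWc : (W.card : ℝ) * (N : ℝ) ^ (-δ₀) ≤ (N : ℝ) ^ (-δ) := by
    rw [hW, card_product, card_univ, Fintype.card_fin]
    push_cast
    calc (Sh.card : ℝ) * J * (N : ℝ) ^ (-δ₀) ≤ (7 * T) ^ K * T * (N : ℝ) ^ (-δ₀) := by gcongr
      _ = 7 ^ K * (T ^ (K + 1) * (N : ℝ) ^ (-δ₀)) := by rw [mul_pow, pow_succ]; ring
      _ ≤ (N : ℝ) ^ (δ₀ / 2) * (T ^ (K + 1) * (N : ℝ) ^ (-δ₀)) := by gcongr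
      _ = (N : ℝ) ^ (δ₀ / 2 + (δ * ((K + 1 : ℕ) : ℝ) + -δ₀)) := by
          rw [hT, ← Real.rpow_natCast, ← Real.rpow_mul hN0.le, ← Real.rpow_add hN0, ← Real.rpow_add hN0]
      _ ≤ (N : ℝ) ^ (-δ) := by
          apply Real.rpow_le_rpow_of_exponent_le hNr
          push_cast
          nlinarith
  obtain ⟨Ef, hEf⟩ : ∃ Ef : (∀ i, ι i) → Finset (ι i₀), Ef = fun q => W.biUnion (fun t => Ex q t) := ⟨_, rfl⟩
  have hEfc : ∀ q, ((Ef q).card : ℝ) ≤ (A i₀).card * (N : ℝ) ^ (-δ) := by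
    intro q
    rw [hEf]
    calc ((W.biUnion (fun t => Ex q t)).card : ℝ) ≤ ((∑ t ∈ W, (Ex q t).card : ℕ) : ℝ) := by
          exact_mod_cast card_biUnion_le
      _ = ∑ t ∈ W, ((Ex q t).card : ℝ) := by push_cast; rfl
      _ ≤ ∑ _t ∈ W, ((A i₀).card : ℝ) * (N : ℝ) ^ (-δ₀) := sum_le_sum fun t _ => hEx1 q t
      _ = (A i₀).card * ((W.card : ℝ) * (N : ℝ) ^ (-δ₀)) := by rw [sum_const, nsmul_eq_mul]; ring
      _ ≤ _ := mul_le_mul_of_nonneg_left hWc (Nat.cast_nonneg _)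
  obtain ⟨Et, hEt⟩ : ∃ Et : Finset (∀ i, ι i), Et = (Fintype.piFinset A).filter
      (fun m => m i₀ ∈ Ef (Function.update m i₀ (o i₀))) := ⟨_, rfl⟩
  refine ⟨Et, ?_, ?_⟩
  · -- counting
    have hfib : ∀ q ∈ (Fintype.piFinset A).image (fun m => Function.update m i₀ (o i₀)),
        ((Et.filter (fun m => Function.update m i₀ (o i₀) = q)).card : ℝ) ≤ (A i₀).card * (N : ℝ) ^ (-δ) := by
      intro q _
      refine le_trans ?_ (hEfc q)
      apply Nat.cast_le.2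
      apply card_le_card_of_injOn (fun m => m i₀)
      · intro m hm
        have hm' := mem_filter.1 (mem_coe.1 hm)
        rw [hEt, mem_filter] at hm'
        rw [mem_coe]
        rw [← hm'.2]
        exact hm'.1.2
      · intro m hm m' hm' hmm
        have h1 := (mem_filter.1 (mem_coe.1 hm)).2
        have h2 := (mem_filter.1 (mem_coe.1 hm')).2
        funext i
        by_cases hi : i = i₀
        · rw [hi]
          exact hmm
        · have h3 := congrFun (h1.trans h2.symm) i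
          rw [Function.update_of_ne hi, Function.update_of_ne hi] at h3
          exact h3
    have hcount : (Et.card : ℝ) ≤ (((Fintype.piFinset A).image (fun m => Function.update m i₀ (o i₀))).card : ℝ) *
        ((A i₀).card * (N : ℝ) ^ (-δ)) := by
      have h2 : Et.card = ∑ q ∈ (Fintype.piFinset A).image (fun m => Function.update m i₀ (o i₀)),
          (Et.filter (fun m => Function.update m i₀ (o i₀) = q)).card := by
        apply card_eq_sum_card_fiberwise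
        intro m hm
        rw [mem_coe] at hm ⊢
        rw [hEt, mem_filter] at hm
        exact mem_image_of_mem _ hm.1
      rw [h2]
      push_cast
      calc ∑ q ∈ (Fintype.piFinset A).image (fun m => Function.update m i₀ (o i₀)),
          ((Et.filter (fun m => Function.update m i₀ (o i₀) = q)).card : ℝ) ≤
          ∑ _q ∈ (Fintype.piFinset A).image (fun m => Function.update m i₀ (o i₀)),
            ((A i₀).card : ℝ) * (N : ℝ) ^ (-δ) := sum_le_sum hfib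
        _ = _ := by rw [sum_const, nsmul_eq_mul]
    refine hcount.trans ?_
    have himg : ((Fintype.piFinset A).image (fun m => Function.update m i₀ (o i₀))).card ≤
        ∏ i ∈ univ.erase i₀, (A i).card := by
      have h3 : (Fintype.piFinset A).image (fun m => Function.update m i₀ (o i₀)) ⊆
          Fintype.piFinset (Function.update A i₀ {o i₀}) := by
        intro q hq
        obtain ⟨m, hm, rfl⟩ := mem_image.1 hq
        rw [Fintype.mem_piFinset] at hm ⊢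
        intro i
        by_cases hi : i = i₀
        · subst hi
          rw [Function.update_self, Function.update_self]
          exact mem_singleton_self _
        · rw [Function.update_of_ne hi, Function.update_of_ne hi]
          exact hm i
      refine (card_le_card h3).trans (le_of_eq ?_)
      rw [Fintype.card_piFinset, ← mul_prod_erase univ _ (mem_univ i₀), Function.update_self, card_singleton, one_mul]
      apply prod_congr rfl
      intro i hi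
      rw [Function.update_of_ne (mem_erase.1 hi).1]
    calc (((Fintype.piFinset A).image (fun m => Function.update m i₀ (o i₀))).card : ℝ) *
          ((A i₀).card * (N : ℝ) ^ (-δ))
        ≤ ((∏ i ∈ univ.erase i₀, (A i).card : ℕ) : ℝ) * ((A i₀).card * (N : ℝ) ^ (-δ)) := by
          apply mul_le_mul_of_nonneg_right _ (by positivity)
          exact_mod_cast himg
      _ = (∏ i, ((A i).card : ℝ)) * (N : ℝ) ^ (-δ) := by
          rw [← mul_prod_erase univ (fun i => ((A i).card : ℝ)) (mem_univ i₀)]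
          push_cast
          ring
  · intro m hm hmE s hs l x hx
    have hnot : m i₀ ∉ Ef (Function.update m i₀ (o i₀)) := by
      intro hcon
      apply hmE
      rw [hEt, mem_filter]
      exact ⟨Fintype.mem_piFinset.2 hm, hcon⟩
    -- the shift vector
    obtain ⟨σ, hσ⟩ : ∃ σ : Fin K → ℤ, σ = fun i => if i = i₀ then 0 else s i - z i (m i) := ⟨_, rfl⟩
    have hσm : σ ∈ Sh := by
      rw [hSh, Fintype.mem_piFinset]
      intro i
      rw [hσ, mem_Icc]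
      simp only
      split_ifs with hi
      · constructor <;> omega
      · have h1 := abs_le.1 (hs i)
        have h2 := abs_le.1 (hz1 i (m i))
        have h3 : (-(R : ℝ)) ≤ ((s i - z i (m i) : ℤ) : ℝ) := by
          push_cast
          linarith [h1.1, h2.2]
        have h4 : ((s i - z i (m i) : ℤ) : ℝ) ≤ R := by
          push_cast
          linarith [h1.2, h2.1]
        constructor
        · exact_mod_cast h3
        · exact_mod_cast h4
    have hnot2 : m i₀ ∉ Ex (Function.update m i₀ (o i₀)) (σ, l) := by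
      intro hcon
      apply hnot
      rw [hEf]
      simp only
      rw [mem_biUnion]
      refine ⟨(σ, l), ?_, hcon⟩
      rw [hW, mem_product]
      exact ⟨hσm, mem_univ _⟩
    have h6 := hEx2 (Function.update m i₀ (o i₀)) (σ, l) (m i₀) (hm i₀) hnot2 (s i₀) (hs i₀) x hx
    refine le_trans (le_of_eq ?_) h6
    congr 1
    apply sum_congr rfl
    intro n _
    congr 1
    apply hΦ2
    intro i hi
    rw [hσ, Function.update_of_ne hi]
    simp only
    rw [if_neg hi]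
    ring

end Pool.Agent.X31
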