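import Pool.Agent.X31.U2
import Pool.Agent.TH823.PS.Fin4

set_option autoImplicit false

/-! # Schemes with a real parameter: sums over positive and negative integers -/

namespace Pool.Agent.X31

open Finset Filter Topology
open Pool.Agent.H373R2.T7 (exI energy)
open Pool.Agent.TH823.PS (GoodF evI shift_sum)

/-- Several families: one sum over positive and negative integers. The factor `i₀` is `f (a v + σ s i₀)`, the other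
factors are an arbitrary function `Φ s` bounded by `1` (depending on the other shifts `s`). -/
theorem SchT.one {K : ℕ} {ι : Fin K → Type} {Q : ∀ i, ℝ → ℕ → Finset (ι i) → (ι i → ℝ) → Prop} {E : Fin K → ℕ}
    (HS : ∀ i, SchT (E i) (Q i)) (o : ∀ i, ι i) (A₁ : ℕ) (hA₁ : 1 ≤ A₁) :
    ∃ p : ℕ, 1 ≤ p ∧ ∀ (ε δ₀ : ℝ), 0 < δ₀ →
    ∃ δ₁ : ℝ, 0 < δ₁ ∧ ∀ δ : ℝ, 0 < δ → δ ≤ δ₁ → ∃ N₀ : ℕ, ∀ N : ℕ, N₀ ≤ N → ∀ f : ℕ → ℂ,
      GoodF f (3 * A₁ + (2 * A₁ + 2)) 1 p ε δ₀ N →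
      ∀ (A : ∀ i, Finset (ι i)) (φ : ∀ i, ι i → ℝ), (∀ i, Q i ((N : ℝ) ^ δ) N (A i) (φ i)) →
      ∀ (σ : ℤ), (σ = 1 ∨ σ = -1) → ∀ a : ℕ, 1 ≤ a → a ≤ A₁ → ∀ i₀ : Fin K,
      ∀ Φ : (Fin K → ℤ) → ℤ → ℂ, (∀ s v, ‖Φ s v‖ ≤ 1) →
        (∀ s s' v, (∀ i, i ≠ i₀ → s i = s' i) → Φ s v = Φ s' v) →
      ∃ Ex : Finset (∀ i, ι i), (Ex.card : ℝ) ≤ (∏ i, ((A i).card : ℝ)) * (N : ℝ) ^ (-δ) ∧
        ∀ m : ∀ i, ι i, (∀ i, m i ∈ A i) → m ∉ Ex →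
        ∀ s : Fin K → ℤ, (∀ i, |(s i : ℝ) - φ i (m i)| ≤ (N : ℝ) ^ δ) →
          ∀ X : ℕ, X ≤ N → ‖∑ v ∈ Icc (-(X : ℤ)) X, Φ s v * exI f (a * v + σ * s i₀)‖ ≤ 2 * (ε * N) := by
  classical
  obtain ⟨p, hp, H⟩ := SchU.tuple (fun i => (HS i).ext (2 * A₁)) o
  refine ⟨p, hp, fun ε δ₀ hδ₀ => ?_⟩
  obtain ⟨δ₁, hδ₁, H⟩ := H (3 * A₁) (by omega) ε δ₀ hδ₀
  refine ⟨δ₁, hδ₁, fun δ hδ hδδ => ?_⟩
  obtain ⟨N₀, H⟩ := H δ hδ hδδ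
  refine ⟨N₀ + 1, fun N hN f hG A φ hQ σ hσ a ha haA i₀ Φ hΦ hΦ2 => ?_⟩
  have hN1 : 1 ≤ N := by omega
  have hNr : (1 : ℝ) ≤ N := by exact_mod_cast hN1
  obtain ⟨c, hc⟩ : ∃ c : ℤ, c = -((a : ℤ) * (N + 1)) := ⟨_, rfl⟩
  have hcb : |c| ≤ ((2 * A₁ : ℕ) : ℤ) * N := by
    rw [hc, abs_neg, abs_of_nonneg (by positivity)]
    have h4 : (a : ℤ) ≤ A₁ := by exact_mod_cast haA
    have h5 : (N : ℤ) + 1 ≤ 2 * N := by
      have : (1 : ℤ) ≤ N := by exact_mod_cast hN1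
      linarith
    calc (a : ℤ) * (N + 1) ≤ A₁ * (2 * N) := mul_le_mul h4 h5 (by positivity) (by positivity)
      _ = _ := by push_cast; ring
  obtain ⟨Ex, h1, h2⟩ := H N (by omega) f hG A (fun i n => if i = i₀ then (σ : ℝ) * φ i n + c else φ i n) (by
      intro i
      by_cases hi : i = i₀
      · refine ⟨σ, c, φ i, hσ, hcb, hQ i, fun n => ?_⟩
        simp only
        rw [if_pos hi]
      · refine ⟨1, 0, φ i, Or.inl rfl, ?_, hQ i, fun n => ?_⟩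
        · rw [abs_zero]; positivity
        · simp only
          rw [if_neg hi]
          push_cast
          ring) 1 (by rw [Nat.cast_one]; exact Real.one_le_rpow hNr hδ.le) (fun _ => a) (fun _ => ha) i₀
      (fun _ s n => Φ s ((n : ℤ) - N - 1)) (fun _ s n => hΦ _ _) (fun _ s s' n h => hΦ2 _ _ _ h)
  refine ⟨Ex, h1, fun m hm hmE s hs X hX => ?_⟩
  have h3 := h2 m hm hmE (fun i => if i = i₀ then σ * s i + c else s i) (by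
    intro i
    by_cases hi : i = i₀
    · rw [if_pos hi, if_pos hi]
      have h5 := hs i
      push_cast
      rcases hσ with h | h <;> subst h <;> push_cast
      · have : (1 : ℝ) * (s i : ℝ) + c - (1 * φ i (m i) + c) = (s i : ℝ) - φ i (m i) := by ring
        rw [this]; exact h5
      · have : (-1 : ℝ) * (s i : ℝ) + c - (-1 * φ i (m i) + c) = -((s i : ℝ) - φ i (m i)) := by ring
        rw [this, abs_neg]; exact h5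
    · rw [if_neg hi, if_neg hi]
      exact hs i) 0
  rw [shift_sum (fun v => Φ s v * exI f (a * v + σ * s i₀)) hX]
  have h4 := h3 (N + 1 + X) (by
    calc a * (N + 1 + X) ≤ A₁ * (3 * N) := Nat.mul_le_mul haA (by omega)
      _ = 3 * A₁ * N := by ring)
  have h5 := h3 (N - X) (by
    calc a * (N - X) ≤ A₁ * (3 * N) := Nat.mul_le_mul haA (by omega)
      _ = 3 * A₁ * N := by ring)
  have e1 : ∀ j : ℕ, Φ (fun i => if i = i₀ then σ * s i + c else s i) ((j : ℤ) - N - 1) *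
      exI f ((a : ℤ) * j + (if i₀ = i₀ then σ * s i₀ + c else s i₀)) =
      Φ s ((j : ℤ) - N - 1) * exI f ((a : ℤ) * ((j : ℤ) - N - 1) + σ * s i₀) := by
    intro j
    rw [if_pos rfl]
    congr 1
    · apply hΦ2
      intro i hi
      rw [if_neg hi]
    · congr 1
      rw [hc]
      ring
  rw [sum_congr rfl fun j _ => e1 j] at h4 h5
  refine (norm_sub_le _ _).trans ?_
  linarith

/-- Several families, many sums over positive and negative integers at once. In the sum `l` the factor `ρ l` is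
`F l (α l v + s (ρ l))`, the other factors are arbitrary functions `Φ l s` bounded by `1` (depending on the other
shifts `s`). -/
theorem SchT.two {K : ℕ} {ι : Fin K → Type} {Q : ∀ i, ℝ → ℕ → Finset (ι i) → (ι i → ℝ) → Prop} {E : Fin K → ℕ}
    (HS : ∀ i, SchT (E i) (Q i)) (o : ∀ i, ι i) (A₁ : ℕ) (hA₁ : 1 ≤ A₁) :
    ∃ p : ℕ, 1 ≤ p ∧ ∀ (ε δ₀ : ℝ), 0 < δ₀ →
    ∃ δ₁ : ℝ, 0 < δ₁ ∧ ∀ δ : ℝ, 0 < δ → δ ≤ δ₁ → ∃ N₀ : ℕ, ∀ N : ℕ, N₀ ≤ N →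
      ∀ (A : ∀ i, Finset (ι i)) (φ : ∀ i, ι i → ℝ), (∀ i, Q i ((N : ℝ) ^ δ) N (A i) (φ i)) →
      ∀ J : ℕ, (J : ℝ) ≤ (N : ℝ) ^ δ → ∀ F : Fin J → ℕ → ℂ, (∀ l, GoodF (F l) (3 * A₁ + (2 * A₁ + 2)) 1 p ε δ₀ N) →
      ∀ α : Fin J → ℕ, (∀ l, 1 ≤ α l) → (∀ l, α l ≤ A₁) → ∀ ρ : Fin J → Fin K,
      ∀ Φ : Fin J → (Fin K → ℤ) → ℤ → ℂ, (∀ l s v, ‖Φ l s v‖ ≤ 1) →
        (∀ l s s' v, (∀ i, i ≠ ρ l → s i = s' i) → Φ l s v = Φ l s' v) →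
      ∃ Ex : Finset (∀ i, ι i), (Ex.card : ℝ) ≤ (∏ i, ((A i).card : ℝ)) * (N : ℝ) ^ (-δ) ∧
        ∀ m : ∀ i, ι i, (∀ i, m i ∈ A i) → m ∉ Ex →
        ∀ s : Fin K → ℤ, (∀ i, |(s i : ℝ) - φ i (m i)| ≤ (N : ℝ) ^ δ) →
          ∀ l, ∀ X : ℕ, X ≤ N →
          ‖∑ v ∈ Icc (-(X : ℤ)) X, Φ l s v * evI (F l) ((α l : ℤ) * v + s (ρ l))‖ ≤ 4 * (ε * N) := by
  classical
  obtain ⟨p, hp, H⟩ := SchT.one HS o A₁ hA₁
  refine ⟨p, hp, fun ε δ₀ hδ₀ => ?_⟩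
  obtain ⟨δ₁, hδ₁, H⟩ := H ε δ₀ hδ₀
  obtain ⟨N₀, H⟩ := H δ₁ hδ₁ le_rfl
  have e1 : ∀ᶠ N : ℕ in atTop, (2 : ℝ) ≤ (N : ℝ) ^ (δ₁ / 3) := by
    have e3 : Filter.Tendsto (fun x : ℝ => x ^ (δ₁ / 3)) atTop atTop := tendsto_rpow_atTop (by positivity)
    exact (e3.comp tendsto_natCast_atTop_atTop).eventually_ge_atTop _
  obtain ⟨N₂, hN₂⟩ := eventually_atTop.1 e1
  refine ⟨δ₁ / 3, by positivity, fun δ hδ hδδ => ⟨N₀ + N₂ + 1, fun N hN A φ hP J hJ F hG α hα hαA ρ Φ hΦ hΦ2 => ?_⟩⟩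
  have hNr : (1 : ℝ) ≤ N := by exact_mod_cast (by omega : 1 ≤ N)
  have hN0 : (0 : ℝ) < N := by linarith
  have hmono : (N : ℝ) ^ δ ≤ (N : ℝ) ^ δ₁ := Real.rpow_le_rpow_of_exponent_le hNr (by linarith)
  have hone : 1 ≤ (N : ℝ) ^ δ := Real.one_le_rpow hNr hδ.le
  have h2N := hN₂ N (by omega)
  have hex : ∀ l : Fin J × Bool, ∃ Ex : Finset (∀ i, ι i), (Ex.card : ℝ) ≤ (∏ i, ((A i).card : ℝ)) * (N : ℝ) ^ (-δ₁) ∧
        ∀ m : ∀ i, ι i, (∀ i, m i ∈ A i) → m ∉ Ex →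
        ∀ s : Fin K → ℤ, (∀ i, |(s i : ℝ) - φ i (m i)| ≤ (N : ℝ) ^ δ) →
          ∀ X : ℕ, X ≤ N →
          ‖∑ v ∈ Icc (-(X : ℤ)) X, Φ l.1 s ((if l.2 then 1 else -1) * v) *
            exI (F l.1) ((α l.1 : ℤ) * v + (if l.2 then 1 else -1) * s (ρ l.1))‖ ≤ 2 * (ε * N) := by
    intro l
    obtain ⟨Ex, h1, h2⟩ := H N (by omega) (F l.1) (hG l.1) A φ (fun i => (HS i).mono _ _ _ _ _ hone hmono (hP i))
      (if l.2 then 1 else -1) (by split_ifs <;> simp) (α l.1) (hα l.1) (hαA l.1) (ρ l.1)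
      (fun s v => Φ l.1 s ((if l.2 then 1 else -1) * v)) (fun s v => hΦ _ _ _) (fun s s' v h => hΦ2 _ _ _ _ h)
    exact ⟨Ex, h1, fun m hm hmE s hs X hX => h2 m hm hmE s (fun i => (hs i).trans hmono) X hX⟩
  choose Ex h1 h2 using hex
  refine ⟨(univ : Finset (Fin J × Bool)).biUnion Ex, ?_, fun m hm hmE s hs l X hX => ?_⟩
  · have hpr : 0 ≤ ∏ i, ((A i).card : ℝ) := prod_nonneg fun i _ => Nat.cast_nonneg _
    calc ((((univ : Finset (Fin J × Bool)).biUnion Ex).card : ℕ) : ℝ) ≤ ((∑ l, (Ex l).card : ℕ) : ℝ) := by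
          exact_mod_cast card_biUnion_le
      _ = ∑ l, ((Ex l).card : ℝ) := by push_cast; rfl
      _ ≤ ∑ _l : Fin J × Bool, (∏ i, ((A i).card : ℝ)) * (N : ℝ) ^ (-δ₁) := sum_le_sum fun l _ => h1 l
      _ = (∏ i, ((A i).card : ℝ)) * (2 * J * (N : ℝ) ^ (-δ₁)) := by
          rw [sum_const, card_univ, Fintype.card_prod, Fintype.card_fin, Fintype.card_bool, nsmul_eq_mul]
          push_cast
          ring
      _ ≤ (∏ i, ((A i).card : ℝ)) * (N : ℝ) ^ (-δ) := by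
          apply mul_le_mul_of_nonneg_left _ hpr
          calc 2 * (J : ℝ) * (N : ℝ) ^ (-δ₁) ≤ (N : ℝ) ^ (δ₁ / 3) * (N : ℝ) ^ δ * (N : ℝ) ^ (-δ₁) := by gcongr
            _ = (N : ℝ) ^ (δ₁ / 3 + δ + -δ₁) := by rw [← Real.rpow_add hN0, ← Real.rpow_add hN0]
            _ ≤ (N : ℝ) ^ (-δ) := Real.rpow_le_rpow_of_exponent_le hNr (by linarith)
  · have hnot : ∀ t : Bool, m ∉ Ex (l, t) := fun t hcon => hmE (by
      rw [mem_biUnion]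
      exact ⟨(l, t), mem_univ _, hcon⟩)
    have h3 := h2 (l, true) m hm (hnot true) s hs X hX
    have h4 := h2 (l, false) m hm (hnot false) s hs X hX
    simp only [if_true, one_mul, Bool.false_eq_true, if_false] at h3 h4
    have e1 : ∑ v ∈ Icc (-(X : ℤ)) X, Φ l s (-1 * v) * exI (F l) ((α l : ℤ) * v + -1 * s (ρ l)) =
        ∑ v ∈ Icc (-(X : ℤ)) X, Φ l s v * exI (F l) (-((α l : ℤ) * v + s (ρ l))) := by
      refine sum_nbij' (fun v => -v) (fun v => -v) ?_ ?_ ?_ ?_ ?_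
      · intro v hv; rw [mem_Icc] at hv ⊢; omega
      · intro v hv; rw [mem_Icc] at hv ⊢; omega
      · intro v _; simp
      · intro v _; simp
      · intro v _
        congr 1
        · congr 1
          ring
        · congr 1
          ring
    rw [e1] at h4
    have e2 : ∑ v ∈ Icc (-(X : ℤ)) X, Φ l s v * evI (F l) ((α l : ℤ) * v + s (ρ l)) =
        ∑ v ∈ Icc (-(X : ℤ)) X, Φ l s v * exI (F l) ((α l : ℤ) * v + s (ρ l)) +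
        ∑ v ∈ Icc (-(X : ℤ)) X, Φ l s v * exI (F l) (-((α l : ℤ) * v + s (ρ l))) := by
      rw [← sum_add_distrib]
      apply sum_congr rfl
      intro v _
      unfold evI
      ring
    rw [e2]
    refine (norm_add_le _ _).trans ?_
    linarith

open Classical in
/-- at most scales, for one nice function -/
theorem SchT.most_two {K : ℕ} {ι : Fin K → Type} {Q : ∀ i, ℝ → ℕ → Finset (ι i) → (ι i → ℝ) → Prop} {E : Fin K → ℕ}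
    (HS : ∀ i, SchT (E i) (Q i)) (o : ∀ i, ι i) {f : ℕ → ℂ} (hf : Pool.Agent.TH823.PS.Nice f) (A₁ J : ℕ) (hA₁ : 1 ≤ A₁)
    {ε : ℝ} (hε : 0 < ε) :
    ∃ δ : ℝ, 0 < δ ∧ ∀ N₁ : ℕ, Pool.Agent.TH823.PS.Most ε (fun N => N₁ ≤ N ∧
      ∀ (A : ∀ i, Finset (ι i)) (φ : ∀ i, ι i → ℝ), (∀ i, Q i ((N : ℝ) ^ δ) N (A i) (φ i)) →
      ∀ α : Fin J → ℕ, (∀ l, 1 ≤ α l) → (∀ l, α l ≤ A₁) → ∀ ρ : Fin J → Fin K,
      ∀ Φ : Fin J → (Fin K → ℤ) → ℤ → ℂ, (∀ l s v, ‖Φ l s v‖ ≤ 1) →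
        (∀ l s s' v, (∀ i, i ≠ ρ l → s i = s' i) → Φ l s v = Φ l s' v) →
      ∃ Ex : Finset (∀ i, ι i), (Ex.card : ℝ) ≤ (∏ i, ((A i).card : ℝ)) * (N : ℝ) ^ (-δ) ∧
        ∀ m : ∀ i, ι i, (∀ i, m i ∈ A i) → m ∉ Ex →
        ∀ s : Fin K → ℤ, (∀ i, |(s i : ℝ) - φ i (m i)| ≤ (N : ℝ) ^ δ) →
          ∀ l, ∀ X : ℕ, X ≤ N →
          ‖∑ v ∈ Icc (-(X : ℤ)) X, Φ l s v * evI f ((α l : ℤ) * v + s (ρ l))‖ ≤ ε * N) := by
  obtain ⟨p, hp, H⟩ := SchT.two HS o A₁ hA₁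
  obtain ⟨δ₀, hδ₀, hG⟩ := Pool.Agent.TH823.PS.most_good hf (3 * A₁ + (2 * A₁ + 2)) 1 p hp (ε := ε / 4) (by positivity)
  obtain ⟨δ₁, hδ₁, H⟩ := H (ε / 4) δ₀ hδ₀
  obtain ⟨N₀, H⟩ := H δ₁ hδ₁ le_rfl
  have e1 : ∀ᶠ N : ℕ in atTop, (J : ℝ) ≤ (N : ℝ) ^ δ₁ := by
    have e3 : Filter.Tendsto (fun x : ℝ => x ^ δ₁) atTop atTop := tendsto_rpow_atTop hδ₁
    exact (e3.comp tendsto_natCast_atTop_atTop).eventually_ge_atTop _
  obtain ⟨N₂, hN₂⟩ := eventually_atTop.1 e1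
  have hε2 : ε / 4 ≤ ε := by linarith
  refine ⟨δ₁, hδ₁, fun N₁ => ?_⟩
  have hM := Pool.Agent.TH823.PS.most_mono (ε := ε / 2) (by positivity) (by
    have : ε / 2 / 2 = ε / 4 := by ring
    rw [this]
    exact hG) (N₁ := N₀ + N₁ + N₂ + 1) fun N hN hGN => (show (N₁ ≤ N ∧
      ∀ (A : ∀ i, Finset (ι i)) (φ : ∀ i, ι i → ℝ), (∀ i, Q i ((N : ℝ) ^ δ₁) N (A i) (φ i)) →
      ∀ α : Fin J → ℕ, (∀ l, 1 ≤ α l) → (∀ l, α l ≤ A₁) → ∀ ρ : Fin J → Fin K,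
      ∀ Φ : Fin J → (Fin K → ℤ) → ℤ → ℂ, (∀ l s v, ‖Φ l s v‖ ≤ 1) →
        (∀ l s s' v, (∀ i, i ≠ ρ l → s i = s' i) → Φ l s v = Φ l s' v) →
      ∃ Ex : Finset (∀ i, ι i), (Ex.card : ℝ) ≤ (∏ i, ((A i).card : ℝ)) * (N : ℝ) ^ (-δ₁) ∧
        ∀ m : ∀ i, ι i, (∀ i, m i ∈ A i) → m ∉ Ex →
        ∀ s : Fin K → ℤ, (∀ i, |(s i : ℝ) - φ i (m i)| ≤ (N : ℝ) ^ δ₁) →
          ∀ l, ∀ X : ℕ, X ≤ N →
          ‖∑ v ∈ Icc (-(X : ℤ)) X, Φ l s v * evI f ((α l : ℤ) * v + s (ρ l))‖ ≤ ε * N) by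
    refine ⟨by omega, fun A φ hP α hα hαA ρ Φ hΦ hΦ2 => ?_⟩
    obtain ⟨Ex, h1, h2⟩ := H N (by omega) A φ hP J (hN₂ N (by omega)) (fun _ => f) (fun _ => hGN) α hα hαA ρ Φ hΦ hΦ2
    refine ⟨Ex, h1, fun m hm hmE s hs l x hx => (h2 m hm hmE s hs l x hx).trans (le_of_eq (by ring))⟩)
  intro R₀
  obtain ⟨R, hR, h1⟩ := hM (max R₀ 1)
  refine ⟨R, (le_max_left _ _).trans hR, h1.trans ?_⟩
  have : 0 ≤ Real.log R := Real.log_natCast_nonneg R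
  nlinarith

end Pool.Agent.X31
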