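import Pool.Agent.X31.U3

set_option autoImplicit false

/-! # Schemes with a real parameter: the even extension, sums over positive integers -/

namespace Pool.Agent.X31

open Finset Filter Topology
open Pool.Agent.TH823.PS (evI)

lemma pos_sum (F : ℕ → ℂ) (G : ℤ → ℂ) (hG : ∀ n : ℕ, 1 ≤ n → G n = F n) (hG0 : ∀ v : ℤ, v < 1 → G v = 0) (X : ℕ) :
    ∑ v ∈ Icc (-(X : ℤ)) X, G v = ∑ n ∈ Icc 1 X, F n := by
  have h1 : ∑ v ∈ Icc (-(X : ℤ)) X, G v = ∑ v ∈ Icc (1 : ℤ) X, G v := by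
    symm
    apply sum_subset
    · intro v hv
      rw [mem_Icc] at hv ⊢
      omega
    · intro v hv hv2
      rw [mem_Icc] at hv hv2
      exact hG0 v (by omega)
  rw [h1]
  refine sum_nbij' (fun v => v.toNat) (fun n => (n : ℤ)) ?_ ?_ ?_ ?_ ?_
  · intro v hv; rw [mem_Icc] at hv ⊢; omega
  · intro v hv; rw [mem_Icc] at hv ⊢; omega
  · intro v hv; rw [mem_Icc] at hv; exact Int.toNat_of_nonneg (by omega)
  · intro v _; simp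
  · intro v hv
    rw [mem_Icc] at hv
    rw [← hG _ (by omega), Int.toNat_of_nonneg (by omega)]

lemma most_imp {ε : ℝ} {P P' : ℕ → Prop} (h : Pool.Agent.TH823.PS.Most ε P) (hPP : ∀ N, P N → P' N) :
    Pool.Agent.TH823.PS.Most ε P' := by
  classical
  intro R₀
  obtain ⟨R, hR, h1⟩ := h R₀
  refine ⟨R, hR, le_trans ?_ h1⟩
  apply sum_le_sum_of_subset_of_nonneg
  · intro N hN
    simp only [mem_filter] at hN ⊢
    exact ⟨hN.1, fun h2 => hN.2 (hPP N h2)⟩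
  · intro _ _ _; positivity

open Classical in
/-- at most scales, for one nice function, sums over positive integers -/
theorem SchT.most_pos {K : ℕ} {ι : Fin K → Type} {Q : ∀ i, ℝ → ℕ → Finset (ι i) → (ι i → ℝ) → Prop} {E : Fin K → ℕ}
    (HS : ∀ i, SchT (E i) (Q i)) (o : ∀ i, ι i) {f : ℕ → ℂ} (hf : Pool.Agent.TH823.PS.Nice f) (A₁ J : ℕ) (hA₁ : 1 ≤ A₁)
    {ε : ℝ} (hε : 0 < ε) :
    ∃ δ : ℝ, 0 < δ ∧ ∀ N₁ : ℕ, Pool.Agent.TH823.PS.Most ε (fun N => N₁ ≤ N ∧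
      ∀ (A : ∀ i, Finset (ι i)) (φ : ∀ i, ι i → ℝ), (∀ i, Q i ((N : ℝ) ^ δ) N (A i) (φ i)) →
      ∀ α : Fin J → ℕ, (∀ l, 1 ≤ α l) → (∀ l, α l ≤ A₁) → ∀ ρ : Fin J → Fin K,
      ∀ Φ : Fin J → (Fin K → ℤ) → ℕ → ℂ, (∀ l s v, ‖Φ l s v‖ ≤ 1) →
        (∀ l s s' v, (∀ i, i ≠ ρ l → s i = s' i) → Φ l s v = Φ l s' v) →
      ∃ Ex : Finset (∀ i, ι i), (Ex.card : ℝ) ≤ (∏ i, ((A i).card : ℝ)) * (N : ℝ) ^ (-δ) ∧
        ∀ m : ∀ i, ι i, (∀ i, m i ∈ A i) → m ∉ Ex →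
        ∀ s : Fin K → ℤ, (∀ i, |(s i : ℝ) - φ i (m i)| ≤ (N : ℝ) ^ δ) →
          ∀ l, ∀ X : ℕ, X ≤ N →
          ‖∑ n ∈ Icc 1 X, Φ l s n * evI f ((α l : ℤ) * n + s (ρ l))‖ ≤ ε * N) := by
  obtain ⟨δ, hδ, H⟩ := SchT.most_two HS o hf A₁ J hA₁ hε
  refine ⟨δ, hδ, fun N₁ => most_imp (H N₁) fun N h2 => ⟨h2.1, ?_⟩⟩
  intro A φ hP α hα hαA ρ Φ hΦ hΦ2
  obtain ⟨Ex, e1, e2⟩ := h2.2 A φ hP α hα hαA ρ (fun l s v => if 1 ≤ v then Φ l s v.toNat else 0) (by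
    intro l s v
    split_ifs
    · exact hΦ _ _ _
    · simp) (by
    intro l s s' v h
    rw [hΦ2 l s s' v.toNat h])
  refine ⟨Ex, e1, fun m hm hmE s hs l X hX => ?_⟩
  have e3 := e2 m hm hmE s hs l X hX
  rw [pos_sum (fun n => Φ l s n * evI f ((α l : ℤ) * n + s (ρ l))) _ (fun n hn => by
    rw [if_pos (by omega), Int.toNat_natCast]) (fun v hv => by
    rw [if_neg (by omega), zero_mul])] at e3
  exact e3

end Pool.Agent.X31
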