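import Pool.Agent.X31.U4

set_option autoImplicit false

/-! # Patterns of signs -/

namespace Pool.Agent.X31

open Finset

lemma pattern_pt {r : ℕ} (g e : Fin r → ℤ) (hg : ∀ i, g i = 0 ∨ g i = 1 ∨ g i = -1) (he : ∀ i, e i = 1 ∨ e i = -1)
    [Decidable (∀ i, g i = e i)] [Decidable (∃ i, g i = 0)] :
    |(if ∀ i, g i = e i then (1 : ℝ) else 0) - ∏ i, (1 + (e i : ℝ) * g i) / 2| ≤ if ∃ i, g i = 0 then 1 else 0 := by
  have h0 : ∀ i, 0 ≤ (1 + (e i : ℝ) * g i) / 2 ∧ (1 + (e i : ℝ) * g i) / 2 ≤ 1 := by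
    intro i
    rcases hg i with h | h | h <;> rcases he i with h' | h' <;> rw [h, h'] <;> norm_num
  have h1 : 0 ≤ ∏ i, (1 + (e i : ℝ) * g i) / 2 := prod_nonneg fun i _ => (h0 i).1
  have h2 : ∏ i, (1 + (e i : ℝ) * g i) / 2 ≤ 1 := prod_le_one (fun i _ => (h0 i).1) fun i _ => (h0 i).2
  by_cases hz : ∃ i, g i = 0
  · rw [if_pos hz]
    rw [abs_le]
    split_ifs <;> constructor <;> linarith
  · rw [if_neg hz]
    push Not at hz
    by_cases ha : ∀ i, g i = e i
    · rw [if_pos ha]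
      have : ∏ i, (1 + (e i : ℝ) * g i) / 2 = 1 := by
        apply prod_eq_one
        intro i _
        rw [ha i]
        rcases he i with h' | h' <;> rw [h'] <;> norm_num
      rw [this, sub_self, abs_zero]
    · rw [if_neg ha]
      push Not at ha
      obtain ⟨i, hi⟩ := ha
      have : ∏ i, (1 + (e i : ℝ) * g i) / 2 = 0 := by
        apply prod_eq_zero (mem_univ i)
        rcases hg i with h | h | h
        · exact absurd h (hz i)
        · rcases he i with h' | h'
          · exact absurd (h.trans h'.symm) hi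
          · rw [h, h']; norm_num
        · rcases he i with h' | h'
          · rw [h, h']; norm_num
          · exact absurd (h.trans h'.symm) hi
      rw [this, sub_zero, abs_zero]

open Classical in
/-- from the correlations to the patterns -/
theorem pattern {r : ℕ} (S : Finset ℕ) (g : ℕ → Fin r → ℤ) (hg : ∀ t i, g t i = 0 ∨ g t i = 1 ∨ g t i = -1)
    (e : Fin r → ℤ) (he : ∀ i, e i = 1 ∨ e i = -1) (η z : ℝ) (hη : 0 ≤ η)
    (hI : ∀ I : Finset (Fin r), I.Nonempty → |∑ t ∈ S, ∏ i ∈ I, (g t i : ℝ)| ≤ η)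
    (hz : ((S.filter (fun t => ∃ i, g t i = 0)).card : ℝ) ≤ z) :
    |((S.filter (fun t => ∀ i, g t i = e i)).card : ℝ) - (S.card : ℝ) / 2 ^ r| ≤ η + z := by
  have h1 : ∑ t ∈ S, ∏ i, (1 + (e i : ℝ) * g t i) / 2 =
      (S.card : ℝ) / 2 ^ r + ∑ I ∈ (univ : Finset (Finset (Fin r))).erase ∅, (∏ i ∈ I, (e i : ℝ)) *
        (∑ t ∈ S, ∏ i ∈ I, (g t i : ℝ)) / 2 ^ r := by
    have e1 : ∀ t, ∏ i, (1 + (e i : ℝ) * g t i) / 2 =
        ∑ I ∈ (univ : Finset (Finset (Fin r))), (∏ i ∈ I, (e i : ℝ)) * (∏ i ∈ I, (g t i : ℝ)) / 2 ^ r := by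
      intro t
      rw [prod_div_distrib, prod_const, card_univ, Fintype.card_fin, prod_one_add, ← sum_div, powerset_univ]
      congr 1
      apply sum_congr rfl
      intro I _
      rw [prod_mul_distrib]
    calc ∑ t ∈ S, ∏ i, (1 + (e i : ℝ) * g t i) / 2 =
        ∑ t ∈ S, ∑ I ∈ (univ : Finset (Finset (Fin r))), (∏ i ∈ I, (e i : ℝ)) * (∏ i ∈ I, (g t i : ℝ)) / 2 ^ r :=
          sum_congr rfl fun t _ => e1 t
      _ = ∑ I ∈ (univ : Finset (Finset (Fin r))), (∏ i ∈ I, (e i : ℝ)) * (∑ t ∈ S, ∏ i ∈ I, (g t i : ℝ)) / 2 ^ r := by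
          rw [sum_comm]
          apply sum_congr rfl
          intro I _
          rw [mul_sum, sum_div]
      _ = _ := by
          rw [← add_sum_erase univ _ (mem_univ ∅)]
          congr 1
          simp
  have h2 : |∑ I ∈ (univ : Finset (Finset (Fin r))).erase ∅, (∏ i ∈ I, (e i : ℝ)) *
        (∑ t ∈ S, ∏ i ∈ I, (g t i : ℝ)) / 2 ^ r| ≤ η := by
    refine (abs_sum_le_sum_abs _ _).trans ?_
    calc ∑ I ∈ (univ : Finset (Finset (Fin r))).erase ∅, |(∏ i ∈ I, (e i : ℝ)) *
        (∑ t ∈ S, ∏ i ∈ I, (g t i : ℝ)) / 2 ^ r| ≤ ∑ _I ∈ (univ : Finset (Finset (Fin r))).erase ∅, η / 2 ^ r := by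
          apply sum_le_sum
          intro I hI'
          have h3 : |∏ i ∈ I, (e i : ℝ)| = 1 := by
            rw [abs_prod]
            apply prod_eq_one
            intro i _
            rcases he i with h | h <;> rw [h] <;> simp
          rw [abs_div, abs_mul, h3, one_mul, abs_of_pos (show (0 : ℝ) < 2 ^ r by positivity)]
          apply div_le_div_of_nonneg_right _ (by positivity)
          exact hI I (nonempty_iff_ne_empty.2 (mem_erase.1 hI').1)
      _ ≤ ∑ _I ∈ (univ : Finset (Finset (Fin r))), η / 2 ^ r :=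
          sum_le_sum_of_subset_of_nonneg (erase_subset _ _) fun _ _ _ => by positivity
      _ = η := by
          rw [sum_const, card_univ, Fintype.card_finset, Fintype.card_fin, nsmul_eq_mul]
          push_cast
          field_simp
  have h3 : |((S.filter (fun t => ∀ i, g t i = e i)).card : ℝ) - ∑ t ∈ S, ∏ i, (1 + (e i : ℝ) * g t i) / 2| ≤ z := by
    rw [card_filter]
    push_cast
    rw [← sum_sub_distrib]
    refine (abs_sum_le_sum_abs _ _).trans (le_trans ?_ hz)
    rw [card_filter]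
    push_cast
    apply sum_le_sum
    intro t _
    exact pattern_pt (g t) e (hg t) he
  rw [h1] at h3
  have h4 := abs_le.1 h2
  have h5 := abs_le.1 h3
  rw [abs_le]
  constructor <;> linarith [h4.1, h4.2, h5.1, h5.2]

/-- few zeros of linear forms -/
lemma zeros_le {r : ℕ} (S : Finset ℕ) (a : Fin r → ℕ) (ha : ∀ i, 1 ≤ a i) (s : Fin r → ℤ)
    [DecidablePred fun t : ℕ => ∃ i, (a i : ℤ) * t + s i = 0] :
    ((S.filter (fun t : ℕ => ∃ i, (a i : ℤ) * t + s i = 0)).card : ℝ) ≤ r := by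
  classical
  have h1 : S.filter (fun t : ℕ => ∃ i, (a i : ℤ) * t + s i = 0) ⊆
      (univ : Finset (Fin r)).biUnion (fun i => S.filter (fun t : ℕ => (a i : ℤ) * t + s i = 0)) := by
    intro t ht
    rw [mem_filter] at ht
    obtain ⟨i, hi⟩ := ht.2
    rw [mem_biUnion]
    exact ⟨i, mem_univ _, mem_filter.2 ⟨ht.1, hi⟩⟩
  have h2 : ∀ i : Fin r, (S.filter (fun t : ℕ => (a i : ℤ) * t + s i = 0)).card ≤ 1 := by
    intro i
    rw [card_le_one]
    intro t ht t' ht'
    rw [mem_filter] at ht ht'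
    have h3 : (a i : ℤ) * t = a i * t' := by linarith [ht.2, ht'.2]
    have h4 : ((a i : ℕ) : ℤ) ≠ 0 := by have := ha i; omega
    exact_mod_cast mul_left_cancel₀ h4 h3
  have h3 : (S.filter (fun t : ℕ => ∃ i, (a i : ℤ) * t + s i = 0)).card ≤ r := by
    refine (card_le_card h1).trans (card_biUnion_le.trans ?_)
    refine (sum_le_sum fun i _ => h2 i).trans ?_
    simp
  exact_mod_cast h3

end Pool.Agent.X31
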