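import Pool.Agent.X31.T2

set_option autoImplicit false

/-! # `t ^ κ log t` and generalised polynomials: derivatives -/

namespace Pool.Agent.X31

open Finset Filter Topology
open Pool.Agent.TH935.GF (En)
open Pool.Agent.TH915.PW (pw pw_der)

/-- a coefficient of the derivatives of `t ^ κ log t` -/
noncomputable def lgq (κ m : ℕ) : ℝ := ∏ j ∈ range m, ((κ : ℝ) - j)

/-- the other coefficient of the derivatives of `t ^ κ log t` -/
noncomputable def lgr (κ : ℕ) : ℕ → ℝ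
  | 0 => 0
  | m + 1 => lgq κ m + ((κ : ℝ) - m) * lgr κ m

/-- the derivatives of `t ^ κ log t` -/
noncomputable def lgd (κ m : ℕ) (t : ℝ) : ℝ :=
  lgq κ m * (t ^ ((κ : ℝ) - m) * Real.log t) + lgr κ m * t ^ ((κ : ℝ) - m)

lemma lgd_der (κ m : ℕ) (t : ℝ) (ht : 0 < t) : HasDerivAt (lgd κ m) (lgd κ (m + 1) t) t := by
  have h1 : HasDerivAt (fun x : ℝ => x ^ ((κ : ℝ) - m)) (((κ : ℝ) - m) * t ^ ((κ : ℝ) - m - 1)) t :=
    Real.hasDerivAt_rpow_const (Or.inl ht.ne')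
  have h2 := Real.hasDerivAt_log ht.ne'
  have h3 := ((h1.fun_mul h2).const_mul (lgq κ m)).fun_add (h1.const_mul (lgr κ m))
  refine h3.congr_deriv ?_
  have e1 : t ^ ((κ : ℝ) - m) * t⁻¹ = t ^ ((κ : ℝ) - m - 1) := by
    rw [Real.rpow_sub_one ht.ne']
    rfl
  have e2 : lgq κ (m + 1) = lgq κ m * ((κ : ℝ) - m) := by
    unfold lgq
    rw [prod_range_succ]
  have e3 : lgr κ (m + 1) = lgq κ m + ((κ : ℝ) - m) * lgr κ m := rfl
  have e4 : (κ : ℝ) - ((m + 1 : ℕ) : ℝ) = κ - m - 1 := by push_cast; ring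
  unfold lgd
  rw [e1, e2, e3, e4]
  ring

lemma lgq_zero (κ m : ℕ) (h : κ < m) : lgq κ m = 0 :=
  prod_eq_zero (mem_range.2 h) (sub_self _)

lemma lgr_ne (κ : ℕ) (m : ℕ) : lgr κ (κ + 1 + m) ≠ 0 := by
  induction m with
  | zero =>
    show lgq κ κ + ((κ : ℝ) - κ) * lgr κ κ ≠ 0
    rw [sub_self, zero_mul, add_zero]
    unfold lgq
    rw [prod_ne_zero_iff]
    intro j hj h
    rw [mem_range] at hj
    have : (κ : ℝ) = j := by linarith
    have : κ = j := by exact_mod_cast this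
    omega
  | succ m ih =>
    show lgq κ (κ + 1 + m) + ((κ : ℝ) - ((κ + 1 + m : ℕ) : ℝ)) * lgr κ (κ + 1 + m) ≠ 0
    rw [lgq_zero κ _ (by omega), zero_add]
    apply mul_ne_zero _ ih
    push_cast
    intro h
    have : (m : ℝ) = -1 := by linarith
    have h2 : (0 : ℝ) ≤ m := Nat.cast_nonneg m
    linarith

/-- `t ^ κ log t` plus a generalised polynomial with exponents at most `κ` -/
lemma Sd_lg (κ : ℕ) (hκ : 1 ≤ κ) (F : Finset ℝ) (a : ℝ → ℝ) (hmax : ∀ x ∈ F, x ≤ κ) :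
    ∃ (k : ℕ) (κ₁ κ₂ t₀ : ℝ), CT.Sd k κ κ₁ κ₂ t₀ (fun m t => lgd κ m t + ∑ x ∈ F, pw (a x) x m t) := by
  classical
  obtain ⟨k, hk⟩ : ∃ k : ℕ, k = 2 * κ + 2 := ⟨_, rfl⟩
  obtain ⟨q, hq⟩ : ∃ q : ℝ → ℕ → ℝ, q = fun x m => a x * ∏ j ∈ range m, (x - j) := ⟨_, rfl⟩
  have hpw : ∀ x m (t : ℝ), pw (a x) x m t = q x m * t ^ (x - m) := by
    intro x m t
    unfold pw
    rw [hq]
  have hr : lgr κ k ≠ 0 := by
    have := lgr_ne κ (κ + 1)
    rwa [show κ + 1 + (κ + 1) = k by omega] at this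
  have hlead : ∀ m, κ < m → ∀ t, lgd κ m t = lgr κ m * t ^ ((κ : ℝ) - m) := by
    intro m hm t
    unfold lgd
    rw [lgq_zero κ m hm, zero_mul, zero_add]
  obtain ⟨F', hF'⟩ : ∃ F' : Finset ℝ, F' = F.erase (κ : ℝ) := ⟨_, rfl⟩
  have hsum : ∀ m, κ < m → ∀ t, ∑ x ∈ F, pw (a x) x m t = ∑ x ∈ F', pw (a x) x m t := by
    intro m hm t
    rw [hF']
    by_cases h : (κ : ℝ) ∈ F
    · rw [← add_sum_erase F _ h, pw_nat (a (κ : ℝ)) κ m hm, zero_add]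
    · rw [erase_eq_of_notMem h]
  obtain ⟨B, hB⟩ : ∃ B : ℝ, B = (∑ x ∈ F', |q x k|) + (∑ x ∈ F', |q x (k + 1)|) + 1 := ⟨_, rfl⟩
  have hB1 : ∑ x ∈ F', |q x k| ≤ B := by
    have : 0 ≤ ∑ x ∈ F', |q x (k + 1)| := sum_nonneg fun _ _ => abs_nonneg _
    linarith
  have hB2 : ∑ x ∈ F', |q x (k + 1)| ≤ B := by
    have : 0 ≤ ∑ x ∈ F', |q x k| := sum_nonneg fun _ _ => abs_nonneg _
    linarith
  have hB0 : 0 < B := by
    have h1 : 0 ≤ ∑ x ∈ F', |q x k| := sum_nonneg fun _ _ => abs_nonneg _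
    have h2 : 0 ≤ ∑ x ∈ F', |q x (k + 1)| := sum_nonneg fun _ _ => abs_nonneg _
    linarith
  -- a gap below the largest exponent
  obtain ⟨δ, hδ0, hδ⟩ : ∃ δ : ℝ, 0 < δ ∧ ∀ x ∈ F', x ≤ κ - δ := by
    rcases F'.eq_empty_or_nonempty with he | he
    · refine ⟨1, one_pos, fun x hx => ?_⟩
      rw [he] at hx
      exact absurd hx (notMem_empty x)
    · have h1 := F'.max'_mem he
      have h2 : F'.max' he < κ := by
        have h3 : F'.max' he ∈ F.erase (κ : ℝ) := by rw [← hF']; exact h1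
        have h3 := mem_erase.1 h3
        exact lt_of_le_of_ne (hmax _ h3.2) h3.1
      refine ⟨κ - F'.max' he, by linarith, fun x hx => ?_⟩
      have := F'.le_max' x hx
      linarith
  -- a large number
  have hlim : ∃ t₀ : ℝ, 1 ≤ t₀ ∧ ∀ t, t₀ ≤ t → B * t ^ (-δ) ≤ |lgr κ k| / 2 := by
    have h1 : Tendsto (fun t : ℝ => B * t ^ (-δ)) atTop (𝓝 (B * 0)) :=
      (tendsto_rpow_neg_atTop hδ0).const_mul B
    rw [mul_zero] at h1
    have h2 : ∀ᶠ t : ℝ in atTop, B * t ^ (-δ) ≤ |lgr κ k| / 2 := by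
      have h3 : (0 : ℝ) < |lgr κ k| / 2 := by
        have := abs_pos.2 hr
        linarith
      filter_upwards [h1.eventually (gt_mem_nhds h3)] with t ht
      exact ht.le
    obtain ⟨t₀, ht₀⟩ := eventually_atTop.1 h2
    exact ⟨max t₀ 1, le_max_right _ _, fun t ht => ht₀ t ((le_max_left _ _).trans ht)⟩
  obtain ⟨t₀, ht₀, hlim⟩ := hlim
  have habs : ∀ m (t : ℝ), κ < m → 1 ≤ t →
      |∑ x ∈ F, pw (a x) x m t| ≤ (∑ x ∈ F', |q x m|) * (t ^ (-δ) * t ^ ((κ : ℝ) - m)) := by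
    intro m t hm ht
    have ht0 : 0 < t := by linarith
    rw [hsum m hm, sum_mul]
    refine (abs_sum_le_sum_abs _ _).trans (sum_le_sum fun x hx => ?_)
    rw [hpw, abs_mul, abs_of_nonneg (Real.rpow_nonneg (by linarith) _), ← Real.rpow_add ht0]
    apply mul_le_mul_of_nonneg_left _ (abs_nonneg _)
    apply Real.rpow_le_rpow_of_exponent_le ht
    have := hδ x hx
    linarith
  have hkc : 2 * (κ : ℝ) ≤ k := by
    rw [hk]
    push_cast
    linarith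
  refine ⟨k, |lgr κ k| / 2, |lgr κ k| + |lgr κ (k + 1)| + B, t₀, ?_, ?_, hkc, ?_, ?_, ht₀, ?_, ?_, ?_, ?_⟩
  · omega
  · exact_mod_cast hκ
  · have := abs_pos.2 hr
    linarith
  · positivity
  · intro j _ t ht
    have ht0 : 0 < t := by linarith
    exact (lgd_der κ j t ht0).fun_add (HasDerivAt.fun_sum (fun x _ => pw_der (a x) x j t ht0))
  · intro t ht
    have ht1 : 1 ≤ t := ht₀.trans ht
    have ht0 : 0 < t := by linarith
    have h4 : 0 ≤ t ^ ((κ : ℝ) - k) := Real.rpow_nonneg ht0.le _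
    have h2 := habs k t (by omega) ht1
    have h3 := hlim t ht
    have h5 : |lgd κ k t| = |lgr κ k| * t ^ ((κ : ℝ) - k) := by
      rw [hlead k (by omega), abs_mul, abs_of_nonneg h4]
    have h6 := abs_sub_abs_le_abs_sub (lgd κ k t) (-∑ x ∈ F, pw (a x) x k t)
    rw [sub_neg_eq_add, abs_neg, h5] at h6
    have h7 : |∑ x ∈ F, pw (a x) x k t| ≤ |lgr κ k| / 2 * t ^ ((κ : ℝ) - k) := by
      refine h2.trans ?_
      have h8 : 0 ≤ t ^ (-δ) := Real.rpow_nonneg ht0.le _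
      calc (∑ x ∈ F', |q x k|) * (t ^ (-δ) * t ^ ((κ : ℝ) - k)) ≤ B * (t ^ (-δ) * t ^ ((κ : ℝ) - k)) :=
            mul_le_mul_of_nonneg_right hB1 (by positivity)
        _ = (B * t ^ (-δ)) * t ^ ((κ : ℝ) - k) := by ring
        _ ≤ _ := mul_le_mul_of_nonneg_right h3 h4
    linarith
  · intro t ht
    have ht1 : 1 ≤ t := ht₀.trans ht
    have ht0 : 0 < t := by linarith
    have h4 : 0 ≤ t ^ ((κ : ℝ) - k) := Real.rpow_nonneg ht0.le _
    have h2 := habs k t (by omega) ht1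
    have h8 : t ^ (-δ) ≤ 1 := Real.rpow_le_one_of_one_le_of_nonpos ht1 (by linarith)
    have h9 : 0 ≤ t ^ (-δ) := Real.rpow_nonneg ht0.le _
    have h5 : |lgd κ k t| = |lgr κ k| * t ^ ((κ : ℝ) - k) := by
      rw [hlead k (by omega), abs_mul, abs_of_nonneg h4]
    have h7 : |∑ x ∈ F, pw (a x) x k t| ≤ B * t ^ ((κ : ℝ) - k) := by
      refine h2.trans ?_
      calc (∑ x ∈ F', |q x k|) * (t ^ (-δ) * t ^ ((κ : ℝ) - k)) ≤ B * (1 * t ^ ((κ : ℝ) - k)) := by gcongr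
        _ = _ := by ring
    have h10 := abs_add_le (lgd κ k t) (∑ x ∈ F, pw (a x) x k t)
    have h11 : 0 ≤ |lgr κ (k + 1)| * t ^ ((κ : ℝ) - k) := by positivity
    rw [h5] at h10
    linarith
  · intro t ht
    have ht1 : 1 ≤ t := ht₀.trans ht
    have ht0 : 0 < t := by linarith
    have e : (κ : ℝ) - ((k + 1 : ℕ) : ℝ) = κ - k - 1 := by push_cast; ring
    have h4 : 0 ≤ t ^ ((κ : ℝ) - ((k + 1 : ℕ) : ℝ)) := Real.rpow_nonneg ht0.le _
    have h2 := habs (k + 1) t (by omega) ht1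
    have h8 : t ^ (-δ) ≤ 1 := Real.rpow_le_one_of_one_le_of_nonpos ht1 (by linarith)
    have h9 : 0 ≤ t ^ (-δ) := Real.rpow_nonneg ht0.le _
    have h5 : |lgd κ (k + 1) t| = |lgr κ (k + 1)| * t ^ ((κ : ℝ) - ((k + 1 : ℕ) : ℝ)) := by
      rw [hlead (k + 1) (by omega), abs_mul, abs_of_nonneg h4]
    have h7 : |∑ x ∈ F, pw (a x) x (k + 1) t| ≤ B * t ^ ((κ : ℝ) - ((k + 1 : ℕ) : ℝ)) := by
      refine h2.trans ?_
      calc (∑ x ∈ F', |q x (k + 1)|) * (t ^ (-δ) * t ^ ((κ : ℝ) - ((k + 1 : ℕ) : ℝ))) ≤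
            B * (1 * t ^ ((κ : ℝ) - ((k + 1 : ℕ) : ℝ))) := by gcongr
        _ = _ := by ring
    have h10 := abs_add_le (lgd κ (k + 1) t) (∑ x ∈ F, pw (a x) x (k + 1) t)
    have h11 : 0 ≤ |lgr κ k| * t ^ ((κ : ℝ) - ((k + 1 : ℕ) : ℝ)) := by positivity
    rw [h5] at h10
    rw [← e]
    linarith

/-- `n ^ κ log n` plus a generalised polynomial -/
noncomputable def lgp (κ : ℕ) (F : Finset ℝ) (a : ℝ → ℝ) (n : ℕ) : ℝ :=
  (n : ℝ) ^ κ * Real.log n + ∑ x ∈ F, a x * (n : ℝ) ^ x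

lemma lgp_eq (κ : ℕ) (F : Finset ℝ) (a : ℝ → ℝ) (n : ℕ) :
    lgp κ F a n = lgd κ 0 (n : ℝ) + ∑ x ∈ F, pw (a x) x 0 (n : ℝ) := by
  rw [genpoly_zero]
  unfold lgp lgd lgq lgr
  simp

end Pool.Agent.X31
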