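import Mathlib

set_option autoImplicit false

/-! # The number of the squarefree integers in an interval

`mob_hasSum`, `sq_tail`, `mob_tail` are from the starting file `Pool.Agent.TH266.N4_S2S3`, `moebius_id` is from the
starting file `Pool.Agent.H38R2.CG.LM2`. -/

namespace Pool.Agent.X31.SQ

open Finset

lemma mob_hasSum : HasSum (fun n : ℕ => ((ArithmeticFunction.moebius n : ℤ) : ℝ) / (n:ℝ) ^ 2) (6 / Real.pi ^ 2) := by
  have h2 : (1:ℝ) < (2:ℂ).re := by norm_num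
  have h1 := ArithmeticFunction.LSeries_zeta_mul_Lseries_moebius h2
  rw [ArithmeticFunction.LSeries_zeta_eq_riemannZeta h2, riemannZeta_two] at h1
  have hs := (ArithmeticFunction.LSeriesSummable_moebius_iff (s := 2)).2 h2
  have hs2 : HasSum (LSeries.term (fun n => ((ArithmeticFunction.moebius n : ℤ) : ℂ)) 2) (LSeries (fun n => ((ArithmeticFunction.moebius n : ℤ) : ℂ)) 2) := hs.hasSum
  have hv : LSeries (fun n => ((ArithmeticFunction.moebius n : ℤ) : ℂ)) 2 = ((6 / Real.pi ^ 2 : ℝ) : ℂ) := by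
    have hpi : (Real.pi : ℂ) ≠ 0 := by exact_mod_cast Real.pi_ne_zero
    have : ((Real.pi:ℂ) ^ 2 / 6) ≠ 0 := by
      apply div_ne_zero (pow_ne_zero _ hpi) (by norm_num)
    have h3 : LSeries (fun n => ((ArithmeticFunction.moebius n : ℤ) : ℂ)) 2 = ((Real.pi:ℂ) ^ 2 / 6)⁻¹ := by
      apply eq_inv_of_mul_eq_one_right
      exact h1
    rw [h3]; push_cast; rw [inv_div]
  rw [hv] at hs2
  have h4 : (LSeries.term (fun n => ((ArithmeticFunction.moebius n : ℤ) : ℂ)) 2) =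
      fun n : ℕ => ((((ArithmeticFunction.moebius n : ℤ) : ℝ) / (n:ℝ) ^ 2 : ℝ) : ℂ) := by
    funext n
    rw [LSeries.term_def]
    split_ifs with h
    · simp [h]
    · push_cast
      congr 1
      norm_cast
  rw [h4] at hs2
  exact Complex.hasSum_ofReal.1 hs2

lemma sq_tail (N M : ℕ) (hN : 1 ≤ N) (hNM : N ≤ M) : ∑ n ∈ Ioc N M, (1:ℝ) / (n:ℝ)^2 ≤ 1 / N - 1 / M := by
  induction M, hNM using Nat.le_induction with
  | base => simp
  | succ M hM ih =>
    rw [Finset.sum_Ioc_succ_top (by omega)]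
    have hM0 : (0:ℝ) < M := by exact_mod_cast (by omega : 0 < M)
    have : (1:ℝ) / ((M+1:ℕ):ℝ)^2 ≤ 1 / M - 1 / ((M+1:ℕ):ℝ) := by
      push_cast
      rw [div_sub_div _ _ hM0.ne' (by positivity), div_le_div_iff₀ (by positivity) (by positivity)]
      nlinarith
    linarith

lemma mob_tail (N : ℕ) (hN : 1 ≤ N) :
    |(∑ e ∈ Icc 1 N, ((ArithmeticFunction.moebius e : ℤ) : ℝ) / (e:ℝ) ^ 2) - 6 / Real.pi ^ 2| ≤ (1:ℝ) / N := by
  have h1 := mob_hasSum.tendsto_sum_nat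
  have h2 : Filter.Tendsto (fun M : ℕ => |(∑ e ∈ Icc 1 N, ((ArithmeticFunction.moebius e : ℤ) : ℝ) / (e:ℝ) ^ 2) -
      ∑ i ∈ range M, ((ArithmeticFunction.moebius i : ℤ) : ℝ) / (i:ℝ) ^ 2|) Filter.atTop
      (nhds |(∑ e ∈ Icc 1 N, ((ArithmeticFunction.moebius e : ℤ) : ℝ) / (e:ℝ) ^ 2) - 6 / Real.pi ^ 2|) :=
    (tendsto_const_nhds.sub h1).abs
  apply le_of_tendsto h2
  filter_upwards [Filter.eventually_ge_atTop (N+1)] with M hM
  obtain ⟨K, rfl⟩ : ∃ K, M = K + 1 := ⟨M - 1, by omega⟩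
  have h3 : ∑ i ∈ range (K+1), ((ArithmeticFunction.moebius i : ℤ) : ℝ) / (i:ℝ) ^ 2
      = (∑ e ∈ Icc 1 N, ((ArithmeticFunction.moebius e : ℤ) : ℝ) / (e:ℝ) ^ 2) +
        ∑ e ∈ Ioc N K, ((ArithmeticFunction.moebius e : ℤ) : ℝ) / (e:ℝ) ^ 2 := by
    have hd : range (K+1) = insert 0 (Icc 1 N ∪ Ioc N K) := by
      ext x; simp only [mem_range, mem_insert, mem_union, mem_Icc, mem_Ioc]; omega
    rw [hd, Finset.sum_insert (by simp), Finset.sum_union]
    · simp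
    · rw [Finset.disjoint_left]; intro x hx hy; simp only [mem_Icc, mem_Ioc] at hx hy; omega
  rw [h3]
  have h4 : ∀ a b : ℝ, |a - (a + b)| = |b| := by intro a b; rw [← abs_neg b]; congr 1; ring
  rw [h4]
  refine (Finset.abs_sum_le_sum_abs _ _).trans ?_
  calc ∑ e ∈ Ioc N K, |((ArithmeticFunction.moebius e : ℤ) : ℝ) / (e:ℝ) ^ 2|
      ≤ ∑ e ∈ Ioc N K, (1:ℝ) / (e:ℝ)^2 := by
        apply Finset.sum_le_sum; intro e _
        rw [abs_div, abs_of_nonneg (by positivity : (0:ℝ) ≤ (e:ℝ)^2)]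
        apply div_le_div_of_nonneg_right _ (by positivity)
        exact_mod_cast ArithmeticFunction.abs_moebius_le_one
    _ ≤ 1 / N - 1 / K := sq_tail N K hN (by omega)
    _ ≤ 1 / N := by have : (0:ℝ) ≤ 1 / K := by positivity
                    linarith

open Classical in
lemma moebius_id (Q D N : ℕ) (hD : D ≠ 0) (hN : ∀ e, e ^ 2 ∣ D → e ≤ N) :
    ∑ e ∈ (Icc 1 N).filter (fun e => e.Coprime Q ∧ e ^ 2 ∣ D), ArithmeticFunction.moebius e =
      if (∀ l : ℕ, l.Prime → ¬ l ∣ Q → ¬ l ^ 2 ∣ D) then 1 else 0 := by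
  obtain ⟨T, hT⟩ : ∃ T, T = D.primeFactors.filter (fun p => ¬ p ∣ Q ∧ p ^ 2 ∣ D) := ⟨_, rfl⟩
  have hTp : ∀ p ∈ T, p.Prime ∧ ¬ p ∣ Q ∧ p ^ 2 ∣ D := by
    intro p hp
    rw [hT, mem_filter] at hp
    exact ⟨Nat.prime_of_mem_primeFactors hp.1, hp.2⟩
  have hTm : ∀ p : ℕ, p.Prime → ¬ p ∣ Q → p ^ 2 ∣ D → p ∈ T := by
    intro p hp h1 h2
    rw [hT, mem_filter, Nat.mem_primeFactors]
    exact ⟨⟨hp, dvd_trans (dvd_pow_self p (by norm_num)) h2, hD⟩, h1, h2⟩
  obtain ⟨R, hR⟩ : ∃ R, R = ∏ p ∈ T, p := ⟨_, rfl⟩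
  have hR0 : R ≠ 0 := by
    rw [hR]
    exact Finset.prod_ne_zero_iff.2 (fun p hp => (hTp p hp).1.ne_zero)
  have hRQ : Nat.Coprime R Q := by
    rw [hR]
    apply Nat.Coprime.prod_left
    intro p hp
    exact (Nat.Prime.coprime_iff_not_dvd (hTp p hp).1).2 (hTp p hp).2.1
  have hRD : R ^ 2 ∣ D := by
    rw [hR, ← Finset.prod_pow]
    apply Finset.prod_dvd_of_isRelPrime
    · intro p hp q hq hpq
      have h1 : Nat.Coprime (p ^ 2) (q ^ 2) :=
        Nat.Coprime.pow 2 2 ((Nat.coprime_primes (hTp p hp).1 (hTp q hq).1).2 hpq)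
      exact Nat.coprime_iff_isRelPrime.1 h1
    · intro p hp
      exact (hTp p hp).2.2
  have hsub : R.divisors ⊆ (Icc 1 N).filter (fun e => e.Coprime Q ∧ e ^ 2 ∣ D) := by
    intro e he
    rw [Nat.mem_divisors] at he
    have h1 : e ^ 2 ∣ D := dvd_trans (pow_dvd_pow_of_dvd he.1 2) hRD
    rw [mem_filter, mem_Icc]
    refine ⟨⟨Nat.pos_of_dvd_of_pos he.1 (Nat.pos_of_ne_zero hR0), hN e h1⟩, ?_, h1⟩
    exact Nat.Coprime.coprime_dvd_left he.1 hRQ
  rw [← Finset.sum_subset hsub]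
  · have h1 : ∑ e ∈ R.divisors, ArithmeticFunction.moebius e =
        if R = 1 then (1 : ℤ) else 0 := by
      rw [← ArithmeticFunction.coe_mul_zeta_apply, ArithmeticFunction.moebius_mul_coe_zeta,
        ArithmeticFunction.one_apply]
    rw [h1]
    by_cases h2 : ∀ l : ℕ, l.Prime → ¬ l ∣ Q → ¬ l ^ 2 ∣ D
    · rw [if_pos h2, if_pos]
      have : T = ∅ := by
        apply Finset.eq_empty_of_forall_notMem
        intro p hp
        exact h2 p (hTp p hp).1 (hTp p hp).2.1 (hTp p hp).2.2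
      rw [hR, this, Finset.prod_empty]
    · rw [if_neg h2, if_neg]
      push Not at h2
      obtain ⟨l, hl, hlQ, hlD⟩ := h2
      intro hR1
      have h3 : l ∣ R := by
        rw [hR]
        exact Finset.dvd_prod_of_mem (fun p => p) (hTm l hl hlQ hlD)
      rw [hR1, Nat.dvd_one] at h3
      exact hl.ne_one h3
  · intro e he hnR
    rw [mem_filter, mem_Icc] at he
    apply ArithmeticFunction.moebius_eq_zero_of_not_squarefree
    intro hsf
    apply hnR
    rw [Nat.mem_divisors]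
    refine ⟨?_, hR0⟩
    rw [← Nat.prod_primeFactors_of_squarefree hsf, hR]
    apply Finset.prod_dvd_prod_of_subset
    intro p hp
    have hp1 := Nat.prime_of_mem_primeFactors hp
    have hp2 := Nat.dvd_of_mem_primeFactors hp
    apply hTm p hp1
    · intro h
      have := Nat.Coprime.eq_one_of_dvd (Nat.Coprime.coprime_dvd_left hp2 he.2.1) h
      exact hp1.ne_one this
    · exact dvd_trans (pow_dvd_pow_of_dvd hp2 2) he.2.2

/-- the number of the squarefree `n ≤ y` -/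
noncomputable def Sq (y : ℕ) : ℝ := ∑ n ∈ Icc 1 y, (ArithmeticFunction.moebius n : ℝ) ^ 2

open Classical in
lemma mu_sq (n : ℕ) (hn : n ≠ 0) (R : ℕ) (hR : ∀ e, e ^ 2 ∣ n → e ≤ R) :
    (ArithmeticFunction.moebius n : ℝ) ^ 2 =
      ∑ e ∈ Icc 1 R, if e ^ 2 ∣ n then (ArithmeticFunction.moebius e : ℝ) else 0 := by
  have h1 := moebius_id 1 n R hn hR
  have h2 : (ArithmeticFunction.moebius n : ℤ) ^ 2 =
      if (∀ l : ℕ, l.Prime → ¬ l ∣ 1 → ¬ l ^ 2 ∣ n) then 1 else 0 := by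
    have h3 : (∀ l : ℕ, l.Prime → ¬ l ∣ 1 → ¬ l ^ 2 ∣ n) ↔ Squarefree n := by
      rw [Nat.squarefree_iff_prime_squarefree]
      constructor
      · intro h l hl hd
        exact h l hl (by rw [Nat.dvd_one]; exact hl.ne_one) (by rw [sq]; exact hd)
      · intro h l hl _ hd
        exact h l hl (by rw [← sq]; exact hd)
    by_cases h : Squarefree n
    · rw [if_pos (h3.2 h), ArithmeticFunction.moebius_apply_of_squarefree h, ← pow_mul, mul_comm, pow_mul]
      norm_num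
    · rw [if_neg (fun h' => h (h3.1 h')), ArithmeticFunction.moebius_eq_zero_of_not_squarefree h]
      norm_num
  rw [← h2] at h1
  rw [← sum_filter]
  have h4 : (Icc 1 R).filter (fun e => e.Coprime 1 ∧ e ^ 2 ∣ n) = (Icc 1 R).filter (fun e => e ^ 2 ∣ n) := by
    apply filter_congr
    intro e _
    simp
  rw [h4] at h1
  exact_mod_cast h1.symm

lemma count_mul (e y : ℕ) (he : 1 ≤ e) : ((Icc 1 y).filter (fun n => e ^ 2 ∣ n)).card = y / e ^ 2 := by
  have h2 : (Icc 1 y).filter (fun n => e ^ 2 ∣ n) = (Ioc 0 y).filter (fun n => e ^ 2 ∣ n) := by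
    ext n
    simp only [mem_Icc, mem_Ioc, mem_filter]
    constructor
    · rintro ⟨h, h'⟩
      exact ⟨by omega, h'⟩
    · rintro ⟨h, h'⟩
      exact ⟨by omega, h'⟩
  rw [h2]
  exact Nat.Ioc_filter_dvd_card_eq_div y (e ^ 2)

theorem sq_count (y : ℕ) : |Sq y - 6 / Real.pi ^ 2 * y| ≤ 2 * Real.sqrt y + 2 := by
  obtain ⟨R, hR⟩ : ∃ R, R = Nat.sqrt y + 1 := ⟨_, rfl⟩
  have hR1 : 1 ≤ R := by omega
  have hle : ∀ n ∈ Icc 1 y, ∀ e, e ^ 2 ∣ n → e ≤ R := by
    intro n hn e he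
    have h1 := mem_Icc.1 hn
    have h2 : e ^ 2 ≤ y := (Nat.le_of_dvd (by omega) he).trans h1.2
    have h3 : e ≤ Nat.sqrt y := by
      rw [Nat.le_sqrt, ← sq]
      exact h2
    omega
  have h1 : Sq y = ∑ e ∈ Icc 1 R, (ArithmeticFunction.moebius e : ℝ) * ((y / e ^ 2 : ℕ) : ℝ) := by
    unfold Sq
    rw [sum_congr rfl fun n hn => mu_sq n (by have := mem_Icc.1 hn; omega) R (hle n hn), sum_comm]
    apply sum_congr rfl
    intro e he
    rw [← sum_filter, sum_const, count_mul e y (mem_Icc.1 he).1, nsmul_eq_mul]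
    ring
  have h2 : |Sq y - y * ∑ e ∈ Icc 1 R, (ArithmeticFunction.moebius e : ℝ) / (e : ℝ) ^ 2| ≤ R := by
    rw [h1, mul_sum, ← sum_sub_distrib]
    refine (abs_sum_le_sum_abs _ _).trans ?_
    have h3 : ∀ e ∈ Icc 1 R, |(ArithmeticFunction.moebius e : ℝ) * ((y / e ^ 2 : ℕ) : ℝ) -
        y * ((ArithmeticFunction.moebius e : ℝ) / (e : ℝ) ^ 2)| ≤ 1 := by
      intro e he
      have he1 := (mem_Icc.1 he).1
      have he0 : (0 : ℝ) < (e : ℝ) ^ 2 := by
        have : (0 : ℝ) < e := by exact_mod_cast he1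
        positivity
      have e1 : (ArithmeticFunction.moebius e : ℝ) * ((y / e ^ 2 : ℕ) : ℝ) -
        y * ((ArithmeticFunction.moebius e : ℝ) / (e : ℝ) ^ 2) =
        (ArithmeticFunction.moebius e : ℝ) * (((y / e ^ 2 : ℕ) : ℝ) - y / (e : ℝ) ^ 2) := by ring
      rw [e1, abs_mul]
      have e2 : |(ArithmeticFunction.moebius e : ℝ)| ≤ 1 := by exact_mod_cast ArithmeticFunction.abs_moebius_le_one
      refine mul_le_one₀ e2 (abs_nonneg _) ?_
      have e3 : ((y / e ^ 2 : ℕ) : ℝ) ≤ (y : ℝ) / ((e ^ 2 : ℕ) : ℝ) := Nat.cast_div_le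
      have e4 : (y : ℝ) / ((e ^ 2 : ℕ) : ℝ) < ((y / e ^ 2 : ℕ) : ℝ) + 1 := by
        rw [div_lt_iff₀ (by push_cast; exact he0)]
        have h7 := Nat.lt_mul_div_succ y (show 0 < e ^ 2 by positivity)
        rw [mul_comm] at h7
        exact_mod_cast h7
      push_cast at e3 e4 ⊢
      rw [abs_le]
      constructor <;> linarith
    refine (sum_le_sum h3).trans ?_
    rw [sum_const, Nat.card_Icc, Nat.add_sub_cancel, nsmul_eq_mul, mul_one]
  have h3 := mob_tail R hR1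
  have h4 : |(y : ℝ) * (∑ e ∈ Icc 1 R, (ArithmeticFunction.moebius e : ℝ) / (e : ℝ) ^ 2) - 6 / Real.pi ^ 2 * y| ≤ Real.sqrt y := by
    have e1 : (y : ℝ) * (∑ e ∈ Icc 1 R, (ArithmeticFunction.moebius e : ℝ) / (e : ℝ) ^ 2) - 6 / Real.pi ^ 2 * y =
      y * ((∑ e ∈ Icc 1 R, (ArithmeticFunction.moebius e : ℝ) / (e : ℝ) ^ 2) - 6 / Real.pi ^ 2) := by ring
    rw [e1, abs_mul, Nat.abs_cast]
    refine (mul_le_mul_of_nonneg_left h3 (Nat.cast_nonneg _)).trans ?_
    have hRs : Real.sqrt y ≤ R := by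
      rw [hR]
      push_cast
      exact Real.real_sqrt_le_nat_sqrt_succ
    have hR0 : (0 : ℝ) < R := by exact_mod_cast hR1
    rw [mul_one_div, div_le_iff₀ hR0]
    calc (y : ℝ) = Real.sqrt y * Real.sqrt y := (Real.mul_self_sqrt (Nat.cast_nonneg _)).symm
      _ ≤ Real.sqrt y * R := mul_le_mul_of_nonneg_left hRs (Real.sqrt_nonneg _)
  have h5 : (R : ℝ) ≤ Real.sqrt y + 1 := by
    rw [hR]
    push_cast
    have := Real.nat_sqrt_le_real_sqrt (a := y)
    linarith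
  have h6 := abs_sub_le (Sq y) (y * ∑ e ∈ Icc 1 R, (ArithmeticFunction.moebius e : ℝ) / (e : ℝ) ^ 2) (6 / Real.pi ^ 2 * y)
  linarith

/-- the number of the squarefree integers in `(s, s + x]` -/
theorem sq_interval (s x : ℕ) :
    |(∑ t ∈ Icc 1 x, (ArithmeticFunction.moebius (t + s) : ℝ) ^ 2) - 6 / Real.pi ^ 2 * x| ≤
      4 * Real.sqrt ((s : ℝ) + x) + 4 := by
  have h1 : Sq (s + x) = Sq s + ∑ t ∈ Icc 1 x, (ArithmeticFunction.moebius (t + s) : ℝ) ^ 2 := by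
    unfold Sq
    have e1 : ∑ t ∈ Icc 1 x, (ArithmeticFunction.moebius (t + s) : ℝ) ^ 2 =
        ∑ n ∈ Ioc s (s + x), (ArithmeticFunction.moebius n : ℝ) ^ 2 := by
      apply sum_bij (fun t _ => t + s)
      · intro t ht
        have := mem_Icc.1 ht
        rw [mem_Ioc]
        omega
      · intro a _ b _ hab
        omega
      · intro n hn
        have := mem_Ioc.1 hn
        exact ⟨n - s, by rw [mem_Icc]; omega, by omega⟩
      · intro t _
        rfl
    rw [e1, ← sum_union]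
    · apply sum_congr _ fun _ _ => rfl
      ext n
      simp only [mem_union, mem_Icc, mem_Ioc]
      omega
    · rw [disjoint_left]
      intro n h1 h2
      rw [mem_Icc] at h1
      rw [mem_Ioc] at h2
      omega
  have h2 := abs_le.1 (sq_count (s + x))
  have h3 := abs_le.1 (sq_count s)
  have h4 : Real.sqrt (s : ℝ) ≤ Real.sqrt ((s : ℝ) + x) :=
    Real.sqrt_le_sqrt (by linarith [(Nat.cast_nonneg x : (0 : ℝ) ≤ x)])
  rw [h1] at h2
  push_cast at h2
  have e : 6 / Real.pi ^ 2 * ((s : ℝ) + x) = 6 / Real.pi ^ 2 * s + 6 / Real.pi ^ 2 * x := by ring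
  rw [e] at h2
  rw [abs_le]
  constructor <;> linarith [h2.1, h2.2, h3.1, h3.2]

end Pool.Agent.X31.SQ
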