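import Pool.Agent.X31.S5

set_option autoImplicit false

/-! # Windows of a growing number of shifts: correlations of the Möbius function -/

namespace Pool.Agent.X31

open Finset Filter
open Pool.Agent.H373R2.T7 (exI SupSmall muC sup_muC)

/-- the number of the vectors in a product of sets with a given projection in an exceptional set -/
lemma lift_count {ι : Type} [DecidableEq ι] (o : ι) {k r : ℕ} (J : Fin r ↪ Fin k) (M : Fin k → Finset ι)
    (E : Finset (Fin r → ι)) (G : ℝ) (hG : 0 ≤ G) (hE : (E.card : ℝ) ≤ (∏ i, ((M (J i)).card : ℝ)) * G) :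
    (((Fintype.piFinset M).filter (fun n => (fun i => n (J i)) ∈ E)).card : ℝ) ≤ (∏ i, ((M i).card : ℝ)) * G := by
  classical
  obtain ⟨R, hR⟩ : ∃ R : Finset (Fin k), R = univ.map J := ⟨_, rfl⟩
  have h1 : ((Fintype.piFinset M).filter (fun n => (fun i => n (J i)) ∈ E)).card ≤
      (E ×ˢ Fintype.piFinset (fun i => if i ∈ R then ({o} : Finset ι) else M i)).card := by
    apply card_le_card_of_injOn (fun n => ((fun i => n (J i)), fun i => if i ∈ R then o else n i))
    · intro n hn
      have hn' := mem_filter.1 (mem_coe.1 hn)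
      rw [mem_coe, mem_product]
      refine ⟨hn'.2, ?_⟩
      rw [Fintype.mem_piFinset]
      intro i
      by_cases hi : i ∈ R
      · simp only [if_pos hi, mem_singleton]
      · simp only [if_neg hi]
        exact Fintype.mem_piFinset.1 hn'.1 i
    · intro n hn n' hn' hnn
      simp only [Prod.mk.injEq] at hnn
      funext i
      by_cases hi : i ∈ R
      · rw [hR, Finset.mem_map] at hi
        obtain ⟨a, _, rfl⟩ := hi
        exact congrFun hnn.1 a
      · have := congrFun hnn.2 i
        simp only [if_neg hi] at this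
        exact this
  have h2 : ((E ×ˢ Fintype.piFinset (fun i => if i ∈ R then ({o} : Finset ι) else M i)).card : ℝ) =
      E.card * ∏ i ∈ univ.filter (fun i => i ∉ R), ((M i).card : ℝ) := by
    rw [card_product, Fintype.card_piFinset]
    push_cast
    congr 1
    rw [← prod_filter_mul_prod_filter_not univ (fun i => i ∈ R)]
    have e1 : ∏ i ∈ univ.filter (fun i => i ∈ R), (((if i ∈ R then ({o} : Finset ι) else M i).card : ℕ) : ℝ) = 1 := by
      apply prod_eq_one
      intro i hi
      rw [if_pos (mem_filter.1 hi).2, card_singleton, Nat.cast_one]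
    rw [e1, one_mul]
    apply prod_congr rfl
    intro i hi
    rw [if_neg (mem_filter.1 hi).2]
  have h3 : (∏ i, ((M i).card : ℝ)) = (∏ i, ((M (J i)).card : ℝ)) * ∏ i ∈ univ.filter (fun i => i ∉ R), ((M i).card : ℝ) := by
    rw [← prod_filter_mul_prod_filter_not univ (fun i => i ∈ R)]
    congr 1
    have e2 : univ.filter (fun i => i ∈ R) = univ.map J := by
      rw [← hR]
      ext i
      simp
    rw [e2, prod_map]
  calc (((Fintype.piFinset M).filter (fun n => (fun i => n (J i)) ∈ E)).card : ℝ) ≤
      ((E ×ˢ Fintype.piFinset (fun i => if i ∈ R then ({o} : Finset ι) else M i)).card : ℝ) := by exact_mod_cast h1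
    _ = E.card * ∏ i ∈ univ.filter (fun i => i ∉ R), ((M i).card : ℝ) := h2
    _ ≤ ((∏ i, ((M (J i)).card : ℝ)) * G) * ∏ i ∈ univ.filter (fun i => i ∉ R), ((M i).card : ℝ) :=
        mul_le_mul_of_nonneg_right hE (prod_nonneg fun _ _ => Nat.cast_nonneg _)
    _ = _ := by rw [h3]; ring

/-- the number of the sets with at most `r` elements -/
lemma small_sets (k r : ℕ) : (((univ : Finset (Finset (Fin k))).filter (fun R => R.card ≤ r)).card : ℝ) ≤
    (r + 1) * ((k : ℝ) + 1) ^ r := by
  classical
  have h1 : (univ : Finset (Finset (Fin k))).filter (fun R => R.card ≤ r) ⊆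
      (range (r + 1)).biUnion (fun j => powersetCard j univ) := by
    intro R hR
    rw [mem_biUnion]
    refine ⟨R.card, ?_, ?_⟩
    · rw [mem_range]
      have := (mem_filter.1 hR).2
      omega
    · rw [mem_powersetCard]
      exact ⟨subset_univ _, rfl⟩
  have h2 : (((univ : Finset (Finset (Fin k))).filter (fun R => R.card ≤ r)).card : ℝ) ≤
      ∑ j ∈ range (r + 1), (((powersetCard j (univ : Finset (Fin k))).card : ℕ) : ℝ) := by
    exact_mod_cast (card_le_card h1).trans card_biUnion_le
  refine h2.trans ?_
  calc ∑ j ∈ range (r + 1), (((powersetCard j (univ : Finset (Fin k))).card : ℕ) : ℝ) ≤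
      ∑ _j ∈ range (r + 1), ((k : ℝ) + 1) ^ r := by
        apply sum_le_sum
        intro j hj
        rw [card_powersetCard, card_univ, Fintype.card_fin]
        calc ((k.choose j : ℕ) : ℝ) ≤ ((k ^ j : ℕ) : ℝ) := by exact_mod_cast Nat.choose_le_pow k j
          _ = (k : ℝ) ^ j := by push_cast; rfl
          _ ≤ ((k : ℝ) + 1) ^ j := pow_le_pow_left₀ (Nat.cast_nonneg _) (by linarith) _
          _ ≤ ((k : ℝ) + 1) ^ r := pow_le_pow_right₀ (by linarith [(Nat.cast_nonneg k : (0 : ℝ) ≤ k)])
              (by have := mem_range.1 hj; omega)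
    _ = _ := by rw [sum_const, card_range, nsmul_eq_mul]; push_cast; ring

end Pool.Agent.X31
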