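import Pool.Agent.X31.W1

set_option autoImplicit false

/-! # Windows of a growing number of shifts: correlations of the Möbius function -/

namespace Pool.Agent.X31

open Finset
open Pool.Agent.H373R2.T7 (exI SupSmall muC sup_muC)

/-- The Möbius function on the integers, `0` at the integers `m ≤ 0`. -/
noncomputable def muZ (m : ℤ) : ℝ := if 1 ≤ m then (ArithmeticFunction.moebius m.toNat : ℝ) else 0

lemma muZ_abs (m : ℤ) : |muZ m| ≤ 1 := by
  unfold muZ
  split_ifs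
  · exact_mod_cast ArithmeticFunction.abs_moebius_le_one
  · simp

lemma muZ_cube (m : ℤ) : muZ m * muZ m ^ 2 = muZ m := by
  unfold muZ
  split_ifs
  · rcases ArithmeticFunction.moebius_eq_or m.toNat with h | h | h <;> rw [h] <;> norm_num
  · simp

lemma muZ_eq (m : ℤ) : exI muC m = ((muZ m : ℝ) : ℂ) := by
  unfold muZ exI muC
  split_ifs <;> simp

lemma muC_bd' (n : ℕ) : ‖muC n‖ ≤ 1 := by
  unfold muC
  rw [Complex.norm_intCast]
  exact_mod_cast ArithmeticFunction.abs_moebius_le_one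

lemma muZ_summand {r : ℕ} (i₀ : Fin r) (g : Fin r → ℤ) (I K : Finset (Fin r)) (hI : i₀ ∈ I) :
    (∏ i ∈ I, muZ (g i)) * ∏ i ∈ K, muZ (g i) ^ 2 =
      ((∏ i ∈ I.erase i₀, muZ (g i)) * ∏ i ∈ K.erase i₀, muZ (g i) ^ 2) * muZ (g i₀) := by
  rw [← mul_prod_erase I _ hI]
  by_cases h2 : i₀ ∈ K
  · rw [← mul_prod_erase K _ h2]
    have := muZ_cube (g i₀)
    linear_combination (∏ i ∈ I.erase i₀, muZ (g i)) * (∏ i ∈ K.erase i₀, muZ (g i) ^ 2) * this
  · rw [erase_eq_of_notMem h2]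
    ring

lemma muZ_part {r : ℕ} (g : Fin r → ℤ) (I K : Finset (Fin r)) :
    |(∏ i ∈ I, muZ (g i)) * ∏ i ∈ K, muZ (g i) ^ 2| ≤ 1 := by
  rw [abs_mul, abs_prod, abs_prod]
  refine mul_le_one₀ (prod_le_one (fun _ _ => abs_nonneg _) fun i _ => muZ_abs _)
    (prod_nonneg fun _ _ => abs_nonneg _) (prod_le_one (fun _ _ => abs_nonneg _) fun i _ => ?_)
  rw [abs_pow]
  exact pow_le_one₀ (abs_nonneg _) (muZ_abs _)

theorem Sch.mucorr {ι : Type} {P : ℕ → ℕ → Finset ι → (ι → ℝ) → Prop} (HS : Sch P) (o : ι) (k : ℕ) (B D T U : ℕ) :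
    ∃ N₀ : ℕ, ∀ N : ℕ, N₀ ≤ N → ∀ (M : Fin k → Finset ι) (f : Fin k → ι → ℝ), (∀ i, P D N (M i) (f i)) →
      ∀ J : ℕ, (J : ℝ) ≤ Real.log N ^ T → ∀ w : Fin J → ℕ → ℝ, (∀ j t, |w j t| ≤ 1) →
      ∃ E : Finset (Fin k → ι), (E.card : ℝ) ≤ (∏ i, ((M i).card : ℝ)) / Real.log N ^ U ∧
        ∀ n : Fin k → ι, (∀ i, n i ∈ M i) → n ∉ E →
        ∀ s : Fin k → ℤ, (∀ i, |(s i : ℝ) - f i (n i)| ≤ Real.log N ^ D) →
        ∀ I K : Finset (Fin k), I.Nonempty →
        ∀ j, ∀ x : ℕ, x ≤ B * N →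
          |∑ t ∈ Icc 1 x, w j t * ((∏ i ∈ I, muZ ((t : ℤ) + s i)) * ∏ i ∈ K, muZ ((t : ℤ) + s i) ^ 2)| ≤
            N / Real.log N ^ U := by
  classical
  choose N₁ h0 using fun i₀ : Fin k => Sch.corr_tuple (ι := fun _ => ι) (Q := fun _ => P) (fun _ => HS)
    muC muC_bd' sup_muC i₀ o B D (T + 1) (U + 1)
  have hlog : ∀ᶠ N : ℕ in Filter.atTop, (4 : ℝ) ^ k + k + 1 ≤ Real.log N :=
    (Real.tendsto_log_atTop.comp tendsto_natCast_atTop_atTop).eventually_ge_atTop _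
  obtain ⟨N₂, hN₂⟩ := Filter.eventually_atTop.1 hlog
  refine ⟨(∑ i, N₁ i) + N₂ + 3, fun N hN M f hfam J hJ w hw => ?_⟩
  have hL := hN₂ N (by omega)
  have h4k : (1 : ℝ) ≤ 4 ^ k := one_le_pow₀ (by norm_num)
  have hk0 : (0 : ℝ) ≤ k := Nat.cast_nonneg k
  have hlog1 : 1 ≤ Real.log N := by linarith
  have hN1 : ∀ i, N₁ i ≤ N := by
    intro i
    have := single_le_sum (f := N₁) (fun _ _ => Nat.zero_le _) (mem_univ i)
    omega
  have hcard : Fintype.card (Fin J × (Finset (Fin k) × Finset (Fin k))) = J * (2 ^ k * 2 ^ k) := by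
    rw [Fintype.card_prod, Fintype.card_prod, Fintype.card_fin,
      Fintype.card_finset, Fintype.card_fin]
  obtain ⟨e⟩ : Nonempty (Fin (J * (2 ^ k * 2 ^ k)) ≃ (Fin J × (Finset (Fin k) × Finset (Fin k)))) :=
    ⟨(Fintype.equivFinOfCardEq hcard).symm⟩
  have hJ' : ((J * (2 ^ k * 2 ^ k) : ℕ) : ℝ) ≤ Real.log N ^ (T + 1) := by
    push_cast
    rw [pow_succ (Real.log N) T]
    have e4 : (2 : ℝ) ^ k * 2 ^ k = 4 ^ k := by rw [← mul_pow]; norm_num
    rw [e4]
    have : (4 : ℝ) ^ k ≤ Real.log N := by linarith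
    gcongr
  choose E hE1 hE2 using fun i₀ : Fin k => h0 i₀ N (hN1 i₀) M f hfam
    (J * (2 ^ k * 2 ^ k)) hJ' (fun _ => 1) (fun _ => le_rfl)
    (fun l s t => ((w (e l).1 t * ((∏ i ∈ (e l).2.1.erase i₀, muZ ((t : ℤ) + s i)) *
      ∏ i ∈ (e l).2.2.erase i₀, muZ ((t : ℤ) + s i) ^ 2) : ℝ) : ℂ)) (fun l s t => by
      rw [Complex.norm_real, Real.norm_eq_abs, abs_mul]
      exact mul_le_one₀ (hw _ _) (abs_nonneg _) (muZ_part _ _ _))
    (fun l s s' t hs => by
      have e1 : ∏ i ∈ (e l).2.1.erase i₀, muZ ((t : ℤ) + s i) =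
          ∏ i ∈ (e l).2.1.erase i₀, muZ ((t : ℤ) + s' i) :=
        prod_congr rfl fun i hi => by rw [hs i (mem_erase.1 hi).1]
      have e2 : ∏ i ∈ (e l).2.2.erase i₀, muZ ((t : ℤ) + s i) ^ 2 =
          ∏ i ∈ (e l).2.2.erase i₀, muZ ((t : ℤ) + s' i) ^ 2 :=
        prod_congr rfl fun i hi => by rw [hs i (mem_erase.1 hi).1]
      rw [e1, e2])
  refine ⟨univ.biUnion E, ?_, fun n hn hnE s hs I K hI j x hx => ?_⟩
  · have hP : (0 : ℝ) ≤ ∏ i, ((M i).card : ℝ) := prod_nonneg fun _ _ => Nat.cast_nonneg _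
    calc ((univ.biUnion E).card : ℝ) ≤ ∑ i, ((E i).card : ℝ) := by exact_mod_cast card_biUnion_le
      _ ≤ ∑ _i : Fin k, (∏ i, ((M i).card : ℝ)) / Real.log N ^ (U + 1) := sum_le_sum fun i _ => hE1 i
      _ = k * ((∏ i, ((M i).card : ℝ)) / Real.log N ^ (U + 1)) := by
          rw [sum_const, card_univ, Fintype.card_fin, nsmul_eq_mul]
      _ ≤ (Real.log N) * ((∏ i, ((M i).card : ℝ)) / Real.log N ^ (U + 1)) := by
          apply mul_le_mul_of_nonneg_right (by linarith) (by positivity)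
      _ = _ := by
          rw [pow_succ]
          field_simp
  · obtain ⟨i₀, hi₀⟩ := hI
    have hnE' : n ∉ E i₀ := fun h => hnE (mem_biUnion.2 ⟨i₀, mem_univ _, h⟩)
    have h1 := hE2 i₀ n hn hnE' s (fun i => hs i) (e.symm (j, I, K)) x (by simpa using hx)
    have h2 : (N : ℝ) / Real.log N ^ (U + 1) ≤ N / Real.log N ^ U := by
      apply div_le_div_of_nonneg_left (Nat.cast_nonneg _) (by positivity)
      exact pow_le_pow_right₀ hlog1 (by omega)
    refine le_trans ?_ (h1.trans h2)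
    rw [← Real.norm_eq_abs, ← Complex.norm_real]
    refine le_of_eq ?_
    congr 1
    push_cast
    apply sum_congr rfl
    intro t _
    rw [one_mul, muZ_eq, Equiv.apply_symm_apply]
    have h3 := muZ_summand i₀ (fun i => (t : ℤ) + s i) I K hi₀
    have h4 := congrArg (fun z : ℝ => ((w j t * z : ℝ) : ℂ)) h3
    push_cast at h4
    rw [h4]
    push_cast
    ring

/-- Windows of `k ≤ log ^ T N` shifts near the values at almost all vectors: all correlations of at most `r` factors. -/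
theorem Sch.grow {ι : Type} [DecidableEq ι] {P : ℕ → ℕ → Finset ι → (ι → ℝ) → Prop} (HS : Sch P) (o : ι) (r B D T U : ℕ) :
    ∃ N₀ : ℕ, ∀ N : ℕ, N₀ ≤ N → ∀ k : ℕ, (k : ℝ) ≤ Real.log N ^ T →
      ∀ (M : Fin k → Finset ι) (f : Fin k → ι → ℝ), (∀ i, P D N (M i) (f i)) →
      ∀ J : ℕ, (J : ℝ) ≤ Real.log N ^ T → ∀ w : Fin J → ℕ → ℝ, (∀ j t, |w j t| ≤ 1) →
      ∃ E : Finset (Fin k → ι), (E.card : ℝ) ≤ (∏ i, ((M i).card : ℝ)) / Real.log N ^ U ∧
        ∀ n : Fin k → ι, (∀ i, n i ∈ M i) → n ∉ E →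
        ∀ s : Fin k → ℤ, (∀ i, |(s i : ℝ) - f i (n i)| ≤ Real.log N ^ D) →
        ∀ I K : Finset (Fin k), I.Nonempty → (I ∪ K).card ≤ r →
        ∀ j, ∀ x : ℕ, x ≤ B * N →
          |∑ t ∈ Icc 1 x, w j t * ((∏ i ∈ I, muZ ((t : ℤ) + s i)) * ∏ i ∈ K, muZ ((t : ℤ) + s i) ^ 2)| ≤
            N / Real.log N ^ U := by
  classical
  choose N₁ h0 using fun q : ℕ => HS.mucorr o q B D T (U + (T + 1) * r + 1)
  have hlog : ∀ᶠ N : ℕ in Filter.atTop, (r : ℝ) + 3 ≤ Real.log N :=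
    (Real.tendsto_log_atTop.comp tendsto_natCast_atTop_atTop).eventually_ge_atTop _
  obtain ⟨N₂, hN₂⟩ := Filter.eventually_atTop.1 hlog
  refine ⟨(∑ q ∈ range (r + 1), N₁ q) + N₂ + 3, fun N hN k hk M f hfam J hJ w hw => ?_⟩
  have hL := hN₂ N (by omega)
  have hr0 : (0 : ℝ) ≤ r := Nat.cast_nonneg r
  have hlog1 : 1 ≤ Real.log N := by linarith
  have hN1 : ∀ q ≤ r, N₁ q ≤ N := by
    intro q hq
    have := single_le_sum (f := N₁) (fun _ _ => Nat.zero_le _) (mem_range.2 (by omega : q < r + 1))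
    omega
  obtain ⟨𝓡, h𝓡⟩ : ∃ 𝓡 : Finset (Finset (Fin k)), 𝓡 = univ.filter (fun R => R.card ≤ r) := ⟨_, rfl⟩
  have hex : ∀ R : Finset (Fin k), ∃ E : Finset (Fin R.card → ι), R.card ≤ r →
      (E.card : ℝ) ≤ (∏ i, ((M (R.orderEmbOfFin rfl i)).card : ℝ)) / Real.log N ^ (U + (T + 1) * r + 1) ∧
        ∀ n : Fin R.card → ι, (∀ i, n i ∈ M (R.orderEmbOfFin rfl i)) → n ∉ E →
        ∀ s : Fin R.card → ℤ, (∀ i, |(s i : ℝ) - f (R.orderEmbOfFin rfl i) (n i)| ≤ Real.log N ^ D) →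
        ∀ I K : Finset (Fin R.card), I.Nonempty →
        ∀ j, ∀ x : ℕ, x ≤ B * N →
          |∑ t ∈ Icc 1 x, w j t * ((∏ i ∈ I, muZ ((t : ℤ) + s i)) * ∏ i ∈ K, muZ ((t : ℤ) + s i) ^ 2)| ≤
            N / Real.log N ^ (U + (T + 1) * r + 1) := by
    intro R
    by_cases hR : R.card ≤ r
    · obtain ⟨E, hE⟩ := h0 R.card N (hN1 _ hR) (fun i => M (R.orderEmbOfFin rfl i)) (fun i => f (R.orderEmbOfFin rfl i))
        (fun i => hfam _) J hJ w hw
      exact ⟨E, fun _ => hE⟩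
    · exact ⟨∅, fun h => absurd h hR⟩
  choose E hE using hex
  have hP : (0 : ℝ) ≤ ∏ i, ((M i).card : ℝ) := prod_nonneg fun _ _ => Nat.cast_nonneg _
  refine ⟨𝓡.biUnion (fun R => (Fintype.piFinset M).filter (fun n => (fun i => n (R.orderEmbOfFin rfl i)) ∈ E R)),
    ?_, fun n hn hnE s hs I K hI hIK j x hx => ?_⟩
  · have h1 : ∀ R ∈ 𝓡, (((Fintype.piFinset M).filter (fun n => (fun i => n (R.orderEmbOfFin rfl i)) ∈ E R)).card : ℝ) ≤
        (∏ i, ((M i).card : ℝ)) * (1 / Real.log N ^ (U + (T + 1) * r + 1)) := by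
      intro R hR
      rw [h𝓡, mem_filter] at hR
      have h2 := (hE R hR.2).1
      exact lift_count o (R.orderEmbOfFin rfl).toEmbedding M (E R) _ (by positivity) (by
        rw [mul_one_div]
        exact h2)
    calc ((𝓡.biUnion (fun R => (Fintype.piFinset M).filter
          (fun n => (fun i => n (R.orderEmbOfFin rfl i)) ∈ E R))).card : ℝ) ≤
          ∑ R ∈ 𝓡, (((Fintype.piFinset M).filter (fun n => (fun i => n (R.orderEmbOfFin rfl i)) ∈ E R)).card : ℝ) := by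
          exact_mod_cast card_biUnion_le
      _ ≤ ∑ _R ∈ 𝓡, (∏ i, ((M i).card : ℝ)) * (1 / Real.log N ^ (U + (T + 1) * r + 1)) := sum_le_sum h1
      _ = 𝓡.card * ((∏ i, ((M i).card : ℝ)) * (1 / Real.log N ^ (U + (T + 1) * r + 1))) := by
          rw [sum_const, nsmul_eq_mul]
      _ ≤ ((r + 1) * ((k : ℝ) + 1) ^ r) * ((∏ i, ((M i).card : ℝ)) * (1 / Real.log N ^ (U + (T + 1) * r + 1))) := by
          apply mul_le_mul_of_nonneg_right _ (by positivity)
          rw [h𝓡]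
          exact small_sets k r
      _ ≤ (Real.log N * (Real.log N ^ (T + 1)) ^ r) *
          ((∏ i, ((M i).card : ℝ)) * (1 / Real.log N ^ (U + (T + 1) * r + 1))) := by
          apply mul_le_mul_of_nonneg_right _ (by positivity)
          apply mul_le_mul (by linarith) _ (by positivity) (by linarith)
          apply pow_le_pow_left₀ (by positivity)
          rw [pow_succ]
          have h3 : 1 ≤ Real.log N ^ T := one_le_pow₀ hlog1
          nlinarith
      _ = _ := by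
          rw [← pow_mul, pow_add, pow_add]
          field_simp
  · obtain ⟨R, hR⟩ : ∃ R, R = I ∪ K := ⟨_, rfl⟩
    rw [← hR] at hIK
    have hR1 : R ∈ 𝓡 := by
      rw [h𝓡, mem_filter]
      exact ⟨mem_univ _, hIK⟩
    have hnot : (fun i => n (R.orderEmbOfFin rfl i)) ∉ E R := by
      intro hcon
      apply hnE
      rw [mem_biUnion]
      refine ⟨R, hR1, mem_filter.2 ⟨?_, hcon⟩⟩
      rw [Fintype.mem_piFinset]
      exact hn
    obtain ⟨_, h2⟩ := hE R hIK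
    have hpre : ∀ (S : Finset (Fin k)), S ⊆ R → ∀ g : Fin k → ℝ,
        ∏ i ∈ univ.filter (fun a : Fin R.card => R.orderEmbOfFin rfl a ∈ S), g (R.orderEmbOfFin rfl i) = ∏ i ∈ S, g i := by
      intro S hS g
      rw [← prod_image (f := g) (g := fun i => R.orderEmbOfFin rfl i)]
      · apply prod_congr _ fun _ _ => rfl
        ext i
        simp only [mem_image, mem_filter, mem_univ, true_and]
        constructor
        · rintro ⟨a, h1, rfl⟩
          exact h1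
        · intro hi
          have h3 : i ∈ Set.range (R.orderEmbOfFin rfl) := by
            rw [range_orderEmbOfFin]
            exact hS hi
          obtain ⟨a, rfl⟩ := h3
          exact ⟨a, hi, rfl⟩
      · intro a _ b _ hab
        exact (R.orderEmbOfFin rfl).injective hab
    have hIR : I ⊆ R := by rw [hR]; exact subset_union_left
    have hKR : K ⊆ R := by rw [hR]; exact subset_union_right
    have h3 := h2 (fun i => n (R.orderEmbOfFin rfl i)) (fun i => hn _) hnot (fun i => s (R.orderEmbOfFin rfl i))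
      (fun i => hs _) (univ.filter (fun a => R.orderEmbOfFin rfl a ∈ I)) (univ.filter (fun a => R.orderEmbOfFin rfl a ∈ K))
      (by
        obtain ⟨i, hi⟩ := hI
        have h3 : i ∈ Set.range (R.orderEmbOfFin rfl) := by
          rw [range_orderEmbOfFin]
          exact hIR hi
        obtain ⟨a, rfl⟩ := h3
        exact ⟨a, mem_filter.2 ⟨mem_univ _, hi⟩⟩) j x hx
    have h4 : ∀ t : ℕ, (∏ i ∈ univ.filter (fun a : Fin R.card => R.orderEmbOfFin rfl a ∈ I),
        muZ ((t : ℤ) + s (R.orderEmbOfFin rfl i))) = ∏ i ∈ I, muZ ((t : ℤ) + s i) :=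
      fun t => hpre I hIR (fun i => muZ ((t : ℤ) + s i))
    have h5 : ∀ t : ℕ, (∏ i ∈ univ.filter (fun a : Fin R.card => R.orderEmbOfFin rfl a ∈ K),
        muZ ((t : ℤ) + s (R.orderEmbOfFin rfl i)) ^ 2) = ∏ i ∈ K, muZ ((t : ℤ) + s i) ^ 2 :=
      fun t => hpre K hKR (fun i => muZ ((t : ℤ) + s i) ^ 2)
    simp only [h4, h5] at h3
    refine h3.trans ?_
    apply div_le_div_of_nonneg_left (Nat.cast_nonneg _) (by positivity)
    exact pow_le_pow_right₀ hlog1 (by omega)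

end Pool.Agent.X31
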