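import Pool.Agent.X31.W2

set_option autoImplicit false

/-! # Moments of the sums of the Möbius function over windows -/

namespace Pool.Agent.X31

open Finset

/-- the indices which occur an odd number of times -/
def oddS {j k : ℕ} (g : Fin j → Fin k) : Finset (Fin k) := univ.filter (fun i => Odd (univ.filter (fun l => g l = i)).card)
/-- the indices which occur an even positive number of times -/
def evenS {j k : ℕ} (g : Fin j → Fin k) : Finset (Fin k) :=
  univ.filter (fun i => 0 < (univ.filter (fun l => g l = i)).card ∧ Even (univ.filter (fun l => g l = i)).card)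

lemma card_union {j k : ℕ} (g : Fin j → Fin k) : (oddS g ∪ evenS g).card ≤ j := by
  have h1 : oddS g ∪ evenS g ⊆ univ.image g := by
    intro i hi
    rw [mem_union] at hi
    have h2 : 0 < (univ.filter (fun l => g l = i)).card := by
      rcases hi with hi | hi
      · have := (mem_filter.1 hi).2
        exact this.pos
      · exact (mem_filter.1 hi).2.1
    obtain ⟨l, hl⟩ := card_pos.1 h2
    rw [mem_image]
    exact ⟨l, mem_univ _, (mem_filter.1 hl).2⟩
  refine (card_le_card h1).trans (card_image_le.trans ?_)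
  rw [card_univ, Fintype.card_fin]

lemma pow_odd {m : ℝ} (hm : m ^ 3 = m) (a : ℕ) : m ^ (2 * a + 1) = m := by
  induction a with
  | zero => simp
  | succ a ih =>
    have : m ^ (2 * (a + 1) + 1) = m ^ (2 * a + 1) * m ^ 2 := by ring
    rw [this, ih]
    linear_combination hm

lemma pow_even {m : ℝ} (hm : m ^ 3 = m) (a : ℕ) : m ^ (2 * a + 2) = m ^ 2 := by
  have : m ^ (2 * a + 2) = m ^ (2 * a + 1) * m := by ring
  rw [this, pow_odd hm]
  ring

lemma prod_split {j k : ℕ} (g : Fin j → Fin k) (m : Fin k → ℝ) (hm : ∀ i, m i ^ 3 = m i) :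
    ∏ l, m (g l) = (∏ i ∈ oddS g, m i) * ∏ i ∈ evenS g, m i ^ 2 := by
  have h1 : ∏ l, m (g l) = ∏ i, m i ^ (univ.filter (fun l => g l = i)).card := by
    rw [← prod_fiberwise univ g (fun l => m (g l))]
    apply prod_congr rfl
    intro i _
    rw [← prod_const]
    apply prod_congr rfl
    intro l hl
    rw [(mem_filter.1 hl).2]
  rw [h1]
  unfold oddS evenS
  rw [prod_filter, prod_filter, ← prod_mul_distrib]
  apply prod_congr rfl
  intro i _
  obtain ⟨c, hc⟩ : ∃ c, c = (univ.filter (fun l => g l = i)).card := ⟨_, rfl⟩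
  rw [← hc]
  rcases Nat.even_or_odd c with he | ho
  · rw [if_neg (by rw [Nat.not_odd_iff_even]; exact he), one_mul]
    by_cases h0 : 0 < c
    · rw [if_pos ⟨h0, he⟩]
      obtain ⟨a, ha⟩ := he
      have : c = 2 * (a - 1) + 2 := by omega
      rw [this, pow_even (hm i)]
    · have : c = 0 := by omega
      rw [if_neg (by rintro ⟨h, _⟩; exact h0 h), this, pow_zero]
  · rw [if_pos ho, if_neg (by rintro ⟨_, h⟩; exact (Nat.not_even_iff_odd.2 ho) h), mul_one]
    obtain ⟨a, ha⟩ := ho
    rw [ha, pow_odd (hm i)]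

/-- the sign `1` or `-1` -/
def sg (b : Bool) : ℝ := if b then 1 else -1

lemma signs_sum {j k : ℕ} (g : Fin j → Fin k) :
    ∑ ε : Fin k → Bool, ∏ l, sg (ε (g l)) = if oddS g = ∅ then 2 ^ k else 0 := by
  have h1 : ∀ ε : Fin k → Bool, ∏ l, sg (ε (g l)) = ∏ i, sg (ε i) ^ (univ.filter (fun l => g l = i)).card := by
    intro ε
    rw [← prod_fiberwise univ g (fun l => sg (ε (g l)))]
    apply prod_congr rfl
    intro i _
    rw [← prod_const]
    apply prod_congr rfl
    intro l hl
    rw [(mem_filter.1 hl).2]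
  simp only [h1]
  have h2 := Finset.prod_univ_sum (fun _ : Fin k => (univ : Finset Bool))
    (fun i b => sg b ^ (univ.filter (fun l => g l = i)).card)
  rw [Fintype.piFinset_univ] at h2
  rw [← h2]
  split_ifs with h
  · rw [show (2 : ℝ) ^ k = ∏ _i : Fin k, (2 : ℝ) by rw [prod_const, card_univ, Fintype.card_fin]]
    apply prod_congr rfl
    intro i _
    have hi : Even (univ.filter (fun l => g l = i)).card := by
      rw [← Nat.not_odd_iff_even]
      intro ho
      have : i ∈ oddS g := mem_filter.2 ⟨mem_univ _, ho⟩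
      rw [h] at this
      exact absurd this (notMem_empty _)
    rw [Fintype.sum_bool]
    unfold sg
    simp only [if_true, one_pow, Bool.false_eq_true, if_false]
    rw [hi.neg_one_pow]
    norm_num
  · obtain ⟨i, hi⟩ := nonempty_iff_ne_empty.2 h
    apply prod_eq_zero (mem_univ i)
    have hi' := (mem_filter.1 hi).2
    rw [Fintype.sum_bool]
    unfold sg
    simp only [if_true, one_pow, Bool.false_eq_true, if_false]
    rw [hi'.neg_one_pow]
    norm_num

/-- The mean over all choices of signs of the `j`-th powers of the sums of the `± c i * m i ^ 2`. -/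
noncomputable def meanS {k : ℕ} (c m : Fin k → ℝ) (j : ℕ) : ℝ :=
  (∑ ε : Fin k → Bool, (∑ i, sg (ε i) * (c i * m i ^ 2)) ^ j) / 2 ^ k

theorem moment_id {k : ℕ} (c m : Fin k → ℝ) (hm : ∀ i, m i ^ 3 = m i) (j : ℕ) :
    (∑ i, c i * m i) ^ j - meanS c m j =
      ∑ g : Fin j → Fin k, if oddS g = ∅ then 0 else
        (∏ l, c (g l)) * ((∏ i ∈ oddS g, m i) * ∏ i ∈ evenS g, m i ^ 2) := by
  have h1 : (∑ i, c i * m i) ^ j = ∑ g : Fin j → Fin k, (∏ l, c (g l)) * ∏ l, m (g l) := by
    rw [Fintype.sum_pow]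
    apply sum_congr rfl
    intro g _
    rw [prod_mul_distrib]
  have h2 : meanS c m j = ∑ g : Fin j → Fin k, if oddS g = ∅ then (∏ l, c (g l)) * ∏ l, m (g l) else 0 := by
    unfold meanS
    have h3 : ∀ ε : Fin k → Bool, (∑ i, sg (ε i) * (c i * m i ^ 2)) ^ j =
        ∑ g : Fin j → Fin k, (∏ l, c (g l)) * (∏ l, m (g l) ^ 2) * ∏ l, sg (ε (g l)) := by
      intro ε
      rw [Fintype.sum_pow]
      apply sum_congr rfl
      intro g _
      rw [prod_mul_distrib, prod_mul_distrib]
      ring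
    simp only [h3]
    rw [sum_comm, sum_div]
    apply sum_congr rfl
    intro g _
    rw [← mul_sum, signs_sum]
    split_ifs with h
    · have h4 : ∏ l, m (g l) ^ 2 = ∏ l, m (g l) := by
        rw [prod_split g m hm, prod_split g (fun i => m i ^ 2) (fun i => by
          have := hm i
          calc (m i ^ 2) ^ 3 = (m i ^ 3) ^ 2 := by ring
            _ = m i ^ 2 := by rw [this]), h, prod_empty, prod_empty, one_mul, one_mul]
        apply prod_congr rfl
        intro i _
        have := hm i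
        calc (m i ^ 2) ^ 2 = m i ^ 3 * m i := by ring
          _ = m i ^ 2 := by rw [this]; ring
      rw [h4]
      have h5 : (2 : ℝ) ^ k ≠ 0 := by positivity
      field_simp
    · simp
  rw [h1, h2, ← sum_sub_distrib]
  apply sum_congr rfl
  intro g _
  split_ifs with h
  · ring
  · rw [prod_split g m hm]
    ring

/-- sums of the Möbius function over windows of shifts near the values: moments -/
theorem Sch.moments {ι : Type} [DecidableEq ι] {P : ℕ → ℕ → Finset ι → (ι → ℝ) → Prop} (HS : Sch P) (o : ι) (r B D T U : ℕ) :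
    ∃ N₀ : ℕ, ∀ N : ℕ, N₀ ≤ N → ∀ k : ℕ, (k : ℝ) ≤ Real.log N ^ T →
      ∀ (M : Fin k → Finset ι) (f : Fin k → ι → ℝ), (∀ i, P D N (M i) (f i)) →
      ∀ J : ℕ, (J : ℝ) ≤ Real.log N ^ T → ∀ w : Fin J → ℕ → ℝ, (∀ l t, |w l t| ≤ 1) →
      ∃ E : Finset (Fin k → ι), (E.card : ℝ) ≤ (∏ i, ((M i).card : ℝ)) / Real.log N ^ U ∧
        ∀ n : Fin k → ι, (∀ i, n i ∈ M i) → n ∉ E →
        ∀ s : Fin k → ℕ, (∀ i, |(s i : ℝ) - f i (n i)| ≤ Real.log N ^ D) →
        ∀ c : Fin k → ℝ, (∀ i, |c i| ≤ Real.log N ^ T) → ∀ j ≤ r, ∀ l, ∀ x : ℕ, x ≤ B * N →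
          |∑ t ∈ Icc 1 x, w l t * ((∑ i, c i * (ArithmeticFunction.moebius (t + s i) : ℝ)) ^ j -
            meanS c (fun i => (ArithmeticFunction.moebius (t + s i) : ℝ)) j)| ≤ N / Real.log N ^ U := by
  classical
  obtain ⟨N₁, h0⟩ := HS.grow o r B D T (U + 2 * (T * r))
  have hlog : ∀ᶠ N : ℕ in Filter.atTop, (3 : ℝ) ≤ Real.log N :=
    (Real.tendsto_log_atTop.comp tendsto_natCast_atTop_atTop).eventually_ge_atTop _
  obtain ⟨N₂, hN₂⟩ := Filter.eventually_atTop.1 hlog
  refine ⟨N₁ + N₂ + 3, fun N hN k hk M f hfam J hJ w hw => ?_⟩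
  have hL := hN₂ N (by omega)
  have hlog1 : 1 ≤ Real.log N := by linarith
  obtain ⟨E, hE1, hE2⟩ := h0 N (by omega) k hk M f hfam J hJ w hw
  refine ⟨E, hE1.trans ?_, fun n hn hnE s hs c hc j hj l x hx => ?_⟩
  · apply div_le_div_of_nonneg_left (prod_nonneg fun _ _ => Nat.cast_nonneg _) (by positivity)
    exact pow_le_pow_right₀ hlog1 (by omega)
  have hTj : Real.log N ^ (T * j) ≤ Real.log N ^ (T * r) := pow_le_pow_right₀ hlog1 (Nat.mul_le_mul_left _ hj)
  have hm3 : ∀ t : ℕ, ∀ i, (ArithmeticFunction.moebius (t + s i) : ℝ) ^ 3 = (ArithmeticFunction.moebius (t + s i) : ℝ) := by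
    intro t i
    rcases ArithmeticFunction.moebius_eq_or (t + s i) with h | h | h <;> rw [h] <;> norm_num
  have h1 : ∑ t ∈ Icc 1 x, w l t * ((∑ i, c i * (ArithmeticFunction.moebius (t + s i) : ℝ)) ^ j -
      meanS c (fun i => (ArithmeticFunction.moebius (t + s i) : ℝ)) j) =
      ∑ g : Fin j → Fin k, if oddS g = ∅ then 0 else (∏ l, c (g l)) *
        ∑ t ∈ Icc 1 x, w l t * ((∏ i ∈ oddS g, muZ ((t : ℤ) + (s i : ℤ))) * ∏ i ∈ evenS g, muZ ((t : ℤ) + (s i : ℤ)) ^ 2) := by
    have h2 : ∀ t ∈ Icc 1 x, w l t * ((∑ i, c i * (ArithmeticFunction.moebius (t + s i) : ℝ)) ^ j -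
        meanS c (fun i => (ArithmeticFunction.moebius (t + s i) : ℝ)) j) =
        ∑ g : Fin j → Fin k, if oddS g = ∅ then 0 else (∏ l, c (g l)) *
          (w l t * ((∏ i ∈ oddS g, muZ ((t : ℤ) + (s i : ℤ))) * ∏ i ∈ evenS g, muZ ((t : ℤ) + (s i : ℤ)) ^ 2)) := by
      intro t ht
      have ht1 := (mem_Icc.1 ht).1
      have hz : ∀ i, muZ ((t : ℤ) + (s i : ℤ)) = (ArithmeticFunction.moebius (t + s i) : ℝ) := by
        intro i
        unfold muZ
        rw [if_pos (by omega)]
        have : ((t : ℤ) + (s i : ℤ)).toNat = t + s i := by omega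
        rw [this]
      rw [moment_id c _ (hm3 t), mul_sum]
      apply sum_congr rfl
      intro g _
      simp only [hz]
      split_ifs
      · ring
      · ring
    rw [sum_congr rfl h2, sum_comm]
    apply sum_congr rfl
    intro g _
    split_ifs
    · simp
    · rw [mul_sum]
  rw [h1]
  refine (abs_sum_le_sum_abs _ _).trans ?_
  have h3 : ∀ g ∈ (univ : Finset (Fin j → Fin k)), |if oddS g = ∅ then 0 else (∏ l, c (g l)) *
        ∑ t ∈ Icc 1 x, w l t * ((∏ i ∈ oddS g, muZ ((t : ℤ) + (s i : ℤ))) * ∏ i ∈ evenS g, muZ ((t : ℤ) + (s i : ℤ)) ^ 2)| ≤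
      Real.log N ^ (T * r) * (N / Real.log N ^ (U + 2 * (T * r))) := by
    intro g _
    split_ifs with h
    · rw [abs_zero]
      positivity
    · rw [abs_mul]
      have h4 := hE2 n hn hnE (fun i => (s i : ℤ)) (fun i => by simpa using hs i) (oddS g) (evenS g)
        (nonempty_iff_ne_empty.2 h) ((card_union g).trans hj) l x hx
      apply mul_le_mul _ h4 (abs_nonneg _) (by positivity)
      rw [abs_prod]
      calc ∏ l, |c (g l)| ≤ ∏ _l : Fin j, Real.log N ^ T := prod_le_prod (fun _ _ => abs_nonneg _) fun i _ => hc _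
        _ = Real.log N ^ (T * j) := by rw [prod_const, card_univ, Fintype.card_fin, ← pow_mul]
        _ ≤ _ := hTj
  refine (sum_le_sum h3).trans ?_
  rw [sum_const, card_univ, Fintype.card_fun, Fintype.card_fin, Fintype.card_fin, nsmul_eq_mul]
  have h5 : ((k ^ j : ℕ) : ℝ) ≤ Real.log N ^ (T * r) := by
    push_cast
    calc (k : ℝ) ^ j ≤ (Real.log N ^ T) ^ j := pow_le_pow_left₀ (Nat.cast_nonneg _) hk _
      _ = Real.log N ^ (T * j) := by rw [← pow_mul]
      _ ≤ _ := hTj
  calc ((k ^ j : ℕ) : ℝ) * (Real.log N ^ (T * r) * (N / Real.log N ^ (U + 2 * (T * r)))) ≤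
      Real.log N ^ (T * r) * (Real.log N ^ (T * r) * (N / Real.log N ^ (U + 2 * (T * r)))) :=
        mul_le_mul_of_nonneg_right h5 (by positivity)
    _ = N / Real.log N ^ U := by
        rw [pow_add, two_mul, pow_add]
        field_simp

end Pool.Agent.X31
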