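import Pool.Agent.X31.W3
import Pool.Agent.X31.W0

set_option autoImplicit false

/-! # Variance and moments of the sums of the Möbius function over windows -/

namespace Pool.Agent.X31

open Finset

lemma sg_pair {k : ℕ} (i i' : Fin k) : ∑ ε : Fin k → Bool, sg (ε i) * sg (ε i') = if i = i' then 2 ^ k else 0 := by
  split_ifs with h
  · subst h
    have h1 : ∀ ε : Fin k → Bool, sg (ε i) * sg (ε i) = 1 := by
      intro ε
      unfold sg
      split_ifs <;> norm_num
    rw [sum_congr rfl fun ε _ => h1 ε, sum_const, card_univ, Fintype.card_fun, Fintype.card_bool, Fintype.card_fin,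
      nsmul_eq_mul, mul_one]
    push_cast
    rfl
  · have h1 := signs_sum (![i, i'] : Fin 2 → Fin k)
    simp only [Fin.prod_univ_two, Matrix.cons_val_zero, Matrix.cons_val_one] at h1
    rw [h1, if_neg]
    intro h2
    have h3 : i ∈ oddS (![i, i'] : Fin 2 → Fin k) := by
      unfold oddS
      rw [mem_filter]
      refine ⟨mem_univ _, ?_⟩
      have h4 : univ.filter (fun l : Fin 2 => (![i, i'] : Fin 2 → Fin k) l = i) = {0} := by
        ext l
        fin_cases l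
        · simp
        · simp [Ne.symm h]
      rw [h4, card_singleton]
      exact odd_one
    rw [h2] at h3
    exact absurd h3 (notMem_empty _)

lemma meanS_two {k : ℕ} (c m : Fin k → ℝ) (hm : ∀ i, m i ^ 3 = m i) : meanS c m 2 = ∑ i, c i ^ 2 * m i ^ 2 := by
  unfold meanS
  have h1 : ∀ ε : Fin k → Bool, (∑ i, sg (ε i) * (c i * m i ^ 2)) ^ 2 =
      ∑ i, ∑ i', (c i * m i ^ 2) * (c i' * m i' ^ 2) * (sg (ε i) * sg (ε i')) := by
    intro ε
    rw [sq, sum_mul_sum]
    apply sum_congr rfl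
    intro i _
    apply sum_congr rfl
    intro i' _
    ring
  simp only [h1]
  have h5 : (2 : ℝ) ^ k ≠ 0 := by positivity
  rw [div_eq_iff h5, sum_comm, sum_mul]
  apply sum_congr rfl
  intro i _
  rw [sum_comm]
  have h2 : ∀ i' ∈ (univ : Finset (Fin k)), ∑ ε : Fin k → Bool,
      (c i * m i ^ 2) * (c i' * m i' ^ 2) * (sg (ε i) * sg (ε i')) =
      if i = i' then (c i * m i ^ 2) * (c i' * m i' ^ 2) * 2 ^ k else 0 := by
    intro i' _
    rw [← mul_sum, sg_pair]
    split_ifs <;> ring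
  rw [sum_congr rfl h2, sum_ite_eq univ i, if_pos (mem_univ _)]
  have := hm i
  have h3 : m i ^ 2 * m i ^ 2 = m i ^ 2 := by
    calc m i ^ 2 * m i ^ 2 = m i ^ 3 * m i := by ring
      _ = m i ^ 2 := by rw [this]; ring
  linear_combination (c i ^ 2 * 2 ^ k) * h3

theorem Sch.mv {ι : Type} [DecidableEq ι] {P : ℕ → ℕ → Finset ι → (ι → ℝ) → Prop} (HS : Sch P) (o : ι) (r B D T U : ℕ) :
    ∃ N₀ : ℕ, ∀ N : ℕ, N₀ ≤ N → ∀ k : ℕ, (k : ℝ) ≤ Real.log N ^ T →
      ∀ (M : Fin k → Finset ι) (f : Fin k → ι → ℝ), (∀ i, P D N (M i) (f i)) →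
      ∀ J : ℕ, (J : ℝ) ≤ Real.log N ^ T → ∀ w : Fin J → ℕ → ℝ, (∀ l t, |w l t| ≤ 1) →
      ∃ E : Finset (Fin k → ι), (E.card : ℝ) ≤ (∏ i, ((M i).card : ℝ)) / Real.log N ^ U ∧
        ∀ n : Fin k → ι, (∀ i, n i ∈ M i) → n ∉ E →
        ∀ s : Fin k → ℕ, (∀ i, |(s i : ℝ) - f i (n i)| ≤ Real.log N ^ D) →
        ∀ c : Fin k → ℝ, (∀ i, |c i| ≤ Real.log N ^ T) → ∀ x : ℕ, x ≤ B * N →
          |(∑ t ∈ Icc 1 x, (∑ i, c i * (ArithmeticFunction.moebius (t + s i) : ℝ)) ^ 2) -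
            6 / Real.pi ^ 2 * (∑ i, c i ^ 2) * x| ≤ N / Real.log N ^ U ∧
          ∀ j ≤ r, ∀ l, |∑ t ∈ Icc 1 x, w l t * ((∑ i, c i * (ArithmeticFunction.moebius (t + s i) : ℝ)) ^ j -
            meanS c (fun i => (ArithmeticFunction.moebius (t + s i) : ℝ)) j)| ≤ N / Real.log N ^ U := by
  classical
  obtain ⟨h₀, hh, hen⟩ := HS.en
  obtain ⟨C, N₃, hen⟩ := hen D
  obtain ⟨N₁, h0⟩ := HS.moments o (max r 2) B D (T + 1) (U + 1)
  have hlog : ∀ᶠ N : ℕ in Filter.atTop, (3 : ℝ) ≤ Real.log N :=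
    (Real.tendsto_log_atTop.comp tendsto_natCast_atTop_atTop).eventually_ge_atTop _
  obtain ⟨N₂, hN₂⟩ := Filter.eventually_atTop.1 hlog
  obtain ⟨N₄, hN₄⟩ := Pool.Agent.H373R2.T7.ev_log' (3 * T + U + 1) (16 * ((B : ℝ) + 4))
  refine ⟨N₁ + N₂ + N₃ + N₄ + 3, fun N hN k hk M f hfam J hJ w hw => ?_⟩
  have hL := hN₂ N (by omega)
  have hlog1 : 1 ≤ Real.log N := by linarith
  have hLT : 1 ≤ Real.log N ^ T := one_le_pow₀ hlog1
  have hLD : 1 ≤ Real.log N ^ D := one_le_pow₀ hlog1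
  have hTT : Real.log N ^ T ≤ Real.log N ^ (T + 1) := pow_le_pow_right₀ hlog1 (by omega)
  obtain ⟨E, hE1, hE2⟩ := h0 N (by omega) k (hk.trans hTT) M f hfam (J + 1) (by
    push_cast
    rw [pow_succ]
    nlinarith) (Fin.cons (fun _ => 1) w) (by
    intro l t
    refine Fin.cases ?_ (fun l => ?_) l
    · simp
    · simpa using hw l t)
  have hUU : (N : ℝ) / Real.log N ^ (U + 1) ≤ N / Real.log N ^ U := by
    apply div_le_div_of_nonneg_left (Nat.cast_nonneg _) (by positivity)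
    exact pow_le_pow_right₀ hlog1 (by omega)
  refine ⟨E, hE1.trans ?_, fun n hn hnE s hs c hc x hx => ?_⟩
  · apply div_le_div_of_nonneg_left (prod_nonneg fun _ _ => Nat.cast_nonneg _) (by positivity)
    exact pow_le_pow_right₀ hlog1 (by omega)
  have hkey := hE2 n hn hnE s hs c (fun i => (hc i).trans hTT)
  constructor
  swap
  · intro j hj l
    have := hkey j (hj.trans (le_max_left _ _)) l.succ x hx
    rw [Fin.cons_succ] at this
    exact this.trans hUU
  -- the variance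
  have h2 := hkey 2 (le_max_right _ _) 0 x hx
  rw [Fin.cons_zero] at h2
  simp only [one_mul] at h2
  have hm3 : ∀ t : ℕ, ∀ i, (ArithmeticFunction.moebius (t + s i) : ℝ) ^ 3 = (ArithmeticFunction.moebius (t + s i) : ℝ) := by
    intro t i
    rcases ArithmeticFunction.moebius_eq_or (t + s i) with h | h | h <;> rw [h] <;> norm_num
  rw [sum_sub_distrib, sum_congr rfl fun t _ => meanS_two c _ (hm3 t), sum_comm] at h2
  have hsN : ∀ i, (s i : ℝ) ≤ 2 * N := by
    intro i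
    obtain ⟨v, hv⟩ : ∃ v : {a : ι // a ∈ M i} → ℤ, ∀ a : {a : ι // a ∈ M i},
        |(v a : ℝ) - f i a.1| ≤ Real.log N ^ D ∧ (a.1 = n i → v a = s i) := by
      apply Classical.axiomOfChoice (r := fun (a : {a : ι // a ∈ M i}) (z : ℤ) =>
        |(z : ℝ) - f i a.1| ≤ Real.log N ^ D ∧ (a.1 = n i → z = s i))
      intro a
      by_cases ha : a.1 = n i
      · refine ⟨s i, ?_, fun _ => rfl⟩
        rw [ha]
        simpa using hs i
      · refine ⟨⌊f i a.1⌋, ?_, fun h => absurd h ha⟩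
        rw [abs_le]
        have h1 := Int.floor_le (f i a.1)
        have h2 := Int.lt_floor_add_one (f i a.1)
        constructor <;> linarith
    obtain ⟨e1, _⟩ := hen N (by omega) (M i) (f i) (hfam i) v (fun a => (hv a).1)
    have h3 := e1 ⟨n i, hn i⟩
    rw [(hv ⟨n i, hn i⟩).2 rfl] at h3
    have h4 := (abs_le.1 h3).2
    exact_mod_cast h4
  have hN1 : (1 : ℝ) ≤ N := by exact_mod_cast (by omega : 1 ≤ N)
  have hxN : (x : ℝ) ≤ B * N := by exact_mod_cast hx
  have hB0 : (0 : ℝ) ≤ B := Nat.cast_nonneg _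
  have h3 : ∀ i, |(∑ t ∈ Icc 1 x, (ArithmeticFunction.moebius (t + s i) : ℝ) ^ 2) - 6 / Real.pi ^ 2 * x| ≤
      8 * ((B + 4) * Real.sqrt N) := by
    intro i
    refine (SQ.sq_interval (s i) x).trans ?_
    have e1 : (s i : ℝ) + x ≤ (B + 2) * N := by
      have := hsN i
      linarith
    have e2 : Real.sqrt ((s i : ℝ) + x) ≤ (B + 2) * Real.sqrt N := by
      calc Real.sqrt ((s i : ℝ) + x) ≤ Real.sqrt ((B + 2) ^ 2 * N) := by
            apply Real.sqrt_le_sqrt
            refine e1.trans ?_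
            apply mul_le_mul_of_nonneg_right _ (by linarith)
            nlinarith
        _ = (B + 2) * Real.sqrt N := by
            rw [Real.sqrt_mul (by positivity), Real.sqrt_sq (by linarith)]
    have e3 : (1 : ℝ) ≤ Real.sqrt N := Real.one_le_sqrt.2 hN1
    nlinarith
  have h4 : |(∑ i, ∑ t ∈ Icc 1 x, c i ^ 2 * (ArithmeticFunction.moebius (t + s i) : ℝ) ^ 2) -
      6 / Real.pi ^ 2 * (∑ i, c i ^ 2) * x| ≤ N / Real.log N ^ (U + 1) := by
    have e1 : (∑ i, ∑ t ∈ Icc 1 x, c i ^ 2 * (ArithmeticFunction.moebius (t + s i) : ℝ) ^ 2) -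
        6 / Real.pi ^ 2 * (∑ i, c i ^ 2) * x = ∑ i, c i ^ 2 *
          ((∑ t ∈ Icc 1 x, (ArithmeticFunction.moebius (t + s i) : ℝ) ^ 2) - 6 / Real.pi ^ 2 * x) := by
      rw [mul_sum, sum_mul, ← sum_sub_distrib]
      apply sum_congr rfl
      intro i _
      rw [← mul_sum]
      ring
    rw [e1]
    refine (abs_sum_le_sum_abs _ _).trans ?_
    have e2 : ∀ i ∈ (univ : Finset (Fin k)), |c i ^ 2 *
          ((∑ t ∈ Icc 1 x, (ArithmeticFunction.moebius (t + s i) : ℝ) ^ 2) - 6 / Real.pi ^ 2 * x)| ≤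
        (Real.log N ^ T) ^ 2 * (8 * ((B + 4) * Real.sqrt N)) := by
      intro i _
      rw [abs_mul, abs_of_nonneg (sq_nonneg _)]
      apply mul_le_mul _ (h3 i) (abs_nonneg _) (by positivity)
      rw [← sq_abs]
      exact pow_le_pow_left₀ (abs_nonneg _) (hc i) 2
    refine (sum_le_sum e2).trans ?_
    rw [sum_const, card_univ, Fintype.card_fin, nsmul_eq_mul]
    have e3 := hN₄ N (by omega)
    have hs0 : 0 < Real.sqrt N := Real.sqrt_pos.2 (by linarith)
    rw [le_div_iff₀ (by positivity)]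
    calc (k : ℝ) * ((Real.log N ^ T) ^ 2 * (8 * ((B + 4) * Real.sqrt N))) * Real.log N ^ (U + 1) ≤
        Real.log N ^ T * ((Real.log N ^ T) ^ 2 * (8 * ((B + 4) * Real.sqrt N))) * Real.log N ^ (U + 1) := by
          gcongr
      _ = (8 * (B + 4) * Real.log N ^ (3 * T + U + 1)) * Real.sqrt N := by ring
      _ ≤ Real.sqrt N * Real.sqrt N := by
          apply mul_le_mul_of_nonneg_right _ hs0.le
          refine le_trans ?_ e3
          have : (0 : ℝ) ≤ Real.log N ^ (3 * T + U + 1) := by positivity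
          nlinarith
      _ = N := Real.mul_self_sqrt (by linarith)
  have h5 := abs_sub_le (∑ t ∈ Icc 1 x, (∑ i, c i * (ArithmeticFunction.moebius (t + s i) : ℝ)) ^ 2)
    (∑ i, ∑ t ∈ Icc 1 x, c i ^ 2 * (ArithmeticFunction.moebius (t + s i) : ℝ) ^ 2) (6 / Real.pi ^ 2 * (∑ i, c i ^ 2) * x)
  refine h5.trans ((add_le_add h2 h4).trans ?_)
  rw [← two_mul, pow_succ, ← div_div]
  have h6 : (N : ℝ) / Real.log N ^ U / Real.log N ≤ N / Real.log N ^ U / 3 := by
    apply div_le_div_of_nonneg_left (by positivity) (by norm_num) hL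
  have h7 : (0 : ℝ) ≤ (N : ℝ) / Real.log N ^ U := by positivity
  linarith

end Pool.Agent.X31
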