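import Pool.Agent.X31.W1
import Pool.Agent.X31.S6

set_option autoImplicit false

/-! # Windows of a growing number of shifts: properties of pairs -/

namespace Pool.Agent.X31

open Finset

/-- the property of the pair `(X, c)` holds for almost all members `c` of families of small energy -/
def FamPair (Q : ℕ → ℤ → ℤ → Prop) : Prop := ∀ h : ℕ, 1 ≤ h → FamK h (fun N X => |X| ≤ (2 : ℤ) * N) Q

/-- All pairs from windows of `k ≤ log ^ T N` shifts near the values at almost all vectors. -/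
theorem Sch.pairs {ι : Type} [DecidableEq ι] {P : ℕ → ℕ → Finset ι → (ι → ℝ) → Prop} (HS : Sch P) (o : ι) (D T U : ℕ)
    (Q : ℕ → ℤ → ℤ → Prop) (HQ : FamPair Q) :
    ∃ N₀ : ℕ, ∀ N : ℕ, N₀ ≤ N → ∀ k : ℕ, (k : ℝ) ≤ Real.log N ^ T →
      ∀ (M : Fin k → Finset ι) (f : Fin k → ι → ℝ), (∀ i, P D N (M i) (f i)) →
      ∃ E : Finset (Fin k → ι), (E.card : ℝ) ≤ (∏ i, ((M i).card : ℝ)) / Real.log N ^ U ∧
        ∀ n : Fin k → ι, (∀ i, n i ∈ M i) → n ∉ E →
        ∀ s : Fin k → ℤ, (∀ i, |(s i : ℝ) - f i (n i)| ≤ Real.log N ^ D) →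
        (∀ i, |s i| ≤ (2 : ℤ) * N) ∧ ∀ i j, i ≠ j → Q N (s i) (s j) := by
  classical
  obtain ⟨h₀, hh, hen⟩ := HS.en
  obtain ⟨C, N₃, hen⟩ := hen D
  obtain ⟨N₁, h0⟩ := HS.singleK D (U + 2 * T + D + 1) _ Q HQ
  have hlog : ∀ᶠ N : ℕ in Filter.atTop, (4 : ℝ) ≤ Real.log N :=
    (Real.tendsto_log_atTop.comp tendsto_natCast_atTop_atTop).eventually_ge_atTop _
  obtain ⟨N₂, hN₂⟩ := Filter.eventually_atTop.1 hlog
  refine ⟨N₁ + N₂ + N₃ + 3, fun N hN k hk M f hfam => ?_⟩
  have hL := hN₂ N (by omega)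
  have hlog1 : 1 ≤ Real.log N := by linarith
  have hLD : 1 ≤ Real.log N ^ D := one_le_pow₀ hlog1
  -- the size of the integers near the values
  have hsize : ∀ i, ∀ a ∈ M i, ∀ z : ℤ, |(z : ℝ) - f i a| ≤ Real.log N ^ D → |z| ≤ (2 : ℤ) * N := by
    intro i a ha z hz
    obtain ⟨v, hv⟩ : ∃ v : {a : ι // a ∈ M i} → ℤ, ∀ b : {a : ι // a ∈ M i},
        |(v b : ℝ) - f i b.1| ≤ Real.log N ^ D ∧ (b.1 = a → v b = z) := by
      apply Classical.axiomOfChoice (r := fun (b : {a : ι // a ∈ M i}) (y : ℤ) =>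
        |(y : ℝ) - f i b.1| ≤ Real.log N ^ D ∧ (b.1 = a → y = z))
      intro b
      by_cases hb : b.1 = a
      · refine ⟨z, ?_, fun _ => rfl⟩
        rw [hb]
        exact hz
      · refine ⟨⌊f i b.1⌋, ?_, fun h => absurd h hb⟩
        rw [abs_le]
        have h1 := Int.floor_le (f i b.1)
        have h2 := Int.lt_floor_add_one (f i b.1)
        constructor <;> linarith
    obtain ⟨e1, _⟩ := hen N (by omega) (M i) (f i) (hfam i) v (fun b => (hv b).1)
    have h3 := e1 ⟨a, ha⟩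
    rw [(hv ⟨a, ha⟩).2 rfl] at h3
    exact h3
  -- the exceptional sets
  have hex : ∀ (j : Fin k) (z : ℤ), ∃ E : Finset ι, |z| ≤ (2 : ℤ) * N →
      (E.card : ℝ) ≤ (M j).card / Real.log N ^ (U + 2 * T + D + 1) ∧ ∀ b ∈ M j, b ∉ E →
        ∀ s : ℤ, |(s : ℝ) - f j b| ≤ Real.log N ^ D → Q N z s := by
    intro j z
    by_cases hz : |z| ≤ (2 : ℤ) * N
    · obtain ⟨E, hE⟩ := h0 N (by omega) z hz (M j) (f j) (hfam j)
      exact ⟨E, fun _ => hE⟩
    · exact ⟨∅, fun h => absurd h hz⟩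
  choose Ex hEx using hex
  obtain ⟨Z, hZ⟩ : ∃ Z : Fin k → ι → Finset ℤ, Z = fun i a => Icc ⌈f i a - Real.log N ^ D⌉ ⌊f i a + Real.log N ^ D⌋ := ⟨_, rfl⟩
  have hZm : ∀ i a z, z ∈ Z i a ↔ |(z : ℝ) - f i a| ≤ Real.log N ^ D := by
    intro i a z
    rw [hZ, abs_le]
    simp only [mem_Icc, Int.ceil_le, Int.le_floor]
    constructor
    · rintro ⟨h1, h2⟩
      constructor <;> linarith
    · rintro ⟨h1, h2⟩
      constructor <;> linarith
  have hZc : ∀ i a, ((Z i a).card : ℝ) ≤ 3 * Real.log N ^ D := by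
    intro i a
    rw [hZ]
    simp only [Int.card_Icc]
    have e1 : ((⌊f i a + Real.log N ^ D⌋ : ℤ) : ℝ) ≤ f i a + Real.log N ^ D := Int.floor_le _
    have e2 : f i a - Real.log N ^ D ≤ ((⌈f i a - Real.log N ^ D⌉ : ℤ) : ℝ) := Int.le_ceil _
    have e3 : (((⌊f i a + Real.log N ^ D⌋ + 1 - ⌈f i a - Real.log N ^ D⌉).toNat : ℕ) : ℝ) ≤ 2 * Real.log N ^ D + 1 := by
      rcases le_or_gt 0 (⌊f i a + Real.log N ^ D⌋ + 1 - ⌈f i a - Real.log N ^ D⌉) with h | h
      · have e4 : (((⌊f i a + Real.log N ^ D⌋ + 1 - ⌈f i a - Real.log N ^ D⌉).toNat : ℕ) : ℝ) =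
            ((⌊f i a + Real.log N ^ D⌋ + 1 - ⌈f i a - Real.log N ^ D⌉ : ℤ) : ℝ) := by
          exact_mod_cast Int.toNat_of_nonneg h
        rw [e4]
        push_cast
        linarith
      · rw [Int.toNat_of_nonpos h.le, Nat.cast_zero]
        linarith
    linarith
  -- the bad pairs
  obtain ⟨Bd, hBd⟩ : ∃ Bd : Fin k → Fin k → Finset (Fin 2 → ι), Bd = fun i j =>
      (M i).biUnion (fun a => (Z i a).biUnion (fun z => (Ex j z).image (fun b => ![a, b]))) := ⟨_, rfl⟩
  have hBdc : ∀ i j, ((Bd i j).card : ℝ) ≤ (((M i).card : ℝ) * (M j).card) * (1 / Real.log N ^ (U + 2 * T)) := by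
    intro i j
    have h1 : ∀ a ∈ M i, (((Z i a).biUnion (fun z => (Ex j z).image (fun b => (![a, b] : Fin 2 → ι)))).card : ℝ) ≤
        3 * Real.log N ^ D * ((M j).card / Real.log N ^ (U + 2 * T + D + 1)) := by
      intro a ha
      calc (((Z i a).biUnion (fun z => (Ex j z).image (fun b => (![a, b] : Fin 2 → ι)))).card : ℝ) ≤
          ∑ z ∈ Z i a, (((Ex j z).image (fun b => (![a, b] : Fin 2 → ι))).card : ℝ) := by exact_mod_cast card_biUnion_le
        _ ≤ ∑ _z ∈ Z i a, (M j).card / Real.log N ^ (U + 2 * T + D + 1) := by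
            apply sum_le_sum
            intro z hz
            have h2 := (hEx j z (hsize i a ha z ((hZm i a z).1 hz))).1
            refine le_trans ?_ h2
            exact_mod_cast card_image_le
        _ = (Z i a).card * ((M j).card / Real.log N ^ (U + 2 * T + D + 1)) := by rw [sum_const, nsmul_eq_mul]
        _ ≤ _ := mul_le_mul_of_nonneg_right (hZc i a) (by positivity)
    calc ((Bd i j).card : ℝ) ≤ ∑ a ∈ M i, (((Z i a).biUnion (fun z => (Ex j z).image (fun b => (![a, b] : Fin 2 → ι)))).card : ℝ) := by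
          rw [hBd]
          exact_mod_cast card_biUnion_le
      _ ≤ ∑ _a ∈ M i, 3 * Real.log N ^ D * ((M j).card / Real.log N ^ (U + 2 * T + D + 1)) := sum_le_sum h1
      _ = (M i).card * (3 * Real.log N ^ D * ((M j).card / Real.log N ^ (U + 2 * T + D + 1))) := by
          rw [sum_const, nsmul_eq_mul]
      _ ≤ (M i).card * (Real.log N * Real.log N ^ D * ((M j).card / Real.log N ^ (U + 2 * T + D + 1))) := by
          gcongr
          linarith
      _ = _ := by
          rw [show U + 2 * T + D + 1 = (U + 2 * T) + (D + 1) by ring, pow_add _ (U + 2 * T) (D + 1), pow_succ (Real.log N) D]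
          field_simp
  obtain ⟨Em, hEm⟩ : ∃ Em : Fin k → Fin k → Finset (Fin k → ι), Em = fun i j =>
      if i = j then ∅ else (Fintype.piFinset M).filter (fun n => ![n i, n j] ∈ Bd i j) := ⟨_, rfl⟩
  have hEmc : ∀ i j, ((Em i j).card : ℝ) ≤ (∏ i, ((M i).card : ℝ)) * (1 / Real.log N ^ (U + 2 * T)) := by
    intro i j
    rw [hEm]
    simp only
    split_ifs with hij
    · rw [card_empty, Nat.cast_zero]
      have : (0 : ℝ) ≤ ∏ i, ((M i).card : ℝ) := prod_nonneg fun _ _ => Nat.cast_nonneg _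
      positivity
    · obtain ⟨J, hJ⟩ : ∃ J : Fin 2 ↪ Fin k, J = ⟨![i, j], by
        intro a b hab
        fin_cases a <;> fin_cases b
        · rfl
        · exact absurd hab hij
        · exact absurd hab (Ne.symm hij)
        · rfl⟩ := ⟨_, rfl⟩
      have h1 := lift_count o J M (Bd i j) (1 / Real.log N ^ (U + 2 * T)) (by positivity) (by
        rw [Fin.prod_univ_two, hJ]
        exact hBdc i j)
      refine le_trans (le_of_eq ?_) h1
      congr 2
      apply filter_congr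
      intro n _
      have e : (fun a => n (J a)) = ![n i, n j] := by
        rw [hJ]
        funext a
        fin_cases a <;> rfl
      rw [e]
  refine ⟨univ.biUnion (fun i => univ.biUnion (fun j => Em i j)), ?_, fun n hn hnE s hs => ⟨fun i => hsize i _ (hn i) _ (hs i), ?_⟩⟩
  · have hP : (0 : ℝ) ≤ ∏ i, ((M i).card : ℝ) := prod_nonneg fun _ _ => Nat.cast_nonneg _
    calc ((univ.biUnion (fun i => univ.biUnion (fun j => Em i j))).card : ℝ) ≤
        ∑ i : Fin k, ((univ.biUnion (fun j => Em i j)).card : ℝ) := by exact_mod_cast card_biUnion_le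
      _ ≤ ∑ i : Fin k, ∑ j : Fin k, ((Em i j).card : ℝ) := by
          apply sum_le_sum
          intro i _
          exact_mod_cast card_biUnion_le
      _ ≤ ∑ _i : Fin k, ∑ _j : Fin k, (∏ i, ((M i).card : ℝ)) * (1 / Real.log N ^ (U + 2 * T)) :=
          sum_le_sum fun i _ => sum_le_sum fun j _ => hEmc i j
      _ = (k : ℝ) * (k * ((∏ i, ((M i).card : ℝ)) * (1 / Real.log N ^ (U + 2 * T)))) := by
          rw [sum_const, sum_const, card_univ, Fintype.card_fin, nsmul_eq_mul, nsmul_eq_mul]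
      _ ≤ Real.log N ^ T * (Real.log N ^ T * ((∏ i, ((M i).card : ℝ)) * (1 / Real.log N ^ (U + 2 * T)))) := by
          gcongr
      _ = _ := by
          rw [pow_add, two_mul, pow_add]
          field_simp
  · intro i j hij
    by_contra hcon
    apply hnE
    rw [mem_biUnion]
    refine ⟨i, mem_univ _, ?_⟩
    rw [mem_biUnion]
    refine ⟨j, mem_univ _, ?_⟩
    rw [hEm]
    simp only
    rw [if_neg hij, mem_filter, Fintype.mem_piFinset]
    refine ⟨hn, ?_⟩
    rw [hBd, mem_biUnion]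
    refine ⟨n i, hn i, ?_⟩
    rw [mem_biUnion]
    refine ⟨s i, (hZm i _ _).2 (hs i), ?_⟩
    rw [mem_image]
    refine ⟨n j, ?_, rfl⟩
    by_contra hcon2
    exact hcon ((hEx j (s i) (hsize i _ (hn i) _ (hs i))).2 (n j) (hn j) hcon2 (s j) (hs j))

end Pool.Agent.X31
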