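import Pool.Agent.X31.W5
import Pool.Agent.X31.U1
import Pool.Agent.TH935.DF2

set_option autoImplicit false

/-! # Sums over one or two shifts of the von Mangoldt function -/

namespace Pool.Agent.X31

open Finset Filter
open Pool.Agent.TH935.GF (En)
open Pool.Agent.H373R2.T7 (ev_log' ev_L' lam1 lamI)
open Pool.Agent.H560R3.GB (sing C₂)

open scoped ArithmeticFunction.vonMangoldt

/-- the correlation of `Λ` with the difference `h` is as predicted up to `y ≤ B N` -/
def PL (B V N h : ℕ) : Prop :=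
  ∀ y : ℕ, y ≤ B * N → |∑ n ∈ Icc 1 y, Λ n * Λ (n + h) - sing h * y| ≤ N / Real.log N ^ V

lemma log_scale (B : ℕ) (N : ℕ) (hN : 1 ≤ N) (hB : 1 ≤ B) : Real.log N ≤ Real.log ((B * N : ℕ) : ℝ) := by
  apply Real.log_le_log (by exact_mod_cast hN)
  exact_mod_cast Nat.le_mul_of_pos_left _ hB

theorem famPair_pl (B V : ℕ) : FamPair (fun N X c => 0 < c - X → Even (c - X) → PL B V N (c - X).toNat) := by
  classical
  intro h hh B₀ C U
  obtain ⟨K, hK⟩ : ∃ K, K = B + B₀ + 3 := ⟨_, rfl⟩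
  obtain ⟨N₁, h1⟩ := en_scale h K C (by omega)
  obtain ⟨N₀, h0⟩ := Pool.Agent.TH935.LF.transferK h K (C + 1) U (κ := Unit) (fun _ _ => True)
    (fun N _ c => 0 < c → Even c → Pool.Agent.TH935.DF.GW 0 (V + 2) (K * N) c.toNat) (by
    intro C' U'
    obtain ⟨N₂, h2⟩ := en_scale h K C' (by omega)
    obtain ⟨X0, h3⟩ := Pool.Agent.TH935.DF.gw_fam h (C' + 1) 0 (V + 1) U'
    refine ⟨X0 + N₂ + 3, fun N hN _ _ x s hs hE S hSx hS => ?_⟩
    have hKN : N ≤ K * N := Nat.le_mul_of_pos_left _ (by omega)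
    have hNr : (3 : ℝ) ≤ N := by exact_mod_cast (by omega : 3 ≤ N)
    have hL1 : 1 ≤ Real.log N := Pool.Agent.TH935.TF.one_le_log (by omega)
    have hlog := log_scale K N (by omega) (by omega)
    have h4 := h3 (K * N) (by omega) x s (fun m hm => by
      have := (hs m hm).1
      push_cast
      push_cast at this
      exact this) (h2 N (by omega) _ _ (Nat.cast_nonneg _) (Nat.cast_nonneg _) hE) S hSx (by
      intro m hm
      have h5 := hS m hm
      push Not at h5
      obtain ⟨h6, h7, h8⟩ := h5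
      exact ⟨h6, h7, h8⟩)
    refine h4.trans ?_
    apply div_le_div_of_nonneg_left (Nat.cast_nonneg _) (by positivity)
    exact pow_le_pow_left₀ (by linarith) hlog U')
  obtain ⟨n4, h4⟩ := ev_L' (K + 1)
  refine ⟨N₀ + N₁ + n4 + 3, fun N hN X hX ι _ v hv hE S hS => ?_⟩
  have hNr : (3 : ℝ) ≤ N := by exact_mod_cast (by omega : 3 ≤ N)
  have hLK := h4 N (by omega)
  have hL1 : 1 ≤ Real.log N := Pool.Agent.TH935.TF.one_le_log (by omega)
  have hlog := log_scale K N (by omega) (by omega)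
  have hen : En h (fun i => v i - X) = En h v := by
    have := En_affine h v 1 X (Or.inl rfl)
    simpa using this
  have hN0 : (0 : ℤ) ≤ N := Int.natCast_nonneg _
  refine h0 N (by omega) () trivial ι (fun i => v i - X) (fun i => ?_) ?_ S ?_
  · have e1 := abs_le.1 (hv i)
    have e2 := abs_le.1 hX
    have e3 : (K : ℤ) * N = B * N + B₀ * N + 3 * N := by rw [hK]; push_cast; ring
    have e4 : (0 : ℤ) ≤ B * N := by positivity
    rw [e3, abs_le]
    constructor <;> linarith [e1.1, e1.2, e2.1, e2.2]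
  · rw [hen]
    refine hE.trans ?_
    apply mul_le_mul_of_nonneg_right _ (by positivity)
    exact pow_le_pow_right₀ hL1 (by omega)
  · intro i hi
    have h5 := hS i hi
    push Not at h5
    obtain ⟨h6, h7, h8⟩ := h5
    refine ⟨h6.ne', fun hG => h8 ?_⟩
    have hG' := hG h6 h7
    intro y hy
    have hy' : y ≤ K * N := hy.trans (Nat.mul_le_mul_right _ (by omega))
    have h9 := hG' 1 0 le_rfl (by rw [pow_zero]; norm_num) (by norm_num) (by norm_num) y hy'
    have e1 : (Pool.Agent.W93.PP.Cnt 1 (v i - X).toNat : ℝ) = 1 := by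
      unfold Pool.Agent.W93.PP.Cnt
      rw [range_one, filter_true_of_mem]
      · simp
      · intro a ha
        simp
    rw [e1, div_one] at h9
    have e2 : ∑ n ∈ Icc 1 y, (if n ≡ 0 [MOD 1] then Λ n else 0) * lamI ((n : ℤ) + (((v i - X).toNat : ℕ) : ℤ)) =
        ∑ n ∈ Icc 1 y, Λ n * Λ (n + (v i - X).toNat) := by
      apply sum_congr rfl
      intro n hn
      have hn1 := (mem_Icc.1 hn).1
      rw [if_pos (Nat.modEq_one)]
      congr 1
      unfold lamI
      rw [if_pos (by omega)]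
      congr 1
    rw [e2] at h9
    refine h9.trans ?_
    have hL0 : 0 < Real.log N := by linarith
    have hl2 : 0 < Real.log ((K * N : ℕ) : ℝ) := by linarith
    rw [div_le_div_iff₀ (by positivity) (by positivity)]
    push_cast at hlog ⊢
    calc (K : ℝ) * N * Real.log N ^ V ≤ Real.log (K * N) * N * Real.log (K * N) ^ V := by
          have h10 : (K : ℝ) ≤ Real.log (K * N) := by linarith
          have h11 : 0 ≤ Real.log ((K : ℝ) * N) * N := mul_nonneg (by linarith) (Nat.cast_nonneg _)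
          gcongr
      _ = N * Real.log (K * N) ^ (V + 1) := by ring
      _ ≤ N * Real.log (K * N) ^ (V + 2) := by
          apply mul_le_mul_of_nonneg_left _ (Nat.cast_nonneg _)
          exact pow_le_pow_right₀ (by linarith) (by omega)

/-- the prime number theorem up to `K N` -/
lemma psi_bd (K V : ℕ) : ∃ N₀ : ℕ, ∀ N : ℕ, N₀ ≤ N → ∀ y : ℕ, y ≤ K * N → |lam1 y - y| ≤ N / Real.log N ^ V := by
  obtain ⟨C, N₁, hC, h1⟩ := Pool.Agent.H373R2.T7.pnt_lam (V + 1)
  obtain ⟨n2, h2⟩ := ev_log' (V + 1) 10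
  obtain ⟨n3, h3⟩ := ev_L' (C * 2 ^ (V + 2) * (K + 1) + 10)
  refine ⟨(N₁ + 3) ^ 2 + n2 + n3 + 3, fun N hN y hy => ?_⟩
  have a2 := h2 N (by omega)
  have a3 := h3 N (by omega)
  obtain ⟨L, hL⟩ : ∃ L, L = Real.log (N : ℝ) := ⟨_, rfl⟩
  rw [← hL] at a2 a3 ⊢
  have hK0 : (0 : ℝ) ≤ K := Nat.cast_nonneg _
  have hCK : 0 ≤ C * 2 ^ (V + 2) * (K + 1) := by positivity
  have hL10 : 10 ≤ L := by linarith
  have hL0 : 0 < L := by linarith
  have hL1 : 1 ≤ L := by linarith
  have hN1 : (1 : ℝ) ≤ N := by exact_mod_cast (by omega : 1 ≤ N)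
  have hs : Real.sqrt N * Real.sqrt N = N := Real.mul_self_sqrt (by linarith)
  have hs0 : 0 < Real.sqrt N := Real.sqrt_pos.2 (by linarith)
  have hV1 : L ^ V ≤ L ^ (V + 1) := pow_le_pow_right₀ hL1 (by omega)
  rcases le_or_gt (y : ℝ) (Real.sqrt N) with hys | hys
  · -- trivial bound
    have e1 := Pool.Agent.H373R2.T7.lam1_le y
    have e2 : 0 ≤ lam1 y := sum_nonneg fun _ _ => ArithmeticFunction.vonMangoldt_nonneg
    have e3 : |lam1 y - y| ≤ 7 * y := by
      rw [abs_le]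
      constructor <;> linarith [(Nat.cast_nonneg y : (0 : ℝ) ≤ y)]
    refine e3.trans ?_
    rw [le_div_iff₀ (by positivity)]
    calc 7 * (y : ℝ) * L ^ V ≤ 7 * Real.sqrt N * L ^ (V + 1) := by gcongr
      _ = (7 * L ^ (V + 1)) * Real.sqrt N := by ring
      _ ≤ Real.sqrt N * Real.sqrt N := by
          apply mul_le_mul_of_nonneg_right _ hs0.le
          refine le_trans ?_ a2
          have : (0 : ℝ) ≤ L ^ (V + 1) := by positivity
          linarith
      _ = N := hs
  · have hyN1 : N₁ ≤ y := by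
      have e1 : ((N₁ + 3 : ℕ) : ℝ) ≤ Real.sqrt N := by
        apply Real.le_sqrt_of_sq_le
        exact_mod_cast (by omega : (N₁ + 3) ^ 2 ≤ N)
      have e2 : ((N₁ + 3 : ℕ) : ℝ) < y := lt_of_le_of_lt e1 hys
      have e3 : N₁ + 3 < y := by exact_mod_cast e2
      omega
    have hy0 : (0 : ℝ) < y := by linarith
    have hly : L / 2 ≤ Real.log y := by
      have e1 : Real.log (Real.sqrt N) = L / 2 := by
        rw [Real.log_sqrt (by linarith), hL]
      rw [← e1]
      exact Real.log_le_log hs0 hys.le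
    refine (h1 y hyN1).trans ?_
    have hyK : (y : ℝ) ≤ K * N := by exact_mod_cast hy
    have e4 : (y : ℝ) / Real.log y ^ (V + 1) ≤ K * N / (L / 2) ^ (V + 1) := by
      apply div_le_div₀ (by positivity) hyK (by positivity)
      exact pow_le_pow_left₀ (by linarith) hly _
    have e5 : C * ((y : ℝ) / Real.log y ^ (V + 1)) + 2 ≤ (C * 2 ^ (V + 1) * K * (N / L ^ (V + 1))) + N / L ^ (V + 1) := by
      have e6 : C * (K * N / (L / 2) ^ (V + 1)) = C * 2 ^ (V + 1) * K * (N / L ^ (V + 1)) := by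
        rw [div_pow]
        field_simp
      have e7 : (2 : ℝ) ≤ N / L ^ (V + 1) := by
        rw [le_div_iff₀ (by positivity)]
        have : (0 : ℝ) ≤ L ^ (V + 1) := by positivity
        have e8 : (1 : ℝ) ≤ Real.sqrt N := Real.one_le_sqrt.2 hN1
        nlinarith
      rw [← e6]
      have := mul_le_mul_of_nonneg_left e4 hC.le
      linarith
    refine e5.trans ?_
    have e9 : C * 2 ^ (V + 1) * K * (N / L ^ (V + 1)) + N / L ^ (V + 1) = (C * 2 ^ (V + 1) * K + 1) * (N / L ^ (V + 1)) := by ring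
    rw [e9]
    have e10 : C * 2 ^ (V + 1) * K + 1 ≤ L := by
      have : C * 2 ^ (V + 1) * K ≤ C * 2 ^ (V + 2) * (K + 1) := by
        have h5 : (2 : ℝ) ^ (V + 1) ≤ 2 ^ (V + 2) := pow_le_pow_right₀ (by norm_num) (by omega)
        gcongr
        linarith
      linarith
    calc (C * 2 ^ (V + 1) * K + 1) * (N / L ^ (V + 1)) ≤ L * (N / L ^ (V + 1)) := by gcongr
      _ = N / L ^ V := by
          rw [pow_succ]
          field_simp

lemma abel (c : ℕ → ℝ) (y : ℕ) : ∑ n ∈ Icc 1 y, c n * Real.log n =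
    (∑ n ∈ Icc 1 y, c n) * Real.log y - ∑ n ∈ range y, (∑ m ∈ Icc 1 n, c m) * (Real.log ((n + 1 : ℕ) : ℝ) - Real.log n) := by
  induction y with
  | zero => simp
  | succ y ih =>
    rw [sum_Icc_succ_top (by omega), ih, sum_Icc_succ_top (by omega), sum_range_succ]
    ring

lemma logsum_bd (K V : ℕ) : ∃ N₀ : ℕ, ∀ N : ℕ, N₀ ≤ N → ∀ y : ℕ, y ≤ K * N →
    |∑ n ∈ Icc 1 y, (Λ n - 1) * Real.log n| ≤ N / Real.log N ^ V := by
  obtain ⟨N₁, h1⟩ := psi_bd K (V + 2)
  obtain ⟨n3, h3⟩ := ev_L' (K + 10)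
  refine ⟨N₁ + n3 + K + 3, fun N hN y hy => ?_⟩
  have a3 := h3 N (by omega)
  have hK0 : (0 : ℝ) ≤ K := Nat.cast_nonneg _
  have hL1 : 10 ≤ Real.log N := by linarith
  have hC : ∀ n ≤ y, |∑ m ∈ Icc 1 n, (Λ m - 1)| ≤ N / Real.log N ^ (V + 2) := by
    intro n hn
    have e1 : ∑ m ∈ Icc 1 n, (Λ m - 1) = lam1 n - n := by
      rw [sum_sub_distrib, sum_const, Nat.card_Icc, Nat.add_sub_cancel, nsmul_eq_mul, mul_one]
      rfl
    rw [e1]
    exact h1 N (by omega) n (hn.trans hy)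
  obtain ⟨R, hR⟩ : ∃ R, R = (N : ℝ) / Real.log N ^ (V + 2) := ⟨_, rfl⟩
  rw [← hR] at hC
  have hR0 : 0 ≤ R := by rw [hR]; positivity
  rcases Nat.eq_zero_or_pos y with h0 | hpos
  · subst h0
    simp only [Icc_eq_empty_of_lt (by norm_num : (0 : ℕ) < 1), sum_empty, abs_zero]
    positivity
  have hly0 : 0 ≤ Real.log y := Real.log_natCast_nonneg _
  have hly : Real.log y ≤ 2 * Real.log N := by
    have e1 : (y : ℝ) ≤ (N : ℝ) ^ 2 := by
      have : y ≤ N ^ 2 := by
        calc y ≤ K * N := hy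
          _ ≤ N * N := Nat.mul_le_mul_right _ (by omega)
          _ = N ^ 2 := by ring
      exact_mod_cast this
    have e2 := Real.log_le_log (by exact_mod_cast hpos) e1
    rw [Real.log_pow] at e2
    push_cast at e2
    exact e2
  rw [abel]
  have e3 : |(∑ n ∈ Icc 1 y, (Λ n - 1)) * Real.log y| ≤ R * Real.log y := by
    rw [abs_mul, abs_of_nonneg hly0]
    exact mul_le_mul_of_nonneg_right (hC y le_rfl) hly0
  have e4 : |∑ n ∈ range y, (∑ m ∈ Icc 1 n, (Λ m - 1)) * (Real.log ((n + 1 : ℕ) : ℝ) - Real.log n)| ≤ R * Real.log y := by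
    refine (abs_sum_le_sum_abs _ _).trans ?_
    have e5 : ∀ n ∈ range y, |(∑ m ∈ Icc 1 n, (Λ m - 1)) * (Real.log ((n + 1 : ℕ) : ℝ) - Real.log n)| ≤
        R * (Real.log ((n + 1 : ℕ) : ℝ) - Real.log (n : ℕ)) := by
      intro n hn
      have e6 : 0 ≤ Real.log ((n + 1 : ℕ) : ℝ) - Real.log n := by
        rcases Nat.eq_zero_or_pos n with h0 | h0
        · subst h0
          simp
        · have := Real.log_le_log (x := (n : ℝ)) (by exact_mod_cast h0) (by push_cast; linarith : (n : ℝ) ≤ ((n + 1 : ℕ) : ℝ))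
          linarith
      rw [abs_mul, abs_of_nonneg e6]
      exact mul_le_mul_of_nonneg_right (hC n (by have := mem_range.1 hn; omega)) e6
    refine (sum_le_sum e5).trans ?_
    rw [← mul_sum, sum_range_sub (fun n : ℕ => Real.log (n : ℝ))]
    simp
  refine (abs_sub _ _).trans ((add_le_add e3 e4).trans ?_)
  have hl0 : 0 < Real.log N := by linarith
  calc R * Real.log y + R * Real.log y = 2 * R * Real.log y := by ring
    _ ≤ 2 * R * (2 * Real.log N) := by gcongr
    _ = (4 * Real.log N) * R := by ring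
    _ ≤ (Real.log N * Real.log N) * R := by gcongr; linarith
    _ = N / Real.log N ^ V := by
        rw [hR, pow_add]
        field_simp

lemma notprime_bd (K V : ℕ) : ∃ N₀ : ℕ, ∀ N : ℕ, N₀ ≤ N → ∀ y : ℕ, y ≤ K * N →
    Real.log ((K * N : ℕ) : ℝ) * (2 + ∑ n ∈ (Icc 1 y).filter (fun n => ¬ n.Prime), Λ n) ≤ N / Real.log N ^ V := by
  obtain ⟨n2, h2⟩ := ev_log' (V + 3) (16 * ((K : ℝ) + 1))
  obtain ⟨n3, h3⟩ := ev_L' (K + 10)
  refine ⟨n2 + n3 + K + 3, fun N hN y hy => ?_⟩
  have a2 := h2 N (by omega)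
  have a3 := h3 N (by omega)
  have hK0 : (0 : ℝ) ≤ K := Nat.cast_nonneg _
  obtain ⟨L, hL⟩ : ∃ L, L = Real.log (N : ℝ) := ⟨_, rfl⟩
  rw [← hL] at a2 a3 ⊢
  have hL10 : 10 ≤ L := by linarith
  have hL1 : 1 ≤ L := by linarith
  have hN1 : (1 : ℝ) ≤ N := by exact_mod_cast (by omega : 1 ≤ N)
  have hs : Real.sqrt N * Real.sqrt N = N := Real.mul_self_sqrt (by linarith)
  have hs0 : 0 < Real.sqrt N := Real.sqrt_pos.2 (by linarith)
  have hs1 : 1 ≤ Real.sqrt N := Real.one_le_sqrt.2 hN1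
  have hlogB : Real.log ((K * N : ℕ) : ℝ) ≤ 2 * L := by
    rcases Nat.eq_zero_or_pos (K * N) with h0 | hpos
    · rw [h0]
      simp
      linarith
    · have e1 : ((K * N : ℕ) : ℝ) ≤ (N : ℝ) ^ 2 := by
        have : K * N ≤ N ^ 2 := by
          calc K * N ≤ N * N := Nat.mul_le_mul_right _ (by omega)
            _ = N ^ 2 := by ring
        exact_mod_cast this
      have e2 := Real.log_le_log (by exact_mod_cast hpos) e1
      rw [Real.log_pow, ← hL] at e2
      push_cast at e2 ⊢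
      exact e2
  have hsum : ∑ n ∈ (Icc 1 y).filter (fun n => ¬ n.Prime), Λ n ≤ 4 * ((K + 1) * Real.sqrt N) * L := by
    rcases Nat.eq_zero_or_pos y with h0 | hpos
    · subst h0
      simp only [Icc_eq_empty_of_lt (by norm_num : (0 : ℕ) < 1), filter_empty, sum_empty]
      positivity
    have hy1 : (1 : ℝ) ≤ y := by exact_mod_cast hpos
    have e1 := Chebyshev.psi_sub_theta_eq_sum_not_prime (y : ℝ)
    rw [Nat.floor_natCast] at e1
    have e2 : ∑ n ∈ (Icc 1 y).filter (fun n => ¬ n.Prime), Λ n = ∑ n ∈ Ioc 0 y with ¬n.Prime, Λ n := by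
      congr 1
    rw [e2, ← e1]
    refine (Chebyshev.psi_sub_theta_le hy1).trans ?_
    have hyK : (y : ℝ) ≤ K * N := by exact_mod_cast hy
    have e3 : Real.sqrt y ≤ (K + 1) * Real.sqrt N := by
      calc Real.sqrt y ≤ Real.sqrt ((K + 1) ^ 2 * N) := by
            apply Real.sqrt_le_sqrt
            refine hyK.trans ?_
            apply mul_le_mul_of_nonneg_right _ (by linarith)
            nlinarith
        _ = (K + 1) * Real.sqrt N := by
            rw [Real.sqrt_mul (by positivity), Real.sqrt_sq (by linarith)]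
    have e4 : Real.log y ≤ 2 * L := by
      refine le_trans ?_ hlogB
      exact Real.log_le_log (by linarith) (by exact_mod_cast hy)
    have e5 : 0 ≤ Real.log y := Real.log_natCast_nonneg _
    calc 2 * Real.sqrt y * Real.log y ≤ 2 * ((K + 1) * Real.sqrt N) * (2 * L) := by gcongr
      _ = _ := by ring
  have hnn : 0 ≤ ∑ n ∈ (Icc 1 y).filter (fun n => ¬ n.Prime), Λ n :=
    sum_nonneg fun _ _ => ArithmeticFunction.vonMangoldt_nonneg
  rw [le_div_iff₀ (by positivity)]
  calc Real.log ((K * N : ℕ) : ℝ) * (2 + ∑ n ∈ (Icc 1 y).filter (fun n => ¬ n.Prime), Λ n) * L ^ V ≤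
      (2 * L) * (2 + 4 * ((K + 1) * Real.sqrt N) * L) * L ^ V := by gcongr
    _ ≤ (2 * L) * (8 * ((K + 1) * Real.sqrt N) * L) * L ^ V := by
        have e1 : 1 ≤ ((K : ℝ) + 1) * Real.sqrt N := by nlinarith
        have e2 : (2 : ℝ) ≤ 4 * ((K + 1) * Real.sqrt N) * L := by nlinarith
        gcongr
        linarith
    _ = (16 * (K + 1) * (L ^ (V + 2))) * Real.sqrt N := by ring
    _ ≤ (16 * (K + 1) * (L ^ (V + 3))) * Real.sqrt N := by
        have : L ^ (V + 2) ≤ L ^ (V + 3) := pow_le_pow_right₀ hL1 (by omega)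
        gcongr
    _ ≤ Real.sqrt N * Real.sqrt N := mul_le_mul_of_nonneg_right a2 hs0.le
    _ = N := hs

/-- the squares -/
lemma square_bd (K V : ℕ) : ∃ N₀ : ℕ, ∀ N : ℕ, N₀ ≤ N → ∀ y : ℕ, y ≤ K * N →
    |∑ n ∈ Icc 1 y, (Λ n ^ 2 - Real.log n)| ≤ N / Real.log N ^ V := by
  obtain ⟨N₁, h1⟩ := logsum_bd K (V + 1)
  obtain ⟨N₂, h2⟩ := notprime_bd K (V + 1)
  obtain ⟨n3, h3⟩ := ev_L' 10
  refine ⟨N₁ + N₂ + n3 + 3, fun N hN y hy => ?_⟩
  have a1 := h1 N (by omega) y hy
  have a2 := h2 N (by omega) y hy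
  have a3 := h3 N (by omega)
  have e1 : ∑ n ∈ Icc 1 y, (Λ n ^ 2 - Real.log n) =
      (∑ n ∈ Icc 1 y, (Λ n - 1) * Real.log n) - ∑ n ∈ (Icc 1 y).filter (fun n => ¬ n.Prime), Λ n * (Real.log n - Λ n) := by
    rw [sum_filter, ← sum_sub_distrib]
    apply sum_congr rfl
    intro n hn
    by_cases h : n.Prime
    · rw [if_neg (not_not.2 h), ArithmeticFunction.vonMangoldt_apply_prime h]
      ring
    · rw [if_pos h]
      ring
  have e2 : |∑ n ∈ (Icc 1 y).filter (fun n => ¬ n.Prime), Λ n * (Real.log n - Λ n)| ≤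
      Real.log ((K * N : ℕ) : ℝ) * (2 + ∑ n ∈ (Icc 1 y).filter (fun n => ¬ n.Prime), Λ n) := by
    refine (abs_sum_le_sum_abs _ _).trans ?_
    rw [mul_add, mul_sum]
    have hlK : 0 ≤ Real.log ((K * N : ℕ) : ℝ) := Real.log_natCast_nonneg _
    have e3 : ∀ n ∈ (Icc 1 y).filter (fun n => ¬ n.Prime), |Λ n * (Real.log n - Λ n)| ≤
        Real.log ((K * N : ℕ) : ℝ) * Λ n := by
      intro n hn
      have hn' := mem_Icc.1 (mem_filter.1 hn).1
      have h5 : Λ n ≤ Real.log n := ArithmeticFunction.vonMangoldt_le_log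
      have h6 : 0 ≤ Λ n := ArithmeticFunction.vonMangoldt_nonneg
      have h7 : Real.log n ≤ Real.log ((K * N : ℕ) : ℝ) :=
        Real.log_le_log (by exact_mod_cast hn'.1) (by exact_mod_cast hn'.2.trans hy)
      rw [abs_of_nonneg (mul_nonneg h6 (by linarith)), mul_comm]
      exact mul_le_mul_of_nonneg_right (by linarith) h6
    have := sum_le_sum e3
    linarith
  rw [e1]
  refine (abs_sub _ _).trans ((add_le_add a1 (e2.trans a2)).trans ?_)
  have hl0 : 0 < Real.log N := by linarith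
  rw [← two_mul, pow_succ, ← div_div]
  have h6 : (N : ℝ) / Real.log N ^ V / Real.log N ≤ N / Real.log N ^ V / 10 := by
    apply div_le_div_of_nonneg_left (by positivity) (by norm_num) a3
  have h7 : (0 : ℝ) ≤ (N : ℝ) / Real.log N ^ V := by positivity
  linarith

end Pool.Agent.X31
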