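import Pool.Agent.X31.W6

set_option autoImplicit false

/-! # The variance of the von Mangoldt function over windows -/

namespace Pool.Agent.X31

open Finset Filter
open Pool.Agent.H373R2.T7 (ev_log' ev_L' lam1 lamI)
open Pool.Agent.H560R3.GB (sing C₂)

open scoped ArithmeticFunction.vonMangoldt

/-- the singular series of the pair `t + m`, `t + n` -/
noncomputable def SS (m n : ℕ) : ℝ := if Even (m + n) then sing ((m : ℤ) - n).natAbs else 0

lemma SS_comm (m n : ℕ) : SS m n = SS n m := by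
  unfold SS
  rw [add_comm m n, show ((m : ℤ) - n).natAbs = ((n : ℤ) - m).natAbs by omega]

lemma shift_sum (g : ℕ → ℝ) (s x : ℕ) :
    ∑ t ∈ Icc 1 x, g (t + s) = ∑ n ∈ Icc 1 (s + x), g n - ∑ n ∈ Icc 1 s, g n := by
  induction x with
  | zero => simp
  | succ x ih =>
    rw [sum_Icc_succ_top (by omega), ih, ← add_assoc s x 1, sum_Icc_succ_top (by omega : 1 ≤ s + x + 1)]
    rw [show x + 1 + s = s + x + 1 by ring]
    ring

lemma pair_lt (B V N : ℕ) (s s' x : ℕ) (hx : x ≤ B * N) (hs : s ≤ 2 * N) (hlt : s < s') (hev : Even (s + s'))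
    (hP : PL (B + 2) V N (s' - s)) :
    |∑ t ∈ Icc 1 x, Λ (t + s) * Λ (t + s') - SS s s' * x| ≤ 2 * (N / Real.log N ^ V) := by
  have e1 : ∑ t ∈ Icc 1 x, Λ (t + s) * Λ (t + s') = ∑ t ∈ Icc 1 x, (fun n => Λ n * Λ (n + (s' - s))) (t + s) := by
    apply sum_congr rfl
    intro t _
    simp only
    rw [show t + s + (s' - s) = t + s' by omega]
  rw [e1, shift_sum (fun n => Λ n * Λ (n + (s' - s)))]
  have h1 := hP (s + x) (by nlinarith)
  have h2 := hP s (by nlinarith)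
  have e2 : SS s s' = sing (s' - s) := by
    unfold SS
    rw [if_pos hev]
    congr 1
    omega
  rw [e2]
  push_cast at h1
  rw [abs_le] at h1 h2 ⊢
  constructor <;> linarith [h1.1, h1.2, h2.1, h2.2]

lemma pair_odd (K V N : ℕ) (s s' x : ℕ) (hs : s + x ≤ K * N) (hs' : s' + x ≤ K * N) (hodd : ¬ Even (s + s'))
    (H : ∀ y : ℕ, y ≤ K * N → Real.log ((K * N : ℕ) : ℝ) * (2 + ∑ n ∈ (Icc 1 y).filter (fun n => ¬ n.Prime), Λ n) ≤
      N / Real.log N ^ V) :
    |∑ t ∈ Icc 1 x, Λ (t + s) * Λ (t + s') - SS s s' * x| ≤ 2 * (N / Real.log N ^ V) := by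
  have e0 : SS s s' = 0 := by
    unfold SS
    rw [if_neg hodd]
  rw [e0, zero_mul, sub_zero]
  obtain ⟨q, hq⟩ : ∃ q : ℕ → ℝ, q = fun n => if Even n then Λ n else 0 := ⟨_, rfl⟩
  have hl0 : 0 ≤ Real.log ((K * N : ℕ) : ℝ) := Real.log_natCast_nonneg _
  have hΛ : ∀ n, 0 ≤ Λ n := fun n => ArithmeticFunction.vonMangoldt_nonneg
  have hle : ∀ n, 1 ≤ n → n ≤ K * N → Λ n ≤ Real.log ((K * N : ℕ) : ℝ) := fun n h1 h2 =>
    ArithmeticFunction.vonMangoldt_le_log.trans (Real.log_le_log (by exact_mod_cast h1) (by exact_mod_cast h2))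
  have hq0 : ∀ n, 0 ≤ q n := by
    intro n
    rw [hq]
    simp only
    split_ifs
    · exact hΛ n
    · exact le_rfl
  have h1 : ∀ t ∈ Icc 1 x, Λ (t + s) * Λ (t + s') ≤ Real.log ((K * N : ℕ) : ℝ) * (q (t + s) + q (t + s')) := by
    intro t ht
    have ht' := mem_Icc.1 ht
    have a1 := hle (t + s) (by omega) (by omega)
    have a2 := hle (t + s') (by omega) (by omega)
    by_cases hev : Even (t + s)
    · have e1 : q (t + s) = Λ (t + s) := by rw [hq]; simp only; rw [if_pos hev]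
      have := hq0 (t + s')
      have := mul_le_mul_of_nonneg_left a2 (hΛ (t + s))
      rw [e1]
      nlinarith [mul_nonneg hl0 (hq0 (t + s'))]
    · have hev' : Even (t + s') := by
        by_contra hcon
        apply hodd
        rw [Nat.even_add] at hev hcon ⊢
        tauto
      have e1 : q (t + s') = Λ (t + s') := by rw [hq]; simp only; rw [if_pos hev']
      have := mul_le_mul_of_nonneg_right a1 (hΛ (t + s'))
      rw [e1]
      nlinarith [mul_nonneg hl0 (hq0 (t + s))]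
  have h2 : ∀ y, ∑ n ∈ Icc 1 y, q n ≤ 2 + ∑ n ∈ (Icc 1 y).filter (fun n => ¬ n.Prime), Λ n := by
    intro y
    have e1 : ∀ n ∈ Icc 1 y, q n ≤ (if n = 2 then Λ 2 else 0) + if ¬ n.Prime then Λ n else 0 := by
      intro n _
      rw [hq]
      simp only
      by_cases hp : n.Prime
      · rw [if_neg (not_not.2 hp)]
        rcases hp.eq_two_or_odd' with rfl | ho
        · simp
        · rw [if_neg (by rw [Nat.not_even_iff_odd]; exact ho)]
          split_ifs
          · rw [add_zero]; exact hΛ 2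
          · simp
      · rw [if_pos hp]
        split_ifs
        · have := hΛ 2
          linarith
        · linarith
        · have := hΛ n
          have := hΛ 2
          linarith
        · have := hΛ n
          linarith
    refine (sum_le_sum e1).trans ?_
    rw [sum_add_distrib, ← sum_filter (s := Icc 1 y) (p := fun n => ¬ n.Prime)]
    apply add_le_add_left
    rw [sum_ite_eq' (Icc 1 y) 2 (fun _ => Λ 2)]
    have h3 : Λ 2 ≤ 2 := by
      refine ArithmeticFunction.vonMangoldt_le_log.trans ?_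
      have := Real.log_two_lt_d9
      push_cast
      linarith
    split_ifs
    · exact h3
    · norm_num
  have h3 : ∀ u : ℕ, u + x ≤ K * N → ∑ t ∈ Icc 1 x, q (t + u) ≤
      2 + ∑ n ∈ (Icc 1 (u + x)).filter (fun n => ¬ n.Prime), Λ n := by
    intro u _
    rw [shift_sum]
    have := h2 (u + x)
    have h4 : 0 ≤ ∑ n ∈ Icc 1 u, q n := sum_nonneg fun n _ => hq0 n
    linarith
  rw [abs_of_nonneg (sum_nonneg fun t _ => mul_nonneg (hΛ _) (hΛ _))]
  calc ∑ t ∈ Icc 1 x, Λ (t + s) * Λ (t + s') ≤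
      ∑ t ∈ Icc 1 x, Real.log ((K * N : ℕ) : ℝ) * (q (t + s) + q (t + s')) := sum_le_sum h1
    _ = Real.log ((K * N : ℕ) : ℝ) * (∑ t ∈ Icc 1 x, q (t + s)) + Real.log ((K * N : ℕ) : ℝ) * (∑ t ∈ Icc 1 x, q (t + s')) := by
        rw [← mul_sum, sum_add_distrib, mul_add]
    _ ≤ N / Real.log N ^ V + N / Real.log N ^ V :=
        add_le_add ((mul_le_mul_of_nonneg_left (h3 s hs) hl0).trans (H _ hs))
          ((mul_le_mul_of_nonneg_left (h3 s' hs') hl0).trans (H _ hs'))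
    _ = _ := by ring

theorem Sch.psivar {ι : Type} [DecidableEq ι] {P : ℕ → ℕ → Finset ι → (ι → ℝ) → Prop} (HS : Sch P) (o : ι) (B D T U : ℕ) :
    ∃ N₀ : ℕ, ∀ N : ℕ, N₀ ≤ N → ∀ k : ℕ, (k : ℝ) ≤ Real.log N ^ T →
      ∀ (M : Fin k → Finset ι) (f : Fin k → ι → ℝ), (∀ i, P D N (M i) (f i)) →
      ∃ E : Finset (Fin k → ι), (E.card : ℝ) ≤ (∏ i, ((M i).card : ℝ)) / Real.log N ^ U ∧
        ∀ n : Fin k → ι, (∀ i, n i ∈ M i) → n ∉ E →
        ∀ s : Fin k → ℕ, Function.Injective s → (∀ i, |(s i : ℝ) - f i (n i)| ≤ Real.log N ^ D) →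
        ∀ a : Fin k → ℝ, (∀ i, |a i| ≤ Real.log N ^ T) → ∀ x : ℕ, x ≤ B * N →
          |∑ t ∈ Icc 1 x, (∑ i, a i * (Λ (t + s i) - 1)) ^ 2 -
            ((∑ i, a i ^ 2 * ∑ t ∈ Icc 1 x, (Real.log ((t + s i : ℕ) : ℝ) - 1)) +
              (∑ i, ∑ j ∈ univ.erase i, a i * a j * (SS (s i) (s j) - 1)) * x)| ≤ N / Real.log N ^ U := by
  classical
  obtain ⟨V, hV⟩ : ∃ V, V = U + 4 * T + 1 := ⟨_, rfl⟩
  obtain ⟨N₁, h1⟩ := HS.pairs o D T U _ (famPair_pl (B + 2) V)
  obtain ⟨N₂, h2⟩ := psi_bd (B + 2) V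
  obtain ⟨N₃, h3⟩ := square_bd (B + 2) V
  obtain ⟨N₄, h4⟩ := notprime_bd (B + 2) V
  obtain ⟨n5, h5⟩ := ev_L' 10
  refine ⟨N₁ + N₂ + N₃ + N₄ + n5 + 3, fun N hN k hk M f hfam => ?_⟩
  obtain ⟨E, hE1, hE2⟩ := h1 N (by omega) k hk M f hfam
  refine ⟨E, hE1, fun n hn hnE s hinj hs a ha x hx => ?_⟩
  have hL := h5 N (by omega)
  obtain ⟨hsz, hpair⟩ := hE2 n hn hnE (fun i => (s i : ℤ)) (fun i => by simpa using hs i)
  have hsN : ∀ i, s i ≤ 2 * N := by
    intro i
    have := (abs_le.1 (hsz i)).2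
    exact_mod_cast this
  have hsx : ∀ i, s i + x ≤ (B + 2) * N := by
    intro i
    have := hsN i
    nlinarith
  obtain ⟨R, hR⟩ : ∃ R, R = (N : ℝ) / Real.log N ^ V := ⟨_, rfl⟩
  have hR0 : 0 ≤ R := by rw [hR]; positivity
  have hb2 := h2 N (by omega)
  have hb3 := h3 N (by omega)
  have hb4 := h4 N (by omega)
  rw [← hR] at hb2 hb3
  -- the sums of `Λ`
  have hS1 : ∀ i, |∑ t ∈ Icc 1 x, Λ (t + s i) - x| ≤ 2 * R := by
    intro i
    rw [shift_sum (fun n => Λ n)]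
    have e1 := hb2 (s i + x) (hsx i)
    have e2 := hb2 (s i) (by have := hsx i; omega)
    unfold lam1 at e1 e2
    push_cast at e1
    rw [abs_le] at e1 e2 ⊢
    constructor <;> linarith [e1.1, e1.2, e2.1, e2.2]
  -- the squares
  have hS2 : ∀ i, |∑ t ∈ Icc 1 x, (Λ (t + s i) ^ 2 - Real.log ((t + s i : ℕ) : ℝ))| ≤ 2 * R := by
    intro i
    rw [shift_sum (fun n => Λ n ^ 2 - Real.log (n : ℝ))]
    have e1 := hb3 (s i + x) (hsx i)
    have e2 := hb3 (s i) (by have := hsx i; omega)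
    rw [abs_le] at e1 e2 ⊢
    constructor <;> linarith [e1.1, e1.2, e2.1, e2.2]
  -- the pairs
  have hS3 : ∀ i j, i ≠ j → |∑ t ∈ Icc 1 x, Λ (t + s i) * Λ (t + s j) - SS (s i) (s j) * x| ≤ 2 * R := by
    intro i j hij
    by_cases hev : Even (s i + s j)
    · have key : ∀ i j, i ≠ j → Even (s i + s j) → s i < s j →
          |∑ t ∈ Icc 1 x, Λ (t + s i) * Λ (t + s j) - SS (s i) (s j) * x| ≤ 2 * R := by
        intro i j hij hev hlt
        rw [hR]
        have e1 := hpair i j hij (by omega) (by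
          rw [Int.even_sub]
          rw [Nat.even_add] at hev
          rw [Int.even_coe_nat, Int.even_coe_nat]
          tauto)
        have e2 : (((s j : ℤ) - (s i : ℤ)).toNat) = s j - s i := by omega
        rw [e2] at e1
        exact pair_lt B V N (s i) (s j) x hx (hsN i) hlt hev e1
      have hne : s i ≠ s j := fun h => hij (hinj h)
      rcases lt_or_gt_of_ne hne with h | h
      · exact key i j hij hev h
      · have h7 := key j i (Ne.symm hij) (by rw [add_comm]; exact hev) h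
        rw [SS_comm]
        simp only [mul_comm (Λ _) (Λ _)] at h7 ⊢
        have e3 : ∑ t ∈ Icc 1 x, Λ (t + s i) * Λ (t + s j) = ∑ t ∈ Icc 1 x, Λ (t + s j) * Λ (t + s i) :=
          sum_congr rfl fun t _ => mul_comm _ _
        first
          | exact h7
          | (rw [e3]; exact h7)
          | (rw [← e3]; exact h7)
    · rw [hR]
      exact pair_odd (B + 2) V N (s i) (s j) x (hsx i) (hsx j) hev hb4
  -- the variances and covariances
  have hD : ∀ i, |∑ t ∈ Icc 1 x, (Λ (t + s i) - 1) ^ 2 - ∑ t ∈ Icc 1 x, (Real.log ((t + s i : ℕ) : ℝ) - 1)| ≤ 7 * R := by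
    intro i
    have e1 : ∑ t ∈ Icc 1 x, (Λ (t + s i) - 1) ^ 2 - ∑ t ∈ Icc 1 x, (Real.log ((t + s i : ℕ) : ℝ) - 1) =
        ∑ t ∈ Icc 1 x, (Λ (t + s i) ^ 2 - Real.log ((t + s i : ℕ) : ℝ)) - 2 * (∑ t ∈ Icc 1 x, Λ (t + s i) - x) := by
      have e2 : (x : ℝ) = ∑ t ∈ Icc 1 x, (1 : ℝ) := by rw [sum_const, Nat.card_Icc, Nat.add_sub_cancel, nsmul_eq_mul, mul_one]
      rw [e2, ← sum_sub_distrib, ← sum_sub_distrib, mul_sum, ← sum_sub_distrib]
      apply sum_congr rfl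
      intro t _
      ring
    rw [e1]
    have e3 := abs_le.1 (hS1 i)
    have e4 := abs_le.1 (hS2 i)
    rw [abs_le]
    constructor <;> linarith [e3.1, e3.2, e4.1, e4.2]
  have hO : ∀ i j, i ≠ j → |∑ t ∈ Icc 1 x, (Λ (t + s i) - 1) * (Λ (t + s j) - 1) - (SS (s i) (s j) - 1) * x| ≤ 7 * R := by
    intro i j hij
    have e1 : ∑ t ∈ Icc 1 x, (Λ (t + s i) - 1) * (Λ (t + s j) - 1) - (SS (s i) (s j) - 1) * x =
        (∑ t ∈ Icc 1 x, Λ (t + s i) * Λ (t + s j) - SS (s i) (s j) * x) - (∑ t ∈ Icc 1 x, Λ (t + s i) - x) -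
          (∑ t ∈ Icc 1 x, Λ (t + s j) - x) := by
      have e2 : ∑ t ∈ Icc 1 x, (Λ (t + s i) - 1) * (Λ (t + s j) - 1) = ∑ t ∈ Icc 1 x, Λ (t + s i) * Λ (t + s j) -
          ∑ t ∈ Icc 1 x, Λ (t + s i) - ∑ t ∈ Icc 1 x, Λ (t + s j) + ∑ t ∈ Icc 1 x, (1 : ℝ) := by
        rw [← sum_sub_distrib, ← sum_sub_distrib, ← sum_add_distrib]
        apply sum_congr rfl
        intro t _
        ring
      rw [e2, sum_const, Nat.card_Icc, Nat.add_sub_cancel, nsmul_eq_mul, mul_one]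
      ring
    rw [e1]
    have e3 := abs_le.1 (hS1 i)
    have e4 := abs_le.1 (hS1 j)
    have e5 := abs_le.1 (hS3 i j hij)
    rw [abs_le]
    constructor <;> linarith [e3.1, e3.2, e4.1, e4.2, e5.1, e5.2]
  -- expansion of the square
  have hexp : ∑ t ∈ Icc 1 x, (∑ i, a i * (Λ (t + s i) - 1)) ^ 2 =
      ∑ i, (a i ^ 2 * ∑ t ∈ Icc 1 x, (Λ (t + s i) - 1) ^ 2 +
        ∑ j ∈ univ.erase i, a i * a j * ∑ t ∈ Icc 1 x, (Λ (t + s i) - 1) * (Λ (t + s j) - 1)) := by
    have e1 : ∀ t ∈ Icc 1 x, (∑ i, a i * (Λ (t + s i) - 1)) ^ 2 =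
        ∑ i, ∑ j, a i * a j * ((Λ (t + s i) - 1) * (Λ (t + s j) - 1)) := by
      intro t _
      rw [sq, sum_mul_sum]
      apply sum_congr rfl
      intro i _
      apply sum_congr rfl
      intro j _
      ring
    rw [sum_congr rfl e1, sum_comm]
    apply sum_congr rfl
    intro i _
    rw [sum_comm]
    have e2 : ∀ j ∈ (univ : Finset (Fin k)), ∑ t ∈ Icc 1 x, a i * a j * ((Λ (t + s i) - 1) * (Λ (t + s j) - 1)) =
        a i * a j * ∑ t ∈ Icc 1 x, (Λ (t + s i) - 1) * (Λ (t + s j) - 1) := by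
      intro j _
      rw [mul_sum]
    rw [sum_congr rfl e2, ← add_sum_erase univ _ (mem_univ i)]
    congr 1
    rw [sq]
    congr 1
    apply sum_congr rfl
    intro t _
    ring
  have hdiff : ∑ t ∈ Icc 1 x, (∑ i, a i * (Λ (t + s i) - 1)) ^ 2 -
            ((∑ i, a i ^ 2 * ∑ t ∈ Icc 1 x, (Real.log ((t + s i : ℕ) : ℝ) - 1)) +
              (∑ i, ∑ j ∈ univ.erase i, a i * a j * (SS (s i) (s j) - 1)) * x) =
      ∑ i, (a i ^ 2 * (∑ t ∈ Icc 1 x, (Λ (t + s i) - 1) ^ 2 - ∑ t ∈ Icc 1 x, (Real.log ((t + s i : ℕ) : ℝ) - 1)) +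
        ∑ j ∈ univ.erase i, a i * a j *
          (∑ t ∈ Icc 1 x, (Λ (t + s i) - 1) * (Λ (t + s j) - 1) - (SS (s i) (s j) - 1) * x)) := by
    rw [hexp, sum_mul, ← sum_add_distrib, ← sum_sub_distrib]
    apply sum_congr rfl
    intro i _
    rw [sum_mul, mul_sub]
    have e1 : ∑ j ∈ univ.erase i, a i * a j *
          (∑ t ∈ Icc 1 x, (Λ (t + s i) - 1) * (Λ (t + s j) - 1) - (SS (s i) (s j) - 1) * x) =
        ∑ j ∈ univ.erase i, a i * a j * ∑ t ∈ Icc 1 x, (Λ (t + s i) - 1) * (Λ (t + s j) - 1) -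
          ∑ j ∈ univ.erase i, a i * a j * (SS (s i) (s j) - 1) * x := by
      rw [← sum_sub_distrib]
      apply sum_congr rfl
      intro j _
      ring
    rw [e1]
    ring
  rw [hdiff]
  have hLT0 : 0 ≤ Real.log N ^ T := by positivity
  have haa : ∀ i j, |a i * a j| ≤ Real.log N ^ (2 * T) := by
    intro i j
    rw [abs_mul, two_mul, pow_add]
    exact mul_le_mul (ha i) (ha j) (abs_nonneg _) hLT0
  have hterm : ∀ i ∈ (univ : Finset (Fin k)), |a i ^ 2 * (∑ t ∈ Icc 1 x, (Λ (t + s i) - 1) ^ 2 -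
        ∑ t ∈ Icc 1 x, (Real.log ((t + s i : ℕ) : ℝ) - 1)) +
        ∑ j ∈ univ.erase i, a i * a j *
          (∑ t ∈ Icc 1 x, (Λ (t + s i) - 1) * (Λ (t + s j) - 1) - (SS (s i) (s j) - 1) * x)| ≤
      k * (Real.log N ^ (2 * T) * (7 * R)) := by
    intro i _
    refine (abs_add_le _ _).trans ?_
    have e1 : |a i ^ 2 * (∑ t ∈ Icc 1 x, (Λ (t + s i) - 1) ^ 2 -
        ∑ t ∈ Icc 1 x, (Real.log ((t + s i : ℕ) : ℝ) - 1))| ≤ Real.log N ^ (2 * T) * (7 * R) := by
      rw [abs_mul]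
      apply mul_le_mul _ (hD i) (abs_nonneg _) (by positivity)
      rw [sq]
      exact haa i i
    have e2 : |∑ j ∈ univ.erase i, a i * a j *
          (∑ t ∈ Icc 1 x, (Λ (t + s i) - 1) * (Λ (t + s j) - 1) - (SS (s i) (s j) - 1) * x)| ≤
        ∑ _j ∈ univ.erase i, Real.log N ^ (2 * T) * (7 * R) := by
      refine (abs_sum_le_sum_abs _ _).trans (sum_le_sum fun j hj => ?_)
      rw [abs_mul]
      exact mul_le_mul (haa i j) (hO i j (Ne.symm (mem_erase.1 hj).1)) (abs_nonneg _) (by positivity)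
    have e3 : Real.log N ^ (2 * T) * (7 * R) + ∑ _j ∈ univ.erase i, Real.log N ^ (2 * T) * (7 * R) =
        k * (Real.log N ^ (2 * T) * (7 * R)) := by
      rw [add_sum_erase univ (fun _ => Real.log N ^ (2 * T) * (7 * R)) (mem_univ i), sum_const, card_univ,
        Fintype.card_fin, nsmul_eq_mul]
    linarith
  refine (abs_sum_le_sum_abs _ _).trans ((sum_le_sum hterm).trans ?_)
  rw [sum_const, card_univ, Fintype.card_fin, nsmul_eq_mul]
  have hl0 : 0 < Real.log N := by linarith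
  calc (k : ℝ) * (k * (Real.log N ^ (2 * T) * (7 * R))) ≤
      Real.log N ^ T * (Real.log N ^ T * (Real.log N ^ (2 * T) * (Real.log N * R))) := by
        gcongr
        linarith
    _ = N / Real.log N ^ U := by
        rw [hR, hV, show U + 4 * T + 1 = U + (T + (T + (2 * T + 1))) by ring, pow_add _ U, pow_add _ T, pow_add _ T,
          pow_succ _ (2 * T)]
        field_simp

end Pool.Agent.X31
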