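import Pool.Agent.X31.W6

set_option autoImplicit false

/-! # Multiples of the members of families of small energy -/

namespace Pool.Agent.X31

open Finset Filter
open Pool.Agent.TH935.GF (En)
open Pool.Agent.H373R2.T7 (ev_log' ev_L')

lemma En_mul (h : ℕ) {ι : Type} [Fintype ι] (v : ι → ℤ) (k : ℤ) (hk : k ≠ 0) :
    En h (fun i => k * v i) = En h v := by
  unfold En
  apply Nat.card_congr
  apply Equiv.subtypeEquivRight
  intro q
  rw [← mul_sum, ← mul_sum]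
  exact ⟨fun h => mul_left_cancel₀ hk h, fun h => by rw [h]⟩

/-- the scale `N ⌈log ^ κ N⌉` -/
noncomputable def upS (κ N : ℕ) : ℕ := N * ⌈Real.log N ^ κ⌉₊

lemma upS_facts (κ : ℕ) : ∃ N₀ : ℕ, ∀ N : ℕ, N₀ ≤ N → N ≤ upS κ N ∧ (N : ℝ) * Real.log N ^ κ ≤ upS κ N ∧
    (upS κ N : ℝ) ≤ N * Real.log N ^ (κ + 1) ∧ Real.log N ≤ Real.log (upS κ N) ∧ Real.log (upS κ N) ≤ 2 * Real.log N ∧
    1 ≤ ⌈Real.log N ^ κ⌉₊ ∧ (⌈Real.log N ^ κ⌉₊ : ℝ) ≤ Real.log N ^ (κ + 1) := by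
  obtain ⟨n1, h1⟩ := ev_L' 2
  obtain ⟨n2, h2⟩ := ev_log' (κ + 1) 1
  refine ⟨n1 + n2 + 3, fun N hN => ?_⟩
  have c1 := h1 N (by omega)
  have c2 := h2 N (by omega)
  have hNr : (3 : ℝ) ≤ N := by exact_mod_cast (by omega : 3 ≤ N)
  have hN0 : (0 : ℝ) < N := by linarith
  obtain ⟨L, hL⟩ : ∃ L, L = Real.log (N : ℝ) := ⟨_, rfl⟩
  unfold upS
  rw [← hL] at c1 c2 ⊢
  have hL1 : 1 ≤ L := by linarith
  obtain ⟨K, hK⟩ : ∃ K, K = ⌈L ^ κ⌉₊ := ⟨_, rfl⟩
  rw [← hK]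
  have hLκ : 1 ≤ L ^ κ := one_le_pow₀ hL1
  have hK1 : L ^ κ ≤ (K : ℝ) := by rw [hK]; exact Nat.le_ceil _
  have hK2 : (K : ℝ) ≤ L ^ (κ + 1) := by
    have h6 : (K : ℝ) < L ^ κ + 1 := by rw [hK]; exact Nat.ceil_lt_add_one (by positivity)
    rw [pow_succ]
    nlinarith
  have hK0 : 1 ≤ K := by
    have : (1 : ℝ) ≤ K := hLκ.trans hK1
    exact_mod_cast this
  have hNK : N ≤ N * K := Nat.le_mul_of_pos_right _ hK0
  have hNKr : (N : ℝ) ≤ ((N * K : ℕ) : ℝ) := by exact_mod_cast hNK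
  have hup : ((N * K : ℕ) : ℝ) ≤ N * L ^ (κ + 1) := by
    push_cast
    exact mul_le_mul_of_nonneg_left hK2 hN0.le
  refine ⟨hNK, by push_cast; exact mul_le_mul_of_nonneg_left hK1 hN0.le, hup, ?_, ?_, hK0, hK2⟩
  · rw [hL]
    exact Real.log_le_log hN0 hNKr
  · have h6 : ((N * K : ℕ) : ℝ) ≤ N * N := by
      refine hup.trans (mul_le_mul_of_nonneg_left ?_ hN0.le)
      rw [one_mul] at c2
      refine c2.trans ?_
      rw [Real.sqrt_le_left (by linarith)]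
      nlinarith
    calc Real.log ((N * K : ℕ) : ℝ) ≤ Real.log ((N : ℝ) * N) := Real.log_le_log (by linarith) h6
      _ = 2 * Real.log (N : ℝ) := by rw [Real.log_mul hN0.ne' hN0.ne']; ring
      _ = 2 * L := by rw [hL]

/-- all the multiples `j c`, `j ≤ log ^ κ N`, of almost all members `c` -/
theorem famO_dil (h κ : ℕ) {Q : ℕ → ℤ → Prop} (HQ : FamO h Q) :
    FamO h (fun N c => ∀ j : ℕ, 1 ≤ j → (j : ℝ) ≤ Real.log N ^ κ → Q (upS κ N) (j * c)) := by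
  classical
  intro B C U
  obtain ⟨N₀, h0⟩ := HQ B (C + κ + 1) (U + κ + 1)
  obtain ⟨N₁, h1⟩ := upS_facts κ
  obtain ⟨n2, h2⟩ := ev_L' 2
  refine ⟨N₀ + N₁ + n2 + 3, fun N hN ι _ v hv hE S hS => ?_⟩
  obtain ⟨u1, u2, u3, u4, u5, u6, u7⟩ := h1 N (by omega)
  have hL2 := h2 N (by omega)
  have hNr : (3 : ℝ) ≤ N := by exact_mod_cast (by omega : 3 ≤ N)
  obtain ⟨X, hX⟩ : ∃ X, X = upS κ N := ⟨_, rfl⟩
  rw [← hX] at u1 u2 u3 u4 u5
  obtain ⟨L, hL⟩ : ∃ L, L = Real.log (N : ℝ) := ⟨_, rfl⟩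
  obtain ⟨l, hl⟩ : ∃ l, l = Real.log (X : ℝ) := ⟨_, rfl⟩
  obtain ⟨K, hK⟩ : ∃ K, K = ⌈Real.log (N : ℝ) ^ κ⌉₊ := ⟨_, rfl⟩
  have hXK : X = N * K := by rw [hX, hK]; rfl
  rw [← hK] at u6 u7
  rw [← hl, ← hL] at u4 u5
  rw [← hL] at u2 u3 u7 hE hL2 ⊢
  have hL1 : 1 ≤ L := by linarith
  have hL0 : 0 < L := by linarith
  have hl0 : 0 < l := by linarith
  have hc0 : (0 : ℝ) ≤ Fintype.card ι := Nat.cast_nonneg _
  have hsub : S ⊆ (Icc 1 K).biUnion (fun j => S.filter (fun i => ¬ Q X (j * v i))) := by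
    intro i hi
    have h3 := hS i hi
    push Not at h3
    obtain ⟨j, hj1, hj2, hj3⟩ := h3
    rw [mem_biUnion]
    refine ⟨j, ?_, ?_⟩
    · rw [mem_Icc]
      refine ⟨hj1, ?_⟩
      have h4 : (j : ℝ) ≤ K := by rw [hK]; exact hj2.trans (Nat.le_ceil _)
      exact_mod_cast h4
    · rw [mem_filter]
      refine ⟨hi, ?_⟩
      rw [hX]
      exact hj3
  have hj : ∀ j ∈ Icc 1 K, ((S.filter (fun i => ¬ Q X (j * v i))).card : ℝ) ≤ Fintype.card ι / L ^ (U + κ + 1) := by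
    intro j hj
    rw [mem_Icc] at hj
    have h3 := h0 X (by omega) ι (fun i => (j : ℤ) * v i) (fun i => by
      have h4 := hv i
      rw [abs_mul, abs_of_nonneg (Int.natCast_nonneg j), hXK]
      push_cast
      have h5 : (j : ℤ) ≤ K := by exact_mod_cast hj.2
      calc (j : ℤ) * |v i| ≤ (K : ℤ) * (B * N) := mul_le_mul h5 h4 (abs_nonneg _) (Int.natCast_nonneg _)
        _ = B * (N * K) := by ring) (by
      rw [En_mul h v (j : ℤ) (by exact_mod_cast (by omega : j ≠ 0)), ← hl]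
      calc (En h v : ℝ) * X = ((En h v : ℝ) * N) * K := by rw [hXK]; push_cast; ring
        _ ≤ (L ^ C * (Fintype.card ι : ℝ) ^ (2 * h)) * L ^ (κ + 1) := mul_le_mul hE u7 (Nat.cast_nonneg _) (by positivity)
        _ = L ^ (C + κ + 1) * (Fintype.card ι : ℝ) ^ (2 * h) := by
            rw [show C + κ + 1 = C + (κ + 1) by ring, pow_add]
            ring
        _ ≤ l ^ (C + κ + 1) * (Fintype.card ι : ℝ) ^ (2 * h) := by
            apply mul_le_mul_of_nonneg_right (pow_le_pow_left₀ hL0.le u4 _) (by positivity))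
      (S.filter (fun i => ¬ Q X (j * v i))) (fun i hi => (mem_filter.1 hi).2)
    refine h3.trans ?_
    rw [← hl]
    exact div_le_div_of_nonneg_left hc0 (by positivity) (pow_le_pow_left₀ hL0.le u4 _)
  have hfin : (S.card : ℝ) ≤ K * (Fintype.card ι / L ^ (U + κ + 1)) := by
    calc (S.card : ℝ) ≤ (((Icc 1 K).biUnion (fun j => S.filter (fun i => ¬ Q X (j * v i)))).card : ℝ) := by
          exact_mod_cast card_le_card hsub
      _ ≤ ∑ j ∈ Icc 1 K, ((S.filter (fun i => ¬ Q X (j * v i))).card : ℝ) := by exact_mod_cast card_biUnion_le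
      _ ≤ ∑ _j ∈ Icc 1 K, ((Fintype.card ι : ℝ) / L ^ (U + κ + 1)) := sum_le_sum hj
      _ = K * (Fintype.card ι / L ^ (U + κ + 1)) := by rw [sum_const, Nat.card_Icc, nsmul_eq_mul]; simp
  refine hfin.trans ?_
  calc (K : ℝ) * (Fintype.card ι / L ^ (U + κ + 1)) ≤ L ^ (κ + 1) * (Fintype.card ι / L ^ (U + κ + 1)) :=
        mul_le_mul_of_nonneg_right u7 (by positivity)
    _ = Fintype.card ι / L ^ U := by
        rw [show U + κ + 1 = U + (κ + 1) by ring, pow_add L U (κ + 1)]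
        field_simp

/-- the pair correlations of `Λ`, for almost all members -/
theorem famO_pl (h : ℕ) (hh : 1 ≤ h) (B V : ℕ) : FamO h (fun N c => 0 < c → Even c → PL B V N c.toNat) := by
  intro B₀ C U
  obtain ⟨N₀, h0⟩ := famPair_pl B V h hh B₀ C U
  refine ⟨N₀, fun N hN ι _ v hv hE S hS => ?_⟩
  refine h0 N hN 0 (by show |(0 : ℤ)| ≤ 2 * (N : ℤ); rw [abs_zero]; positivity) ι v hv hE S (fun i hi => ?_)
  have := hS i hi
  simpa using this

end Pool.Agent.X31
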