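import Pool.Agent.X31.W7
import Pool.Agent.X31.W8
import Pool.Agent.TH935.HM3
import Pool.Agent.W93.GB1

set_option autoImplicit false

/-! # The variance of the primes in progressions: the explicit formula -/

namespace Pool.Agent.X31

open Finset Filter
open Pool.Agent.TH935.GF (En)
open Pool.Agent.H373R2.T7 (ev_log' ev_L' lam1 lamI)
open Pool.Agent.H560R3.GB (sing C₂)
open Pool.Agent.TH894.PV (G G_expand vq vq_nonneg vq_le not_cop card_pf)

open scoped ArithmeticFunction.vonMangoldt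

lemma log_sum_bd (X : ℕ) (hX : 1 ≤ X) :
    |∑ n ∈ Icc 1 X, Real.log (n : ℝ) - (X * Real.log X - X)| ≤ Real.log X + 1 := by
  have key : ∀ X : ℕ, 1 ≤ X → X * Real.log X - X + 1 ≤ ∑ n ∈ Icc 1 X, Real.log (n : ℝ) ∧
      ∑ n ∈ Icc 1 X, Real.log (n : ℝ) ≤ X * Real.log X - X + 1 + Real.log X := by
    intro X hX
    induction X, hX using Nat.le_induction with
    | base => simp
    | succ n hn ih =>
      have hn0 : (0 : ℝ) < n := by exact_mod_cast hn
      rw [sum_Icc_succ_top (by omega)]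
      have e1 : Real.log ((n + 1 : ℕ) : ℝ) ≤ Real.log n + 1 / n := by
        have h1 : Real.log ((n + 1 : ℕ) : ℝ) = Real.log n + Real.log (1 + 1 / n) := by
          rw [← Real.log_mul hn0.ne' (by positivity)]
          congr 1
          push_cast
          field_simp
        have h2 := Real.log_le_sub_one_of_pos (show (0 : ℝ) < 1 + 1 / n by positivity)
        linarith
      have e2 : Real.log n + 1 / ((n : ℝ) + 1) ≤ Real.log ((n + 1 : ℕ) : ℝ) := by
        have h1 : Real.log (n : ℝ) = Real.log ((n + 1 : ℕ) : ℝ) + Real.log (1 - 1 / ((n : ℝ) + 1)) := by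
          rw [← Real.log_mul (by positivity) (by
            have : 1 / ((n : ℝ) + 1) < 1 := by
              rw [div_lt_one (by linarith)]
              linarith
            linarith)]
          congr 1
          push_cast
          field_simp
          ring
        have h2 := Real.log_le_sub_one_of_pos (show (0 : ℝ) < 1 - 1 / ((n : ℝ) + 1) by
            have : 1 / ((n : ℝ) + 1) < 1 := by
              rw [div_lt_one (by linarith)]
              linarith
            linarith)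
        linarith
      have e3 : (n : ℝ) * Real.log ((n + 1 : ℕ) : ℝ) ≤ n * Real.log n + 1 := by
        have := mul_le_mul_of_nonneg_left e1 hn0.le
        rw [mul_add, mul_one_div, div_self hn0.ne'] at this
        exact this
      have e4 : ((n : ℝ) + 1) * Real.log n + 1 ≤ (n + 1) * Real.log ((n + 1 : ℕ) : ℝ) := by
        have := mul_le_mul_of_nonneg_left e2 (show (0 : ℝ) ≤ n + 1 by linarith)
        rw [mul_add, mul_one_div, div_self (by linarith)] at this
        exact this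
      obtain ⟨i1, i2⟩ := ih
      push_cast at e3 e4 ⊢
      constructor
      · linarith
      · linarith
  obtain ⟨h1, h2⟩ := key X hX
  have h3 : 0 ≤ Real.log (X : ℝ) := Real.log_natCast_nonneg _
  rw [abs_le]
  constructor <;> linarith

/-- from `⌊x⌋` to `x` -/
lemma floor_xlog (x : ℝ) (hx : 1 ≤ x) : |(⌊x⌋₊ * Real.log ⌊x⌋₊ - ⌊x⌋₊) - (x * Real.log x - x)| ≤ Real.log x + 2 := by
  have h1 : (⌊x⌋₊ : ℝ) ≤ x := Nat.floor_le (by linarith)
  have h2 : x < ⌊x⌋₊ + 1 := Nat.lt_floor_add_one x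
  have h3 : (1 : ℝ) ≤ ⌊x⌋₊ := by
    have : 1 ≤ ⌊x⌋₊ := by rw [Nat.le_floor_iff (by linarith)]; simpa using hx
    exact_mod_cast this
  obtain ⟨X, hX⟩ : ∃ X : ℝ, X = (⌊x⌋₊ : ℝ) := ⟨_, rfl⟩
  rw [← hX] at h1 h2 h3 ⊢
  have hX0 : 0 < X := by linarith
  have hlx : 0 ≤ Real.log x := Real.log_nonneg hx
  have hlX : 0 ≤ Real.log X := Real.log_nonneg h3
  have h4 : Real.log X ≤ Real.log x := Real.log_le_log hX0 h1
  have h5 : X * (Real.log x - Real.log X) ≤ 1 := by
    rw [← Real.log_div (by linarith) hX0.ne']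
    have h6 := Real.log_le_sub_one_of_pos (show 0 < x / X by positivity)
    calc X * Real.log (x / X) ≤ X * (x / X - 1) := mul_le_mul_of_nonneg_left h6 hX0.le
      _ = x - X := by field_simp
      _ ≤ 1 := by linarith
  have h7 : (x - X) * Real.log x ≤ Real.log x := by nlinarith
  have h8 : 0 ≤ (x - X) * Real.log x := mul_nonneg (by linarith) hlx
  have h9 : 0 ≤ X * (Real.log x - Real.log X) := mul_nonneg hX0.le (by linarith)
  have e : x * Real.log x = X * Real.log X + X * (Real.log x - Real.log X) + (x - X) * Real.log x := by ring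
  rw [abs_le]
  constructor <;> linarith

/-- the sum of the squares -/
lemma sq_vq (Q X : ℕ) (hQ : 1 ≤ Q) (hX : 1 ≤ X) :
    |∑ n ∈ Icc 1 X, vq Q n ^ 2 - ∑ n ∈ Icc 1 X, Λ n ^ 2| ≤ 2 * Real.log X * (Q.primeFactors.card * Real.log X) := by
  rw [← sum_sub_distrib]
  refine (abs_sum_le_sum_abs _ _).trans ?_
  have e1 : ∀ n ∈ Icc 1 X, |vq Q n ^ 2 - Λ n ^ 2| ≤ 2 * Real.log X * (Λ n - vq Q n) := by
    intro n hn
    have hn' := mem_Icc.1 hn
    have a1 := vq_nonneg Q n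
    have a2 := vq_le Q n
    have a3 : Λ n ≤ Real.log X := ArithmeticFunction.vonMangoldt_le_log.trans
      (Real.log_le_log (by exact_mod_cast hn'.1) (by exact_mod_cast hn'.2))
    rw [abs_sub_comm, abs_of_nonneg (by nlinarith)]
    nlinarith
  refine (sum_le_sum e1).trans ?_
  rw [← mul_sum]
  apply mul_le_mul_of_nonneg_left (not_cop Q X hQ hX)
  have := Real.log_natCast_nonneg X
  linarith

/-- the pairs -/
lemma pair_vq (Q h X : ℕ) (hQ : 1 ≤ Q) (hhX : h * Q ≤ X) (hX : 1 ≤ X) :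
    |∑ n ∈ Icc 1 (X - h * Q), vq Q n * vq Q (n + h * Q) - ∑ n ∈ Icc 1 (X - h * Q), Λ n * Λ (n + h * Q)| ≤
      Real.log X * (Q.primeFactors.card * Real.log X) := by
  have hlX : 0 ≤ Real.log (X : ℝ) := Real.log_natCast_nonneg _
  rw [← sum_sub_distrib]
  refine (abs_sum_le_sum_abs _ _).trans ?_
  have e0 : ∀ n, vq Q n * vq Q (n + h * Q) = vq Q n * Λ (n + h * Q) := by
    intro n
    unfold vq
    have : (n + h * Q).Coprime Q ↔ n.Coprime Q := by
      rw [Nat.coprime_add_mul_right_left]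
    by_cases hn : n.Coprime Q
    · rw [if_pos hn, if_pos (this.2 hn)]
    · rw [if_neg hn, zero_mul, zero_mul]
  have e1 : ∀ n ∈ Icc 1 (X - h * Q), |vq Q n * vq Q (n + h * Q) - Λ n * Λ (n + h * Q)| ≤ Real.log X * (Λ n - vq Q n) := by
    intro n hn
    have hn' := mem_Icc.1 hn
    have a2 := vq_le Q n
    have a3 : Λ (n + h * Q) ≤ Real.log X := ArithmeticFunction.vonMangoldt_le_log.trans
      (Real.log_le_log (by exact_mod_cast (by omega : 0 < n + h * Q)) (by exact_mod_cast (by omega : n + h * Q ≤ X)))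
    have a4 : 0 ≤ Λ (n + h * Q) := ArithmeticFunction.vonMangoldt_nonneg
    rw [e0, ← sub_mul, abs_mul, abs_of_nonneg a4, abs_sub_comm, abs_of_nonneg (by linarith), mul_comm]
    exact mul_le_mul_of_nonneg_right a3 (by linarith)
  refine (sum_le_sum e1).trans ?_
  rw [← mul_sum]
  apply mul_le_mul_of_nonneg_left _ hlX
  refine le_trans ?_ (not_cop Q X hQ hX)
  apply sum_le_sum_of_subset_of_nonneg
  · intro n hn
    rw [mem_Icc] at hn ⊢
    omega
  · intro n _ _
    have := vq_le Q n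
    linarith

/-- the main term of the variance -/
noncomputable def fgMain (x : ℝ) (q : ℕ) : ℝ :=
  x * Real.log x - x - x ^ 2 / (Nat.totient q : ℝ) +
    2 * ∑ h ∈ Icc 1 (⌊x⌋₊ / q), SS 0 (h * q) * (x - ((h * q : ℕ) : ℝ))

theorem fg_det (κ A : ℕ) : ∃ V N₀ : ℕ, ∀ N : ℕ, N₀ ≤ N → ∀ q : ℕ, q ≤ 2 * N → (N : ℝ) ≤ q * Real.log N ^ κ →
    (∀ j : ℕ, 1 ≤ j → (j : ℝ) ≤ Real.log N ^ κ → Even (j * q) → PL 2 V (upS κ N) (j * q)) →
    ∀ x : ℝ, (q : ℝ) ≤ x → x ≤ q * Real.log N ^ κ → |G x q - fgMain x q| ≤ x / Real.log N ^ A := by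
  classical
  obtain ⟨V, hV⟩ : ∃ V, V = A + 3 * κ + 4 := ⟨_, rfl⟩
  obtain ⟨N₁, h1⟩ := upS_facts κ
  obtain ⟨N₂, h2⟩ := psi_bd 2 V
  obtain ⟨N₃, h3⟩ := square_bd 2 V
  obtain ⟨N₄, h4⟩ := notprime_bd 2 V
  obtain ⟨N₅, h5⟩ := Pool.Agent.TH935.HM.tot_low
  obtain ⟨n6, h6⟩ := ev_L' 100
  obtain ⟨n7, h7⟩ := ev_log' (2 * κ + A + 3) 2000
  refine ⟨V, N₁ + N₂ + N₃ + N₄ + N₅ + n6 + n7 + 3, fun N hN q hqN hNq hPL x hqx hxq => ?_⟩
  obtain ⟨u1, u2, u3, u4, u5, -, -⟩ := h1 N (by omega)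
  have c6 := h6 N (by omega)
  have c7 := h7 N (by omega)
  obtain ⟨Y, hY⟩ : ∃ Y, Y = upS κ N := ⟨_, rfl⟩
  rw [← hY] at u1 u2 u3 u4 u5 hPL
  have b2 := h2 Y (by omega)
  have b3 := h3 Y (by omega)
  have b4 := h4 Y (by omega)
  have b5 := h5 (2 * Y) (by omega) q
  obtain ⟨L, hL⟩ : ∃ L, L = Real.log (N : ℝ) := ⟨_, rfl⟩
  rw [← hL] at u2 u3 u4 u5 c6 c7 hNq hxq hPL ⊢
  obtain ⟨R, hR⟩ : ∃ R, R = (Y : ℝ) / Real.log Y ^ V := ⟨_, rfl⟩
  have hR0 : 0 ≤ R := by rw [hR]; exact div_nonneg (Nat.cast_nonneg _) (pow_nonneg (Real.log_natCast_nonneg _) _)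
  have hL0 : 0 < L := by linarith
  have hL1 : 1 ≤ L := by linarith
  have hN3 : (3 : ℝ) ≤ N := by exact_mod_cast (by omega : 3 ≤ N)
  have hN0 : (0 : ℝ) < N := by linarith
  have hYN : (N : ℝ) ≤ Y := by exact_mod_cast u1
  have hY0 : (0 : ℝ) < Y := by linarith
  have hLκ : 1 ≤ L ^ κ := one_le_pow₀ hL1
  -- `q`
  have hq0 : 0 < q := by
    rcases Nat.eq_zero_or_pos q with h0 | h0
    · rw [h0] at hNq
      simp at hNq
      linarith
    · exact h0
  have hq1 : (1 : ℝ) ≤ q := by exact_mod_cast hq0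
  have hx1 : 1 ≤ x := hq1.trans hqx
  have hqNr : (q : ℝ) ≤ 2 * N := by exact_mod_cast hqN
  have hx2Y : x ≤ 2 * Y := by
    calc x ≤ q * L ^ κ := hxq
      _ ≤ 2 * N * L ^ κ := by gcongr
      _ = 2 * (N * L ^ κ) := by ring
      _ ≤ 2 * Y := by linarith
  obtain ⟨X, hX⟩ : ∃ X, X = ⌊x⌋₊ := ⟨_, rfl⟩
  have hXx : (X : ℝ) ≤ x := by rw [hX]; exact Nat.floor_le (by linarith)
  have hxX : x < X + 1 := by rw [hX]; exact Nat.lt_floor_add_one x
  have hX1 : 1 ≤ X := by rw [hX, Nat.le_floor_iff (by linarith)]; simpa using hx1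
  have hX2Y : X ≤ 2 * Y := by
    have : (X : ℝ) ≤ 2 * Y := hXx.trans hx2Y
    exact_mod_cast this
  -- logarithms
  have hl2Y : Real.log ((2 * Y : ℕ) : ℝ) ≤ 3 * L := by
    push_cast
    rw [Real.log_mul (by norm_num) hY0.ne']
    have := Real.log_two_lt_d9
    linarith
  have hl2Y1 : 1 ≤ Real.log ((2 * Y : ℕ) : ℝ) := by
    have : Real.log (Y : ℝ) ≤ Real.log ((2 * Y : ℕ) : ℝ) := Real.log_le_log hY0 (by push_cast; linarith)
    linarith
  have hlX : Real.log (X : ℝ) ≤ 3 * L := by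
    refine le_trans ?_ hl2Y
    exact Real.log_le_log (by exact_mod_cast hX1) (by exact_mod_cast hX2Y)
  have hlX0 : 0 ≤ Real.log (X : ℝ) := Real.log_natCast_nonneg _
  have hlx : Real.log x ≤ 3 * L := by
    refine le_trans ?_ hl2Y
    exact Real.log_le_log (by linarith) (by push_cast; linarith)
  have hω : (q.primeFactors.card : ℝ) ≤ 6 * L := by
    have e1 := card_pf q hq0
    have e2 : Real.log (q : ℝ) ≤ 3 * L := by
      refine le_trans ?_ hlx
      exact Real.log_le_log (by linarith) hqx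
    linarith
  have hω0 : (0 : ℝ) ≤ q.primeFactors.card := Nat.cast_nonneg _
  have hωl : (q.primeFactors.card : ℝ) * Real.log X ≤ 18 * L ^ 2 := by
    calc (q.primeFactors.card : ℝ) * Real.log X ≤ (6 * L) * (3 * L) := mul_le_mul hω hlX hlX0 (by linarith)
      _ = 18 * L ^ 2 := by ring
  -- the totient
  have hφ0 : (0 : ℝ) < (Nat.totient q : ℝ) := by exact_mod_cast Nat.totient_pos.2 hq0
  have hqφ : (q : ℝ) / (Nat.totient q : ℝ) ≤ 18 * L := by
    have e1 := b5 hq0 (by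
      have : (q : ℝ) ≤ 2 * Y := hqx.trans hx2Y
      exact_mod_cast this)
    have e2 : Real.log ((2 * Y : ℕ) : ℝ) ^ (1 / 4 : ℝ) ≤ Real.log ((2 * Y : ℕ) : ℝ) := by
      conv_rhs => rw [← Real.rpow_one (Real.log ((2 * Y : ℕ) : ℝ))]
      exact Real.rpow_le_rpow_of_exponent_le hl2Y1 (by norm_num)
    linarith
  have hxφ : x / (Nat.totient q : ℝ) ≤ 18 * L ^ (κ + 1) := by
    calc x / (Nat.totient q : ℝ) ≤ (q * L ^ κ) / (Nat.totient q : ℝ) := div_le_div_of_nonneg_right hxq hφ0.le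
      _ = (q / (Nat.totient q : ℝ)) * L ^ κ := by ring
      _ ≤ (18 * L) * L ^ κ := by gcongr
      _ = _ := by rw [pow_succ]; ring
  have hxφ0 : 0 ≤ x / (Nat.totient q : ℝ) := by positivity
  -- the first moment
  have hS1 : |∑ n ∈ Icc 1 X, vq q n - x| ≤ 18 * L ^ 2 + R + 1 := by
    have e1 := b2 X hX2Y
    rw [← hR] at e1
    have e2 : lam1 X = ∑ n ∈ Icc 1 X, Λ n := rfl
    rw [e2] at e1
    have e3 := not_cop q X hq0 hX1
    rw [sum_sub_distrib] at e3
    have e4 : ∑ n ∈ Icc 1 X, vq q n ≤ ∑ n ∈ Icc 1 X, Λ n := sum_le_sum fun n _ => vq_le q n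
    rw [abs_le] at e1 ⊢
    constructor <;> linarith [e1.1, e1.2]
  -- the squares
  have hS2 : |∑ n ∈ Icc 1 X, vq q n ^ 2 - (x * Real.log x - x)| ≤ 108 * L ^ 3 + R + 6 * L + 3 := by
    have e1 := sq_vq q X hq0 hX1
    have e2 := b3 X hX2Y
    rw [← hR, sum_sub_distrib] at e2
    have e3 := log_sum_bd X hX1
    have e4 := floor_xlog x hx1
    rw [← hX] at e4
    have e5 : 2 * Real.log X * (q.primeFactors.card * Real.log X) ≤ 108 * L ^ 3 := by
      calc 2 * Real.log X * (q.primeFactors.card * Real.log X) ≤ 2 * (3 * L) * (18 * L ^ 2) := by gcongr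
        _ = _ := by ring
    rw [abs_le] at e1 e2 e3 e4 ⊢
    constructor <;> linarith [e1.1, e1.2, e2.1, e2.2, e3.1, e3.2, e4.1, e4.2]
  -- the pairs
  have hXq : ((X / q : ℕ) : ℝ) ≤ L ^ κ := by
    have e1 : ((X / q : ℕ) : ℝ) ≤ (X : ℝ) / q := Nat.cast_div_le
    refine e1.trans ?_
    rw [div_le_iff₀ (by linarith)]
    linarith
  have hpair : ∀ h ∈ Icc 1 (X / q), |∑ n ∈ Icc 1 (X - h * q), vq q n * vq q (n + h * q) -
      SS 0 (h * q) * (x - ((h * q : ℕ) : ℝ))| ≤ 54 * L ^ 3 + 2 * R + 10 * L ^ 2 := by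
    intro h hh
    rw [mem_Icc] at hh
    have hhX : h * q ≤ X := (Nat.mul_le_mul_right q hh.2).trans (Nat.div_mul_le_self X q)
    have e1 := pair_vq q h X hq0 hhX hX1
    have e1' : Real.log X * (q.primeFactors.card * Real.log X) ≤ 54 * L ^ 3 := by
      calc Real.log X * (q.primeFactors.card * Real.log X) ≤ (3 * L) * (18 * L ^ 2) := by gcongr
        _ = _ := by ring
    have hhL : (h : ℝ) ≤ L ^ κ := by
      refine le_trans ?_ hXq
      exact_mod_cast hh.2
    have hXh : ((X - h * q : ℕ) : ℝ) = (X : ℝ) - ((h * q : ℕ) : ℝ) := by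
      rw [Nat.cast_sub hhX]
    by_cases hev : Even (h * q)
    · have hP := hPL h hh.1 hhL hev
      have e2 : SS 0 (h * q) = sing (h * q) := by
        unfold SS
        rw [zero_add, if_pos hev]
        congr 1
        omega
      have e3 := hP (X - h * q) (by omega)
      rw [← hR] at e3
      -- the size of the singular series
      have e4 : sing (h * q) ≤ 10 * L ^ 2 := by
        have e5 := hP Y (by omega)
        rw [← hR] at e5
        have e6 : ∑ n ∈ Icc 1 Y, Λ n * Λ (n + h * q) ≤ ∑ _n ∈ Icc 1 Y, (9 * L ^ 2 : ℝ) := by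
          apply sum_le_sum
          intro n hn
          rw [mem_Icc] at hn
          have f1 : Λ n ≤ 3 * L := by
            refine ArithmeticFunction.vonMangoldt_le_log.trans (le_trans ?_ hl2Y)
            exact Real.log_le_log (by exact_mod_cast hn.1) (by exact_mod_cast (by omega : n ≤ 2 * Y))
          have f2 : Λ (n + h * q) ≤ 3 * L := by
            refine ArithmeticFunction.vonMangoldt_le_log.trans ?_
            have f3 : Real.log ((n + h * q : ℕ) : ℝ) ≤ Real.log ((3 : ℝ) * Y) :=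
              Real.log_le_log (by exact_mod_cast (by omega : 0 < n + h * q))
                (by exact_mod_cast (by omega : n + h * q ≤ 3 * Y))
            rw [Real.log_mul (by norm_num) hY0.ne'] at f3
            have f4 : Real.log 3 ≤ 3 := by
              have := Real.log_le_sub_one_of_pos (show (0 : ℝ) < 3 by norm_num)
              linarith
            linarith
          calc Λ n * Λ (n + h * q) ≤ (3 * L) * (3 * L) :=
                mul_le_mul f1 f2 ArithmeticFunction.vonMangoldt_nonneg (by linarith)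
            _ = 9 * L ^ 2 := by ring
        rw [sum_const, Nat.card_Icc, Nat.add_sub_cancel, nsmul_eq_mul] at e6
        have e7 : R ≤ Y := by
          rw [hR]
          apply div_le_self hY0.le
          exact one_le_pow₀ (by linarith)
        have e8 : sing (h * q) * Y ≤ (10 * L ^ 2) * Y := by
          have := (abs_le.1 e5).1
          have f5 : (Y : ℝ) ≤ L ^ 2 * Y := le_mul_of_one_le_left hY0.le (one_le_pow₀ hL1)
          linarith
        exact le_of_mul_le_mul_right e8 hY0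
      have e9 : 0 ≤ sing (h * q) := by linarith [Pool.Agent.W93.GB.one_le_sing (h * q)]
      have e10 : |sing (h * q) * ((X - h * q : ℕ) : ℝ) - sing (h * q) * (x - ((h * q : ℕ) : ℝ))| ≤ 10 * L ^ 2 := by
        rw [hXh, ← mul_sub, abs_mul, abs_of_nonneg e9]
        have : |(X : ℝ) - ((h * q : ℕ) : ℝ) - (x - ((h * q : ℕ) : ℝ))| ≤ 1 := by
          rw [abs_le]
          constructor <;> linarith
        calc _ ≤ (10 * L ^ 2) * 1 := mul_le_mul e4 this (abs_nonneg _) (by positivity)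
          _ = _ := by ring
      rw [e2]
      rw [abs_le] at e1 e3 e10 ⊢
      constructor <;> linarith [e1.1, e1.2, e3.1, e3.2, e10.1, e10.2]
    · have e2 : SS 0 (h * q) = 0 := by
        unfold SS
        rw [zero_add, if_neg hev]
      have e3 := pair_odd 2 V Y 0 (h * q) (X - h * q) (by omega) (by omega) (by rwa [zero_add]) b4
      rw [e2, zero_mul, sub_zero, ← hR] at e3
      simp only [add_zero] at e3
      rw [e2, zero_mul, sub_zero]
      have hL2 : 0 ≤ 10 * L ^ 2 := by positivity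
      rw [abs_le] at e1 e3 ⊢
      constructor <;> linarith [e1.1, e1.2, e3.1, e3.2]
  have hS3 : |∑ h ∈ Icc 1 (X / q), ∑ n ∈ Icc 1 (X - h * q), vq q n * vq q (n + h * q) -
      ∑ h ∈ Icc 1 (X / q), SS 0 (h * q) * (x - ((h * q : ℕ) : ℝ))| ≤ L ^ κ * (54 * L ^ 3 + 2 * R + 10 * L ^ 2) := by
    rw [← sum_sub_distrib]
    refine (abs_sum_le_sum_abs _ _).trans ((sum_le_sum hpair).trans ?_)
    rw [sum_const, Nat.card_Icc, Nat.add_sub_cancel, nsmul_eq_mul]
    exact mul_le_mul_of_nonneg_right hXq (by positivity)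
  -- the identity
  have hG : G x q - fgMain x q = (∑ n ∈ Icc 1 X, vq q n ^ 2 - (x * Real.log x - x)) +
      2 * (∑ h ∈ Icc 1 (X / q), ∑ n ∈ Icc 1 (X - h * q), vq q n * vq q (n + h * q) -
        ∑ h ∈ Icc 1 (X / q), SS 0 (h * q) * (x - ((h * q : ℕ) : ℝ))) -
      2 * (x / (Nat.totient q : ℝ)) * (∑ n ∈ Icc 1 X, vq q n - x) := by
    rw [G_expand x q hq0]
    unfold fgMain
    rw [← hX]
    ring
  have hT3 : |2 * (x / (Nat.totient q : ℝ)) * (∑ n ∈ Icc 1 X, vq q n - x)| ≤ 36 * L ^ (κ + 1) * (18 * L ^ 2 + R + 1) := by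
    rw [abs_mul, abs_of_nonneg (by positivity)]
    apply mul_le_mul _ hS1 (abs_nonneg _) (by positivity)
    linarith
  have htot : |G x q - fgMain x q| ≤ 1000 * L ^ (κ + 3) + 41 * L ^ (κ + 1) * R := by
    rw [hG]
    have f1 : L ^ (κ + 3) = L ^ κ * L ^ 3 := by rw [pow_add]
    have f2 : L ^ (κ + 1) = L ^ κ * L := by rw [pow_succ]
    have g1 : (1 : ℝ) ≤ L ^ 2 := one_le_pow₀ hL1
    have g2 : L ^ 2 ≤ L ^ 3 := pow_le_pow_right₀ hL1 (by norm_num)
    have g3 : L ≤ L ^ 3 := by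
      calc L = L ^ 1 := (pow_one L).symm
        _ ≤ L ^ 3 := pow_le_pow_right₀ hL1 (by norm_num)
    have g4 : L ^ 3 ≤ L ^ κ * L ^ 3 := le_mul_of_one_le_left (by positivity) hLκ
    have g5 : R ≤ L ^ κ * L * R := by
      apply le_mul_of_one_le_left hR0
      nlinarith
    have g6 : L ^ κ * R ≤ L ^ κ * L * R := by
      apply mul_le_mul_of_nonneg_right _ hR0
      nlinarith
    have g7 : L ^ κ * L ^ 2 ≤ L ^ κ * L ^ 3 := by gcongr
    have g8 : L ^ κ * L ≤ L ^ κ * L ^ 3 := by gcongr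
    have hA := abs_le.1 hS2
    have hB := abs_le.1 hS3
    have hC := abs_le.1 hT3
    have hC' : 36 * L ^ (κ + 1) * (18 * L ^ 2 + R + 1) = 648 * (L ^ κ * L ^ 3) + 36 * (L ^ κ * L * R) + 36 * (L ^ κ * L) := by
      rw [f2]
      ring
    have hB' : L ^ κ * (54 * L ^ 3 + 2 * R + 10 * L ^ 2) = 54 * (L ^ κ * L ^ 3) + 2 * (L ^ κ * R) + 10 * (L ^ κ * L ^ 2) := by
      ring
    have hM : 1000 * L ^ (κ + 3) + 41 * L ^ (κ + 1) * R = 1000 * (L ^ κ * L ^ 3) + 41 * (L ^ κ * L * R) := by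
      rw [f1, f2]
      ring
    rw [hM]
    rw [hC'] at hC
    rw [hB'] at hB
    have g9 : (1 : ℝ) ≤ L ^ κ * L ^ 3 := by nlinarith
    rw [abs_le]
    constructor <;> linarith [hA.1, hA.2, hB.1, hB.2, hC.1, hC.2]
  refine htot.trans ?_
  -- the final comparison
  have k1 : (N : ℝ) / L ^ (A + κ) ≤ x / L ^ A := by
    rw [pow_add, div_le_div_iff₀ (by positivity) (by positivity)]
    calc (N : ℝ) * L ^ A ≤ (q * L ^ κ) * L ^ A := by gcongr
      _ ≤ (x * L ^ κ) * L ^ A := by gcongr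
      _ = x * (L ^ A * L ^ κ) := by ring
  refine le_trans ?_ k1
  have k2 : 41 * L ^ (κ + 1) * R ≤ (N / L ^ (A + κ)) / 2 := by
    have e1 : R ≤ N * L ^ (κ + 1) / L ^ V := by
      rw [hR]
      apply div_le_div₀ (by positivity) u3 (by positivity)
      exact pow_le_pow_left₀ hL0.le u4 _
    calc 41 * L ^ (κ + 1) * R ≤ 41 * L ^ (κ + 1) * (N * L ^ (κ + 1) / L ^ V) := by gcongr
      _ = (N / L ^ (A + κ)) * (41 / L ^ 2) := by
          rw [hV, show A + 3 * κ + 4 = (A + κ) + (κ + 1) + (κ + 1) + 2 by ring, pow_add L _ 2, pow_add L _ (κ + 1),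
            pow_add L (A + κ) (κ + 1)]
          field_simp
      _ ≤ (N / L ^ (A + κ)) * (1 / 2) := by
          apply mul_le_mul_of_nonneg_left _ (by positivity)
          rw [div_le_iff₀ (by positivity)]
          nlinarith
      _ = _ := by ring
  have k3 : 1000 * L ^ (κ + 3) ≤ (N / L ^ (A + κ)) / 2 := by
    rw [div_div, le_div_iff₀ (by positivity)]
    have e1 : √(N : ℝ) ≤ N := by
      rw [Real.sqrt_le_left (by linarith)]
      nlinarith
    calc 1000 * L ^ (κ + 3) * (L ^ (A + κ) * 2) = 2000 * L ^ (2 * κ + A + 3) := by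
          rw [show 2 * κ + A + 3 = (κ + 3) + (A + κ) by ring, pow_add L (κ + 3) (A + κ)]
          ring
      _ ≤ √(N : ℝ) := c7
      _ ≤ N := e1
  linarith

lemma Sch.size {ι : Type} {P : ℕ → ℕ → Finset ι → (ι → ℝ) → Prop} (HS : Sch P) (D : ℕ) :
    ∃ N₀ : ℕ, ∀ N : ℕ, N₀ ≤ N → ∀ (A : Finset ι) (φ : ι → ℝ), P D N A φ → ∀ a ∈ A, ∀ z : ℤ,
      |(z : ℝ) - φ a| ≤ Real.log N ^ D → |z| ≤ (2 : ℤ) * N := by
  classical
  obtain ⟨h₀, hh, hen⟩ := HS.en
  obtain ⟨C, N₁, hen⟩ := hen D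
  obtain ⟨n2, h2⟩ := ev_L' 1
  refine ⟨N₁ + n2, fun N hN A φ hP a ha z hz => ?_⟩
  have hlog1 := h2 N (by omega)
  have hLD : 1 ≤ Real.log N ^ D := one_le_pow₀ hlog1
  obtain ⟨v, hv⟩ : ∃ v : {a : ι // a ∈ A} → ℤ, ∀ b : {a : ι // a ∈ A},
      |(v b : ℝ) - φ b.1| ≤ Real.log N ^ D ∧ (b.1 = a → v b = z) := by
    apply Classical.axiomOfChoice (r := fun (b : {a : ι // a ∈ A}) (y : ℤ) =>
      |(y : ℝ) - φ b.1| ≤ Real.log N ^ D ∧ (b.1 = a → y = z))
    intro b
    by_cases hb : b.1 = a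
    · refine ⟨z, ?_, fun _ => rfl⟩
      rw [hb]
      exact hz
    · refine ⟨⌊φ b.1⌋, ?_, fun h => absurd h hb⟩
      rw [abs_le]
      have h1 := Int.floor_le (φ b.1)
      have h2 := Int.lt_floor_add_one (φ b.1)
      constructor <;> linarith
  obtain ⟨e1, _⟩ := hen N (by omega) A φ hP v (fun b => (hv b).1)
  have h3 := e1 ⟨a, ha⟩
  rw [(hv ⟨a, ha⟩).2 rfl] at h3
  exact h3

/-- the explicit formula for the variance, for almost all moduli -/
theorem Sch.fg {ι : Type} {P : ℕ → ℕ → Finset ι → (ι → ℝ) → Prop} (HS : Sch P) (D κ A U : ℕ) :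
    ∃ N₀ : ℕ, ∀ N : ℕ, N₀ ≤ N → ∀ (M : Finset ι) (φ : ι → ℝ), P D N M φ →
      ∃ E : Finset ι, (E.card : ℝ) ≤ M.card / Real.log N ^ U ∧ ∀ n ∈ M, n ∉ E →
        ∀ q : ℕ, |(q : ℝ) - φ n| ≤ Real.log N ^ D → (N : ℝ) ≤ q * Real.log N ^ κ →
          ∀ x : ℝ, (q : ℝ) ≤ x → x ≤ q * Real.log N ^ κ → |G x q - fgMain x q| ≤ x / Real.log N ^ A := by
  obtain ⟨V, N₁, h1⟩ := fg_det κ A
  obtain ⟨N₂, h2⟩ := HS.size D
  obtain ⟨N₃, h3⟩ := HS.single D U _ (fun h hh => famO_dil h κ (famO_pl h hh 2 V))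
  refine ⟨N₁ + N₂ + N₃ + 3, fun N hN M φ hP => ?_⟩
  obtain ⟨E, hE1, hE2⟩ := h3 N (by omega) M φ hP
  refine ⟨E, hE1, fun n hn hnE q hq hNq => ?_⟩
  have hsz := h2 N (by omega) M φ hP n hn (q : ℤ) (by exact_mod_cast hq)
  have hq2 : q ≤ 2 * N := by
    rw [abs_of_nonneg (Int.natCast_nonneg q)] at hsz
    exact_mod_cast hsz
  have hN3 : (3 : ℝ) ≤ N := by exact_mod_cast (by omega : 3 ≤ N)
  have hq0 : 0 < q := by
    rcases Nat.eq_zero_or_pos q with h0 | h0
    · rw [h0] at hNq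
      simp at hNq
      linarith
    · exact h0
  refine h1 N (by omega) q hq2 hNq (fun j hj1 hj2 hev => ?_)
  have h5 := hE2 n hn hnE (q : ℤ) (by exact_mod_cast hq) j hj1 hj2
  have e : ((j : ℤ) * (q : ℤ)) = ((j * q : ℕ) : ℤ) := by push_cast; ring
  rw [e, Int.toNat_natCast] at h5
  exact h5 (by exact_mod_cast Nat.mul_pos hj1 hq0) (by exact_mod_cast hev)

end Pool.Agent.X31
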