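import Mathlib
import Pool.Agent.H373R2.T7.BilE
import Pool.Agent.H373R2.T7.BilLam

set_option autoImplicit false

/-! # The first moment over a family of nearly minimal energy, for functions with small exponential sums and bounded
mean square (following `Pool.Agent.TH935.LF1`) -/

namespace Pool.Agent.X31.DE

open Finset Pool.Agent.H373R2.T7
open Pool.Agent.H807R2.Dav

set_option maxHeartbeats 4000000 in
/-- the first moment over a family of shifts of nearly minimal energy -/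
theorem lam_f2 (p B C U V : ℕ) :
    ∃ U' N0 : ℕ, ∀ N : ℕ, N0 ≤ N → ∀ (x : ℕ) (s : ℕ → ℤ),
    (∀ m ∈ Icc 1 x, |s m| ≤ B * N) →
    (energy p x s : ℝ) * N ≤ Real.log N ^ C * (x : ℝ) ^ (2 * p) →
    ∀ f : ℕ → ℂ,
    (∀ α : ℝ, ‖∑ n ∈ Icc 1 (2 * ((B + 1) * N)), f n * ee ((n : ℝ) * α)‖ ≤ ((2 * ((B + 1) * N) : ℕ) : ℝ) / Real.log N ^ U') →
    (∑ n ∈ Icc 1 (2 * ((B + 1) * N)), ‖f n‖ ^ 2 ≤ ((2 * ((B + 1) * N) : ℕ) : ℝ) * Real.log N ^ V) →
    ∀ A : ℕ, A ≤ B * N →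
    ∀ G : ℕ → ℂ, (∀ a, ‖G a‖ ≤ 1) →
    ∑ m ∈ Icc 1 x, ‖∑ a ∈ Icc 1 A, G a * fz f (2 * ((B + 1) * N)) (a + s m)‖ ≤
      N * x / Real.log N ^ U := by
  set K : ℕ := (4 * p + 5) * (2 * (B + 1) ^ 2) + 4 * (B + 1) with hK
  set U' : ℕ := C + 2 * p * (U + V + 1) + U + 1 with hU'
  obtain ⟨m3, h3⟩ := ev_L' (K + 1)
  refine ⟨U', max m3 3, fun N hN x s hs hE fΛ hsup0 hf0 A hA G hG => ?_⟩
  have hL := h3 N (le_trans (le_max_left _ _) hN)
  have hN3 : 3 ≤ N := le_trans (le_max_right _ _) hN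
  have hNr : (3 : ℝ) ≤ N := by exact_mod_cast hN3
  have hN0 : (0 : ℝ) < N := by linarith
  set L := Real.log N with hLd
  have hL1 : (K : ℝ) + 1 ≤ L := hL
  have hK0 : (0 : ℝ) ≤ K := Nat.cast_nonneg _
  have hLge1 : 1 ≤ L := by linarith
  have hL0 : 0 < L := by linarith
  rcases Nat.eq_zero_or_pos x with hx | hx
  · rw [hx]; simp
  have hx0 : (0 : ℝ) < x := by exact_mod_cast hx
  set B1 : ℕ := B + 1 with hB1
  have hB1pos : 1 ≤ B1 := by omega
  set H : ℕ := 2 * (B1 * N) with hH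
  set M : ℕ := (4 * p + 5) * (B1 * N) with hM
  have hBN : B * N ≤ B1 * N := Nat.mul_le_mul_right _ (by omega)
  have hB1N : 1 ≤ B1 * N := Nat.mul_pos hB1pos (by omega)
  have hHN : N ≤ H := by
    have : N ≤ B1 * N := Nat.le_mul_of_pos_left _ hB1pos
    omega
  have hH1 : 1 ≤ H := by omega
  have hM5 : 5 * (B1 * N) ≤ M := by
    rw [hM]; exact Nat.mul_le_mul_right _ (by omega)
  have hM1 : 1 ≤ M := by omega
  have hHM : H ≤ M := by omega
  have hHr : (H : ℝ) = 2 * (B1 * N) := by rw [hH]; push_cast; ring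
  have hMr : (M : ℝ) = (4 * p + 5) * (B1 * N) := by rw [hM]; push_cast; ring
  have hB1r' : (1 : ℝ) ≤ B1 := by exact_mod_cast hB1pos
  have hcond : ∀ a ∈ Icc 1 A, ∀ m ∈ Icc 1 x, ∀ n ∈ Icc 1 H, |(a : ℤ) + s m - n| < M := by
    intro a ha m hm n hn
    have h4 := abs_le.1 (hs m hm)
    rw [mem_Icc] at ha hn
    have h5 : (a : ℤ) ≤ B * N := by exact_mod_cast ha.2.trans hA
    have h6 : (n : ℤ) ≤ 2 * (B1 * N) := by exact_mod_cast hn.2
    have h7 : (5 : ℤ) * (B1 * N) ≤ M := by exact_mod_cast hM5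
    have h8 : (B : ℤ) * N ≤ B1 * N := by exact_mod_cast hBN
    have h9 : (1 : ℤ) ≤ B1 * N := by exact_mod_cast hB1N
    have h10 : (0 : ℤ) ≤ a := by positivity
    have h11 : (0 : ℤ) ≤ n := by positivity
    rw [abs_lt]
    constructor <;> linarith [h4.1, h4.2]
  have hAM : A ≤ M := hA.trans (by omega)
  have hmomE := moment_energy p x s M (B * N) hM1 (fun m hm => by
    have := hs m hm
    push_cast
    exact this) (by
    have h4 : 2 * p * (B * N) ≤ 2 * p * (B1 * N) := Nat.mul_le_mul_left _ hBN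
    have h5 : 2 * p * (B1 * N) < (4 * p + 5) * (B1 * N) := Nat.mul_lt_mul_of_pos_right (by omega) hB1N
    omega)
  set C0 : ℝ := (4 * p + 5) * B1 * L ^ C with hC0
  have hmom : ∑ t ∈ range M, (‖∑ m ∈ Icc 1 x, ee ((t : ℝ) * ((s m : ℝ) / M))‖ / x) ^ (2 * p) ≤ C0 := by
    have h2 : ∑ t ∈ range M, (‖∑ m ∈ Icc 1 x, ee ((t : ℝ) * ((s m : ℝ) / M))‖ / x) ^ (2 * p) =
        (M * energy p x s) / (x : ℝ) ^ (2 * p) := by
      rw [← hmomE, sum_div]
      exact sum_congr rfl fun t _ => div_pow _ _ _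
    rw [h2, div_le_iff₀ (by positivity), hMr]
    calc (4 * (p : ℝ) + 5) * (B1 * N) * energy p x s = (4 * p + 5) * B1 * (energy p x s * N) := by ring
      _ ≤ (4 * p + 5) * B1 * (L ^ C * (x : ℝ) ^ (2 * p)) := mul_le_mul_of_nonneg_left hE (by positivity)
      _ = _ := by rw [hC0]; ring
  -- the function
  have hsup1 : ∀ α : ℝ, ‖∑ n ∈ Icc 1 H, fΛ n * ee ((n : ℝ) * α)‖ ≤ H / L ^ U' := hsup0
  have hfs : ∑ n ∈ Icc 1 H, ‖fΛ n‖ ^ 2 ≤ H * L ^ V := hf0
  have hη : 0 < 1 / L ^ (U + V + 1) := by positivity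
  set S : ℕ → ℂ := fun m => ∑ a ∈ Icc 1 A, G a * fz fΛ H (a + s m) with hS
  set c : ℕ → ℂ := fun m => (starRingEnd ℂ) (S m) / ‖S m‖ with hc
  have hc1 : ∀ m, ‖c m‖ ≤ 1 := by
    intro m
    rw [hc]
    simp only [norm_div, RCLike.norm_conj, Complex.norm_real, norm_norm]
    exact div_self_le_one _
  have key := bil_main A H x M hM1 fΛ G c s (H / L ^ U') (1 / L ^ (U + V + 1)) p C0
    (H * L ^ V) hcond hAM hHM hx hsup1 hG hc1 hmom hfs hη
  have heq : ∑ a ∈ Icc 1 A, ∑ m ∈ Icc 1 x, G a * c m * fz fΛ H (a + s m) =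
      ((∑ m ∈ Icc 1 x, ‖S m‖ : ℝ) : ℂ) := by
    rw [sum_comm]
    push_cast
    apply sum_congr rfl
    intro m _
    have e1 : ∑ a ∈ Icc 1 A, G a * c m * fz fΛ H (a + s m) = c m * S m := by
      rw [hS, mul_sum]
      apply sum_congr rfl
      intro a _
      ring
    rw [e1, hc]
    simp only
    by_cases h0 : ‖S m‖ = 0
    · rw [norm_eq_zero.1 h0]; simp
    · have h0' : ((‖S m‖ : ℝ) : ℂ) ≠ 0 := by exact_mod_cast h0
      rw [div_mul_eq_mul_div, mul_comm, Complex.mul_conj', pow_two]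
      field_simp
  rw [heq, Complex.norm_real, Real.norm_of_nonneg (sum_nonneg fun _ _ => norm_nonneg _)] at key
  refine key.trans ?_
  have hAr : (A : ℝ) ≤ B1 * N := by exact_mod_cast hA.trans hBN
  have hB1r : (1 : ℝ) ≤ B1 := by exact_mod_cast hB1pos
  have hA0 : (0 : ℝ) ≤ A := Nat.cast_nonneg _
  have t1 : C0 / (1 / L ^ (U + V + 1)) ^ (2 * p) * (H / L ^ U') * A * x / M ≤
      ((4 * p + 5) * (2 * B1 ^ 2) / L) * (N * x / L ^ U) := by
    have h4 : C0 / (1 / L ^ (U + V + 1)) ^ (2 * p) * (H / L ^ U') = (4 * p + 5) * B1 * H / L ^ (U + 1) := by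
      rw [div_pow, one_pow, ← pow_mul, hU', hC0]
      have e : L ^ (C + 2 * p * (U + V + 1) + U + 1) = L ^ C * L ^ ((U + V + 1) * (2 * p)) * L ^ (U + 1) := by
        rw [← pow_add, ← pow_add]; congr 1; ring
      rw [e]
      field_simp
    rw [h4]
    have hAM' : (A : ℝ) ≤ M := by exact_mod_cast hAM
    have hM0 : (0 : ℝ) < M := by exact_mod_cast hM1
    have h5 : (4 * (p : ℝ) + 5) * B1 * H / L ^ (U + 1) * A * x / M ≤ (4 * p + 5) * B1 * H / L ^ (U + 1) * x := by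
      rw [div_le_iff₀ hM0]
      have h6 : 0 ≤ (4 * (p : ℝ) + 5) * B1 * H / L ^ (U + 1) * x := by positivity
      calc (4 * (p : ℝ) + 5) * B1 * H / L ^ (U + 1) * A * x = ((4 * (p : ℝ) + 5) * B1 * H / L ^ (U + 1) * x) * A := by ring
        _ ≤ _ := mul_le_mul_of_nonneg_left hAM' h6
    refine h5.trans (le_of_eq ?_)
    rw [hHr, pow_succ]
    field_simp
  have t2 : 1 / L ^ (U + V + 1) * x * Real.sqrt (H * L ^ V * A) ≤ (4 * B1 / L) * (N * x / L ^ U) := by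
    have h4 : Real.sqrt (H * L ^ V * A) ≤ 2 * (B1 * N) * L ^ V := by
      rw [Real.sqrt_le_left (by positivity), hHr]
      have h5 : 2 * ((B1 : ℝ) * N) * L ^ V * A ≤ 2 * (B1 * N) * L ^ V * (B1 * N) := mul_le_mul_of_nonneg_left hAr (by positivity)
      have h6 : 0 ≤ (B1 : ℝ) * N := by positivity
      have h8 : 1 ≤ L ^ V := one_le_pow₀ hLge1
      refine h5.trans ?_
      have h7 : 0 ≤ ((B1 : ℝ) * N) * (B1 * N) * L ^ V := by positivity
      calc 2 * ((B1 : ℝ) * N) * L ^ V * (B1 * N) = 2 * ((((B1 : ℝ) * N) * (B1 * N) * L ^ V) * 1) := by ring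
        _ ≤ 4 * ((((B1 : ℝ) * N) * (B1 * N) * L ^ V) * L ^ V) := by
            have h9 : (((B1 : ℝ) * N) * (B1 * N) * L ^ V) * 1 ≤ (((B1 : ℝ) * N) * (B1 * N) * L ^ V) * L ^ V :=
              mul_le_mul_of_nonneg_left h8 h7
            have h10 : 0 ≤ (((B1 : ℝ) * N) * (B1 * N) * L ^ V) * L ^ V := by positivity
            linarith
        _ = _ := by ring
    calc 1 / L ^ (U + V + 1) * x * Real.sqrt (H * L ^ V * A) ≤ 1 / L ^ (U + V + 1) * x * (2 * (B1 * N) * L ^ V) :=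
          mul_le_mul_of_nonneg_left h4 (by positivity)
      _ = (2 * B1 / L) * (N * x / L ^ U) := by
          rw [pow_add, pow_add, pow_one]
          field_simp
      _ ≤ (4 * B1 / L) * (N * x / L ^ U) := by
          apply mul_le_mul_of_nonneg_right _ (by positivity)
          apply div_le_div_of_nonneg_right _ hL0.le
          linarith
  have hKr : (K : ℝ) = (4 * p + 5) * (2 * B1 ^ 2) + 4 * B1 := by rw [hK, hB1]; push_cast; ring
  calc C0 / (1 / L ^ (U + V + 1)) ^ (2 * p) * (H / L ^ U') * A * x / M + 1 / L ^ (U + V + 1) * x * Real.sqrt (H * L ^ V * A) ≤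
        ((4 * p + 5) * (2 * B1 ^ 2) / L) * (N * x / L ^ U) + (4 * B1 / L) * (N * x / L ^ U) := add_le_add t1 t2
    _ = (K / L) * (N * x / L ^ U) := by rw [hKr]; ring
    _ ≤ 1 * (N * x / L ^ U) := by
        apply mul_le_mul_of_nonneg_right _ (by positivity)
        rw [div_le_one hL0]
        linarith
    _ = _ := one_mul _

end Pool.Agent.X31.DE
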