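import Pool.Agent.X31.Z1
import Pool.Agent.X25.DE.Core
import Pool.Agent.TH935.LF3

set_option autoImplicit false

/-! # The Moebius function times the sum of arbitrary divisor-bounded weights over the divisors up to `Q` -/

namespace Pool.Agent.X31.DE

open Finset Pool.Agent.H373R2.T7
open Pool.Agent.H807R2.Dav
open Pool.Agent.TH935.LD (tau_pow_div tau_pow_sum)
open Pool.Agent.X25.DE (sup_mult)

/-- the sum of the weights over the divisors up to `Q` -/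
noncomputable def WL (Q : ℕ) (l : ℕ → ℝ) (m : ℕ) : ℝ := ∑ q ∈ Icc 1 Q, if q ∣ m then l q else 0

/-- the Moebius function times a weight -/
noncomputable def fw (Q : ℕ) (l w : ℕ → ℝ) (m : ℕ) : ℝ := muR m * w m * WL Q l m

lemma WL_abs (Q : ℕ) (l : ℕ → ℝ) (k : ℕ) (hl : ∀ q, |l q| ≤ (q.divisors.card : ℝ) ^ k) (m : ℕ) (hm : 1 ≤ m) :
    ∑ q ∈ Icc 1 Q, (if q ∣ m then |l q| else 0) ≤ (m.divisors.card : ℝ) ^ (k + 1) := by
  rw [← sum_filter]
  have h1 : ∀ q ∈ (Icc 1 Q).filter (fun q => q ∣ m), |l q| ≤ (m.divisors.card : ℝ) ^ k := by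
    intro q hq
    rw [mem_filter] at hq
    refine (hl q).trans ?_
    apply pow_le_pow_left₀ (Nat.cast_nonneg _)
    exact_mod_cast card_le_card (Nat.divisors_subset_of_dvd (by omega) hq.2)
  refine (sum_le_sum h1).trans ?_
  rw [sum_const, nsmul_eq_mul, pow_succ, mul_comm]
  apply mul_le_mul_of_nonneg_left _ (by positivity)
  apply Nat.cast_le.2
  apply card_le_card
  intro q hq
  rw [mem_filter] at hq
  exact Nat.mem_divisors.2 ⟨hq.2, by omega⟩

lemma WL_le (Q : ℕ) (l : ℕ → ℝ) (k : ℕ) (hl : ∀ q, |l q| ≤ (q.divisors.card : ℝ) ^ k) (m : ℕ) (hm : 1 ≤ m) :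
    |WL Q l m| ≤ (m.divisors.card : ℝ) ^ (k + 1) := by
  refine le_trans ?_ (WL_abs Q l k hl m hm)
  unfold WL
  refine (abs_sum_le_sum_abs _ _).trans (le_of_eq ?_)
  apply sum_congr rfl
  intro q _
  split_ifs
  · rfl
  · exact abs_zero

/-- partial summation -/
lemma abelC (c : ℕ → ℂ) (w : ℕ → ℝ) (M : ℕ) :
    ∑ m ∈ Icc 1 M, c m * ((w m : ℝ) : ℂ) = ((w M : ℝ) : ℂ) * (∑ m ∈ Icc 1 M, c m) -
      ∑ j ∈ range M, ((w (j + 1) - w j : ℝ) : ℂ) * ∑ m ∈ Icc 1 j, c m := by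
  induction M with
  | zero => simp
  | succ M ih =>
    rw [sum_Icc_succ_top (by omega), sum_Icc_succ_top (by omega), sum_range_succ, ih]
    push_cast
    ring

lemma abelC_le (c : ℕ → ℂ) (w : ℕ → ℝ) (M : ℕ) (K W : ℝ) (hK : ∀ j ≤ M, ‖∑ m ∈ Icc 1 j, c m‖ ≤ K) (h0 : 0 ≤ w 0)
    (hw : Monotone w) (hW : w M ≤ W) :
    ‖∑ m ∈ Icc 1 M, c m * ((w m : ℝ) : ℂ)‖ ≤ 2 * W * K := by
  have hK0 : 0 ≤ K := (norm_nonneg _).trans (hK 0 (Nat.zero_le _))
  have hwM : 0 ≤ w M := h0.trans (hw (Nat.zero_le _))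
  rw [abelC]
  refine (norm_sub_le _ _).trans ?_
  have h1 : ‖((w M : ℝ) : ℂ) * ∑ m ∈ Icc 1 M, c m‖ ≤ W * K := by
    rw [norm_mul, Complex.norm_real, Real.norm_of_nonneg hwM]
    exact mul_le_mul hW (hK M le_rfl) (norm_nonneg _) (hwM.trans hW)
  have h2 : ‖∑ j ∈ range M, ((w (j + 1) - w j : ℝ) : ℂ) * ∑ m ∈ Icc 1 j, c m‖ ≤ W * K := by
    refine (norm_sum_le _ _).trans ?_
    calc ∑ j ∈ range M, ‖((w (j + 1) - w j : ℝ) : ℂ) * ∑ m ∈ Icc 1 j, c m‖ ≤ ∑ j ∈ range M, (w (j + 1) - w j) * K := by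
          refine sum_le_sum fun j hj => ?_
          rw [mem_range] at hj
          have h3 : 0 ≤ w (j + 1) - w j := sub_nonneg.2 (hw (Nat.le_succ j))
          rw [norm_mul, Complex.norm_real, Real.norm_of_nonneg h3]
          exact mul_le_mul_of_nonneg_left (hK j hj.le) h3
      _ = (w M - w 0) * K := by rw [← sum_mul, sum_range_sub]
      _ ≤ W * K := mul_le_mul_of_nonneg_right (by linarith) hK0
  linarith

lemma ev_LX (c : ℝ) : ∃ x0 : ℕ, ∀ x : ℕ, x0 ≤ x → c ≤ Real.log x := Pool.Agent.TH935.LD.ev_L' c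

/-- the exponential sums are small -/
theorem fw_sup (U k : ℕ) (δ : ℝ) (hδ : 0 < δ) : ∃ X0 : ℕ, ∀ X : ℕ, X0 ≤ X → ∀ Q : ℕ, (Q : ℝ) ≤ (X : ℝ) ^ (1 - δ) →
    ∀ l : ℕ → ℝ, (∀ q, |l q| ≤ (q.divisors.card : ℝ) ^ k) →
    ∀ w : ℕ → ℝ, Monotone w → 0 ≤ w 0 → w X ≤ Real.log X → ∀ α : ℝ,
    ‖∑ m ∈ Icc 1 X, ((fw Q l w m : ℝ) : ℂ) * ee ((m : ℝ) * α)‖ ≤ X / Real.log X ^ U := by
  obtain ⟨E, hE⟩ : ∃ E : ℕ, E = 2 ^ (k + 2) := ⟨_, rfl⟩
  obtain ⟨X0, h0⟩ := sup_mult (U + E + 2) δ hδ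
  obtain ⟨X1, h1⟩ := ev_LX (2 ^ (E + 1) + 1)
  refine ⟨X0 + X1 + 3, fun X hX Q hQ l hl w hw hw0 hwX α => ?_⟩
  have h0X := h0 X (by omega)
  have hLX := h1 X (by omega)
  have hX3 : 3 ≤ X := by omega
  have hXr : (3 : ℝ) ≤ X := by exact_mod_cast hX3
  have hX0 : (0 : ℝ) < X := by linarith
  obtain ⟨L, hL⟩ : ∃ L, L = Real.log (X : ℝ) := ⟨_, rfl⟩
  rw [← hL] at hLX hwX h0X ⊢
  have hp1 : (1 : ℝ) ≤ 2 ^ (E + 1) := one_le_pow₀ (by norm_num)
  have hL1 : 1 ≤ L := by linarith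
  have hL0 : 0 < L := by linarith
  have hQX : Q ≤ X := by
    have : (Q : ℝ) ≤ X := by
      refine hQ.trans ?_
      calc (X : ℝ) ^ (1 - δ) ≤ (X : ℝ) ^ (1 : ℝ) := Real.rpow_le_rpow_of_exponent_le (by linarith) (by linarith)
        _ = X := Real.rpow_one _
    exact_mod_cast this
  obtain ⟨c, hc⟩ : ∃ c : ℕ → ℂ, c = fun m => ((muR m * WL Q l m : ℝ) : ℂ) * ee ((m : ℝ) * α) := ⟨_, rfl⟩
  have e1 : ∑ m ∈ Icc 1 X, ((fw Q l w m : ℝ) : ℂ) * ee ((m : ℝ) * α) = ∑ m ∈ Icc 1 X, c m * ((w m : ℝ) : ℂ) := by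
    apply sum_congr rfl
    intro m _
    rw [hc]
    unfold fw
    push_cast
    ring
  rw [e1]
  have hB : ∀ j ≤ X, ‖∑ m ∈ Icc 1 j, c m‖ ≤ X * (1 + L) ^ E / L ^ (U + E + 2) := by
    intro j hj
    have e2 : ∑ m ∈ Icc 1 j, c m = ∑ q ∈ Icc 1 Q, ((l q : ℝ) : ℂ) *
        ∑ m ∈ Icc 1 X, (((if m ≤ j ∧ q ∣ m then muR m else 0) : ℝ) : ℂ) * ee ((m : ℝ) * α) := by
      have e3 : ∑ m ∈ Icc 1 j, c m = ∑ m ∈ Icc 1 X, (if m ≤ j then c m else 0) := by
        rw [← sum_filter]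
        congr 1
        ext m
        simp only [mem_Icc, mem_filter]
        omega
      rw [e3]
      simp only [mul_sum]
      rw [sum_comm]
      apply sum_congr rfl
      intro m _
      rw [hc]
      simp only
      unfold WL
      by_cases hm : m ≤ j
      · rw [if_pos hm]
        have hq' : ∀ q, muR m * (if q ∣ m then l q else 0) = l q * (if m ≤ j ∧ q ∣ m then muR m else 0) := by
          intro q
          by_cases hq : q ∣ m
          · rw [if_pos hq, if_pos ⟨hm, hq⟩]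
            ring
          · rw [if_neg hq, if_neg (fun h => hq h.2)]
            ring
        have hq'' : muR m * ∑ q ∈ Icc 1 Q, (if q ∣ m then l q else 0) =
            ∑ q ∈ Icc 1 Q, l q * (if m ≤ j ∧ q ∣ m then muR m else 0) := by
          rw [mul_sum]
          exact sum_congr rfl fun q _ => hq' q
        rw [hq'', Complex.ofReal_sum, sum_mul]
        apply sum_congr rfl
        intro q _
        rw [Complex.ofReal_mul, mul_assoc]
      · rw [if_neg hm]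
        symm
        apply sum_eq_zero
        intro q _
        rw [if_neg (fun h => hm h.1), Complex.ofReal_zero, zero_mul, mul_zero]
    rw [e2]
    refine (norm_sum_le _ _).trans ?_
    have e4 : ∀ q ∈ Icc 1 Q, ‖((l q : ℝ) : ℂ) *
        ∑ m ∈ Icc 1 X, (((if m ≤ j ∧ q ∣ m then muR m else 0) : ℝ) : ℂ) * ee ((m : ℝ) * α)‖ ≤
        (X / L ^ (U + E + 2)) * ((q.divisors.card : ℝ) ^ (k + 2) / q) := by
      intro q hq
      rw [mem_Icc] at hq
      have hq0 : (0 : ℝ) < q := by exact_mod_cast hq.1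
      have hqX : (q : ℝ) ≤ (X : ℝ) ^ (1 - δ) := le_trans (by exact_mod_cast hq.2) hQ
      rw [norm_mul, Complex.norm_real, Real.norm_eq_abs]
      calc |l q| * _ ≤ (q.divisors.card : ℝ) ^ k * ((X : ℝ) / q * (q.divisors.card : ℝ) ^ 2 / L ^ (U + E + 2)) :=
            mul_le_mul (hl q) (h0X q hq.1 hqX j α) (norm_nonneg _) (by positivity)
        _ = _ := by
            rw [pow_add (q.divisors.card : ℝ)]
            field_simp
    refine (sum_le_sum e4).trans ?_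
    rw [← mul_sum]
    have e5 : ∑ q ∈ Icc 1 Q, (q.divisors.card : ℝ) ^ (k + 2) / q ≤ (1 + L) ^ E := by
      rw [hE, hL]
      refine le_trans ?_ (tau_pow_div (k + 2) X)
      apply sum_le_sum_of_subset_of_nonneg (Icc_subset_Icc_right hQX)
      intro _ _ _
      positivity
    calc X / L ^ (U + E + 2) * ∑ q ∈ Icc 1 Q, (q.divisors.card : ℝ) ^ (k + 2) / q ≤
          X / L ^ (U + E + 2) * (1 + L) ^ E := mul_le_mul_of_nonneg_left e5 (by positivity)
      _ = _ := by ring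
  have key := abelC_le c w X _ L hB hw0 hw hwX
  refine key.trans ?_
  have e6 : (1 + L) ^ E ≤ 2 ^ E * L ^ E := by
    rw [← mul_pow]
    apply pow_le_pow_left₀ (by linarith)
    linarith
  calc 2 * L * (X * (1 + L) ^ E / L ^ (U + E + 2)) ≤ 2 * L * (X * (2 ^ E * L ^ E) / L ^ (U + E + 2)) := by
        apply mul_le_mul_of_nonneg_left _ (by positivity)
        apply div_le_div_of_nonneg_right _ (by positivity)
        exact mul_le_mul_of_nonneg_left e6 hX0.le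
    _ = (2 ^ (E + 1) / L) * (X / L ^ U) := by
        rw [pow_add, pow_add, pow_succ (2 : ℝ) E]
        field_simp
    _ ≤ 1 * (X / L ^ U) := by
        apply mul_le_mul_of_nonneg_right _ (by positivity)
        rw [div_le_one hL0]
        linarith
    _ = _ := one_mul _

/-- the mean square -/
lemma fw_sq (k X Q : ℕ) (hX : 1 ≤ X) (l : ℕ → ℝ) (hl : ∀ q, |l q| ≤ (q.divisors.card : ℝ) ^ k)
    (w : ℕ → ℝ) (hw : Monotone w) (hw0 : 0 ≤ w 0) (hwX : w X ≤ 1 + Real.log X) :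
    ∑ m ∈ Icc 1 X, ‖((fw Q l w m : ℝ) : ℂ)‖ ^ 2 ≤ X * (1 + Real.log X) ^ (2 ^ (2 * k + 2) + 2) := by
  have hlog : 0 ≤ Real.log (X : ℝ) := Real.log_natCast_nonneg _
  have h1 : ∀ m ∈ Icc 1 X, ‖((fw Q l w m : ℝ) : ℂ)‖ ^ 2 ≤ (1 + Real.log X) ^ 2 * (m.divisors.card : ℝ) ^ (2 * k + 2) := by
    intro m hm
    rw [mem_Icc] at hm
    have g1 : |muR m| ≤ 1 := muR_abs m
    have g2 : 0 ≤ w m := hw0.trans (hw (Nat.zero_le _))
    have g3 : w m ≤ 1 + Real.log X := (hw hm.2).trans hwX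
    have g4 := WL_le Q l k hl m hm.1
    rw [Complex.norm_real, Real.norm_eq_abs]
    unfold fw
    rw [abs_mul, abs_mul, abs_of_nonneg g2]
    have g5 : |muR m| * w m * |WL Q l m| ≤ 1 * (1 + Real.log X) * (m.divisors.card : ℝ) ^ (k + 1) := by
      apply mul_le_mul _ g4 (abs_nonneg _) (by positivity)
      exact mul_le_mul g1 g3 g2 (by norm_num)
    calc (|muR m| * w m * |WL Q l m|) ^ 2 ≤ (1 * (1 + Real.log X) * (m.divisors.card : ℝ) ^ (k + 1)) ^ 2 :=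
          pow_le_pow_left₀ (by positivity) g5 2
      _ = _ := by
          rw [one_mul, mul_pow, ← pow_mul]
          congr 2
          ring
  refine (sum_le_sum h1).trans ?_
  rw [← mul_sum, pow_add]
  have h2 := tau_pow_sum (2 * k + 2) X
  calc (1 + Real.log X) ^ 2 * ∑ m ∈ Icc 1 X, (m.divisors.card : ℝ) ^ (2 * k + 2) ≤
        (1 + Real.log X) ^ 2 * (X * (1 + Real.log X) ^ (2 ^ (2 * k + 2))) :=
      mul_le_mul_of_nonneg_left h2 (by positivity)
    _ = _ := by ring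

end Pool.Agent.X31.DE
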