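import Pool.Agent.X31.Z2
import Pool.Agent.X31.S1
import Pool.Agent.Helper112.Arith

set_option autoImplicit false

/-! # The diagonal sums with weights, for families of nearly minimal energy -/

namespace Pool.Agent.X31.DE

open Finset Pool.Agent.H373R2.T7
open Pool.Agent.H807R2.Dav
open Pool.Agent.TH935.LD (tau_pow_div tau_pow_sum)
open scoped ArithmeticFunction.vonMangoldt

/-- the convolution of the von Mangoldt function and the weighted Moebius function -/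
noncomputable def CV (Q : ℕ) (l w : ℕ → ℝ) (s : ℕ) : ℝ := ∑ n ∈ Ico 1 s, Λ n * fw Q l w (s - n)

set_option maxHeartbeats 4000000 in
theorem fam_CV (p C k U : ℕ) (δ : ℝ) (hδ : 0 < δ) : ∃ N0 : ℕ, ∀ N : ℕ, N0 ≤ N → ∀ (x : ℕ) (s : ℕ → ℤ),
    (∀ m ∈ Icc 1 x, |s m| ≤ (2 : ℤ) * N) →
    (energy p x s : ℝ) * N ≤ Real.log N ^ C * (x : ℝ) ^ (2 * p) →
    ∀ Q : ℕ, (Q : ℝ) ≤ (N : ℝ) ^ (1 - δ) →
    ∀ l : ℕ → ℝ, (∀ q, |l q| ≤ (q.divisors.card : ℝ) ^ k) →
    ∀ w : ℕ → ℝ, Monotone w → 0 ≤ w 0 → (∀ X : ℕ, N ≤ X → w X ≤ Real.log X) →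
    ∀ S : Finset ℕ, S ⊆ Icc 1 x → (∀ m ∈ S, 0 < s m ∧ s m ≤ N ∧
      N / Real.log N ^ U < |CV Q l w (s m).toNat|) →
    (S.card : ℝ) ≤ x / Real.log N ^ U := by
  obtain ⟨V0, hV0⟩ : ∃ V0 : ℕ, V0 = 2 ^ (2 * k + 2) + 2 := ⟨_, rfl⟩
  obtain ⟨U', n1, h1⟩ := lam_f2 p 4 C (2 * U + 1) (2 * V0)
  obtain ⟨X0, h2⟩ := fw_sup U' k (min δ 1) (by positivity)
  obtain ⟨n3, h3⟩ := ev_LX 12
  refine ⟨n1 + X0 + n3 + 3, fun N hN x s hs hE Q hQ l hl w hw hw0 hwX S hSx hS => ?_⟩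
  have hN3 : 3 ≤ N := by omega
  have hNr : (3 : ℝ) ≤ N := by exact_mod_cast hN3
  have hN0 : (0 : ℝ) < N := by linarith
  have a3 := h3 N (by omega)
  obtain ⟨L, hL⟩ : ∃ L, L = Real.log (N : ℝ) := ⟨_, rfl⟩
  obtain ⟨H, hH⟩ : ∃ H, H = 2 * ((4 + 1) * N) := ⟨_, rfl⟩
  have hHN : N ≤ H := by omega
  have hHr : (N : ℝ) ≤ H := by exact_mod_cast hHN
  have hH0 : (0 : ℝ) < H := by linarith
  have hLH : L ≤ Real.log (H : ℝ) := by rw [hL]; exact Real.log_le_log hN0 hHr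
  have hlogH : 1 + Real.log (H : ℝ) ≤ L ^ 2 := by
    have e : (H : ℝ) = 10 * N := by rw [hH]; push_cast; ring
    rw [e, Real.log_mul (by norm_num) hN0.ne', ← hL]
    have h10 : Real.log 10 ≤ 9 := by
      have := Real.log_le_sub_one_of_pos (show (0 : ℝ) < 10 by norm_num)
      linarith
    have hL12 : 12 ≤ L := by rw [hL]; exact a3
    nlinarith
  have hL12 : 12 ≤ L := by rw [hL]; exact a3
  have hL1 : 1 ≤ L := by linarith
  have hL0 : 0 < L := by linarith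
  -- the shifts
  obtain ⟨s', hs'⟩ : ∃ s' : ℕ → ℤ, s' = fun m => s m - ((N : ℤ) + 1) := ⟨_, rfl⟩
  have hE' : (energy p x s' : ℝ) * N ≤ Real.log N ^ C * (x : ℝ) ^ (2 * p) := by
    rw [hs', Pool.Agent.TH935.LF.energy_shift]
    exact hE
  have hb' : ∀ m ∈ Icc 1 x, |s' m| ≤ ((4 : ℕ) : ℤ) * N := by
    intro m hm
    have h5 := abs_le.1 (hs m hm)
    rw [hs']
    simp only
    push_cast
    rw [abs_le]
    constructor <;> omega
  obtain ⟨f, hf⟩ : ∃ f : ℕ → ℂ, f = fun m => ((fw Q l w m : ℝ) : ℂ) := ⟨_, rfl⟩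
  have hQH : (Q : ℝ) ≤ (H : ℝ) ^ (1 - min δ 1) := by
    calc (Q : ℝ) ≤ (N : ℝ) ^ (1 - δ) := hQ
      _ ≤ (N : ℝ) ^ (1 - min δ 1) := Real.rpow_le_rpow_of_exponent_le (by linarith) (by
          have := min_le_left δ 1
          linarith)
      _ ≤ _ := Real.rpow_le_rpow hN0.le hHr (by
          have := min_le_right δ 1
          linarith)
  have hwH := hwX H hHN
  have hsup : ∀ α : ℝ, ‖∑ n ∈ Icc 1 (2 * ((4 + 1) * N)), f n * ee ((n : ℝ) * α)‖ ≤
      ((2 * ((4 + 1) * N) : ℕ) : ℝ) / Real.log N ^ U' := by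
    intro α
    rw [← hH, ← hL]
    have h6 := h2 H (by omega) Q hQH l hl w hw hw0 hwH α
    rw [hf]
    refine h6.trans ?_
    apply div_le_div_of_nonneg_left hH0.le (by positivity)
    exact pow_le_pow_left₀ hL0.le hLH _
  have hsq : ∑ n ∈ Icc 1 (2 * ((4 + 1) * N)), ‖f n‖ ^ 2 ≤ ((2 * ((4 + 1) * N) : ℕ) : ℝ) * Real.log N ^ (2 * V0) := by
    rw [← hH, ← hL, hf]
    refine (fw_sq k H Q (by omega) l hl w hw hw0 (by linarith)).trans ?_
    apply mul_le_mul_of_nonneg_left _ hH0.le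
    rw [← hV0, pow_mul]
    exact pow_le_pow_left₀ (by have := Real.log_natCast_nonneg H; linarith) hlogH _
  obtain ⟨G, hG⟩ : ∃ G : ℕ → ℂ, G = fun a => if a ∈ Icc 1 N then ((Λ (N + 1 - a) / L : ℝ) : ℂ) else 0 := ⟨_, rfl⟩
  have hG1 : ∀ a, ‖G a‖ ≤ 1 := by
    intro a
    rw [hG]
    simp only
    split_ifs with ha
    · rw [mem_Icc] at ha
      rw [Complex.norm_real, Real.norm_of_nonneg (div_nonneg ArithmeticFunction.vonMangoldt_nonneg hL0.le), div_le_one hL0]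
      refine ArithmeticFunction.vonMangoldt_le_log.trans ?_
      rw [hL]
      apply Real.log_le_log
      · exact_mod_cast (by omega : 0 < N + 1 - a)
      · exact_mod_cast (by omega : N + 1 - a ≤ N)
    · simp
  have mom := h1 N (by omega) x s' hb' hE' f hsup hsq N (by omega) G hG1
  have hval : ∀ m ∈ S, ‖∑ a ∈ Icc 1 N, G a * fz f (2 * ((4 + 1) * N)) (a + s' m)‖ = |CV Q l w (s m).toNat| / L := by
    intro m hm
    obtain ⟨g1, g2, _⟩ := hS m hm
    obtain ⟨t, ht⟩ : ∃ t : ℕ, t = (s m).toNat := ⟨_, rfl⟩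
    have hst : s m = t := by rw [ht, Int.toNat_of_nonneg g1.le]
    rw [← ht]
    have htN : t ≤ N := by omega
    have e1 : ∑ a ∈ Icc 1 N, G a * fz f (2 * ((4 + 1) * N)) (a + s' m) =
        ((∑ n ∈ Icc 1 N, (if n < t then Λ n * fw Q l w (t - n) else 0) / L : ℝ) : ℂ) := by
      push_cast
      refine sum_nbij' (fun a => N + 1 - a) (fun n => N + 1 - n) ?_ ?_ ?_ ?_ ?_
      · intro a ha
        rw [mem_Icc] at ha ⊢
        omega
      · intro a ha
        rw [mem_Icc] at ha ⊢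
        omega
      · intro a ha
        rw [mem_Icc] at ha
        omega
      · intro a ha
        rw [mem_Icc] at ha
        omega
      · intro a ha
        rw [hG]
        simp only
        rw [if_pos ha]
        rw [mem_Icc] at ha
        rw [hs']
        simp only
        rw [hst]
        unfold fz
        by_cases hlt : N + 1 - a < t
        · rw [if_pos hlt, if_pos (by push_cast; omega), hf]
          have e2 : ((a : ℤ) + ((t : ℤ) - ((N : ℤ) + 1))).toNat = t - (N + 1 - a) := by omega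
          simp only
          rw [e2]
          push_cast
          ring
        · rw [if_neg hlt, if_neg (by push_cast; omega)]
          simp
    rw [e1, Complex.norm_real, Real.norm_eq_abs, ← sum_div, abs_div, abs_of_pos hL0]
    congr 2
    unfold CV
    rw [← sum_filter]
    apply sum_congr
    · ext n
      simp only [mem_filter, mem_Icc, mem_Ico]
      omega
    · intro _ _
      rfl
  have m3 : (S.card : ℝ) * (N / L ^ (U + 1)) ≤ N * x / L ^ (2 * U + 1) := by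
    rw [← hL] at mom
    refine le_trans ?_ mom
    calc (S.card : ℝ) * (N / L ^ (U + 1)) = ∑ m ∈ S, (N / L ^ (U + 1) : ℝ) := by rw [sum_const, nsmul_eq_mul]
      _ ≤ ∑ m ∈ S, ‖∑ a ∈ Icc 1 N, G a * fz f (2 * ((4 + 1) * N)) (a + s' m)‖ := by
          apply sum_le_sum
          intro m hm
          rw [hval m hm, pow_succ, ← div_div]
          apply div_le_div_of_nonneg_right _ hL0.le
          have := (hS m hm).2.2
          rw [hL]
          exact this.le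
      _ ≤ _ := sum_le_sum_of_subset_of_nonneg hSx fun _ _ _ => norm_nonneg _
  have hNU : 0 < (N : ℝ) / L ^ (U + 1) := by positivity
  rw [← le_div_iff₀ hNU] at m3
  rw [← hL]
  refine m3.trans (le_of_eq ?_)
  have hp : L ^ (2 * U + 1) = L ^ U * L ^ (U + 1) := by
    rw [← pow_add]
    congr 1
    ring
  rw [hp]
  field_simp

/-- the members of a scheme with a large diagonal sum are few -/
theorem _root_.Pool.Agent.X31.Sch.convBad {ι : Type} {P : ℕ → ℕ → Finset ι → (ι → ℝ) → Prop}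
    (HS : Pool.Agent.X31.Sch P) (k D U : ℕ) (δ : ℝ) (hδ : 0 < δ) :
    ∃ N₀ : ℕ, ∀ N : ℕ, N₀ ≤ N → ∀ (M : Finset ι) (φ : ι → ℝ), P D N M φ →
    ∀ Q : ℕ, (Q : ℝ) ≤ (N : ℝ) ^ (1 - δ) →
    ∀ l : ℕ → ℝ, (∀ q, |l q| ≤ (q.divisors.card : ℝ) ^ k) →
    ∀ w : ℕ → ℝ, Monotone w → 0 ≤ w 0 → (∀ X : ℕ, N ≤ X → w X ≤ Real.log X) →
    ∀ E : Finset ι, E ⊆ M → (∀ n ∈ E, ∃ s : ℕ, 1 ≤ s ∧ s ≤ N ∧ |(s : ℝ) - φ n| ≤ Real.log N ^ D ∧
      N / Real.log N ^ U < |CV Q l w s|) →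
    (E.card : ℝ) ≤ M.card / Real.log N ^ U := by
  classical
  obtain ⟨h', hh, h1⟩ := HS.enum
  obtain ⟨C, N₁, h1⟩ := h1 h' le_rfl D
  obtain ⟨N₂, h2⟩ := fam_CV h' C k U δ hδ
  refine ⟨N₁ + N₂, fun N hN M φ hfam Q hQ l hl w hw hw0 hwX E hEM hch => ?_⟩
  obtain ⟨r, hr⟩ : ∃ r : ι → ℕ, ∀ n ∈ E, 1 ≤ r n ∧ r n ≤ N ∧ |(r n : ℝ) - φ n| ≤ Real.log N ^ D ∧
      N / Real.log N ^ U < |CV Q l w (r n)| := by
    refine ⟨fun n => if h : n ∈ E then (hch n h).choose else 0, fun n hn => ?_⟩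
    simp only [dif_pos hn]
    exact (hch n hn).choose_spec
  obtain ⟨s, ψ, g1, g2, g3, g4, g5⟩ := h1 N (by omega) M φ hfam E
    (fun n => (r n : ℤ)) hEM (by
      intro n hn
      have := (hr n hn).2.2.1
      push_cast
      exact this)
  have key := h2 N (by omega) M.card s g4 g5 Q hQ l hl w hw hw0 hwX (E.image ψ) (by
      intro j hj
      obtain ⟨n, hn, rfl⟩ := mem_image.1 hj
      exact g2 n hn) (by
      intro j hj
      obtain ⟨n, hn, rfl⟩ := mem_image.1 hj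
      obtain ⟨k1, k2, k3, k4⟩ := hr n hn
      refine ⟨?_, ?_, ?_⟩
      · rw [g3 n hn]
        exact_mod_cast k1
      · rw [g3 n hn]
        exact_mod_cast k2
      · rw [g3 n hn, Int.toNat_natCast]
        exact k4)
  refine le_trans ?_ key
  apply Nat.cast_le.2
  rw [card_image_of_injOn g1]

end Pool.Agent.X31.DE
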