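import Pool.Agent.X31.Z3

set_option autoImplicit false

/-! # The diagonal Moebius-twisted Elliott-Halberstam sums with arbitrary fixed weights -/

namespace Pool.Agent.X31.DE

open Finset Pool.Agent.H373R2.T7
open Pool.Agent.TH935.LD (tau_pow_div tau_pow_sum)
open scoped ArithmeticFunction.vonMangoldt

/-- the diagonal sum with weights -/
noncomputable def DS (g l : ℕ → ℝ) (Q s : ℕ) : ℝ :=
  ∑ q ∈ (Icc 1 Q).filter (fun q => q.Coprime s), l q *
    (∑ n ∈ (Ico 1 s).filter (fun n => n ≡ s [MOD q]), Λ n * g (s - n) -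
      1 / (Nat.totient q : ℝ) * ∑ n ∈ Ico 1 s, Λ n * g (s - n))

lemma le_totient (q : ℕ) (hq : 1 ≤ q) : (q : ℝ) ≤ Nat.totient q * q.divisors.card := by
  have h1 := Nat.sum_totient q
  have h2 : ∑ d ∈ q.divisors, Nat.totient d ≤ ∑ _d ∈ q.divisors, Nat.totient q := by
    apply sum_le_sum
    intro d hd
    exact Nat.le_of_dvd (Nat.totient_pos.2 hq) (Nat.totient_dvd_of_dvd (Nat.dvd_of_mem_divisors hd))
  rw [h1, sum_const, smul_eq_mul, mul_comm] at h2
  exact_mod_cast h2

lemma wphi (Q N k : ℕ) (hQN : Q ≤ N) (l : ℕ → ℝ) (hl : ∀ q, |l q| ≤ (q.divisors.card : ℝ) ^ k) :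
    ∑ q ∈ Icc 1 Q, |l q| / (Nat.totient q : ℝ) ≤ (1 + Real.log N) ^ (2 ^ (k + 1)) := by
  refine le_trans ?_ (tau_pow_div (k + 1) N)
  refine le_trans ?_ (sum_le_sum_of_subset_of_nonneg (Icc_subset_Icc_right hQN) (fun _ _ _ => by positivity))
  apply sum_le_sum
  intro q hq
  rw [mem_Icc] at hq
  have hq0 : (0 : ℝ) < q := by exact_mod_cast hq.1
  have hφ : (0 : ℝ) < Nat.totient q := by exact_mod_cast Nat.totient_pos.2 hq.1
  have h1 := le_totient q hq.1
  rw [div_le_div_iff₀ hφ hq0, pow_succ]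
  calc |l q| * q ≤ (q.divisors.card : ℝ) ^ k * (Nat.totient q * q.divisors.card) :=
        mul_le_mul (hl q) h1 hq0.le (by positivity)
    _ = _ := by ring

lemma log2_le (N : ℕ) (hN : 1 ≤ N) : (Nat.log 2 N : ℝ) ≤ 2 * Real.log N := by
  have h1 : 2 ^ Nat.log 2 N ≤ N := Nat.pow_log_le_self 2 (by omega)
  have h2 : (Nat.log 2 N : ℝ) * Real.log 2 ≤ Real.log N := by
    rw [← Real.log_pow]
    apply Real.log_le_log (by positivity)
    exact_mod_cast h1
  have h3 := Real.log_two_gt_d9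
  have h4 : (0 : ℝ) ≤ Nat.log 2 N := Nat.cast_nonneg _
  nlinarith

lemma cop_count (s N : ℕ) (hs : 1 ≤ s) (hsN : s ≤ N) :
    ((Ico 1 s).filter (fun n => ¬ n.Coprime s ∧ Λ n ≠ 0)).card ≤ s.divisors.card * Nat.log 2 N := by
  classical
  have h1 : (Ico 1 s).filter (fun n => ¬ n.Coprime s ∧ Λ n ≠ 0) ⊆
      (s.divisors ×ˢ Icc 1 (Nat.log 2 N)).image (fun x : ℕ × ℕ => x.1 ^ x.2) := by
    intro n hn
    rw [mem_filter, mem_Ico] at hn
    obtain ⟨hn1, hn2, hn3⟩ := hn
    rw [ArithmeticFunction.vonMangoldt_ne_zero_iff, isPrimePow_nat_iff] at hn3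
    obtain ⟨p, j, hp, hj, rfl⟩ := hn3
    rw [mem_image]
    refine ⟨(p, j), ?_, rfl⟩
    rw [mem_product, Nat.mem_divisors, mem_Icc]
    refine ⟨⟨?_, by omega⟩, hj, ?_⟩
    · by_contra hcon
      exact hn2 (Nat.Coprime.pow_left j ((Nat.Prime.coprime_iff_not_dvd hp).2 hcon))
    · apply Nat.le_log_of_pow_le (by norm_num)
      calc 2 ^ j ≤ p ^ j := Nat.pow_le_pow_left hp.two_le j
        _ ≤ N := by omega
  refine (card_le_card h1).trans (card_image_le.trans ?_)
  rw [card_product, Nat.card_Icc, Nat.add_sub_cancel]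

lemma DS_le (N Q s k : ℕ) (hs : 1 ≤ s) (hsN : s ≤ N) (hQN : Q ≤ N) (l w : ℕ → ℝ)
    (hl : ∀ q, |l q| ≤ (q.divisors.card : ℝ) ^ k) (hw : Monotone w) (hw0 : 0 ≤ w 0) (W T0 : ℝ) (hW : w N ≤ W)
    (hT0 : 0 ≤ T0) (hT : ∀ m : ℕ, 1 ≤ m → m ≤ N → (m.divisors.card : ℝ) ≤ T0) :
    |DS (fun m => muR m * w m) l Q s| ≤ |CV Q l w s| +
      W * T0 ^ (k + 1) * (Real.log N * (T0 * (2 * Real.log N))) +
      (1 + Real.log N) ^ (2 ^ (k + 1)) * |CV 1 (fun q => if q = 1 then 1 else 0) w s| := by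
  classical
  have hN1 : 1 ≤ N := by omega
  have hlogN : 0 ≤ Real.log (N : ℝ) := Real.log_natCast_nonneg _
  have hw' : ∀ m ≤ N, 0 ≤ w m ∧ w m ≤ W := fun m hm => ⟨hw0.trans (hw (Nat.zero_le _)), (hw hm).trans hW⟩
  have hW0 : 0 ≤ W := (hw' N le_rfl).1.trans hW
  obtain ⟨T, hTd⟩ : ∃ T : ℕ → ℝ, T = fun q => ∑ n ∈ (Ico 1 s).filter (fun n => n ≡ s [MOD q]), Λ n * (muR (s - n) * w (s - n)) :=
    ⟨_, rfl⟩
  obtain ⟨S0, hS0⟩ : ∃ S0 : ℝ, S0 = ∑ n ∈ Ico 1 s, Λ n * (muR (s - n) * w (s - n)) := ⟨_, rfl⟩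
  have e0 : CV 1 (fun q => if q = 1 then 1 else 0) w s = S0 := by
    rw [hS0]
    unfold CV
    apply sum_congr rfl
    intro n _
    congr 1
    unfold fw WL
    simp
  -- the whole sum
  have e1 : CV Q l w s = ∑ q ∈ Icc 1 Q, l q * T q := by
    rw [hTd]
    unfold CV
    simp only [sum_filter, mul_sum]
    rw [sum_comm]
    apply sum_congr rfl
    intro n hn
    rw [mem_Ico] at hn
    unfold fw WL
    rw [mul_sum, mul_sum]
    apply sum_congr rfl
    intro q _
    have hiff : n ≡ s [MOD q] ↔ q ∣ s - n := Nat.modEq_iff_dvd' hn.2.le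
    by_cases hq : q ∣ s - n
    · rw [if_pos hq, if_pos (hiff.2 hq)]
      ring
    · rw [if_neg hq, if_neg (fun h => hq (hiff.1 h))]
      ring
  have e2 : DS (fun m => muR m * w m) l Q s = ∑ q ∈ (Icc 1 Q).filter (fun q => q.Coprime s), l q * T q -
      (∑ q ∈ (Icc 1 Q).filter (fun q => q.Coprime s), l q / (Nat.totient q : ℝ)) * S0 := by
    unfold DS
    rw [sum_mul, ← sum_sub_distrib]
    apply sum_congr rfl
    intro q _
    rw [hTd, hS0]
    ring
  have e3 : ∑ q ∈ (Icc 1 Q).filter (fun q => q.Coprime s), l q * T q =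
      CV Q l w s - ∑ q ∈ (Icc 1 Q).filter (fun q => ¬ q.Coprime s), l q * T q := by
    rw [e1, ← sum_filter_add_sum_filter_not (Icc 1 Q) (fun q => q.Coprime s)]
    ring
  have hcorr : |∑ q ∈ (Icc 1 Q).filter (fun q => ¬ q.Coprime s), l q * T q| ≤
      W * T0 ^ (k + 1) * (Real.log N * (T0 * (2 * Real.log N))) := by
    have f1 : |∑ q ∈ (Icc 1 Q).filter (fun q => ¬ q.Coprime s), l q * T q| ≤
        ∑ n ∈ Ico 1 s, Λ n * W * ∑ q ∈ (Icc 1 Q).filter (fun q => ¬ q.Coprime s), (if q ∣ s - n then |l q| else 0) := by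
      refine (abs_sum_le_sum_abs _ _).trans ?_
      have f2 : ∀ q ∈ (Icc 1 Q).filter (fun q => ¬ q.Coprime s), |l q * T q| ≤
          ∑ n ∈ Ico 1 s, Λ n * W * (if q ∣ s - n then |l q| else 0) := by
        intro q _
        rw [hTd]
        beta_reduce
        rw [sum_filter, mul_sum]
        refine (abs_sum_le_sum_abs _ _).trans ?_
        apply sum_le_sum
        intro n hn
        rw [mem_Ico] at hn
        have hiff : n ≡ s [MOD q] ↔ q ∣ s - n := Nat.modEq_iff_dvd' hn.2.le
        by_cases hq : q ∣ s - n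
        · rw [if_pos hq, if_pos (hiff.2 hq), abs_mul, abs_mul, abs_mul,
            abs_of_nonneg (ArithmeticFunction.vonMangoldt_nonneg), abs_of_nonneg (hw' (s - n) (by omega)).1]
          have g1 := muR_abs (s - n)
          have g2 := (hw' (s - n) (by omega)).2
          have g3 := (hw' (s - n) (by omega)).1
          calc |l q| * (Λ n * (|muR (s - n)| * w (s - n))) ≤ |l q| * (Λ n * (1 * W)) := by
                apply mul_le_mul_of_nonneg_left _ (abs_nonneg _)
                apply mul_le_mul_of_nonneg_left _ ArithmeticFunction.vonMangoldt_nonneg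
                exact mul_le_mul g1 g2 g3 (by norm_num)
            _ = _ := by ring
        · rw [if_neg hq, if_neg (fun h => hq (hiff.1 h))]
          simp
      refine (sum_le_sum f2).trans (le_of_eq ?_)
      rw [sum_comm]
      apply sum_congr rfl
      intro n _
      rw [mul_sum]
    refine f1.trans ?_
    have f3 : ∀ n ∈ Ico 1 s, Λ n * W * ∑ q ∈ (Icc 1 Q).filter (fun q => ¬ q.Coprime s), (if q ∣ s - n then |l q| else 0) ≤
        if ¬ n.Coprime s ∧ Λ n ≠ 0 then Real.log N * W * T0 ^ (k + 1) else 0 := by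
      intro n hn
      rw [mem_Ico] at hn
      by_cases hc : n.Coprime s
      · rw [if_neg (fun h => h.1 hc)]
        apply le_of_eq
        rw [mul_eq_zero]
        right
        apply sum_eq_zero
        intro q hq
        rw [mem_filter] at hq
        rw [if_neg]
        intro hqd
        apply hq.2
        rw [Nat.coprime_iff_gcd_eq_one]
        by_contra hne
        obtain ⟨p, hp, hpd⟩ := Nat.exists_prime_and_dvd hne
        have hpq := hpd.trans (Nat.gcd_dvd_left _ _)
        have hps := hpd.trans (Nat.gcd_dvd_right _ _)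
        have hpn : p ∣ n := by
          have h5 : p ∣ s - n := hpq.trans hqd
          have h6 : n = s - (s - n) := by omega
          rw [h6]
          exact Nat.dvd_sub hps h5
        have h7 := Nat.dvd_gcd hpn hps
        rw [Nat.coprime_iff_gcd_eq_one.1 hc] at h7
        exact hp.one_lt.ne' (Nat.dvd_one.1 h7)
      · by_cases hΛ : Λ n = 0
        · rw [hΛ, if_neg (fun h => h.2 rfl)]
          simp
        · rw [if_pos ⟨hc, hΛ⟩]
          have h5 : Λ n ≤ Real.log N := by
            refine ArithmeticFunction.vonMangoldt_le_log.trans ?_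
            exact Real.log_le_log (by exact_mod_cast hn.1) (by exact_mod_cast (by omega : n ≤ N))
          have h6 : ∑ q ∈ (Icc 1 Q).filter (fun q => ¬ q.Coprime s), (if q ∣ s - n then |l q| else 0) ≤ T0 ^ (k + 1) := by
            refine (sum_le_sum_of_subset_of_nonneg (filter_subset _ _) (fun q _ _ => by
              split_ifs
              · exact abs_nonneg _
              · exact le_rfl)).trans ?_
            refine (WL_abs Q l k hl (s - n) (by omega)).trans ?_
            exact pow_le_pow_left₀ (Nat.cast_nonneg _) (hT (s - n) (by omega) (by omega)) _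
          apply mul_le_mul _ h6 (sum_nonneg fun q _ => by
              split_ifs
              · exact abs_nonneg _
              · exact le_rfl) (by positivity)
          exact mul_le_mul_of_nonneg_right h5 hW0
    refine (sum_le_sum f3).trans ?_
    rw [← sum_filter, sum_const, nsmul_eq_mul]
    have f4 : (((Ico 1 s).filter (fun n => ¬ n.Coprime s ∧ Λ n ≠ 0)).card : ℝ) ≤ T0 * (2 * Real.log N) := by
      have h5 : (((Ico 1 s).filter (fun n => ¬ n.Coprime s ∧ Λ n ≠ 0)).card : ℝ) ≤ s.divisors.card * Nat.log 2 N := by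
        exact_mod_cast cop_count s N hs hsN
      refine h5.trans ?_
      exact mul_le_mul (hT s hs hsN) (log2_le N hN1) (Nat.cast_nonneg _) hT0
    calc _ ≤ (T0 * (2 * Real.log N)) * (Real.log N * W * T0 ^ (k + 1)) :=
          mul_le_mul_of_nonneg_right f4 (by positivity)
      _ = _ := by ring
  have hB : |(∑ q ∈ (Icc 1 Q).filter (fun q => q.Coprime s), l q / (Nat.totient q : ℝ)) * S0| ≤
      (1 + Real.log N) ^ (2 ^ (k + 1)) * |S0| := by
    rw [abs_mul]
    apply mul_le_mul_of_nonneg_right _ (abs_nonneg _)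
    refine le_trans ?_ (wphi Q N k hQN l hl)
    refine (abs_sum_le_sum_abs _ _).trans ?_
    refine (sum_le_sum_of_subset_of_nonneg (filter_subset _ _) (fun q _ _ => abs_nonneg _)).trans ?_
    apply sum_le_sum
    intro q _
    rw [abs_div, Nat.abs_cast]
  rw [e0, e2, e3]
  have h8 := abs_add_le (CV Q l w s - ∑ q ∈ (Icc 1 Q).filter (fun q => ¬ q.Coprime s), l q * T q)
    (-((∑ q ∈ (Icc 1 Q).filter (fun q => q.Coprime s), l q / (Nat.totient q : ℝ)) * S0))
  rw [← sub_eq_add_neg, abs_neg] at h8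
  have h9 := abs_add_le (CV Q l w s) (-(∑ q ∈ (Icc 1 Q).filter (fun q => ¬ q.Coprime s), l q * T q))
  rw [← sub_eq_add_neg, abs_neg] at h9
  linarith

end Pool.Agent.X31.DE
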