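import Pool.Agent.X31.Z4

set_option autoImplicit false

/-! # The diagonal sums with weights for the schemes -/

namespace Pool.Agent.X31.DE

open Finset Pool.Agent.H373R2.T7
open Pool.Agent.X25.DE (ev_nat ev_pow_le)
open scoped ArithmeticFunction.vonMangoldt

lemma log_mono_nat : Monotone (fun m : ℕ => Real.log (m : ℝ)) := by
  intro a b hab
  rcases Nat.eq_zero_or_pos a with ha | ha
  · simp only [ha, Nat.cast_zero, Real.log_zero]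
    exact Real.log_natCast_nonneg b
  · exact Real.log_le_log (by exact_mod_cast ha) (by exact_mod_cast hab)

/-- the bound for one number -/
lemma DS_bd (θ : ℝ) (hθ0 : 0 < θ) (hθ1 : θ < 1) (k A : ℕ) : ∃ N₀ : ℕ, ∀ N : ℕ, N₀ ≤ N →
    ∀ l : ℕ → ℝ, (∀ q, |l q| ≤ (q.divisors.card : ℝ) ^ k) → ∀ w : ℕ → ℝ, Monotone w → 0 ≤ w 0 → w N ≤ Real.log N →
    ∀ s : ℕ, 1 ≤ s → s ≤ N → |CV ⌊(N : ℝ) ^ θ⌋₊ l w s| ≤ N / Real.log N ^ (A + 2 ^ (k + 2) + 1) →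
      |CV 1 (fun q => if q = 1 then 1 else 0) w s| ≤ N / Real.log N ^ (A + 2 ^ (k + 2) + 1) →
      |DS (fun m => muR m * w m) l ⌊(N : ℝ) ^ θ⌋₊ s| ≤ N / Real.log N ^ A := by
  have hk2 : (0 : ℝ) < k + 2 := by positivity
  obtain ⟨κ, hκ⟩ : ∃ κ : ℝ, κ = 1 / (4 * (k + 2)) := ⟨_, rfl⟩
  have hκ0 : 0 < κ := by rw [hκ]; positivity
  obtain ⟨Cτ, hCτ, hτ⟩ := Pool.Agent.Helper112.divisor_bound κ hκ0
  obtain ⟨m1, e1⟩ := ev_nat (ev_pow_le (A + 4) (1 / 2) (by norm_num) (2 * Cτ ^ (k + 2)))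
  obtain ⟨n2, e2⟩ := ev_LX 12
  refine ⟨m1 + n2 + 3, fun N hN l hl w hw hw0 hwN s hs hsN h1 h2 => ?_⟩
  have b1 := e1 N (by exact_mod_cast (by omega : m1 ≤ N))
  have b2 := e2 N (by omega)
  have hNr : (3 : ℝ) ≤ N := by exact_mod_cast (by omega : 3 ≤ N)
  have hN0 : (0 : ℝ) < N := by linarith
  obtain ⟨L, hL⟩ : ∃ L, L = Real.log (N : ℝ) := ⟨_, rfl⟩
  have hL12 : 12 ≤ L := by rw [hL]; exact b2
  have hL0 : 0 < L := by linarith
  have hL1 : 1 ≤ L := by linarith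
  have hQN : ⌊(N : ℝ) ^ θ⌋₊ ≤ N := by
    have : (⌊(N : ℝ) ^ θ⌋₊ : ℝ) ≤ N := by
      refine (Nat.floor_le (by positivity)).trans ?_
      calc (N : ℝ) ^ θ ≤ (N : ℝ) ^ (1 : ℝ) := Real.rpow_le_rpow_of_exponent_le (by linarith) hθ1.le
        _ = N := Real.rpow_one _
    exact_mod_cast this
  have key := DS_le N ⌊(N : ℝ) ^ θ⌋₊ s k hs hsN hQN l w hl hw hw0 (Real.log N) (Cτ * (N : ℝ) ^ κ) hwN (by positivity)
    (fun m hm1 hm2 => (hτ m hm1).trans (by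
      apply mul_le_mul_of_nonneg_left _ hCτ.le
      exact Real.rpow_le_rpow (Nat.cast_nonneg _) (by exact_mod_cast hm2) hκ0.le))
  rw [← hL] at key h1 h2 b1 ⊢
  have t2 : L * (Cτ * (N : ℝ) ^ κ) ^ (k + 1) * (L * (Cτ * (N : ℝ) ^ κ * (2 * L))) ≤ N / L ^ (A + 1) := by
    have f1 : L * (Cτ * (N : ℝ) ^ κ) ^ (k + 1) * (L * (Cτ * (N : ℝ) ^ κ * (2 * L))) =
        2 * L ^ 3 * (Cτ ^ (k + 2) * ((N : ℝ) ^ κ) ^ (k + 2)) := by
      rw [← mul_pow, show k + 2 = (k + 1) + 1 by ring, pow_succ (Cτ * (N : ℝ) ^ κ) (k + 1)]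
      ring
    have f2 : ((N : ℝ) ^ κ) ^ (k + 2) = (N : ℝ) ^ (1 / 4 : ℝ) := by
      rw [← Real.rpow_natCast, ← Real.rpow_mul hN0.le]
      congr 1
      rw [hκ]
      push_cast
      field_simp
    rw [f1, f2, le_div_iff₀ (by positivity)]
    calc 2 * L ^ 3 * (Cτ ^ (k + 2) * (N : ℝ) ^ (1 / 4 : ℝ)) * L ^ (A + 1) =
          (2 * Cτ ^ (k + 2) * L ^ (A + 4)) * (N : ℝ) ^ (1 / 4 : ℝ) := by
            rw [show A + 4 = 3 + (A + 1) by ring, pow_add L 3]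
            ring
      _ ≤ (N : ℝ) ^ (1 / 2 : ℝ) * (N : ℝ) ^ (1 / 4 : ℝ) := mul_le_mul_of_nonneg_right b1 (by positivity)
      _ = (N : ℝ) ^ (3 / 4 : ℝ) := by rw [← Real.rpow_add hN0]; norm_num
      _ ≤ (N : ℝ) ^ (1 : ℝ) := Real.rpow_le_rpow_of_exponent_le (by linarith) (by norm_num)
      _ = N := Real.rpow_one _
  have t1 : N / L ^ (A + 2 ^ (k + 2) + 1) ≤ N / L ^ (A + 1) := by
    apply div_le_div_of_nonneg_left hN0.le (by positivity)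
    exact pow_le_pow_right₀ hL1 (by linarith [Nat.zero_le (2 ^ (k + 2))])
  have t3 : (1 + L) ^ (2 ^ (k + 1)) * |CV 1 (fun q => if q = 1 then 1 else 0) w s| ≤ N / L ^ (A + 1) := by
    have f1 : (1 + L) ^ (2 ^ (k + 1)) ≤ L ^ (2 ^ (k + 2)) := by
      calc (1 + L) ^ (2 ^ (k + 1)) ≤ (L ^ 2) ^ (2 ^ (k + 1)) := by
            apply pow_le_pow_left₀ (by linarith)
            nlinarith
        _ = L ^ (2 ^ (k + 2)) := by
            rw [← pow_mul]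
            congr 1
            rw [pow_succ 2 (k + 1)]
            ring
    calc _ ≤ L ^ (2 ^ (k + 2)) * (N / L ^ (A + 2 ^ (k + 2) + 1)) :=
          mul_le_mul f1 h2 (abs_nonneg _) (by positivity)
      _ = N / L ^ (A + 1) := by
          rw [show A + 2 ^ (k + 2) + 1 = 2 ^ (k + 2) + (A + 1) by ring, pow_add L (2 ^ (k + 2))]
          field_simp
  have t4 : 3 * (N / L ^ (A + 1)) ≤ N / L ^ A := by
    have : (N : ℝ) / L ^ A = L * (N / L ^ (A + 1)) := by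
      rw [pow_succ]
      field_simp
    rw [this]
    apply mul_le_mul_of_nonneg_right _ (by positivity)
    linarith
  linarith

/-- the theorem for schemes -/
theorem _root_.Pool.Agent.X31.Sch.dEH {ι : Type} {P : ℕ → ℕ → Finset ι → (ι → ℝ) → Prop}
    (HS : Pool.Agent.X31.Sch P) (k D U A : ℕ) (θ : ℝ) (hθ0 : 0 < θ) (hθ1 : θ < 1) :
    ∃ N₀ : ℕ, ∀ N : ℕ, N₀ ≤ N → ∀ (M : Finset ι) (φ : ι → ℝ), P D N M φ →
    ∀ l : ℕ → ℝ, (∀ q, 1 ≤ q → |l q| ≤ (q.divisors.card : ℝ) ^ k) →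
    ∃ E : Finset ι, (E.card : ℝ) ≤ M.card / Real.log N ^ U ∧ ∀ n ∈ M, n ∉ E →
      ∀ s : ℕ, 1 ≤ s → s ≤ N → |(s : ℝ) - φ n| ≤ Real.log N ^ D →
        |DS (fun m => muR m) l ⌊(N : ℝ) ^ θ⌋₊ s| ≤ N / Real.log N ^ A ∧
        |DS (fun m => muR m * Real.log m) l ⌊(N : ℝ) ^ θ⌋₊ s| ≤ N / Real.log N ^ A := by
  classical
  obtain ⟨N₁, h1⟩ := DS_bd θ hθ0 hθ1 k A
  obtain ⟨N₂, h2⟩ := HS.convBad k D (A + 2 ^ (k + 2) + 1 + (U + 1)) (1 - θ) (by linarith)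
  obtain ⟨N₃, h3⟩ := ev_LX 12
  refine ⟨N₁ + N₂ + N₃ + 3, fun N hN M φ hfam l hl => ?_⟩
  have b3 := h3 N (by omega)
  have hNr : (3 : ℝ) ≤ N := by exact_mod_cast (by omega : 3 ≤ N)
  have hN0 : (0 : ℝ) < N := by linarith
  have hL1 : 1 ≤ Real.log N := by linarith
  have hL0 : 0 < Real.log N := by linarith
  obtain ⟨l', hl'⟩ : ∃ l' : ℕ → ℝ, l' = fun q => if q = 0 then 0 else l q := ⟨_, rfl⟩
  have hl1 : ∀ q, |l' q| ≤ (q.divisors.card : ℝ) ^ k := by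
    intro q
    rw [hl']
    simp only
    split_ifs with hq
    · rw [abs_zero]
      positivity
    · exact hl q (by omega)
  have hDS : ∀ (g : ℕ → ℝ) (Q s : ℕ), DS g l Q s = DS g l' Q s := by
    intro g Q s
    unfold DS
    apply sum_congr rfl
    intro q hq
    rw [mem_filter, mem_Icc] at hq
    rw [hl']
    simp only
    rw [if_neg (by omega)]
  have hd1 : ∀ q : ℕ, |(if q = 1 then (1 : ℝ) else 0)| ≤ (q.divisors.card : ℝ) ^ k := by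
    intro q
    split_ifs with hq
    · rw [hq]
      simp
    · rw [abs_zero]
      positivity
  obtain ⟨B, hB⟩ : ∃ B : ℕ, B = A + 2 ^ (k + 2) + 1 + (U + 1) := ⟨_, rfl⟩
  rw [← hB] at h2
  obtain ⟨Ex, hEx⟩ : ∃ Ex : ℕ → (ℕ → ℝ) → (ℕ → ℝ) → Finset ι, Ex = fun Q l w => M.filter (fun n : ι =>
    ∃ s : ℕ, 1 ≤ s ∧ s ≤ N ∧ |(s : ℝ) - φ n| ≤ Real.log N ^ D ∧ N / Real.log N ^ B < |CV Q l w s|) := ⟨_, rfl⟩
  have hExc : ∀ (Q : ℕ) (l w : ℕ → ℝ), (Q : ℝ) ≤ (N : ℝ) ^ θ → (∀ q, |l q| ≤ (q.divisors.card : ℝ) ^ k) →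
      Monotone w → 0 ≤ w 0 → (∀ X : ℕ, N ≤ X → w X ≤ Real.log X) →
      ((Ex Q l w).card : ℝ) ≤ M.card / Real.log N ^ B := by
    intro Q l w q1 q2 q3 q4 q5
    refine h2 N (by omega) M φ hfam Q (by rw [sub_sub_cancel]; exact q1) l q2 w q3 q4 q5 (Ex Q l w)
      (by rw [hEx]; exact filter_subset _ _) ?_
    intro n hn
    rw [hEx] at hn
    exact (mem_filter.1 hn).2
  obtain ⟨Q, hQ⟩ : ∃ Q : ℕ, Q = ⌊(N : ℝ) ^ θ⌋₊ := ⟨_, rfl⟩
  have hQθ : (Q : ℝ) ≤ (N : ℝ) ^ θ := by rw [hQ]; exact Nat.floor_le (by positivity)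
  have h1θ : ((1 : ℕ) : ℝ) ≤ (N : ℝ) ^ θ := by
    rw [Nat.cast_one]
    exact Real.one_le_rpow (by linarith) hθ0.le
  obtain ⟨w1, hw1⟩ : ∃ w1 : ℕ → ℝ, w1 = fun _ => 1 := ⟨_, rfl⟩
  obtain ⟨w2, hw2⟩ : ∃ w2 : ℕ → ℝ, w2 = fun m : ℕ => Real.log (m : ℝ) := ⟨_, rfl⟩
  have m1 : Monotone w1 := by rw [hw1]; exact monotone_const
  have m2 : Monotone w2 := by rw [hw2]; exact log_mono_nat
  have z1 : 0 ≤ w1 0 := by rw [hw1]; norm_num
  have z2 : 0 ≤ w2 0 := by rw [hw2]; simp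
  have u1 : ∀ X : ℕ, N ≤ X → w1 X ≤ Real.log X := by
    intro X hX
    rw [hw1]
    exact hL1.trans (log_mono_nat hX)
  have u2 : ∀ X : ℕ, N ≤ X → w2 X ≤ Real.log X := by
    intro X _
    rw [hw2]
  have c1 := hExc Q l' w1 hQθ hl1 m1 z1 u1
  have c2 := hExc Q l' w2 hQθ hl1 m2 z2 u2
  have c3 := hExc 1 (fun q => if q = 1 then 1 else 0) w1 h1θ hd1 m1 z1 u1
  have c4 := hExc 1 (fun q => if q = 1 then 1 else 0) w2 h1θ hd1 m2 z2 u2
  refine ⟨(Ex Q l' w1 ∪ Ex Q l' w2) ∪ (Ex 1 (fun q => if q = 1 then 1 else 0) w1 ∪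
    Ex 1 (fun q => if q = 1 then 1 else 0) w2), ?_, ?_⟩
  · have g1 := card_union_le (Ex Q l' w1 ∪ Ex Q l' w2) (Ex 1 (fun q => if q = 1 then 1 else 0) w1 ∪
      Ex 1 (fun q => if q = 1 then 1 else 0) w2)
    have g2 := card_union_le (Ex Q l' w1) (Ex Q l' w2)
    have g3 := card_union_le (Ex 1 (fun q => if q = 1 then 1 else 0) w1) (Ex 1 (fun q => if q = 1 then 1 else 0) w2)
    have g4 : (((Ex Q l' w1 ∪ Ex Q l' w2) ∪ (Ex 1 (fun q => if q = 1 then 1 else 0) w1 ∪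
      Ex 1 (fun q => if q = 1 then 1 else 0) w2)).card : ℝ) ≤ (Ex Q l' w1).card + (Ex Q l' w2).card +
      ((Ex 1 (fun q => if q = 1 then 1 else 0) w1).card + (Ex 1 (fun q => if q = 1 then 1 else 0) w2).card) := by
      exact_mod_cast g1.trans (add_le_add g2 g3)
    refine g4.trans ?_
    have g5 : 4 * ((M.card : ℝ) / Real.log N ^ B) ≤ M.card / Real.log N ^ U := by
      have g6 : (M.card : ℝ) / Real.log N ^ B ≤ M.card / Real.log N ^ (U + 1) := by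
        apply div_le_div_of_nonneg_left (Nat.cast_nonneg _) (by positivity)
        exact pow_le_pow_right₀ hL1 (by rw [hB]; linarith [Nat.zero_le (2 ^ (k + 2)), Nat.zero_le A])
      have g7 : (M.card : ℝ) / Real.log N ^ U = Real.log N * (M.card / Real.log N ^ (U + 1)) := by
        rw [pow_succ]
        field_simp
      rw [g7]
      have g8 : 4 * ((M.card : ℝ) / Real.log N ^ (U + 1)) ≤ Real.log N * (M.card / Real.log N ^ (U + 1)) :=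
        mul_le_mul_of_nonneg_right (by linarith) (by positivity)
      linarith
    linarith
  · intro n hn hnE s hs1 hs2 hs3
    simp only [mem_union, not_or] at hnE
    obtain ⟨⟨x1, x2⟩, x3, x4⟩ := hnE
    have hbd : ∀ (Q : ℕ) (l w : ℕ → ℝ), n ∉ Ex Q l w → |CV Q l w s| ≤ N / Real.log N ^ (A + 2 ^ (k + 2) + 1) := by
      intro Q l w hx
      by_contra hcon
      rw [not_le] at hcon
      apply hx
      rw [hEx]
      refine mem_filter.2 ⟨hn, s, hs1, hs2, hs3, lt_of_le_of_lt ?_ hcon⟩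
      apply div_le_div_of_nonneg_left hN0.le (by positivity)
      exact pow_le_pow_right₀ hL1 (by rw [hB]; linarith [Nat.zero_le U])
    have y1 := h1 N (by omega) l' hl1 w1 m1 z1 (u1 N le_rfl) s hs1 hs2 (by rw [← hQ]; exact hbd _ _ _ x1) (hbd _ _ _ x3)
    have y2 := h1 N (by omega) l' hl1 w2 m2 z2 (u2 N le_rfl) s hs1 hs2 (by rw [← hQ]; exact hbd _ _ _ x2) (hbd _ _ _ x4)
    rw [hDS, hDS]
    rw [hw1] at y1
    rw [hw2] at y2
    simp only [mul_one] at y1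
    exact ⟨y1, y2⟩

end Pool.Agent.X31.DE
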